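import Mathlib

/-! Averages over finite types and resampling (Theorem LD, MP_85b516_nt). -/

open Finset

namespace Pool.Agent.P.MP_85b516_nt.LD

noncomputable section

/-- The average of `f` over a finite type. -/
def av {α : Type} [Finite α] (f : α → ℝ) : ℝ :=
  (∑ a ∈ @Finset.univ α (Fintype.ofFinite α), f a) / Nat.card α

open scoped Classical in
/-- The proportion of points with property `p`. -/
def pr {α : Type} [Finite α] (p : α → Prop) : ℝ := av fun a => if p a then 1 else 0

section av
variable {α β : Type} [Finite α] [Finite β]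

lemma av_eq [h : Fintype α] (f : α → ℝ) : av f = (∑ a, f a) / Fintype.card α := by
  rw [av, Nat.card_eq_fintype_card, Subsingleton.elim (Fintype.ofFinite α) h]

lemma av_mono {f g : α → ℝ} (h : ∀ a, f a ≤ g a) : av f ≤ av g :=
  div_le_div_of_nonneg_right (sum_le_sum fun a _ => h a) (Nat.cast_nonneg _)

lemma av_congr {f g : α → ℝ} (h : ∀ a, f a = g a) : av f = av g := by rw [funext h]

lemma av_nonneg {f : α → ℝ} (h : ∀ a, 0 ≤ f a) : 0 ≤ av f :=
  div_nonneg (sum_nonneg fun a _ => h a) (Nat.cast_nonneg _)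

lemma av_add (f g : α → ℝ) : av (fun a => f a + g a) = av f + av g := by
  simp only [av, sum_add_distrib, add_div]

lemma av_sub (f g : α → ℝ) : av (fun a => f a - g a) = av f - av g := by
  simp only [av, sum_sub_distrib, sub_div]

lemma av_mul (c : ℝ) (f : α → ℝ) : av (fun a => c * f a) = c * av f := by
  simp only [av, ← mul_sum, mul_div_assoc]

lemma av_const [Nonempty α] (c : ℝ) : av (fun _ : α => c) = c := by
  have := Fintype.ofFinite α
  have h : (Fintype.card α : ℝ) ≠ 0 := by exact_mod_cast Fintype.card_ne_zero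
  rw [av_eq, sum_const, card_univ, nsmul_eq_mul]
  field_simp

lemma av_sum {ι : Type*} (s : Finset ι) (f : ι → α → ℝ) :
    av (fun a => ∑ i ∈ s, f i a) = ∑ i ∈ s, av (f i) := by
  simp only [av, ← sum_div]
  rw [sum_comm]

lemma av_bij {g : α → β} (hg : Function.Bijective g) (f : β → ℝ) :
    av (fun a => f (g a)) = av f := by
  have := Fintype.ofFinite α
  have := Fintype.ofFinite β
  rw [av_eq, av_eq, Fintype.card_of_bijective hg, hg.sum_comp]

lemma av_comm (f : α → β → ℝ) :
    av (fun a => av fun b => f a b) = av fun b => av fun a => f a b := by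
  simp only [av, ← sum_div]
  rw [sum_comm, div_div, div_div, mul_comm]

lemma av_prod (f : α × β → ℝ) : av f = av fun a => av fun b => f (a, b) := by
  have := Fintype.ofFinite α
  have := Fintype.ofFinite β
  simp only [av_eq, ← sum_div]
  rw [Fintype.sum_prod_type, Fintype.card_prod, div_div, Nat.cast_mul, mul_comm]

lemma exists_le_av [Nonempty α] (f : α → ℝ) : ∃ a, f a ≤ av f := by
  by_contra h
  push Not at h
  have := Fintype.ofFinite α
  have hc : (0 : ℝ) < Fintype.card α := by exact_mod_cast Fintype.card_pos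
  have h1 : ∑ _a : α, av f < ∑ a, f a := sum_lt_sum_of_nonempty univ_nonempty fun a _ => h a
  rw [sum_const, card_univ, nsmul_eq_mul, av_eq, mul_div_cancel₀ _ hc.ne'] at h1
  exact lt_irrefl _ h1

lemma pr_nonneg (p : α → Prop) : 0 ≤ pr p := av_nonneg fun a => by split_ifs <;> norm_num

lemma pr_mono {p q : α → Prop} (h : ∀ a, p a → q a) : pr p ≤ pr q :=
  av_mono fun a => by
    by_cases hp : p a
    · simp [hp, h a hp]
    · simp only [hp, if_false]
      split_ifs <;> norm_num

lemma pr_congr {p q : α → Prop} (h : ∀ a, p a ↔ q a) : pr p = pr q :=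
  le_antisymm (pr_mono fun a => (h a).1) (pr_mono fun a => (h a).2)

lemma pr_true [Nonempty α] : pr (fun _ : α => True) = 1 := by simp [pr, av_const]

lemma pr_false : pr (fun _ : α => False) = 0 := by simp [pr, av]

lemma pr_le_one [Nonempty α] (p : α → Prop) : pr p ≤ 1 :=
  (pr_mono fun _ _ => trivial).trans pr_true.le

lemma pr_not [Nonempty α] (p : α → Prop) : pr (fun a => ¬ p a) = 1 - pr p := by
  rw [eq_sub_iff_add_eq, pr, pr, ← av_add]
  refine Eq.trans (av_congr fun a => ?_) (av_const (α := α) 1)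
  by_cases h : p a <;> simp [h]

lemma pr_or (p q : α → Prop) : pr (fun a => p a ∨ q a) ≤ pr p + pr q := by
  rw [pr, pr, pr, ← av_add]
  exact av_mono fun a => by by_cases h : p a <;> by_cases h' : q a <;> simp [h, h']

lemma pr_exists {ι : Type*} (s : Finset ι) (p : ι → α → Prop) :
    pr (fun a => ∃ i ∈ s, p i a) ≤ ∑ i ∈ s, pr (p i) := by
  classical
  induction s using Finset.induction_on with
  | empty => simp [pr_false]
  | insert i s hi ih =>
    rw [sum_insert hi]
    refine le_trans (pr_mono fun a => ?_) ((pr_or _ _).trans (add_le_add le_rfl ih))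
    simp

/-- Markov. -/
lemma pr_le_av {p : α → Prop} {f : α → ℝ} (h0 : ∀ a, 0 ≤ f a) (h : ∀ a, p a → 1 ≤ f a) :
    pr p ≤ av f :=
  av_mono fun a => by
    split_ifs with hp
    · exact h a hp
    · exact h0 a

lemma exists_of_pr_lt_one [Nonempty α] {p : α → Prop} (h : pr p < 1) : ∃ a, ¬ p a := by
  by_contra hn
  push Not at hn
  exact absurd (pr_true.symm.le.trans (pr_mono fun a _ => hn a)) (not_le.2 h)

lemma exists_of_pr_lt {p q : α → Prop} (h : pr p < pr q) : ∃ a, q a ∧ ¬ p a := by
  by_contra hn
  push Not at hn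
  exact absurd (pr_mono hn) (not_le.2 h)

lemma pr_bij {g : α → β} (hg : Function.Bijective g) (p : β → Prop) :
    pr (fun a => p (g a)) = pr p := by
  classical
  exact av_bij hg fun b => if p b then 1 else 0

lemma pr_single (a0 : α) : pr (fun a => a = a0) = 1 / Nat.card α := by
  classical
  have := Fintype.ofFinite α
  rw [pr, av_eq, Nat.card_eq_fintype_card]
  congr 1
  simp

end av

section grp
variable {Ω G : Type} [AddCommGroup Ω] [AddCommGroup G] [Finite Ω] [Finite G]

/-- Resampling along any family of translations. -/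
lemma av_shift {T : Type} [Finite T] [Nonempty T] (ρ : T → Ω) (f : Ω → ℝ) :
    av f = av fun ω => av fun t => f (ω + ρ t) := by
  rw [av_comm, ← av_const (α := T) (av f)]
  exact av_congr fun t => (av_bij (Equiv.addRight (ρ t)).bijective f).symm

/-- A surjective homomorphism pushes the uniform law to the uniform law. -/
lemma av_hom (π : Ω →+ G) (hπ : Function.Surjective π) (f : G → ℝ) :
    av (fun ω => f (π ω)) = av f := by
  choose s hs using hπ
  rw [av_shift s, ← av_const (α := Ω) (av f)]
  refine av_congr fun ω => ?_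
  simp only [map_add, hs]
  exact av_bij (Equiv.addLeft (π ω)).bijective f

lemma pr_hom (π : Ω →+ G) (hπ : Function.Surjective π) (p : G → Prop) :
    pr (fun ω => p (π ω)) = pr p := by
  classical
  exact av_hom π hπ fun b => if p b then 1 else 0

/-- Some translate of the family is at least as good as the average. -/
lemma exists_shift {T : Type} [Finite T] [Nonempty T] (ρ : T → Ω) (p : Ω → Prop) :
    ∃ ω, pr (fun t => p (ω + ρ t)) ≤ pr p := by
  classical
  have h := av_shift ρ fun ω => if p ω then (1 : ℝ) else 0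
  obtain ⟨ω, hω⟩ := exists_le_av fun ω : Ω => av fun t => if p (ω + ρ t) then (1 : ℝ) else 0
  exact ⟨ω, hω.trans h.symm.le⟩

/-- The coordinates `π j`, `j ∈ J`, can be resampled one at a time. -/
def Ind {ι : Type} (π : ι → Ω →+ G) (J : Finset ι) : Prop :=
  ∀ j ∈ J, ∃ ρ : G →+ Ω, Function.Bijective (fun t => π j (ρ t)) ∧
    ∀ j' ∈ J, j' ≠ j → ∀ t, π j' (ρ t) = 0

variable {ι : Type} {π : ι → Ω →+ G} {J : Finset ι}

lemma Ind.av_eq (h : Ind π J) {j : ι} (hj : j ∈ J) (f : G → ℝ) :
    av (fun ω => f (π j ω)) = av f := by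
  obtain ⟨ρ, h1, -⟩ := h j hj
  exact av_hom _ (fun g => (h1.2 g).elim fun t ht => ⟨ρ t, ht⟩) f

lemma Ind.pr_eq (h : Ind π J) {j : ι} (hj : j ∈ J) (p : G → Prop) :
    pr (fun ω => p (π j ω)) = pr p := by
  classical
  exact h.av_eq hj fun b => if p b then 1 else 0

/-- Conditioning on the other coordinates. -/
lemma Ind.cond (h : Ind π J) {j : ι} (hj : j ∈ J) {β : Type} (T : Ω → β)
    (hT : ∀ ω ω', (∀ j' ∈ J, j' ≠ j → π j' ω = π j' ω') → T ω = T ω') (Φ : β → G → ℝ) :
    av (fun ω => Φ (T ω) (π j ω)) = av fun ω => av fun t => Φ (T ω) t := by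
  obtain ⟨ρ, h1, h2⟩ := h j hj
  rw [av_shift ρ]
  refine av_congr fun ω => ?_
  have e : ∀ t, T (ω + ρ t) = T ω := fun t => hT _ _ fun j' hj' hne => by
    rw [map_add, h2 j' hj' hne, add_zero]
  simp only [e, map_add]
  exact av_bij ((Equiv.addLeft (π j ω)).bijective.comp h1) fun t => Φ (T ω) t

lemma Ind.pr_all (h : Ind π J) (p : G → Prop) (A : Finset ι) (hA : A ⊆ J) :
    pr (fun ω => ∀ j ∈ A, p (π j ω)) = pr p ^ A.card := by
  classical
  induction A using Finset.induction_on with
  | empty => simpa using pr_true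
  | insert j A hj ih =>
    have hA' : A ⊆ J := fun x hx => hA (mem_insert_of_mem hx)
    have e := h.cond (hA (mem_insert_self j A)) (fun ω => ∀ j ∈ A, p (π j ω))
      (fun ω ω' hh => propext (forall₂_congr fun x hx => by
        rw [hh x (hA' hx) (ne_of_mem_of_not_mem hx hj)]))
      fun q t => (if q then (1 : ℝ) else 0) * if p t then 1 else 0
    rw [card_insert_of_notMem hj, pow_succ, ← ih hA', mul_comm, pr, pr, pr, ← av_mul]
    simp only [av_mul] at e
    refine Eq.trans (av_congr fun ω => ?_) (e.trans (av_congr fun ω => mul_comm _ _))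
    simp only [forall_mem_insert]
    by_cases h1 : p (π j ω) <;> by_cases h2 : ∀ j ∈ A, p (π j ω) <;> simp [h1, h2]

end grp

end

end Pool.Agent.P.MP_85b516_nt.LD
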