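import Pool.Agent.P.MP_85b516_nt.LD.Stm

/-! Package Base: the base field and transcendence of `P (X ^ p) / P (X)`. -/

open PowerSeries Finset

namespace Pool.Agent.P.MP_85b516_nt.LD

namespace PBase

/-- The elements of a field that are algebraic over a domain form a subfield, and algebraic over
it means algebraic over the domain. -/
lemma alg_sub (A Om : Type) [CommRing A] [IsDomain A] [Field Om] [Algebra A Om]
    (hinj : Function.Injective (algebraMap A Om)) :
    ∃ K : Subfield Om, (∀ x, x ∈ K ↔ IsAlgebraic A x) ∧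
      ∀ x : Om, IsAlgebraic K x → IsAlgebraic A x := by
  let K : Subfield Om :=
    { carrier := {x | IsAlgebraic A x}
      mul_mem' := fun ha hb => ha.mul hb
      one_mem' := isAlgebraic_one
      add_mem' := fun ha hb => ha.add hb
      zero_mem' := isAlgebraic_zero
      neg_mem' := fun ha => ha.neg
      inv_mem' := fun _ ha => IsAlgebraic.inv_iff.2 ha }
  refine ⟨K, fun x => Iff.rfl, fun x hx => ?_⟩
  letI : Algebra A K :=
    ((algebraMap A Om).codRestrict K fun a => isAlgebraic_algebraMap a).toAlgebra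
  haveI : IsScalarTower A K Om := IsScalarTower.of_algebraMap_eq fun a => rfl
  haveI : Algebra.IsAlgebraic A K := ⟨fun y =>
    (isAlgebraic_algebraMap_iff (A := Om) (algebraMap K Om).injective).1 y.2⟩
  exact hx.restrictScalars A

/-- A value of `n` with `L A n + 1` prime and `r ^ t` exactly dividing `A n + 1`. -/
lemma exists_n (A L r t : ℕ) (hA : 1 ≤ A) (hL : 2 ≤ L) (hr : r.Prime) (hAr : Nat.Coprime A r)
    (hbig : L < r) (ht : 1 ≤ t) :
    ∃ n w : ℕ, (L * A * n + 1).Prime ∧ A * n + 1 = r ^ t * (1 + r * w) := by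
  have co : Nat.Coprime A (r ^ (t + 1)) := Nat.Coprime.pow_right _ hAr
  obtain ⟨x, hx1, hx2⟩ := Nat.chineseRemainder co 1 (r ^ t)
  have hpt : r ^ t ≤ r ^ (t + 1) := Nat.pow_le_pow_right hr.pos (by omega)
  have hpt1 : 1 ≤ r ^ t := Nat.one_le_pow _ _ hr.pos
  set y := x + A * r ^ (t + 1) with hy
  have hy0 : r ^ (t + 1) ≤ y := by
    have : 1 * r ^ (t + 1) ≤ A * r ^ (t + 1) := Nat.mul_le_mul_right _ hA
    omega
  have hy1 : 1 ≡ y [MOD A] := by
    refine hx1.symm.trans ?_
    rw [hy]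
    simp
  have hy2 : r ^ t ≡ y [MOD r ^ (t + 1)] := by
    refine hx2.symm.trans ?_
    rw [hy]
    simp
  obtain ⟨n0, hn0⟩ := (Nat.modEq_iff_dvd' (by omega)).1 hy1
  obtain ⟨w0, hw0⟩ := (Nat.modEq_iff_dvd' (by omega)).1 hy2
  have e1 : A * n0 + 1 = r ^ t + r ^ (t + 1) * w0 := by omega
  have c1 : Nat.Coprime (L * A * n0 + 1) (L * A) := by
    rw [add_comm]
    exact (Nat.coprime_add_mul_left_left 1 _ n0).2 (Nat.coprime_one_left _)
  have c2 : Nat.Coprime (L * A * n0 + 1) r := by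
    rw [Nat.coprime_comm, hr.coprime_iff_not_dvd]
    intro hdv
    have h1 : r ∣ L * (A * n0 + 1) := by
      rw [e1]
      refine Dvd.dvd.mul_left ?_ _
      exact dvd_add (dvd_pow_self r (by omega)) (Dvd.dvd.mul_right (dvd_pow_self r (by omega)) _)
    have h2 : L * (A * n0 + 1) = (L * A * n0 + 1) + (L - 1) := by
      have : L * (A * n0 + 1) = L * A * n0 + L := by ring
      omega
    rw [h2] at h1
    have h3 := (Nat.dvd_add_right hdv).1 h1
    have := Nat.le_of_dvd (by omega) h3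
    omega
  have c3 : Nat.Coprime (L * A * n0 + 1) (L * A * r ^ (t + 1)) :=
    Nat.Coprime.mul_right c1 (Nat.Coprime.pow_right _ c2)
  have hQ : L * A * r ^ (t + 1) ≠ 0 :=
    (Nat.mul_pos (Nat.mul_pos (by omega) (by omega)) (Nat.pow_pos hr.pos)).ne'
  obtain ⟨q, hq1, hq2, hq3⟩ := Nat.forall_exists_prime_gt_and_modEq (L * A * n0 + 1) hQ c3
  obtain ⟨k, hk⟩ := (Nat.modEq_iff_dvd' hq1.le).1 hq3.symm
  refine ⟨n0 + r ^ (t + 1) * k, w0 + A * k, ?_, ?_⟩
  · have : L * A * (n0 + r ^ (t + 1) * k) + 1 = q := by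
      have : L * A * (n0 + r ^ (t + 1) * k) + 1 =
          (L * A * n0 + 1) + L * A * r ^ (t + 1) * k := by ring
      omega
    rw [this]
    exact hq2
  · calc A * (n0 + r ^ (t + 1) * k) + 1 = (A * n0 + 1) + A * r ^ (t + 1) * k := by ring
      _ = _ := by rw [e1]; ring

lemma th_sb {R : Type} [CommRing R] (p : ℕ) (f : R⟦X⟧) :
    th (sb p 1 f) = C (p : R) * sb p 1 (th f) := by
  ext n
  simp only [coeff_th, sb, coeff_mk, coeff_C_mul]
  split_ifs with h
  · obtain ⟨m, rfl⟩ := h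
    rcases Nat.eq_zero_or_pos p with rfl | hp
    · simp
    · rw [Nat.mul_div_cancel_left _ hp]
      push_cast
      ring
  · simp

end PBase

open PBase

theorem s_base : S_Base := by
  intro q F _ _ hq halg
  haveI := Fact.mk hq
  have hio : Function.Injective (io q F) :=
    (IsFractionRing.injective F⟦X⟧ (FractionRing F⟦X⟧)).comp
      (PowerSeries.map_injective _ (algebraMap (ZMod q) F).injective)
  let φ : Polynomial (ZMod q) →+* FractionRing F⟦X⟧ :=
    (io q F).comp (algebraMap (Polynomial (ZMod q)) (ZMod q)⟦X⟧)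
  have hcoe : ∀ g : Polynomial (ZMod q),
      algebraMap (Polynomial (ZMod q)) (ZMod q)⟦X⟧ g = (g : (ZMod q)⟦X⟧) := fun g => by
    rw [PowerSeries.algebraMap_apply']
    simp
  have hφ : Function.Injective φ := by
    refine hio.comp fun g g' h => ?_
    rw [hcoe, hcoe] at h
    exact Polynomial.coe_injective _ h
  obtain ⟨K, hK, hK'⟩ := @alg_sub (Polynomial (ZMod q)) (FractionRing F⟦X⟧) _ _ _ φ.toAlgebra hφ
  refine ⟨K, fun r => ?_, ?_, fun f hf => ?_⟩
  · rw [hK]
    obtain ⟨g, hg0, hg⟩ := halg.isAlgebraic r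
    refine ⟨g.map Polynomial.C, ?_, ?_⟩
    · exact (Polynomial.map_ne_zero_iff Polynomial.C_injective).2 hg0
    · let ψ : F →+* FractionRing F⟦X⟧ := (algebraMap F⟦X⟧ (FractionRing F⟦X⟧)).comp C
      have e : φ.comp Polynomial.C = ψ.comp (algebraMap (ZMod q) F) := Subsingleton.elim _ _
      change Polynomial.eval₂ φ (ψ r) (g.map Polynomial.C) = 0
      rw [Polynomial.eval₂_map, e, ← Polynomial.hom_eval₂, ← Polynomial.aeval_def, hg, map_zero]
  · rw [hK]
    have e : algebraMap F⟦X⟧ (FractionRing F⟦X⟧) X = φ Polynomial.X := by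
      simp [φ, io, hcoe]
    rw [e]
    exact @isAlgebraic_algebraMap _ _ _ _ φ.toAlgebra _ Polynomial.X
  · obtain ⟨g, hg0, hg⟩ := hK' _ hf
    refine ⟨g, hg0, hio ?_⟩
    rw [map_zero, Polynomial.aeval_def, Polynomial.hom_eval₂]
    exact hg

theorem s_tr2 (h : S_Gen) (hs : S_Sg) (hc : S_Chr) : S_Tr2 := by
  intro d l p hd hl hp f hf halg
  haveI := Fact.mk hl
  obtain ⟨h0, hode⟩ := h d (by omega)
  obtain ⟨hmul, hpow, -, -, -⟩ := hs d (by omega)
  have hP : PP (ZMod l) d ≠ 0 := by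
    intro h
    have := congrArg (coeff 0) h
    simp [PP, h0] at this
  have hf0 : f ≠ 0 := by
    intro h
    have := congrArg (coeff 0) hf
    simp [h, sb, PP, h0] at this
  have e1 : th f = f * (C (p : ZMod l) * sb p 1 (TT (ZMod l) d) - TT (ZMod l) d) := by
    have e2 := congrArg th hf
    rw [th_mul, th_sb, hode, ← sbH_apply p hp.ne_zero, map_mul, sbH_apply, sbH_apply, ← hf] at e2
    refine mul_right_cancel₀ hP ?_
    linear_combination e2
  have h1 := (hc l hl _ halg).1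
  rw [e1] at h1
  have hT := IsAlgebraic.of_mul (mem_nonZeroDivisors_of_ne_zero hf0) halg h1
  obtain ⟨e, e', -, hee, hco⟩ := (hc l hl _ hT).2
  obtain ⟨δ, rfl⟩ : ∃ δ, e' = e + (δ + 1) := ⟨e' - e - 1, by omega⟩
  obtain ⟨r, hr, hbig, hr1⟩ := Nat.exists_prime_gt_modEq_one (l ^ (δ + 1) + p) hl.ne_zero
  have hrl : Nat.Coprime l r := by
    have := hr1.gcd_eq
    rw [Nat.coprime_comm]
    simpa using this
  have hrp : Nat.Coprime p r := (Nat.coprime_primes hp hr).2 (by
    have := Nat.one_le_pow (δ + 1) l hl.pos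
    omega)
  have hl2 := hl.two_le
  have ht : 1 ≤ d * (l - 1) := Nat.mul_pos (by omega) (by omega)
  have hL : 2 ≤ l ^ (δ + 1) := le_trans hl.two_le (Nat.le_self_pow (by omega) l)
  obtain ⟨n, w, hq, hn⟩ := exists_n (l ^ e * p) (l ^ (δ + 1)) r (d * (l - 1))
    (Nat.mul_pos (Nat.pow_pos hl.pos) hp.pos) hL hr
    (Nat.Coprime.mul_left (Nat.Coprime.pow_left _ hrl) hrp) (by omega) ht
  have key := hco (p * n)
  have nd : ∀ m : ℕ, ¬ p ∣ m * (p * n) + 1 := fun m hm => by
    have : p ∣ m * (p * n) := Dvd.dvd.mul_left (dvd_mul_right _ _) _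
    exact hp.one_lt.ne' (Nat.dvd_one.1 ((Nat.dvd_add_right this).1 hm))
  simp only [map_sub, coeff_C_mul, sb, TT, coeff_mk, if_neg (nd _), mul_zero, zero_sub,
    neg_inj] at key
  have a1 : l ^ (e + (δ + 1)) * (p * n) + 1 = l ^ (δ + 1) * (l ^ e * p) * n + 1 := by ring
  have a2 : l ^ e * (p * n) + 1 = l ^ e * p * n + 1 := by ring
  have s1 : sg d (l ^ (δ + 1) * (l ^ e * p) * n + 1) = 1 := by
    have := hpow _ 1 hq
    rw [pow_one, Nat.div_eq_of_lt (by omega)] at this
    simpa using this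
  have cw : Nat.Coprime (r ^ (d * (l - 1))) (1 + r * w) := by
    refine Nat.Coprime.pow_left _ ?_
    simp
  have s2 : ((sg d (r ^ (d * (l - 1))) : ℕ) : ZMod l) = 0 := by
    rw [hpow _ _ hr, Nat.mul_div_cancel_left _ (by omega : 0 < d)]
    have hp' : (r : ZMod l) = 1 := by
      have := (ZMod.natCast_eq_natCast_iff r 1 l).2 hr1
      simpa using this
    have : l - 1 + 1 = l := by omega
    rw [this]
    push_cast
    simp [hp']
  rw [a1, a2, s1, hn, hmul _ _ cw] at key
  push_cast at key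
  rw [s2] at key
  simp at key

end Pool.Agent.P.MP_85b516_nt.LD
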