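import Pool.Agent.P.MP_85b516_nt.LD.Stm

/-! Linearity tests and universal affine maps (Theorem LD, MP_85b516_nt). -/

open Finset

namespace Pool.Agent.P.MP_85b516_nt.LD

noncomputable section

namespace PBlr

lemma pr_prod {α β : Type} [Finite α] [Finite β] (p : α → β → Prop) :
    pr (fun q : α × β => p q.1 q.2) = av fun a => pr (p a) := by
  classical
  exact av_prod fun q : α × β => if p q.1 q.2 then (1 : ℝ) else 0

lemma exists_fst {α β : Type} [Finite α] [Finite β] [Nonempty α] (p : α → β → Prop) :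
    ∃ a, pr (p a) ≤ pr fun q : α × β => p q.1 q.2 := by
  rw [pr_prod]
  exact exists_le_av _

lemma pr_swap {α β : Type} [Finite α] [Finite β] (p : α → β → Prop) :
    pr (fun q : α × β => p q.1 q.2) = pr fun q : β × α => p q.2 q.1 :=
  (pr_bij Prod.swap_bijective fun q : α × β => p q.1 q.2).symm

lemma pr_aff {Ω G : Type} [AddCommGroup Ω] [AddCommGroup G] [Finite Ω] [Finite G] (π : Ω →+ G)
    (hπ : Function.Surjective π) (w : G) (p : G → Prop) :
    pr (fun ω => p (π ω + w)) = pr p :=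
  (pr_hom π hπ fun g => p (g + w)).trans (pr_bij (Equiv.addRight w).bijective p)

lemma pr_or3 {α : Type} [Finite α] (p q r : α → Prop) :
    pr (fun a => p a ∨ q a ∨ r a) ≤ pr p + pr q + pr r := by
  have h1 := pr_or p fun a => q a ∨ r a
  have h2 := pr_or q r
  linarith

section
variable {G H : Type} [AddCommGroup G] [Finite G] [AddCommGroup H]

/-- The derivatives of `C` at two random points agree often. -/
lemma two {A B C : G → H} {ε : ℝ}
    (h : pr (fun q : G × G => A q.1 + B q.2 ≠ C (q.1 + q.2)) ≤ ε) (d : G) :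
    pr (fun q : G × G => C (q.2 + d) - C q.2 ≠ C (q.1 + d) - C q.1) ≤ 4 * ε := by
  let π1 : G × G × G →+ G × G := (AddMonoidHom.id G).prodMap (AddMonoidHom.fst G G)
  let π2 : G × G × G →+ G × G := (AddMonoidHom.id G).prodMap (AddMonoidHom.snd G G)
  have s1 : Function.Surjective π1 := fun q => ⟨(q.1, q.2, 0), rfl⟩
  have s2 : Function.Surjective π2 := fun q => ⟨(q.1, 0, q.2), rfl⟩
  let π : G × G × G →+ G × G :=
    (AddMonoidHom.fst G (G × G) + (AddMonoidHom.fst G G).comp (AddMonoidHom.snd G (G × G))).prod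
      (AddMonoidHom.fst G (G × G) + (AddMonoidHom.snd G G).comp (AddMonoidHom.snd G (G × G)))
  have s : Function.Surjective π := fun q => ⟨(0, q.1, q.2), by simp [π]⟩
  let bad : G × G → Prop := fun q => A q.1 + B q.2 ≠ C (q.1 + q.2)
  have e1 := pr_hom π1 s1 bad
  have e2 := pr_hom π2 s2 bad
  have e3 := pr_aff π1 s1 (d, 0) bad
  have e4 := pr_aff π2 s2 (d, 0) bad
  have o1 := pr_or (fun ω => bad (π1 ω)) fun ω => bad (π2 ω) ∨ bad (π1 ω + (d, 0)) ∨
    bad (π2 ω + (d, 0))
  have o2 := pr_or3 (fun ω => bad (π2 ω)) (fun ω => bad (π1 ω + (d, 0)))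
    fun ω => bad (π2 ω + (d, 0))
  rw [← pr_hom π s]
  refine le_trans (pr_mono fun ω hω => ?_) (o1.trans (by linarith))
  by_contra hn
  simp only [bad, π1, π2, not_or, not_not, AddMonoidHom.coe_prodMap, Prod.map_fst, Prod.map_snd,
    AddMonoidHom.id_apply, AddMonoidHom.coe_fst, AddMonoidHom.coe_snd, Prod.fst_add, Prod.snd_add,
    add_zero] at hn
  obtain ⟨h1, h2, h3, h4⟩ := hn
  apply hω
  change C (ω.1 + ω.2.2 + d) - C (ω.1 + ω.2.2) = C (ω.1 + ω.2.1 + d) - C (ω.1 + ω.2.1)
  rw [add_right_comm ω.1 ω.2.2 d, add_right_comm ω.1 ω.2.1 d, ← h1, ← h2, ← h3, ← h4]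
  abel

end

end PBlr

open PBlr

theorem s_blr3 : S_Blr3 := by
  intro G H _ _ _ A B C ε hε h
  have h1 : ∀ d : G, ∃ x : H, pr (fun g => C (g + d) - C g ≠ x) ≤ 4 * ε := fun d => by
    obtain ⟨g', hg'⟩ := exists_fst fun g' g : G => C (g + d) - C g ≠ C (g' + d) - C g'
    exact ⟨_, hg'.trans (two h d)⟩
  choose φ hφ using h1
  have hadd : ∀ d d', φ (d + d') = φ d + φ d' := fun d d' => by
    have e := pr_bij (Equiv.addRight d).bijective fun g => C (g + d') - C g ≠ φ d'
    have o := pr_or3 (fun g => C (g + (d + d')) - C g ≠ φ (d + d'))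
      (fun g => C (g + d) - C g ≠ φ d) fun g => C (g + d + d') - C (g + d) ≠ φ d'
    have e' : pr (fun g => C (g + d + d') - C (g + d) ≠ φ d') ≤ 4 * ε := e.le.trans (hφ d')
    obtain ⟨g, hg⟩ := exists_of_pr_lt_one (o.trans_lt (by linarith [hφ (d + d'), hφ d]))
    simp only [not_or, not_not] at hg
    rw [← hg.1, ← hg.2.1, ← hg.2.2, add_assoc]
    abel
  let ψ : G →+ H := AddMonoidHom.mk' φ hadd
  obtain ⟨g0, hg0⟩ := exists_fst fun g d : G => C (g + d) - C g ≠ φ d
  have h2 : pr (fun q : G × G => C (q.1 + q.2) - C q.1 ≠ φ q.2) ≤ 4 * ε := by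
    rw [pr_swap fun g d : G => C (g + d) - C g ≠ φ d,
      pr_prod fun d g : G => C (g + d) - C g ≠ φ d, ← av_const (α := G) (4 * ε)]
    exact av_mono hφ
  refine ⟨ψ, C g0 - ψ g0, ?_⟩
  rw [← pr_bij (Equiv.addLeft g0).bijective]
  refine le_trans (pr_mono ?_) (hg0.trans h2)
  intro d hd hn
  apply hd
  change C (g0 + d) = ψ (g0 + d) + (C g0 - ψ g0)
  rw [map_add, show ψ d = φ d from rfl, ← hn]
  abel

theorem s_blr (h : S_Blr3) : S_Blr := by
  classical
  intro Λ Xt Z H _ _ _ _ _ G c f y0 y1 y2 ε h01 h02 h12 c0 c1 c2 hε hp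
  let r : G × G → Z → G := fun q =>
    Pi.single y0 (-(q.1 + q.2)) + Pi.single y1 q.1 + Pi.single y2 q.2
  have hs : ∀ (y : Z) (t : G), ∑ x, c x • (Pi.single y t : Z → G) x = c y • t := fun y t => by
    rw [sum_eq_single y (fun x _ hx => by rw [Pi.single_eq_of_ne hx, smul_zero])
      (fun hy => absurd (mem_univ y) hy), Pi.single_eq_same]
  have hr : ∀ q, ∑ x, c x • r q x = 0 := fun q => by
    simp only [r, Pi.add_apply, smul_add, sum_add_distrib, hs, c0, c1, c2, one_smul]
    abel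
  let ρ : G × G → extG G c := fun q => ⟨fun z => (r q z.1).1 z.2, fun x => (r q x).2, fun v => by
    have := congrArg (fun t : G => t.1 v) (hr q)
    simpa using this⟩
  have hρ : ∀ q y, slG G c y (ρ q) = r q y := fun _ _ => rfl
  obtain ⟨ω, hω⟩ := exists_shift ρ fun α : extG G c => ∑ y, c y • f y (slG G c y α) ≠ 0
  let a : Z → G := fun y => slG G c y ω
  let R : H := ∑ y ∈ ((univ.erase y0).erase y1).erase y2, c y • f y (a y)
  have key : ∀ q : G × G, ∑ y, c y • f y (slG G c y (ω + ρ q)) =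
      f y0 (a y0 - (q.1 + q.2)) + (f y1 (a y1 + q.1) + (f y2 (a y2 + q.2) + R)) := fun q => by
    have m1 : y1 ∈ univ.erase y0 := mem_erase.2 ⟨h01.symm, mem_univ _⟩
    have m2 : y2 ∈ (univ.erase y0).erase y1 :=
      mem_erase.2 ⟨h12.symm, mem_erase.2 ⟨h02.symm, mem_univ _⟩⟩
    rw [← add_sum_erase _ _ (mem_univ y0), ← add_sum_erase _ _ m1, ← add_sum_erase _ _ m2]
    simp only [map_add, hρ, c0, c1, c2, one_smul]
    have r0 : r q y0 = -(q.1 + q.2) := by
      simp only [r, Pi.add_apply, Pi.single_eq_same, Pi.single_eq_of_ne h01,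
        Pi.single_eq_of_ne h02, add_zero]
    have r1 : r q y1 = q.1 := by
      simp only [r, Pi.add_apply, Pi.single_eq_same, Pi.single_eq_of_ne h01.symm,
        Pi.single_eq_of_ne h12, add_zero, zero_add]
    have r2 : r q y2 = q.2 := by
      simp only [r, Pi.add_apply, Pi.single_eq_same, Pi.single_eq_of_ne h02.symm,
        Pi.single_eq_of_ne h12.symm, add_zero, zero_add]
    rw [r0, r1, r2, ← sub_eq_add_neg]
    congr 3
    refine sum_congr rfl fun y hy => ?_
    simp only [mem_erase] at hy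
    have r3 : r q y = 0 := by
      simp only [r, Pi.add_apply, Pi.single_eq_of_ne hy.1, Pi.single_eq_of_ne hy.2.1,
        Pi.single_eq_of_ne hy.2.2.1, add_zero]
    rw [r3, add_zero]
  obtain ⟨ψ, h0, hψ⟩ := h G H (fun s => f y1 (a y1 + s)) (fun t => f y2 (a y2 + t))
    (fun g => -f y0 (a y0 - g) - R) ε hε (by
      refine le_trans (pr_mono ?_) (hω.trans hp)
      intro q hq hn
      apply hq
      rw [key] at hn
      rw [← sub_eq_zero, ← hn]
      abel)
  refine ⟨ψ, -ψ (a y0) - h0 - R, ?_⟩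
  rw [← pr_bij (Equiv.subLeft (a y0)).bijective]
  refine le_trans (pr_mono ?_) hψ
  intro g hg hn
  apply hg
  change f y0 (a y0 - g) = ψ (a y0 - g) + (-ψ (a y0) - h0 - R)
  have e : f y0 (a y0 - g) = -(ψ g + h0) - R := by
    rw [← hn]
    abel
  rw [e, map_sub]
  abel

theorem s_univ : S_Univ := by
  intro F Λ V Xt _ _ _ _ _ _ e G U ψ u0 δ hδ hp α
  refine mem_Ker.2 ⟨(ψ α + u0).2, fun v => ?_⟩
  by_contra hne
  let φ : G → F := fun β => e (α.1 v) ((ψ β + u0 : U).1 v)
  let ev : G →+ Λ := (Pi.evalAddMonoidHom (fun _ : Xt => Λ) v).comp G.subtype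
  have h1 : pr (fun β : G => ev β = ev α ∧ φ β ≠ 0) ≤ δ := by
    refine le_trans (pr_mono ?_) hp
    intro β hβ hk
    apply hβ.2
    have h := (mem_Ker.1 hk).2 v
    have e1 : β.1 v = α.1 v := hβ.1
    rw [e1] at h
    exact h
  have h2 : pr (fun β : G => ev β = ev α ∧ φ β = 0) ≤
      pr fun β : G => ev β = ev α ∧ φ β ≠ 0 := by
    by_cases hx : ∃ β0, ev β0 = ev α ∧ φ β0 = 0
    · obtain ⟨β0, b1, b2⟩ := hx
      rw [← pr_bij (Equiv.addRight (α - β0)).bijective fun β : G => ev β = ev α ∧ φ β ≠ 0]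
      refine pr_mono fun β hβ => ⟨?_, ?_⟩
      · change ev (β + (α - β0)) = ev α
        rw [map_add, map_sub, hβ.1, b1, sub_self, add_zero]
      · change φ (β + (α - β0)) ≠ 0
        have e2 : φ (β + (α - β0)) = φ β + (φ α - φ β0) := by
          simp only [φ, map_add, map_sub, Submodule.coe_add, Submodule.coe_sub, Pi.add_apply,
            Pi.sub_apply]
          ring
        rw [e2, hβ.2, b2, zero_add, sub_zero]
        exact hne
    · exact le_trans (pr_mono (q := fun _ => False) fun β hβ => hx ⟨β, hβ⟩)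
        (pr_false.le.trans (pr_nonneg _))
  have h3 : pr (fun β : G => ev β = ev α) ≤ 2 * δ := by
    have o := pr_or (fun β : G => ev β = ev α ∧ φ β = 0) fun β : G => ev β = ev α ∧ φ β ≠ 0
    refine le_trans (pr_mono fun β hβ => ?_) (o.trans (by linarith))
    by_cases hz : φ β = 0
    · exact Or.inl ⟨hβ, hz⟩
    · exact Or.inr ⟨hβ, hz⟩
  have h4 : pr (fun β : G => ev β = ev α) = 1 / Nat.card ev.range := by
    rw [← pr_single (ev.rangeRestrict α), ← pr_hom ev.rangeRestrict ev.rangeRestrict_surjective]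
    exact pr_congr fun β => ⟨fun hβ => Subtype.ext hβ, fun hβ => congrArg Subtype.val hβ⟩
  have h5 : (Nat.card ev.range : ℝ) ≤ Nat.card Λ := by
    exact_mod_cast Nat.card_le_card_of_injective _ ev.range.subtype_injective
  have h6 : (0 : ℝ) < Nat.card ev.range := by exact_mod_cast Nat.card_pos
  rw [h4, div_le_iff₀ h6] at h3
  have h7 : 0 ≤ δ := (pr_nonneg _).trans hp
  nlinarith

end

end Pool.Agent.P.MP_85b516_nt.LD
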