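import Pool.Agent.P.MP_85b516_nt.LD.Stm

/-! Concentration of the dimension and trivial holonomy (Theorem LD, MP_85b516_nt). -/

open Finset Module

namespace Pool.Agent.P.MP_85b516_nt.LD

noncomputable section

namespace PConc

variable {F : Type} [Field F] {Λ V : Type} [AddCommGroup Λ] [AddCommGroup V] [Module F V]
  {Xt Z : Type} [Fintype Z]

lemma sum_sl {U : Submodule F (Xt → V)} {c : Z → ℤ} {u : Z × Xt → V} (hu : u ∈ extU U c) :
    ∑ x, c x • sl F x u = 0 := by
  funext v
  simpa [Finset.sum_apply] using hu.2 v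

lemma zsmul_zero {A : Type} [AddCommGroup A] [Module F A] {n : ℤ} (hn : (n : F) ≠ 0) {a : A}
    (h : n • a = 0) : a = 0 := by
  rw [← Int.cast_smul_eq_zsmul F] at h
  exact (smul_eq_zero.1 h).resolve_left hn

lemma inj [DecidableEq Z] {e : Λ → V →ₗ[F] F} {U : Submodule F (Xt → V)} {c : Z → ℤ}
    (hc : ∀ x, (c x : F) ≠ 0) {ω : Z × Xt → Λ} {x : Z}
    (h : ¬ Dep (fun j => Ker e U fun v => ω (j, v)) (univ.erase x)) :
    ∀ u ∈ Ker e (extU U c) ω, sl F x u = 0 → u = 0 := by
  intro u hu hx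
  obtain ⟨h1, h2⟩ := mem_Ker_ext.1 hu
  have hz : ∀ j, sl F j u = 0 := by
    intro j
    by_cases hj : j = x
    · rw [hj, hx]
    by_contra hne
    refine h ⟨fun j => c j • sl F j u, fun j _ => zsmul_mem (h2 j) _, ?_, j, by simp [hj],
      fun h0 => hne (zsmul_zero (hc j) h0)⟩
    rw [sum_erase _ (by rw [hx, smul_zero])]
    exact sum_sl h1
  funext q
  exact congrFun (hz q.1) q.2

lemma map_le {e : Λ → V →ₗ[F] F} {U : Submodule F (Xt → V)} {c : Z → ℤ} (ω : Z × Xt → Λ) (x : Z) :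
    (Ker e (extU U c) ω).map (sl F x) ≤ Ker e U fun v => ω (x, v) := by
  rintro _ ⟨u, hu, rfl⟩
  exact (mem_Ker_ext.1 hu).2 x

lemma finrank_map [FiniteDimensional F V] [Finite Xt] {K : Submodule F (Z × Xt → V)} {x : Z}
    (h : ∀ u ∈ K, sl F x u = 0 → u = 0) : finrank F (K.map (sl F x)) = finrank F K := by
  have h1 := rk_split K (sl F x)
  have h2 : K ⊓ LinearMap.ker (sl F x) = ⊥ :=
    (Submodule.eq_bot_iff _).2 fun u hu => h u hu.1 hu.2
  rw [h2] at h1
  simp only [rk, finrank_bot, Nat.cast_zero, zero_add] at h1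
  exact_mod_cast h1.symm

end PConc

open PConc

theorem s_conc (h1 : S_Ind) (h2 : S_Dep) : S_Conc := by
  intro F Λ V Xt Z _ _ _ _ _ _ _ _ _ e G U c lam mu hc hl hG hmu m
  classical
  have hI := (h1 F Λ Xt Z G c hc).1
  have hmu0 : 0 ≤ mu := (av_nonneg fun _ => rk_nonneg _).trans hmu
  have hn : 1 ≤ Fintype.card Z := Fintype.card_pos
  have hB : pr (fun ω : extG G c => ∃ z ∈ (univ : Finset Z),
      Dep (fun j => Ker e U (slG G c j ω).1) (univ.erase z)) ≤
      (Fintype.card Z : ℝ) ^ 3 * lam * mu := by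
    refine (pr_exists _ _).trans ?_
    have hz : ∀ z ∈ (univ : Finset Z), pr (fun ω : extG G c =>
        Dep (fun j => Ker e U (slG G c j ω).1) (univ.erase z)) ≤
        (Fintype.card Z : ℝ) ^ 2 * lam * mu := by
      intro z _
      refine (h2 F (extG G c) G (Xt → V) Z (slG G c) (univ.erase z) (fun t => Ker e U t.1) U lam mu
        (hI z) (fun t => Ker_le _ _ _) hl hG hmu).trans ?_
      have : ((univ.erase z).card : ℝ) ≤ Fintype.card Z := by
        exact_mod_cast card_le_univ _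
      gcongr
    refine (sum_le_sum hz).trans (le_of_eq ?_)
    rw [sum_const, card_univ, nsmul_eq_mul]
    ring
  have hinj : ∀ ω : extG G c, ¬ (∃ z ∈ (univ : Finset Z),
      Dep (fun j => Ker e U (slG G c j ω).1) (univ.erase z)) →
      ∀ x, ∀ u ∈ Ker e (extU U c) ω.1, sl F x u = 0 → u = 0 := fun ω h x =>
    inj hc.1 fun hd => h ⟨x, mem_univ _, hd⟩
  constructor
  · obtain ⟨z⟩ : Nonempty Z := inferInstance
    have hA := (hI z).pr_all (fun t : G => m < finrank F (Ker e U t.1)) _ subset_rfl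
    rw [card_erase_of_mem (mem_univ _), card_univ] at hA
    rw [← hA]
    refine le_trans (pr_mono fun ω hω => ?_) ((pr_or _ _).trans (add_le_add le_rfl hB))
    refine or_iff_not_imp_right.2 fun hb j _ => hω.trans_le ?_
    rw [← finrank_map (hinj ω hb j)]
    exact Submodule.finrank_mono (map_le ω.1 j)
  · have hE : pr (fun ω : extG G c => ∃ x ∈ (univ : Finset Z),
        m < finrank F (Ker e U (slG G c x ω).1)) ≤
        Fintype.card Z * pr (fun ω : G => m < finrank F (Ker e U ω.1)) := by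
      refine (pr_exists _ _).trans (le_of_eq ?_)
      rw [← nsmul_eq_mul, ← card_univ, ← sum_const]
      refine sum_congr rfl fun x _ => ?_
      obtain ⟨z, hz⟩ := exists_ne x
      exact (hI z).pr_eq (mem_erase.2 ⟨hz.symm, mem_univ _⟩)
        fun t : G => m < finrank F (Ker e U t.1)
    refine le_trans (pr_mono fun ω hω => ?_)
      ((pr_or _ _).trans (add_le_add ((pr_or _ _).trans (add_le_add hB le_rfl)) hE))
    by_contra hn
    rw [not_or, not_or] at hn
    obtain ⟨⟨hb, hm⟩, hx⟩ := hn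
    refine hω fun x => ⟨hinj ω hb x, fun w hw => ?_⟩
    have hle : finrank F (Ker e U fun v => ω.1 (x, v)) ≤ m :=
      not_lt.1 fun h => hx ⟨x, mem_univ _, h⟩
    have heq : (Ker e (extU U c) ω.1).map (sl F x) = Ker e U fun v => ω.1 (x, v) :=
      Submodule.eq_of_le_of_finrank_le (map_le ω.1 x) (by
        rw [finrank_map (hinj ω hb x)]
        exact hle.trans (not_lt.1 hm))
    rw [← heq] at hw
    exact hw

theorem s_hol : S_Hol := by
  intro F Λ V Xt Z _ _ _ _ _ _ e G U c hc ω i2 y0 hR hD u hu κ hκ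
  have hex : ∀ i, ∃ w ∈ Ker e (extU U c) (slG (extG G c) c i ω).1,
      sl F y0 w = sl F i (κ y0) ∧ (i = i2 → w = u) := by
    intro i
    by_cases hi : i = i2
    · subst hi
      exact ⟨u, hu, (hκ y0).2.symm, fun _ => rfl⟩
    · obtain ⟨w, hw, e1⟩ := (hR i y0).2 _ ((mem_Ker_ext.1 (hκ y0).1).2 i)
      exact ⟨w, hw, e1, fun h => absurd h hi⟩
  choose υ hυ h0 h2 using hex
  have hz : ∀ q : Z × Z, q ∉ univ.erase i2 ×ˢ univ.erase y0 →
      sl F q.1 (κ q.2) - sl F q.2 (υ q.1) = 0 := by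
    rintro ⟨i, y⟩ hq
    by_cases hi : i = i2
    · rw [h2 i hi, hi, (hκ y).2, sub_self]
    · have hy : y = y0 := by
        by_contra hy
        exact hq (by simp [hi, hy])
      rw [hy, h0, sub_self]
  have hall : ∀ q : Z × Z, sl F q.1 (κ q.2) - sl F q.2 (υ q.1) = 0 := by
    intro q
    by_contra hne
    have hq : q ∈ univ.erase i2 ×ˢ univ.erase y0 := by
      by_contra hq
      exact hne (hz q hq)
    refine hD ⟨fun q => c q.1 • c q.2 • (sl F q.1 (κ q.2) - sl F q.2 (υ q.1)), fun q _ => ?_, ?_,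
      q, hq, fun h => hne (zsmul_zero (hc _) (zsmul_zero (hc _) h))⟩
    · exact zsmul_mem (zsmul_mem (sub_mem ((mem_Ker_ext.1 (hκ q.2).1).2 q.1)
        ((mem_Ker_ext.1 (hυ q.1)).2 q.2)) _) _
    · rw [sum_subset (subset_univ _) fun q _ hq => by rw [hz q hq, smul_zero, smul_zero]]
      simp only [smul_sub, sum_sub_distrib]
      have e1 : ∑ q : Z × Z, c q.1 • c q.2 • sl F q.1 (κ q.2) = 0 := by
        rw [Fintype.sum_prod_type_right]
        refine sum_eq_zero fun y _ => ?_
        have := sum_sl (mem_Ker_ext.1 (hκ y).1).1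
        simp only [smul_comm (c _) (c y)]
        rw [← smul_sum, this, smul_zero]
      have e2 : ∑ q : Z × Z, c q.1 • c q.2 • sl F q.2 (υ q.1) = 0 := by
        rw [Fintype.sum_prod_type]
        refine sum_eq_zero fun i _ => ?_
        have := sum_sl (mem_Ker_ext.1 (hυ i)).1
        simp only
        rw [← smul_sum, this, smul_zero]
      rw [e1, e2, sub_zero]
  intro i v
  rw [← (mem_Ker_ext.1 (hυ i)).1.2 v]
  refine sum_congr rfl fun y _ => ?_
  have := congrFun (sub_eq_zero.1 (hall (i, y))) v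
  simp only [sl_apply] at this
  rw [this]

end

end Pool.Agent.P.MP_85b516_nt.LD
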