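import Pool.Agent.P.MP_85b516_nt.LD.Stm

/-! The theorem for one configuration (Theorem LD, MP_85b516_nt). -/

open PowerSeries Finset
open AddMonoidAlgebra (single)

namespace Pool.Agent.P.MP_85b516_nt.LD

section
variable {R S : Type} [CommRing R] [CommRing S] {N : ℕ} [NeZero N]

lemma lamn_mp (f : R →+* S) (n : ℕ) (y : BB R N) : lamn n (mp N f y) = f (lamn n y) := by
  rw [lamn_apply, lamn_apply, map_sum]
  exact sum_congr rfl fun c _ => by split_ifs <;> simp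

lemma d1_mp (f : R →+* S) (y : BB R N) : d1 (mp N f y) = f (d1 y) := by
  simp only [d1_apply, map_sum, map_mul, map_natCast, coeff_mp]

lemma aug_mp (f : R →+* S) (y : BB R N) : aug (mp N f y) = f (aug y) := by
  simp [aug_eq]

omit [NeZero N] in
lemma map_sb (f : R →+* S) (d j : ℕ) :
    PowerSeries.map f (sb j 1 (PP R d)) = sb j 1 (PP S d) := by
  ext n
  simp only [coeff_map, sb, PP, coeff_mk]
  split_ifs <;> simp

omit [NeZero N] in
lemma sb_one (f : R⟦X⟧) : sb 1 1 f = f := by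
  ext n
  simp [sb]

end

lemma aug_YY {F : Type} [Field F] (N : ℕ) [NeZero N] (d b j : ℕ) (z : F) :
    aug (YY N d b j 1 z) = yv d j z := by
  simp [YY, aug_Dl]

lemma exists_units (hN : S_Norm) {F Om : Type} [Field F] [Field Om] (f : F⟦X⟧ →+* Om) (N : ℕ)
    [NeZero N] (ζ : ℕ → F) (l : List ℕ) (d b : ℕ) (x : F) (hx : x ≠ 0) (hd : 1 ≤ d)
    (h0 : pd d 0 = 1) (hl : l.Nodup) (hp : ∀ p ∈ l, p.Prime ∧ IsPrimitiveRoot (ζ p) p) :
    ∃ Y : Vx l → (BB Om N)ˣ, (∀ v, (Y v : BB Om N) = mp N f (YY N d b (jv d l v) x (zz ζ l v))) ∧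
      ∀ r, ∏ v, Y v ^ rho l r v = 1 := by
  have hu : ∀ v, IsUnit (yv d (jv d l v) (x * zz ζ l v)) := fun v => by
    rw [PowerSeries.isUnit_iff_constantCoeff, ← coeff_zero_eq_constantCoeff_apply]
    simp [yv, sb, PP, h0]
  choose u hu using hu
  have hk : IsUnit (single (-(b : ZMod N)) (C (x⁻¹ ^ b)) : BB F⟦X⟧ N) :=
    IsUnit.of_mul_eq_one (single (b : ZMod N) (C (x ^ b))) (by
      rw [AddMonoidAlgebra.single_mul_single, neg_add_cancel, ← map_mul, ← mul_pow,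
        inv_mul_cancel₀ hx, one_pow, map_one]
      rfl)
  obtain ⟨κ, hκ⟩ := hk
  refine ⟨fun v => Units.map (mp N f).toMonoidHom
    (κ ^ jv d l v * Units.map (Dl N).toMonoidHom (u v)), fun v => ?_, fun r => ?_⟩
  · change mp N f (((κ ^ jv d l v : (BB F⟦X⟧ N)ˣ) : BB F⟦X⟧ N) * Dl N (u v : F⟦X⟧)) = _
    rw [Units.val_pow_eq_pow_val, hκ, hu, AddMonoidAlgebra.single_pow, YY, ← map_pow, ← pow_mul,
      mul_comm b]
    congr 3
    simp
  · have h1 := (cm_iff l u).1 (hN F ζ l d x hd hl hp u hu) r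
    have h2 := (cw_iff l _).1 (jv_cw d l) r
    simp only [← map_zpow, ← map_prod, mul_zpow, prod_mul_distrib, h1, map_one, mul_one]
    have h3 : ∏ v, (κ ^ jv d l v) ^ rho l r v = 1 := by
      simp only [← zpow_natCast, ← zpow_mul]
      rw [← zpow_zero κ, ← h2]
      induction (univ : Finset (Vx l)) using Finset.cons_induction with
      | empty => simp
      | cons a s ha ih => rw [prod_cons, sum_cons, zpow_add, ih, smul_eq_mul, mul_comm (rho l r a)]
    rw [h3, map_one]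

theorem s_core (hG : S_Gen) (h1 : S_Ndt) (h2 : S_Norm) (h3 : S_Sec) (h4 : S_Tan) (h5 : S_Per)
    (h6 : S_Base) (h7 : S_Tr2) (h8 : S_KA) (h9 : S_KB) : S_Core := by
  intro a' N p l ha
  by_cases hN0 : N = 0
  · refine ⟨0, fun d _ q e F _ _ _ _ hq _ hc => ?_⟩
    exfalso
    rcases hc with ⟨-, h⟩ | ⟨-, h⟩
    · omega
    · exact pow_ne_zero _ hq.ne_zero (h.symm.trans hN0)
  haveI : NeZero N := ⟨hN0⟩
  obtain ⟨d0, H⟩ := h1 a' N p l ha
  refine ⟨max 2 d0, ?_⟩
  intro d hd q e F _ _ _ _ hq halg hc hqa hnd hr hP b h hh hper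
  have hd2 : 2 ≤ d := (le_max_left _ _).trans hd
  haveI : Fact q.Prime := ⟨hq⟩
  have hroot : ∀ n : ℕ, ∃ z : F, ¬ q ∣ n → IsPrimitiveRoot z n := fun n => by
    by_cases hn : q ∣ n
    · exact ⟨1, fun h => absurd hn h⟩
    · haveI : NeZero (n : F) := ⟨fun h => hn ((CharP.cast_eq_zero_iff F q n).1 h)⟩
      haveI : NeZero n := ⟨fun h => hn (h ▸ dvd_zero q)⟩
      exact (HasEnoughRootsOfUnity.exists_primitiveRoot F n).imp fun _ h _ => h
  choose ζ hζ using hroot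
  have hξ := hζ a' hqa
  set ξ := ζ a'
  have hζ' : ∀ r ∈ p :: l, IsPrimitiveRoot (ζ r) r := fun r hr' => hζ r fun h =>
    (hr r hr').2.2 ((Nat.prime_dvd_prime_iff_eq hq (hr r hr').1).1 h).symm
  obtain ⟨f, hf⟩ : ∃ f, N = q ^ f := by
    rcases hc with ⟨-, h⟩ | ⟨-, h⟩
    · exact ⟨0, by simpa using h⟩
    · exact ⟨_, h⟩
  have hND := H d ((le_max_right _ _).trans hd) q f F ζ ξ hq hf hnd
    (fun r hr' => ⟨(hr r hr').1, hζ' r hr', (hr r hr').2⟩) hξ hP b
  obtain ⟨K, hKC, hKX, hK⟩ := h6 q F hq halg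
  set ι := algebraMap F⟦X⟧ (FractionRing F⟦X⟧) with hι
  have hinj : Function.Injective ι := IsFractionRing.injective _ _
  have hξ0 : ξ ≠ 0 := hξ.ne_zero (by omega)
  have h0 : pd d 0 = 1 := (hG d (by omega)).1
  choose Y hY hYr using fun i : Fin a' => exists_units h2 ι N ζ (p :: l) d b (ξ ^ (i : ℕ))
    (pow_ne_zero _ hξ0) (by omega) h0 hnd fun r hr' => ⟨(hr r hr').1, hζ' r hr'⟩
  have hpos : ∀ r ∈ p :: l, 1 ≤ r := fun r hr' => (hr r hr').1.pos
  have hpos' : ∀ r ∈ l, 1 ≤ r := fun r hr' => hpos r (List.mem_cons_of_mem _ hr')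
  have hp : p.Prime := (hr p List.mem_cons_self).1
  have hdvd : q ^ e ∣ N := by
    rcases hc with ⟨h, -⟩ | ⟨-, h⟩
    · simp [h]
    · rw [h]
      exact pow_dvd_pow _ (Nat.le_succ e)
  have hLin : ∀ v, ∑ i, lamn (q ^ e) (Y i v : BB (FractionRing F⟦X⟧) N) ∈ K := fun v => by
    have hj : 1 ≤ jv d (p :: l) v := by
      rw [jv_eq]
      exact Nat.mul_pos (one_le_j0 _ hpos v) (pow_pos (one_le_kp _ hpos v) _)
    simp only [hY, lamn_mp]
    rw [← map_sum, h3 F N (q ^ e) a' d b _ ξ _ hdvd ha hξ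
      (Nat.Coprime.pow_left _ ((Nat.Prime.coprime_iff_not_dvd hq).2 hqa))
      (jv_coprime d _ _ (fun r hr' => Nat.Coprime.mul_right
        (Nat.Coprime.pow_right _ ((Nat.coprime_primes (hr r hr').1 hq).2 (hr r hr').2.2))
        ((Nat.Prime.coprime_iff_not_dvd (hr r hr').1).2 (hr r hr').2.1)) v) hj, map_mul, map_natCast]
    exact K.mul_mem (natCast_mem K a') (h5 q F d _ b h _ _ K
      (Nat.mul_pos (pow_pos hq.pos _) ha) hh hj hKC hKX hper)
  have hND' : ND (rho (p :: l)) (bs (p :: l)) (vv N p l)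
      fun i v => (Y i v : BB (FractionRing F⟦X⟧) N) := by simpa only [hY] using hND
  have key : ∀ i v, IsAlgebraic K (aug (Y i v : BB (FractionRing F⟦X⟧) N) /
      aug (Y i (bs (p :: l)) : BB (FractionRing F⟦X⟧) N)) := by
    rcases hc with ⟨he, hN1⟩ | ⟨he, hN1⟩
    · subst hN1 he
      have := h8 _ _ _ _ K (rho (p :: l)) (bs (p :: l)) Y hYr (by simpa using hLin)
        (by simpa [vv, bs] using hND')
      exact fun i v => by
        rw [div_eq_mul_inv]
        exact (this i v).mul (this i _).inv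
    · haveI : CharP (FractionRing F⟦X⟧) q :=
        charP_of_injective_algebraMap (algebraMap F (FractionRing F⟦X⟧)).injective q
      have hN1' : N ≠ 1 := by
        rw [hN1]
        exact (Nat.one_lt_pow (Nat.succ_ne_zero e) hq.one_lt).ne'
      refine h9 q e N _ _ _ _ K (rho (p :: l)) (bs (p :: l)) (vv N p l) Y hq he hN1
        (sum_rho _) hYr hLin (fun i => ?_) hND'
      have e1 : jv d (p :: l) (vv N p l) = 1 := by
        simp [vv, hN1', jv, ch_eq hp.one_lt, lev, jv_bs d l hpos']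
      have e2 : zz ζ (p :: l) (vv N p l) = ζ p := by
        simp [vv, hN1', zz, ch_eq hp.one_lt, rtz, zz_bs ζ l hpos']
      simp only [hY, d1_mp, aug_mp, ← map_mul, e1, e2, jv_bs d _ hpos, zz_bs ζ _ hpos]
      refine fun hh => h4 F N d b (ξ ^ (i : ℕ)) 1 (ζ p) ?_ (by omega) (pow_ne_zero _ hξ0)
        ((hζ' p List.mem_cons_self).ne_one hp.one_lt).symm (hinj hh)
      rw [hN1]
      simp
  have hu : IsUnit (PP (ZMod q) d) := by
    rw [PowerSeries.isUnit_iff_constantCoeff, ← coeff_zero_eq_constantCoeff_apply]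
    simp [PP, h0]
  obtain ⟨g, hg⟩ := hu.exists_left_inv
  have hfP : sb p 1 (PP (ZMod q) d) * g * PP (ZMod q) d = sb p 1 (PP (ZMod q) d) := by
    rw [mul_assoc, hg, mul_one]
  refine h7 d q p hd2 hq hp _ hfP (hK _ ?_)
  have k := key ⟨0, ha⟩ (Sum.inr 0, bs l)
  have e1 : jv d (p :: l) (Sum.inr 0, bs l) = p := by simp [jv, lev, jv_bs d l hpos']
  have e2 : zz ζ (p :: l) (Sum.inr 0, bs l) = 1 := by simp [zz, rtz, zz_bs ζ l hpos']
  simp only [hY, aug_mp, pow_zero, aug_YY, e1, e2, jv_bs d _ hpos, zz_bs ζ _ hpos, yv] at k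
  have e3 : ∀ j, io q F (sb j 1 (PP (ZMod q) d)) = ι (sb j 1 (PP F d)) := fun j => by
    rw [io, RingHom.comp_apply, map_sb]
  have e4 : io q F g * ι (sb 1 1 (PP F d)) = 1 := by
    rw [← e3, sb_one, ← map_mul, hg, map_one]
  rw [map_mul, e3, eq_inv_of_mul_eq_one_left e4, ← div_eq_mul_inv]
  exact k

end Pool.Agent.P.MP_85b516_nt.LD
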