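import Pool.Agent.P.MP_85b516_nt.Stmt
import Pool.Agent.P.MP_85b516_nt.LD.Av

/-! Definitions for Theorem LD (MP_85b516_nt). -/

open PowerSeries Finset Module
open AddMonoidAlgebra (single)

namespace Pool.Agent.P.MP_85b516_nt.LD

noncomputable section

/-! ### Random kernels -/

section RK
variable {F : Type} [Field F] {Λ V : Type} [AddCommGroup Λ] [AddCommGroup V] [Module F V]
  {Xt Z : Type}

/-- Labels on `Z × Xt`. -/
def extG [Fintype Z] (G : AddSubgroup (Xt → Λ)) (c : Z → ℤ) : AddSubgroup (Z × Xt → Λ) where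
  carrier := {ω | (∀ x, (fun v => ω (x, v)) ∈ G) ∧ ∀ v, ∑ x, c x • ω (x, v) = 0}
  zero_mem' := ⟨fun _ => G.zero_mem, by simp⟩
  add_mem' := by
    rintro w w' ⟨h1, h2⟩ ⟨h1', h2'⟩
    exact ⟨fun x => G.add_mem (h1 x) (h1' x), fun v => by
      simp [sum_add_distrib, h2 v, h2' v]⟩
  neg_mem' := by
    rintro w ⟨h1, h2⟩
    exact ⟨fun x => G.neg_mem (h1 x), fun v => by simp [sum_neg_distrib, h2 v]⟩

lemma mem_extG [Fintype Z] {G : AddSubgroup (Xt → Λ)} {c : Z → ℤ} {ω : Z × Xt → Λ} :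
    ω ∈ extG G c ↔ (∀ x, (fun v => ω (x, v)) ∈ G) ∧ ∀ v, ∑ x, c x • ω (x, v) = 0 := Iff.rfl

/-- A slice of a label. -/
def slG [Fintype Z] (G : AddSubgroup (Xt → Λ)) (c : Z → ℤ) (x : Z) : extG G c →+ G where
  toFun ω := ⟨fun v => ω.1 (x, v), ω.2.1 x⟩
  map_zero' := rfl
  map_add' _ _ := rfl

@[simp] lemma slG_apply [Fintype Z] (G : AddSubgroup (Xt → Λ)) (c : Z → ℤ) (x : Z) (ω : extG G c)
    (v : Xt) : (slG G c x ω).1 v = ω.1 (x, v) := rfl

/-- A column of a grid of labels. -/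
def colG [Fintype Z] (G : AddSubgroup (Xt → Λ)) (c : Z → ℤ) (y : Z) :
    extG (extG G c) c →+ extG G c where
  toFun ω := ⟨fun q => ω.1 (q.1, (y, q.2)), fun i => (ω.2.1 i).1 y, fun v => ω.2.2 (y, v)⟩
  map_zero' := rfl
  map_add' _ _ := rfl

@[simp] lemma colG_apply [Fintype Z] (G : AddSubgroup (Xt → Λ)) (c : Z → ℤ) (y : Z)
    (ω : extG (extG G c) c) (q : Z × Xt) : (colG G c y ω).1 q = ω.1 (q.1, (y, q.2)) := rfl

/-- An entry of a grid of labels (row `q.1`, column `q.2`). -/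
def entG [Fintype Z] (G : AddSubgroup (Xt → Λ)) (c : Z → ℤ) (q : Z × Z) :
    extG (extG G c) c →+ G := (slG G c q.2).comp (slG (extG G c) c q.1)

/-- A slice of a vector. -/
def sl (F : Type) [Field F] [Module F V] (x : Z) : (Z × Xt → V) →ₗ[F] (Xt → V) :=
  LinearMap.funLeft F V (Prod.mk x)

@[simp] lemma sl_apply (x : Z) (w : Z × Xt → V) (v : Xt) : sl F x w v = w (x, v) := rfl

/-- Vectors on `Z × Xt`. -/
def extU [Fintype Z] (U : Submodule F (Xt → V)) (c : Z → ℤ) : Submodule F (Z × Xt → V) where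
  carrier := {w | (∀ x, sl F x w ∈ U) ∧ ∀ v, ∑ x, c x • w (x, v) = 0}
  zero_mem' := ⟨fun x => by simp, by simp⟩
  add_mem' := by
    rintro w w' ⟨h1, h2⟩ ⟨h1', h2'⟩
    exact ⟨fun x => by simpa using U.add_mem (h1 x) (h1' x), fun v => by
      simp [sum_add_distrib, h2 v, h2' v]⟩
  smul_mem' := by
    rintro s w ⟨h1, h2⟩
    refine ⟨fun x => by simpa using U.smul_mem s (h1 x), fun v => ?_⟩
    have : ∑ x, c x • (s • w) (x, v) = s • ∑ x, c x • w (x, v) := by
      rw [Finset.smul_sum]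
      exact Finset.sum_congr rfl fun x _ => smul_comm _ _ _
    rw [this, h2 v, smul_zero]

lemma mem_extU [Fintype Z] {U : Submodule F (Xt → V)} {c : Z → ℤ} {w : Z × Xt → V} :
    w ∈ extU U c ↔ (∀ x, sl F x w ∈ U) ∧ ∀ v, ∑ x, c x • w (x, v) = 0 := Iff.rfl

/-- The kernel attached to a label. -/
def Ker (e : Λ → V →ₗ[F] F) (U : Submodule F (Xt → V)) (ω : Xt → Λ) : Submodule F (Xt → V) :=
  U ⊓ ⨅ v, LinearMap.ker ((e (ω v)).comp (LinearMap.proj v))

lemma mem_Ker {e : Λ → V →ₗ[F] F} {U : Submodule F (Xt → V)} {ω : Xt → Λ} {u : Xt → V} :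
    u ∈ Ker e U ω ↔ u ∈ U ∧ ∀ v, e (ω v) (u v) = 0 := by
  simp [Ker, Submodule.mem_iInf]

lemma Ker_le (e : Λ → V →ₗ[F] F) (U : Submodule F (Xt → V)) (ω : Xt → Λ) : Ker e U ω ≤ U :=
  inf_le_left

lemma mem_Ker_ext [Fintype Z] {e : Λ → V →ₗ[F] F} {U : Submodule F (Xt → V)} {c : Z → ℤ}
    {ω : Z × Xt → Λ} {u : Z × Xt → V} :
    u ∈ Ker e (extU U c) ω ↔ u ∈ extU U c ∧ ∀ x, sl F x u ∈ Ker e U fun v => ω (x, v) := by
  simp only [mem_Ker]
  exact ⟨fun h => ⟨h.1, fun x => ⟨h.1.1 x, fun v => h.2 (x, v)⟩⟩,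
    fun h => ⟨h.1, fun q => (h.2 q.1).2 q.2⟩⟩

/-- The dimension as a real number. -/
def rk {A : Type} [AddCommGroup A] [Module F A] (S : Submodule F A) : ℝ := (finrank F S : ℝ)

lemma rk_nonneg {A : Type} [AddCommGroup A] [Module F A] (S : Submodule F A) : 0 ≤ rk S :=
  Nat.cast_nonneg _

lemma rk_mono {A : Type} [AddCommGroup A] [Module F A] [FiniteDimensional F A]
    {S T : Submodule F A} (h : S ≤ T) : rk S ≤ rk T := by
  unfold rk
  exact_mod_cast Submodule.finrank_mono h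

lemma rk_split {A B : Type} [AddCommGroup A] [Module F A] [FiniteDimensional F A]
    [AddCommGroup B] [Module F B] (K : Submodule F A) (f : A →ₗ[F] B) :
    rk K = rk (K ⊓ LinearMap.ker f) + rk (K.map f) := by
  have h := LinearMap.finrank_range_add_finrank_ker (f.comp K.subtype)
  rw [LinearMap.range_comp, Submodule.range_subtype, LinearMap.ker_comp] at h
  have e : finrank F ↥(Submodule.comap K.subtype (LinearMap.ker f)) =
      finrank F ↥(K ⊓ LinearMap.ker f) := by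
    rw [← Submodule.finrank_map_subtype_eq, Submodule.map_comap_subtype]
  unfold rk
  exact_mod_cast (by omega : finrank F ↥K = finrank F ↥(K ⊓ LinearMap.ker f) + finrank F ↥(K.map f))

/-- Every fixed subspace meets the random kernel in a proportion at most `lam`. -/
def Good [Finite Xt] [Finite Λ] (e : Λ → V →ₗ[F] F) (G : AddSubgroup (Xt → Λ))
    (U : Submodule F (Xt → V)) (lam : ℝ) : Prop :=
  ∀ S ≤ U, av (fun ω : G => rk (S ⊓ Ker e U ω.1)) ≤ lam * rk S

lemma Good.mono [Finite Xt] [Finite Λ] {e : Λ → V →ₗ[F] F} {G : AddSubgroup (Xt → Λ)}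
    {U : Submodule F (Xt → V)} {lam lam' : ℝ} (h : Good e G U lam) (hl : lam ≤ lam') :
    Good e G U lam' :=
  fun S hS => (h S hS).trans (mul_le_mul_of_nonneg_right hl (rk_nonneg S))

/-- The coefficients are invertible on vectors and on labels. -/
def Cs (F Λ : Type) [Field F] [AddCommGroup Λ] (c : Z → ℤ) : Prop :=
  (∀ x, (c x : F) ≠ 0) ∧ ∀ x, Function.Injective fun t : Λ => c x • t

/-- Vectors of `S` whose slices at `A` vanish. -/
def Van (A : Finset Z) (S : Submodule F (Z × Xt → V)) : Submodule F (Z × Xt → V) :=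
  S ⊓ ⨅ x ∈ A, LinearMap.ker (sl F x)

lemma mem_Van {A : Finset Z} {S : Submodule F (Z × Xt → V)} {w : Z × Xt → V} :
    w ∈ Van A S ↔ w ∈ S ∧ ∀ x ∈ A, sl F x w = 0 := by
  simp [Van, Submodule.mem_iInf]

/-- Vectors of `S` whose slices at `A` lie in the kernels. -/
def KA (e : Λ → V →ₗ[F] F) (U : Submodule F (Xt → V)) (ω : Z × Xt → Λ) (A : Finset Z)
    (S : Submodule F (Z × Xt → V)) : Submodule F (Z × Xt → V) :=
  S ⊓ ⨅ x ∈ A, (Ker e U fun v => ω (x, v)).comap (sl F x)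

lemma mem_KA {e : Λ → V →ₗ[F] F} {U : Submodule F (Xt → V)} {ω : Z × Xt → Λ} {A : Finset Z}
    {S : Submodule F (Z × Xt → V)} {w : Z × Xt → V} :
    w ∈ KA e U ω A S ↔ w ∈ S ∧ ∀ x ∈ A, sl F x w ∈ Ker e U fun v => ω (x, v) := by
  simp [KA, Submodule.mem_iInf]

/-- The subspaces `K j`, `j ∈ J`, are dependent. -/
def Dep {A ι : Type} [AddCommGroup A] [Module F A] (K : ι → Submodule F A) (J : Finset ι) : Prop :=
  ∃ u : ι → A, (∀ j ∈ J, u j ∈ K j) ∧ ∑ j ∈ J, u j = 0 ∧ ∃ j ∈ J, u j ≠ 0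

/-- All slice maps from the big kernel to the small kernels are bijective. -/
def RowGood [Fintype Z] (e : Λ → V →ₗ[F] F) (U : Submodule F (Xt → V)) (c : Z → ℤ)
    (ω : Z × Xt → Λ) : Prop :=
  ∀ x, (∀ u ∈ Ker e (extU U c) ω, sl F x u = 0 → u = 0) ∧
    ∀ w ∈ Ker e U fun v => ω (x, v), ∃ u ∈ Ker e (extU U c) ω, sl F x u = w

/-- Every kernel vector is the value of an affine map that always lies in the kernel. -/
def Triv (e : Λ → V →ₗ[F] F) (G : AddSubgroup (Xt → Λ)) (U : Submodule F (Xt → V)) (α : G) :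
    Prop :=
  ∀ w ∈ Ker e U α.1, ∃ (ψ : G →+ U) (u0 : U),
    (∀ α' : G, (ψ α' + u0 : U).1 ∈ Ker e U α'.1) ∧ w = (ψ α + u0 : U).1

end RK

/-! ### The configuration -/

/-- Codewords with values in an abelian group. -/
def Cw {M : Type} [AddCommGroup M] : (l : List ℕ) → (Vx l → M) → Prop
  | [], _ => True
  | p :: l, w => (∀ x : Zp p, Cw l fun v => w (x, v)) ∧
      ∀ v : Vx l, ∑ x : Zp p, czI p x • w (x, v) = 0

def GG (Λ : Type) [AddCommGroup Λ] : (l : List ℕ) → AddSubgroup (Vx l → Λ)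
  | [] => ⊤
  | p :: l => extG (GG Λ l) (czI p)

def UL (F V : Type) [Field F] [AddCommGroup V] [Module F V] : (l : List ℕ) → Submodule F (Vx l → V)
  | [] => ⊤
  | p :: l => extU (UL F V l) (czI p)

lemma mem_GG {Λ : Type} [AddCommGroup Λ] : ∀ {l : List ℕ} {w : Vx l → Λ}, w ∈ GG Λ l ↔ Cw l w
  | [], _ => Iff.rfl
  | _ :: _, _ => and_congr (forall_congr' fun _ => mem_GG) Iff.rfl

lemma mem_UL {F V : Type} [Field F] [AddCommGroup V] [Module F V] :
    ∀ {l : List ℕ} {w : Vx l → V}, w ∈ UL F V l ↔ Cw l w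
  | [], _ => Iff.rfl
  | _ :: _, _ => and_congr (forall_congr' fun _ => mem_UL) Iff.rfl

lemma Cw.map {M M' : Type} [AddCommGroup M] [AddCommGroup M'] (f : M →+ M') :
    ∀ {l : List ℕ} {w : Vx l → M}, Cw l w → Cw l fun v => f (w v)
  | [], _, _ => trivial
  | p :: l, w, h => ⟨fun x => Cw.map f (h.1 x), fun v => by
      have := congrArg f (h.2 v)
      simpa only [map_sum, map_zsmul, map_zero] using this⟩

lemma sum_czI {M : Type} [AddCommGroup M] (p : ℕ) (y : Zp p → M) :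
    ∑ x, czI p x • y x = ∑ i : Fin p, y (Sum.inl i) - y (Sum.inr 0) - p • y (Sum.inr 1) +
      y (Sum.inr 2) := by
  rw [Fintype.sum_sum_type, Fin.sum_univ_three]
  simp [czI]
  abel

lemma Cw.const {M : Type} [AddCommGroup M] (t : M) : ∀ l : List ℕ, Cw l fun _ => t
  | [] => trivial
  | p :: l => ⟨fun _ => Cw.const t l, fun _ => by rw [sum_czI]; simp⟩

lemma sum_vx {M : Type} [AddCommMonoid M] (p : ℕ) (l : List ℕ) (f : Vx (p :: l) → M) :
    ∑ v, f v = ∑ x : Zp p, ∑ v : Vx l, f (x, v) :=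
  Fintype.sum_prod_type (α₁ := Zp p) (α₂ := Vx l) f

/-- Index set of the line relations. -/
def Rw : List ℕ → Type
  | [] => Empty
  | p :: l => Vx l ⊕ Zp p × Rw l

instance instFintypeRw : (l : List ℕ) → Fintype (Rw l)
  | [] => inferInstanceAs (Fintype Empty)
  | p :: l => letI := instFintypeRw l; inferInstanceAs (Fintype (Vx l ⊕ Zp p × Rw l))

open scoped Classical in
/-- The line relations. -/
def rho : (l : List ℕ) → Rw l → Vx l → ℤ
  | [], _, _ => 0
  | p :: l, r, v => Sum.elim (fun v₀ : Vx l => if v.2 = v₀ then czI p v.1 else 0)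
      (fun y : Zp p × Rw l => if v.1 = y.1 then rho l y.2 v.2 else 0) r

lemma cw_iff {M : Type} [AddCommGroup M] :
    ∀ (l : List ℕ) (w : Vx l → M), Cw l w ↔ ∀ r, ∑ v, rho l r v • w v = 0
  | [], _ => ⟨fun _ r => r.elim, fun _ => trivial⟩
  | p :: l, w => by
    classical
    have e1 : ∀ v₀ : Vx l, ∑ v : Vx (p :: l), rho (p :: l) (Sum.inl v₀) v • w v =
        ∑ x : Zp p, czI p x • w (x, v₀) := by
      intro v₀
      rw [sum_vx]
      refine sum_congr rfl fun x _ => ?_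
      rw [sum_eq_single v₀]
      · simp [rho]
      · intro v _ hv
        simp [rho, hv]
      · simp
    have e2 : ∀ y : Zp p × Rw l, ∑ v : Vx (p :: l), rho (p :: l) (Sum.inr y) v • w v =
        ∑ v : Vx l, rho l y.2 v • w (y.1, v) := by
      intro y
      rw [sum_vx, sum_eq_single y.1]
      · simp [rho]
      · intro x _ hx
        simp [rho, hx]
      · simp
    refine ⟨fun g r => ?_, fun g => ⟨fun x => (cw_iff l _).2 fun r => ?_, fun v => ?_⟩⟩
    · rcases r with v | y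
      · exact (e1 v).trans (g.2 v)
      · exact (e2 y).trans ((cw_iff l _).1 (g.1 y.1) y.2)
    · exact (e2 (x, r)).symm.trans (g (Sum.inr (x, r)))
    · exact (e1 v).symm.trans (g (Sum.inl v))

lemma sum_rho (l : List ℕ) (r : Rw l) : ∑ v, rho l r v = 0 := by
  simpa using (cw_iff l _).1 (Cw.const (1 : ℤ) l) r

/-- Multiplicative codewords. -/
def Cm {R : Type} [CommMonoid R] (l : List ℕ) (y : Vx l → Rˣ) : Prop :=
  Cw l fun v => Additive.ofMul (y v)

lemma cm_iff {R : Type} [CommMonoid R] (l : List ℕ) (y : Vx l → Rˣ) :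
    Cm l y ↔ ∀ r, ∏ v, y v ^ rho l r v = 1 := by
  rw [Cm, cw_iff]
  refine forall_congr' fun r => ?_
  rw [← ofMul_eq_zero, ofMul_prod]
  rfl

/-- Child number `i` (if it exists). -/
def ch (p i : ℕ) : Zp p := if h : i < p then Sum.inl ⟨i, h⟩ else Sum.inr 0

/-- The base vertex. -/
def bs : (l : List ℕ) → Vx l
  | [] => ()
  | p :: l => (ch p 0, bs l)

/-- The second vertex of the normalisation (equal to the base vertex when `N = 1`). -/
def vv (N p : ℕ) (l : List ℕ) : Vx (p :: l) := if N = 1 then (ch p 0, bs l) else (ch p 1, bs l)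

def l0 (p : ℕ) : Zp p → ℕ := Sum.elim (fun _ => 0) ![1, 0, 1]

def l1 (p : ℕ) : Zp p → ℕ := Sum.elim (fun _ => 0) ![0, 1, 1]

def j0 : (l : List ℕ) → Vx l → ℕ
  | [], _ => 1
  | p :: l, v => p ^ l0 p v.1 * j0 l v.2

def kp : (l : List ℕ) → Vx l → ℕ
  | [], _ => 1
  | p :: l, v => p ^ l1 p v.1 * kp l v.2

lemma lev_eq (d p : ℕ) (x : Zp p) : lev d p x = l0 p x + l1 p x * d := by
  rcases x with i | i
  · simp [lev, l0, l1]
  · fin_cases i <;> simp [lev, l0, l1, add_comm]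

lemma jv_eq (d : ℕ) : ∀ (l : List ℕ) (v : Vx l), jv d l v = j0 l v * kp l v ^ d
  | [], _ => by simp [jv, j0, kp]
  | p :: l, v => by
    rw [jv, j0, kp, jv_eq d l v.2, lev_eq, pow_add, pow_mul, mul_pow]
    ring

lemma jv_cw (d : ℕ) : ∀ l : List ℕ, Cw l fun v => (jv d l v : ℤ)
  | [] => trivial
  | p :: l => ⟨fun x => by
      have := (jv_cw d l).map (AddMonoidHom.mulLeft ((p : ℤ) ^ lev d p x))
      simpa [jv] using this, fun v => by
      rw [sum_czI]
      simp [jv, lev]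
      ring⟩

lemma one_le_j0 : ∀ (l : List ℕ), (∀ p ∈ l, 1 ≤ p) → ∀ v, 1 ≤ j0 l v
  | [], _, _ => le_rfl
  | p :: l, h, v => Nat.mul_pos (pow_pos (h p List.mem_cons_self) _)
      (one_le_j0 l (fun q hq => h q (List.mem_cons_of_mem _ hq)) v.2)

lemma one_le_kp : ∀ (l : List ℕ), (∀ p ∈ l, 1 ≤ p) → ∀ v, 1 ≤ kp l v
  | [], _, _ => le_rfl
  | p :: l, h, v => Nat.mul_pos (pow_pos (h p List.mem_cons_self) _)
      (one_le_kp l (fun q hq => h q (List.mem_cons_of_mem _ hq)) v.2)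

lemma j0_dvd : ∀ (l : List ℕ) (v : Vx l), j0 l v ∣ l.prod
  | [], _ => dvd_rfl
  | p :: l, v => by
    rw [List.prod_cons]
    refine mul_dvd_mul ?_ (j0_dvd l v.2)
    rcases v.1 with i | i
    · simp [l0]
    · fin_cases i <;> simp [l0]

lemma jv_coprime (d : ℕ) : ∀ (l : List ℕ) (a : ℕ), (∀ p ∈ l, Nat.Coprime p a) →
    ∀ v, Nat.Coprime (jv d l v) a
  | [], a, _, _ => Nat.coprime_one_left a
  | p :: l, a, h, v => Nat.Coprime.mul_left (Nat.Coprime.pow_left _ (h p List.mem_cons_self))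
      (jv_coprime d l a (fun q hq => h q (List.mem_cons_of_mem _ hq)) v.2)

lemma j0_coprime : ∀ (l : List ℕ) (a : ℕ), (∀ p ∈ l, Nat.Coprime p a) →
    ∀ v, Nat.Coprime (j0 l v) a
  | [], a, _, _ => Nat.coprime_one_left a
  | p :: l, a, h, v => Nat.Coprime.mul_left (Nat.Coprime.pow_left _ (h p List.mem_cons_self))
      (j0_coprime l a (fun q hq => h q (List.mem_cons_of_mem _ hq)) v.2)

lemma kp_coprime : ∀ (l : List ℕ) (a : ℕ), (∀ p ∈ l, Nat.Coprime p a) →
    ∀ v, Nat.Coprime (kp l v) a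
  | [], a, _, _ => Nat.coprime_one_left a
  | p :: l, a, h, v => Nat.Coprime.mul_left (Nat.Coprime.pow_left _ (h p List.mem_cons_self))
      (kp_coprime l a (fun q hq => h q (List.mem_cons_of_mem _ hq)) v.2)

lemma ch_eq {p i : ℕ} (h : i < p) : ch p i = Sum.inl ⟨i, h⟩ := dif_pos h

lemma jv_bs (d : ℕ) : ∀ (l : List ℕ), (∀ p ∈ l, 1 ≤ p) → jv d l (bs l) = 1
  | [], _ => rfl
  | p :: l, h => by
    have := jv_bs d l fun q hq => h q (List.mem_cons_of_mem _ hq)
    simp [jv, bs, ch_eq (h p List.mem_cons_self), lev, this]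

/-- The root of unity of a vertex of the star. -/
def rtz {R : Type} [CommMonoid R] (ζ : ℕ → R) (p : ℕ) : Zp p → R :=
  Sum.elim (fun i => ζ p ^ (i : ℕ)) fun _ => 1

def zz {R : Type} [CommMonoid R] (ζ : ℕ → R) : (l : List ℕ) → Vx l → R
  | [], _ => 1
  | p :: l, v => rtz ζ p v.1 * zz ζ l v.2

lemma zz_bs {R : Type} [CommMonoid R] (ζ : ℕ → R) :
    ∀ (l : List ℕ), (∀ p ∈ l, 1 ≤ p) → zz ζ l (bs l) = 1
  | [], _ => rfl
  | p :: l, h => by
    have := zz_bs ζ l fun q hq => h q (List.mem_cons_of_mem _ hq)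
    simp [zz, bs, ch_eq (h p List.mem_cons_self), rtz, this]

/-- Index set of the pole vectors. -/
def Tx : List ℕ → Type
  | [] => Unit
  | p :: l => (Bool × Fin p) × Tx l

instance instFintypeTx : (l : List ℕ) → Fintype (Tx l)
  | [] => inferInstanceAs (Fintype Unit)
  | p :: l => letI := instFintypeTx l; inferInstanceAs (Fintype ((Bool × Fin p) × Tx l))

/-- Local pole vector. -/
def loc (p : ℕ) (τ : Bool × Fin p) : Zp p → ℕ :=
  Sum.elim (fun i => if τ.1 then (if (τ.2 : ℕ) = 0 then 1 else 0) else if τ.2 = i then 1 else 0)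
    ![1, if τ.1 then (if (τ.2 : ℕ) = 0 then 1 else 0) else 0, if τ.1 then 1 else 0]

def om : (l : List ℕ) → Tx l → Vx l → ℕ
  | [], _, _ => 1
  | p :: l, τ, v => loc p τ.1 v.1 * om l τ.2 v.2

def tht {R : Type} [CommMonoid R] (ζ : ℕ → R) : (l : List ℕ) → Tx l → R
  | [], _ => 1
  | p :: l, τ => ζ p ^ (τ.1.2 : ℕ) * tht ζ l τ.2

/-- `τ` belongs to the class of `k`. -/
def cls (k : ℕ) : (l : List ℕ) → Tx l → Prop
  | [], _ => True
  | p :: l, τ => (τ.1.1 = true ↔ p ∣ k) ∧ cls k l τ.2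

/-! ### Group algebras and series -/

abbrev BB (R : Type) [CommRing R] (N : ℕ) : Type := AddMonoidAlgebra R (ZMod N)

section BB
variable {R : Type} [CommRing R] {N : ℕ}

/-- Change of coefficients. -/
def mp {S : Type} [CommRing S] (N : ℕ) (f : R →+* S) : BB R N →+* BB S N :=
  AddMonoidAlgebra.mapRingHom (ZMod N) f

@[simp] lemma coeff_mp {S : Type} [CommRing S] (f : R →+* S) (y : BB R N) (c : ZMod N) :
    (mp N f y).coeff c = f (y.coeff c) := AddMonoidAlgebra.coeff_mapRingHom f y c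

@[simp] lemma mp_single {S : Type} [CommRing S] (f : R →+* S) (c : ZMod N) (r : R) :
    mp N f (single c r) = single c (f r) := AddMonoidAlgebra.mapRingHom_single f c r

/-- The augmentation. -/
def aug : BB R N →ₐ[R] R := AddMonoidAlgebra.lift R R (ZMod N) 1

@[simp] lemma aug_single (c : ZMod N) (r : R) : aug (single c r) = r := by
  simp [aug, AddMonoidAlgebra.lift_single]

lemma bb_sum [NeZero N] (y : BB R N) : y = ∑ c, single c (y.coeff c) := by
  ext c
  simp [AddMonoidAlgebra.coeff_sum, Finsupp.finset_sum_apply, Finsupp.single_apply]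

lemma aug_eq [NeZero N] (y : BB R N) : aug y = ∑ c, y.coeff c := by
  conv_lhs => rw [bb_sum y]
  simp only [map_sum, aug_single]

lemma coeff_mul_bb [NeZero N] (y y' : BB R N) (c : ZMod N) :
    (y * y').coeff c = ∑ c', y.coeff c' * y'.coeff (c - c') := by
  conv_lhs => rw [bb_sum y]
  rw [sum_mul, AddMonoidAlgebra.coeff_sum, Finsupp.finset_sum_apply]
  refine sum_congr rfl fun c' _ => ?_
  rw [AddMonoidAlgebra.coeff_single_mul_apply, neg_add_eq_sub]

/-- The coefficient functional. -/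
def cf (c : ZMod N) : BB R N →ₗ[R] R where
  toFun y := y.coeff c
  map_add' _ _ := rfl
  map_smul' _ _ := rfl

@[simp] lemma cf_apply (c : ZMod N) (y : BB R N) : cf c y = y.coeff c := rfl

/-- The sum of the coefficients at multiples of `n`. -/
def lamn [NeZero N] (n : ℕ) : BB R N →ₗ[R] R := ∑ c : ZMod N, if n ∣ c.val then cf c else 0

lemma lamn_apply [NeZero N] (n : ℕ) (y : BB R N) :
    lamn n y = ∑ c : ZMod N, if n ∣ c.val then y.coeff c else 0 := by
  rw [lamn, LinearMap.sum_apply]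
  exact sum_congr rfl fun c _ => by split_ifs <;> rfl

/-- The derivative at `g = 1`. -/
def d1 [NeZero N] : BB R N →ₗ[R] R := ∑ c : ZMod N, (c.val : R) • cf c

lemma d1_apply [NeZero N] (y : BB R N) : d1 y = ∑ c : ZMod N, (c.val : R) * y.coeff c := by
  rw [d1, LinearMap.sum_apply]
  rfl

/-- `g - 1`. -/
def eps (R : Type) [CommRing R] (N : ℕ) : BB R N := single 1 1 - 1

/-- The section of a series at a residue class. -/
def sec (c : ZMod N) (f : R⟦X⟧) : R⟦X⟧ :=
  PowerSeries.mk fun n => if (n : ZMod N) = c then coeff n f else 0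

/-- The substitution `X ↦ g X`. -/
def Dl (N : ℕ) [NeZero N] : R⟦X⟧ →+* BB R⟦X⟧ N where
  toFun f := ∑ c, single c (sec c f)
  map_zero' := by
    refine sum_eq_zero fun c _ => ?_
    have : sec c (0 : R⟦X⟧) = 0 := by ext n; simp [sec]
    simp [this]
  map_one' := by
    rw [sum_eq_single 0]
    · have : sec (0 : ZMod N) (1 : R⟦X⟧) = 1 := by
        ext n
        rcases n with _ | n <;> simp [sec, coeff_one]
      rw [this]
      rfl
    · intro c _ hc
      have : sec c (1 : R⟦X⟧) = 0 := by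
        ext n
        rcases n with _ | n <;> simp [sec, coeff_one, hc.symm]
      simp [this]
    · simp
  map_add' f g := by
    rw [← sum_add_distrib]
    refine sum_congr rfl fun c _ => ?_
    have : sec c (f + g) = sec c f + sec c g := by
      ext n
      simp only [sec, coeff_mk, map_add]
      split_ifs <;> simp
    rw [this, AddMonoidAlgebra.single_add]
  map_mul' f g := by
    have h : ∀ (f : R⟦X⟧) (c : ZMod N), (∑ c : ZMod N, single c (sec c f) : BB R⟦X⟧ N).coeff c = sec c f := by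
      intro f c
      simp [AddMonoidAlgebra.coeff_sum, Finsupp.finset_sum_apply, Finsupp.single_apply]
    ext c n
    rw [coeff_mul_bb]
    simp only [h]
    simp only [map_sum, coeff_mul, sec, coeff_mk]
    rw [sum_comm]
    split_ifs with hc
    · refine sum_congr rfl fun q hq => ?_
      have hq' : ((q.1 : ZMod N) + q.2) = c := by
        rw [← hc, ← mem_antidiagonal.1 hq, Nat.cast_add]
      rw [sum_eq_single (q.1 : ZMod N)]
      · rw [if_pos rfl, if_pos (by rw [← hq']; ring)]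
      · intro c' _ hc'
        rw [if_neg hc'.symm, zero_mul]
      · simp
    · refine (sum_eq_zero fun q hq => sum_eq_zero fun c' _ => ?_).symm
      by_cases h1 : (q.1 : ZMod N) = c'
      · rw [if_neg (c := (q.2 : ZMod N) = c - c'), mul_zero]
        intro h2
        apply hc
        rw [← mem_antidiagonal.1 hq, Nat.cast_add, h1, h2]
        ring
      · rw [if_neg h1, zero_mul]

lemma coeff_Dl [NeZero N] (f : R⟦X⟧) (c : ZMod N) : (Dl N f).coeff c = sec c f := by
  simp [Dl, AddMonoidAlgebra.coeff_sum, Finsupp.finset_sum_apply, Finsupp.single_apply]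

lemma Dl_monomial [NeZero N] (r : R) (n : ℕ) :
    Dl N (C r * X ^ n) = single (n : ZMod N) (C r * X ^ n) := by
  ext c m
  rw [coeff_Dl, AddMonoidAlgebra.coeff_single, Finsupp.single_apply]
  simp only [sec, coeff_mk, coeff_C_mul, coeff_X_pow]
  by_cases h : m = n
  · subst h
    split_ifs <;> simp_all
  · split_ifs <;> simp [coeff_X_pow, h]

lemma aug_Dl [NeZero N] (f : R⟦X⟧) : aug (Dl N f) = f := by
  rw [aug_eq]
  ext n
  simp [coeff_Dl, sec]

/-- The substitution `X ↦ (w X) ^ j`. -/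
def sb (j : ℕ) (w : R) (f : R⟦X⟧) : R⟦X⟧ :=
  PowerSeries.mk fun n => if j ∣ n then coeff (n / j) f * w ^ n else 0

/-- The substitution as a ring homomorphism. -/
def sbH (j : ℕ) (hj : j ≠ 0) (w : R) : R⟦X⟧ →+* R⟦X⟧ :=
  (rescale w).comp (PowerSeries.expand j hj).toRingHom

lemma sbH_apply (j : ℕ) (hj : j ≠ 0) (w : R) (f : R⟦X⟧) : sbH j hj w f = sb j w f := by
  ext n
  simp only [sbH, sb, RingHom.comp_apply, coeff_rescale, coeff_mk]
  change w ^ n * coeff n (PowerSeries.expand j hj f) = _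
  rw [coeff_expand]
  split_ifs <;> simp [mul_comm]

/-- The series `P ((w X) ^ j)`. -/
def yv (d j : ℕ) (w : R) : R⟦X⟧ := sb j w (PP R d)

/-- The section of the generating function at `b` modulo `a`. -/
def SS (R : Type) [CommRing R] (d a b : ℕ) : R⟦X⟧ :=
  PowerSeries.mk fun n => if n % a = b % a then (pd d n : R) else 0

end BB

/-- `(x g) ^ (- j b) P ((x z g X) ^ j)`. -/
def YY {F : Type} [Field F] (N : ℕ) [NeZero N] (d b j : ℕ) (x z : F) : BB F⟦X⟧ N :=
  single (-((j * b : ℕ) : ZMod N)) (C (x⁻¹ ^ (j * b))) * Dl N (yv d j (x * z))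

section ND
variable {R : Type} [CommRing R] {N : ℕ} {J Xt Rr : Type} [Fintype J] [Fintype Xt]

/-- Non-degeneracy. -/
def ND (ρ : Rr → Xt → ℤ) (v0 v1 : Xt) (Y : J → Xt → BB R N) : Prop :=
  ∀ u : J → Xt → BB R N, (∀ i r, ∑ v, ρ r v • u i v = 0) → (∀ i, u i v0 = u i v1) →
    (∀ v, ∑ i, (Y i v * u i v).coeff 0 = 0) → u = 0

/-- Non-degeneracy in terms of the inverses. -/
def NDZ (ρ : Rr → Xt → ℤ) (v0 v1 : Xt) (Zf : J → Xt → BB R N) : Prop :=
  ∀ u : J → Xt → BB R N, (∀ i r, ∑ v, ρ r v • (Zf i v * u i v) = 0) →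
    (∀ i, Zf i v0 * u i v0 = Zf i v1 * u i v1) → (∀ v, ∑ i, (u i v).coeff 0 = 0) → u = 0

lemma nd_iff {ρ : Rr → Xt → ℤ} {v0 v1 : Xt} {Y Zf : J → Xt → BB R N}
    (h : ∀ i v, Y i v * Zf i v = 1) : ND ρ v0 v1 Y ↔ NDZ ρ v0 v1 Zf := by
  constructor
  · intro H u h1 h2 h3
    have e : ∀ i v, Y i v * (Zf i v * u i v) = u i v := fun i v => by rw [← mul_assoc, h, one_mul]
    have := H (fun i v => Zf i v * u i v) h1 h2 fun v => by simpa only [e] using h3 v
    funext i v
    rw [← e i v, show Zf i v * u i v = 0 from congrFun (congrFun this i) v, mul_zero]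
    rfl
  · intro H u h1 h2 h3
    have e : ∀ i v, Zf i v * (Y i v * u i v) = u i v := fun i v => by
      rw [← mul_assoc, mul_comm (Zf i v), h, one_mul]
    have := H (fun i v => Y i v * u i v) (by simpa only [e] using h1) (by simpa only [e] using h2) h3
    funext i v
    rw [← e i v, show Y i v * u i v = 0 from congrFun (congrFun this i) v, mul_zero]
    rfl

end ND

/-- A non-degenerate point of the torus. -/
def NDP (F : Type) [Field F] (a' N p : ℕ) (l : List ℕ) : Prop :=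
  ∃ h : Fin a' → Vx (p :: l) → (BB F N)ˣ, (∀ i, Cm (p :: l) (h i)) ∧
    ND (rho (p :: l)) (bs (p :: l)) (vv N p l) fun i v => (h i v : BB F N)

/-- The functionals attached to the labels. -/
def eF {F : Type} [Field F] (a' N M : ℕ) (z : F) (t : Fin a' → ZMod N × ZMod M) :
    (Fin a' → BB F N) →ₗ[F] F :=
  ∑ i, z ^ (t i).2.val • (cf (-(t i).1)).comp (LinearMap.proj i)

/-- The lists of the second phase. -/
def lst (l : List ℕ) (p : ℕ → ℕ) : ℕ → List ℕ
  | 0 => l
  | k + 1 => p k :: lst l p k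

/-- The polynomial ring over the prime field acts on the field of Laurent series over `F`. -/
def io (q : ℕ) (F : Type) [Field F] [Algebra (ZMod q) F] :
    (ZMod q)⟦X⟧ →+* FractionRing F⟦X⟧ :=
  (algebraMap F⟦X⟧ (FractionRing F⟦X⟧)).comp (PowerSeries.map (algebraMap (ZMod q) F))

end

end Pool.Agent.P.MP_85b516_nt.LD
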