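import Pool.Agent.P.MP_85b516_nt.LD.Stm

/-! The grid argument (Theorem LD, MP_85b516_nt). -/

open Finset Module

namespace Pool.Agent.P.MP_85b516_nt.LD

noncomputable section

namespace PGrid

variable {F : Type} [Field F] {Λ V : Type} [AddCommGroup Λ] [AddCommGroup V] [Module F V]
  {Xt Z : Type} [Fintype Z] [DecidableEq Z]

/-- `t` in slice `y0`, `-t` in slice `y1`. -/
def two (G : AddSubgroup (Xt → Λ)) (c : Z → ℤ) (y0 y1 : Z) (h : y0 ≠ y1) (h0 : c y0 = 1)
    (h1 : c y1 = 1) (t : G) : extG G c :=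
  ⟨fun q => if q.1 = y0 then t.1 q.2 else if q.1 = y1 then -t.1 q.2 else 0, by
    refine ⟨fun x => ?_, fun v => ?_⟩
    · by_cases e0 : x = y0
      · simp only [e0, if_true]
        exact t.2
      · by_cases e1 : x = y1
        · simp only [e1, h.symm, if_false, if_true]
          exact G.neg_mem t.2
        · simp only [e0, e1, if_false]
          exact G.zero_mem
    · rw [← sum_subset (subset_univ {y0, y1}), sum_pair h]
      · simp [h.symm, h0, h1]
      · intro x _ hx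
        simp only [mem_insert, mem_singleton, not_or] at hx
        simp [hx.1, hx.2]⟩

open scoped Classical in
/-- Transport of a kernel vector from slice `y2` to slice `y0`. -/
def tr (e : Λ → V →ₗ[F] F) (U : Submodule F (Xt → V)) (c : Z → ℤ) (y0 y2 : Z) (ω : Z × Xt → Λ)
    (w : Xt → V) : U :=
  if h : ∃ κ ∈ Ker e (extU U c) ω, sl F y2 κ = w then
    ⟨sl F y0 h.choose, (Ker_le _ _ _ h.choose_spec.1).1 y0⟩ else 0

variable {e : Λ → V →ₗ[F] F} {U : Submodule F (Xt → V)} {c : Z → ℤ} {y0 y2 : Z} {ω : Z × Xt → Λ}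

omit [DecidableEq Z] in
lemma tr_mem (w : Xt → V) : (tr e U c y0 y2 ω w).1 ∈ Ker e U fun v => ω (y0, v) := by
  unfold tr
  split_ifs with h
  · exact (mem_Ker_ext.1 h.choose_spec.1).2 y0
  · exact zero_mem _

omit [DecidableEq Z] in
lemma tr_eq (hg : RowGood e U c ω) {κ : Z × Xt → V} (hκ : κ ∈ Ker e (extU U c) ω) :
    (tr e U c y0 y2 ω (sl F y2 κ)).1 = sl F y0 κ := by
  have h : ∃ κ' ∈ Ker e (extU U c) ω, sl F y2 κ' = sl F y2 κ := ⟨κ, hκ, rfl⟩
  have e1 : h.choose = κ := sub_eq_zero.1 ((hg y2).1 _ (sub_mem h.choose_spec.1 hκ)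
    (by rw [map_sub, h.choose_spec.2, sub_self]))
  unfold tr
  rw [dif_pos h]
  exact congrArg (sl F y0) e1

end PGrid

open PGrid

theorem s_grid (h1 : S_Ind) (h2 : S_Dep) (h3 : S_Blr) (h4 : S_Univ) (h5 : S_Hol) : S_Grid := by
  intro F Λ V Xt Z _ _ _ _ _ _ _ _ e G U c lam mu eta y0 y1 y2 hc hlam hG hmu n01 n02 n12 c0 c1 c2
    heta hsm
  classical
  have : Nontrivial Z := ⟨⟨y0, y1, n01⟩⟩
  set ε : ℝ := 2 * Fintype.card Z * eta + (Fintype.card Z : ℝ) ^ 4 * lam * mu with hε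
  have eta0 : 0 ≤ eta := (pr_nonneg _).trans heta
  have mu0 : 0 ≤ mu := (av_nonneg fun _ => rk_nonneg _).trans hmu
  have ε0 : 0 ≤ ε := by positivity
  have hΛ : (1 : ℝ) ≤ Nat.card Λ := by exact_mod_cast Nat.card_pos
  let Bad : extG (extG G c) c → Prop := fun ω =>
    ((∃ i ∈ (univ : Finset Z), ¬ RowGood e U c (slG (extG G c) c i ω).1) ∨
      ∃ y ∈ (univ : Finset Z), ¬ RowGood e U c (colG G c y ω).1) ∨
      Dep (fun q => Ker e U (entG G c q ω).1) (univ.erase y2 ×ˢ univ.erase y0)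
  have hBad : pr Bad ≤ ε := by
    have a1 : ∀ i, pr (fun ω => ¬ RowGood e U c (slG (extG G c) c i ω).1) ≤ eta := fun i => by
      obtain ⟨z, hz⟩ := exists_ne i
      exact (((h1 F Λ (Z × Xt) Z (extG G c) c hc).1 z).pr_eq (j := i) (by simp [hz.symm])
        fun a => ¬ RowGood e U c a.1).le.trans heta
    have a2 : ∀ y, pr (fun ω => ¬ RowGood e U c (colG G c y ω).1) ≤ eta := fun y =>
      (pr_hom _ ((h1 F Λ Xt Z G c hc).2.2 inferInstance y)
        fun a => ¬ RowGood e U c a.1).le.trans heta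
    have a3 := h2 F (extG (extG G c) c) G (Xt → V) (Z × Z) (entG G c)
      (univ.erase y2 ×ˢ univ.erase y0) (fun t => Ker e U t.1) U lam mu
      ((h1 F Λ Xt Z G c hc).2.1 y2 y0) (fun t => Ker_le _ _ _) hlam hG hmu
    have a4 : (((univ.erase y2 ×ˢ univ.erase y0 : Finset (Z × Z)).card : ℕ) : ℝ) ^ 2 ≤
        (Fintype.card Z : ℝ) ^ 4 := by
      have : (univ.erase y2 ×ˢ univ.erase y0 : Finset (Z × Z)).card ≤ Fintype.card Z ^ 2 := by
        rw [sq, ← Fintype.card_prod]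
        exact card_le_univ _
      calc _ ≤ ((Fintype.card Z : ℝ) ^ 2) ^ 2 := by
            gcongr
            exact_mod_cast this
        _ = _ := by ring
    have b1 := (pr_exists univ fun i ω => ¬ RowGood e U c (slG (extG G c) c i ω).1).trans
      (sum_le_sum fun i _ => a1 i)
    have b2 := (pr_exists univ fun y ω => ¬ RowGood e U c (colG G c y ω).1).trans
      (sum_le_sum fun i _ => a2 i)
    rw [sum_const, card_univ, nsmul_eq_mul] at b1 b2
    have b3 := a3.trans (mul_le_mul_of_nonneg_right (mul_le_mul_of_nonneg_right a4 hlam) mu0)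
    refine (pr_or _ _).trans ((add_le_add ((pr_or _ _).trans (add_le_add b1 b2)) b3).trans ?_)
    rw [hε]
    linarith
  obtain ⟨ω0, hω0⟩ := exists_shift (two (extG G c) c y0 y1 n01 c0 c1) Bad
  have hω := hω0.trans hBad
  have erow : ∀ a, (slG (extG G c) c y2 (ω0 + two (extG G c) c y0 y1 n01 c0 c1 a)).1 =
      (slG (extG G c) c y2 ω0).1 := fun a => by
    funext q
    simp [two, n02.symm, n12.symm]
  have ecol : ∀ a y, (colG G c y (ω0 + two (extG G c) c y0 y1 n01 c0 c1 a)).1 =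
      (colG G c y ω0 + two G c y0 y1 n01 c0 c1 (slG G c y a)).1 := fun a y => by
    funext q
    simp [two]
  let P := Ker e (extU U c) (slG (extG G c) c y2 ω0).1
  let f : Z → G → P → U := fun y t u =>
    tr e U c y0 y2 (colG G c y ω0 + two G c y0 y1 n01 c0 c1 t).1 (sl F y u.1)
  have hsum : ∀ a, ¬ Bad (ω0 + two (extG G c) c y0 y1 n01 c0 c1 a) →
      ∑ y, c y • f y (slG G c y a) = 0 := fun a hb => by
    simp only [Bad, not_or, not_exists, not_and, not_not, mem_univ, true_implies] at hb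
    obtain ⟨⟨r1, r2⟩, r3⟩ := hb
    funext u
    have hu : u.1 ∈ Ker e (extU U c)
        (slG (extG G c) c y2 (ω0 + two (extG G c) c y0 y1 n01 c0 c1 a)).1 := by
      rw [erow]
      exact u.2
    choose κ hκ using fun y => (r2 y y2).2 (sl F y u.1) ((mem_Ker_ext.1 hu).2 y)
    have hh := h5 F Λ V Xt Z e G U c hc.1 _ y2 y0 r1 r3 u.1 hu κ hκ y0
    have ef : ∀ y, (f y (slG G c y a) u).1 = sl F y0 (κ y) := fun y => by
      simp only [f]
      rw [← ecol, ← (hκ y).2]
      exact tr_eq (r2 y) (hκ y).1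
    apply Subtype.ext
    funext v
    have := hh v
    simp only [Finset.sum_apply, Pi.smul_apply, AddSubmonoidClass.coe_finsetSum,
      Submodule.coe_smul_of_tower, ef, sl_apply]
    exact this
  obtain ⟨ψ, h0, hψ⟩ := h3 Λ Xt Z (P → U) G c f y0 y1 y2 ε n01 n02 n12 c0 c1 c2 (by nlinarith)
    ((pr_mono fun a ha => by_contra fun hb => ha (hsum a hb)).trans hω)
  let w0 : G := entG G c (y0, y0) ω0
  have eent : ∀ t : G, (fun v => (colG G c y0 ω0 + two G c y0 y1 n01 c0 c1 t).1 (y0, v)) =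
      (w0 + t).1 := fun t => by
    funext v
    simp [two, w0, entG]
  let ψ' : P → G →+ U := fun u => (Pi.evalAddMonoidHom (fun _ : P => U) u).comp ψ
  let u0 : P → U := fun u => h0 u - ψ w0 u
  have eaff : ∀ u t, ψ' u (w0 + t) + u0 u = (ψ t + h0) u := fun u t => by
    simp only [ψ', u0, map_add, AddMonoidHom.comp_apply, Pi.evalAddMonoidHom_apply, Pi.add_apply]
    abel
  have huniv : ∀ u (α : G), (ψ' u α + u0 u : U).1 ∈ Ker e U α.1 := fun u => by
    refine h4 F Λ V Xt e G U (ψ' u) (u0 u) (4 * ε) (by nlinarith) ?_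
    rw [← pr_bij (Equiv.addLeft w0).bijective]
    refine (pr_mono fun t ht he => ht ?_).trans hψ
    rw [Equiv.coe_addLeft, eaff, ← he, ← eent]
    exact tr_mem _
  have hind := (h1 F Λ Xt Z G c hc).1 y1
  have hy : y0 ∈ univ.erase y1 := by simp [n01]
  rw [← pr_bij (Equiv.addLeft w0).bijective, ← hind.pr_eq hy]
  rw [← hind.pr_eq hy] at hψ
  refine (pr_mono fun a ha => ?_).trans ((pr_or _ _).trans ((add_le_add hω hψ).trans
    (by linarith)))
  by_contra hb
  rw [not_or, not_not] at hb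
  obtain ⟨hb, he⟩ := hb
  simp only [Bad, not_or, not_exists, not_and, not_not, mem_univ, true_implies] at hb
  obtain ⟨⟨r1, r2⟩, -⟩ := hb
  refine ha fun w hw => ?_
  rw [Equiv.coe_addLeft] at hw ⊢
  have g0 := r2 y0
  have g2 := r1 y2
  obtain ⟨κ, hκ, rfl⟩ := (g0 y0).2 w (by rw [ecol, eent]; exact hw)
  obtain ⟨u, hu, hu'⟩ := (g2 y0).2 (sl F y2 κ) ((mem_Ker_ext.1 hκ).2 y2)
  rw [erow] at hu
  refine ⟨ψ' ⟨u, hu⟩, u0 ⟨u, hu⟩, huniv _, ?_⟩
  rw [eaff, ← he]
  simp only [f]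
  rw [← ecol, hu']
  exact (tr_eq g0 hκ).symm

end

end Pool.Agent.P.MP_85b516_nt.LD
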