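import Pool.Agent.P.MP_85b516_nt.LD.Stm

/-! Identification of the universal affine maps (Theorem LD, MP_85b516_nt). -/

set_option linter.unusedSectionVars false

open Finset Module
open AddMonoidAlgebra (single)

namespace Pool.Agent.P.MP_85b516_nt.LD

noncomputable section

namespace PID

lemma czI_ne {F : Type} [Field F] {p : ℕ} (hp : (p : F) ≠ 0) (x : Zp p) : (czI p x : F) ≠ 0 := by
  rcases x with i | i
  · simp [czI]
  · fin_cases i <;> simp [czI, hp]

lemma cw_fst {M : Type} [AddCommGroup M] {p : ℕ} {l : List ℕ} (f : Zp p → M)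
    (hf : ∑ x, czI p x • f x = 0) : Cw (p :: l) fun v => f v.1 :=
  ⟨fun x => Cw.const (f x) l, fun _ => hf⟩

lemma cw_snd {M : Type} [AddCommGroup M] {p : ℕ} {l : List ℕ} {w : Vx l → M} (hw : Cw l w) :
    Cw (p :: l) fun v => w v.2 :=
  ⟨fun _ => hw, fun v => by rw [sum_czI]; simp⟩

lemma mult (F : Type) [Field F] : ∀ l : List ℕ, (∀ q ∈ l, (q : F) ≠ 0) →
    ∀ s : Vx l → F, (∀ w : Vx l → ℤ, Cw l w → Cw l fun v => s v * w v) → ∀ v v', s v = s v'
  | [], _, _, _, _, _ => rfl
  | p :: l, hl, s, h, (x, v), (x', v') => by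
    have hp := hl p List.mem_cons_self
    have h1 : s (x', v) = s (x', v') :=
      mult F l (fun q hq => hl q (List.mem_cons_of_mem _ hq)) (fun v => s (x', v))
        (fun w hw => (h _ (cw_snd hw)).1 x') v v'
    have h2 := (h _ (cw_fst (l := l)
      (fun y => (if y = x then czI p x' else 0) - if y = x' then czI p x else 0) (by
        simp only [smul_eq_mul, mul_sub, mul_ite, mul_zero, sum_sub_distrib, sum_ite_eq', mem_univ,
          if_true]
        ring))).2 v
    simp only [Int.cast_sub, Int.cast_ite, Int.cast_zero, zsmul_eq_mul, mul_sub, mul_ite, mul_zero,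
      sum_sub_distrib, sum_ite_eq', mem_univ, if_true] at h2
    rw [← h1]
    refine mul_left_cancel₀ (mul_ne_zero (czI_ne hp x) (czI_ne hp x')) ?_
    linear_combination h2

lemma factor {G F : Type} [AddCommGroup G] [Field F] {N : ℕ} [NeZero N] (χ : ZMod N →+* F)
    (A : G →+ F) (s : G →+ ZMod N) (κ : G) (hκ : s κ = 1) (hA : ∀ β, s β = 0 → A β = 0) (β : G) :
    A β = χ (s β) * A κ := by
  have h := hA (β - (s β).val • κ) (by
    rw [map_sub, map_nsmul, hκ, nsmul_eq_mul, mul_one, ZMod.natCast_zmod_val, sub_self])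
  rw [map_sub, map_nsmul, sub_eq_zero, nsmul_eq_mul] at h
  rw [h, ← map_natCast χ, ZMod.natCast_zmod_val]

variable {F : Type} [Field F] {N M : ℕ} [NeZero N] [NeZero M] {z : F}

lemma pow_val_add (hz : z ^ M = 1) (a b : ZMod M) : z ^ (a + b).val = z ^ a.val * z ^ b.val := by
  rw [ZMod.val_add, ← pow_eq_pow_mod _ hz, pow_add]

/-- The point of the torus attached to a label. -/
def pt (N : ℕ) (hz : z ^ M = 1) : Multiplicative (ZMod N × ZMod M) →* BB F N where
  toFun t := single t.toAdd.1 (z ^ t.toAdd.2.val)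
  map_one' := by
    simp only [toAdd_one, Prod.fst_zero, Prod.snd_zero, ZMod.val_zero, pow_zero]
    rfl
  map_mul' a b := by
    simp only [toAdd_mul, Prod.fst_add, Prod.snd_add, pow_val_add hz,
      AddMonoidAlgebra.single_mul_single]

lemma eF_apply {a' : ℕ} (t : Fin a' → ZMod N × ZMod M) (u : Fin a' → BB F N) :
    eF a' N M z t u = ∑ i, z ^ (t i).2.val * (u i).coeff (-(t i).1) := by
  rw [eF, LinearMap.sum_apply]
  rfl

section Univ

variable {a' : ℕ} {L : List ℕ}
  (ψ : GG (Fin a' → ZMod N × ZMod M) L →+ UL F (Fin a' → BB F N) L) (u0 : UL F (Fin a' → BB F N) L)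

/-- A constant label. -/
def cst (L : List ℕ) (t : Fin a' → ZMod N × ZMod M) : GG (Fin a' → ZMod N × ZMod M) L :=
  ⟨fun _ => t, mem_GG.2 (Cw.const t L)⟩

lemma psi_kill (hM : (M : F) ≠ 0) (β : GG (Fin a' → ZMod N × ZMod M) L)
    (hβ : ∀ v i, (β.1 v i).1 = 0) : ψ β = 0 := by
  have h1 : M • β = 0 := by
    ext v i
    · simp [hβ v i]
    · simp
  have h2 := congrArg ψ h1
  rw [map_nsmul, map_zero, ← Nat.cast_smul_eq_nsmul F] at h2
  exact (smul_eq_zero.1 h2).resolve_left hM

lemma colour (hM : M.Prime) (hz : IsPrimitiveRoot z M)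
    (h : ∀ β, (ψ β + u0).1 ∈ Ker (eF a' N M z) (UL F (Fin a' → BB F N) L) β.1)
    (β : GG (Fin a' → ZMod N × ZMod M) L) (v : Vx L) (i : Fin a') :
    ((ψ β + u0).1 v i).coeff (-(β.1 v i).1) = 0 := by
  have hM0 : (M : F) ≠ 0 := (hz.neZero').out
  have h1 := (mem_Ker.1 (h β)).2 v
  have h2 := (mem_Ker.1 (h (β + cst L (Pi.single i (0, 1))))).2 v
  rw [map_add, psi_kill ψ hM0 (cst L _) (fun _ j => by
    by_cases hj : j = i
    · subst hj
      simp [cst]
    · simp [cst, hj]), add_zero] at h2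
  rw [eF_apply, ← add_sum_erase _ _ (mem_univ i)] at h1 h2
  have e : ∀ j, (β + cst L (Pi.single i (0, 1))).1 v j =
      β.1 v j + (Pi.single i (0, 1) : Fin a' → ZMod N × ZMod M) j := fun _ => rfl
  rw [sum_congr rfl fun j hj => by rw [e, Pi.single_eq_of_ne (ne_of_mem_erase hj), add_zero], e,
    Pi.single_eq_same, Prod.fst_add, Prod.snd_add, add_zero, pow_val_add hz.pow_eq_one] at h2
  have : Fact (1 < M) := ⟨hM.one_lt⟩
  rw [ZMod.val_one, pow_one] at h2
  refine mul_left_cancel₀ (mul_ne_zero (pow_ne_zero (β.1 v i).2.val (hz.ne_zero hM.ne_zero))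
    (sub_ne_zero.2 (hz.ne_one hM.one_lt))) ?_
  linear_combination h2 - h1

/-- One coefficient of a vector. -/
def ev (v : Vx L) (i : Fin a') (c : ZMod N) : UL F (Fin a' → BB F N) L →+ F where
  toFun u := (u.1 v i).coeff c
  map_zero' := rfl
  map_add' _ _ := rfl

/-- The first component of a label. -/
def lab (M : ℕ) (v : Vx L) (i : Fin a') : GG (Fin a' → ZMod N × ZMod M) L →+ ZMod N where
  toFun β := (β.1 v i).1
  map_zero' := rfl
  map_add' _ _ := rfl

lemma shape (χ : ZMod N →+* F) (hm : S_Mult) (hL : ∀ r ∈ L, (r : F) ≠ 0)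
    (h : ∀ (β : GG (Fin a' → ZMod N × ZMod M) L) v i,
      ((ψ β + u0).1 v i).coeff (-(β.1 v i).1) = 0) (i : Fin a') (c : ZMod N) :
    ∃ σ : Vx L → F, (∀ v v', σ v = σ v') ∧
      ∀ β v, ev v i c (ψ β + u0) = χ (lab M v i β + c) * σ v := by
  have h0 : ∀ v β, lab M v i β = -c → ev v i c (ψ β + u0) = 0 := fun v β hβ => by
    have := h β v i
    rwa [show (β.1 v i).1 = -c from hβ, neg_neg] at this
  have h1 : ∀ v β, ev v i c (ψ β) = χ (lab M v i β) * ev v i c (ψ (cst L fun _ => (1, 0))) :=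
    fun v => factor χ ((ev v i c).comp ψ) (lab M v i) _ rfl fun β hβ => by
      have e1 := h0 v (cst L fun _ => (-c, 0)) rfl
      have e2 := h0 v (β + cst L fun _ => (-c, 0)) (by rw [map_add, hβ, zero_add]; rfl)
      rw [map_add ψ, add_assoc, map_add, e1, add_zero] at e2
      exact e2
  refine ⟨fun v => ev v i c (ψ (cst L fun _ => (1, 0))), hm F L hL _ fun w hw => ?_, fun β v => ?_⟩
  · let β : GG (Fin a' → ZMod N × ZMod M) L := ⟨fun v => w v • fun _ => (1, 0),
      mem_GG.2 (hw.map (zmultiplesHom _ fun _ : Fin a' => ((1, 0) : ZMod N × ZMod M)))⟩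
    have h2 := (mem_UL.1 (ψ β).2).map
      ((cf (R := F) c).toAddMonoidHom.comp (Pi.evalAddMonoidHom (fun _ : Fin a' => BB F N) i))
    refine (congrArg (Cw L) (funext fun v => ?_)).mp h2
    have h3 : lab M v i β = w v := by simp [lab, β]
    have h4 := h1 v β
    rw [h3, map_intCast, mul_comm] at h4
    exact h4
  · have e1 := h0 v (cst L fun _ => (-c, 0)) rfl
    rw [map_add, h1, show lab M v i (cst L fun _ => (-c, 0)) = -c from rfl, map_neg] at e1
    rw [map_add, h1, map_add]
    linear_combination e1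

end Univ

end PID

theorem s_mult : S_Mult := PID.mult

open PID in
theorem s_id (hm : S_Mult) : S_ID := by
  intro q f a' N M p l F _ _ _ _ z hq hN hM hz hl hpr
  classical
  let π : GG (Fin a' → ZMod N × ZMod M) (p :: l) →+ (Fin a' → ZMod N) :=
    AddMonoidHom.pi fun i => lab M (vv N p l) i - lab M (bs (p :: l)) i
  have hp := (hl p List.mem_cons_self).1.two_le
  have hπ : Function.Surjective π := fun t => by
    by_cases h1 : N = 1
    · subst h1
      exact ⟨0, Subsingleton.elim _ _⟩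
    · refine ⟨⟨_, mem_GG.2 (cw_fst (l := l) (fun y => (if y = ch p 1 then fun i => (t i, 0) else 0) +
        if y = Sum.inr 0 then fun i => (t i, 0) else 0) ?_)⟩, funext fun i => ?_⟩
      · simp [smul_add, sum_add_distrib, ch_eq (show 1 < p by omega), czI]
      · simp [π, lab, vv, h1, bs, ch_eq (show 1 < p by omega), ch_eq (show 0 < p by omega)]
  have h1 : pr (fun α : GG (Fin a' → ZMod N × ZMod M) (p :: l) => ¬ Triv (eF a' N M z)
      (GG (Fin a' → ZMod N × ZMod M) (p :: l)) (UL F (Fin a' → BB F N) (p :: l)) α) <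
      pr fun α => π α = 1 := by
    rw [pr_hom π hπ fun t => t = 1, pr_single, Nat.card_fun, Nat.card_zmod, Nat.card_fin,
      lt_div_iff₀ (by exact_mod_cast pow_pos (NeZero.pos N) _)]
    refine lt_of_le_of_lt (mul_le_mul_of_nonneg_left ?_ (pr_nonneg _)) hpr
    exact_mod_cast Nat.pow_le_pow_left (Nat.le_mul_of_pos_right _ hM.pos) _
  obtain ⟨α, hα, hT⟩ := exists_of_pr_lt h1
  rw [not_not] at hT
  refine ⟨fun i v => (pt N hz.pow_eq_one).toHomUnits (Multiplicative.ofAdd (α.1 v i)), fun i => ?_,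
    fun u h2 h3 h4 => ?_⟩
  · exact (mem_GG.1 α.2).map ((MonoidHom.toAdditiveRight (pt N hz.pow_eq_one).toHomUnits).comp
      (Pi.evalAddMonoidHom (fun _ : Fin a' => ZMod N × ZMod M) i))
  obtain ⟨ψ, u0, h5, h6⟩ := hT (fun v i => u i v) (mem_Ker.2 ⟨mem_UL.2 ((cw_iff _ _).2 fun r =>
    funext fun i => by simpa using h2 i r), fun v => by
      rw [eF_apply, ← h4 v]
      refine sum_congr rfl fun i _ => ?_
      change _ = (single (α.1 v i).1 (z ^ (α.1 v i).2.val) * u i v).coeff 0
      rw [AddMonoidAlgebra.coeff_single_mul_apply, add_zero]⟩)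
  have h7 := colour ψ u0 hM hz h5
  have h8 : ∀ i v c, (u i v).coeff c = PID.ev v i c (ψ α + u0) := fun i v c =>
    congrArg (fun y : BB F N => y.coeff c) (congrFun (congrFun h6 v) i)
  funext i v
  ext c
  change (u i v).coeff c = 0
  by_cases h9 : N = 1
  · subst h9
    rw [h8, Subsingleton.elim c (-(α.1 v i).1)]
    exact h7 α v i
  · have hqN : q ∣ N := by
      rw [hN]
      exact dvd_pow_self q (by rintro rfl; exact h9 hN)
    obtain ⟨σ, s1, s2⟩ := shape ψ u0 (ZMod.castHom hqN F) hm (fun r hr => (hl r hr).2) h7 i c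
    have e1 := congrArg (fun y : BB F N => y.coeff c) (h3 i)
    have e2 : lab M (vv N p l) i α = lab M (bs (p :: l)) i α + 1 :=
      sub_eq_iff_eq_add'.1 (congrFun hα i)
    simp only [h8, s2, e2, map_add, map_one, s1 _ v] at e1
    rw [h8, s2, show σ v = 0 by linear_combination -e1, mul_zero]

end

end Pool.Agent.P.MP_85b516_nt.LD
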