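import Pool.Agent.P.MP_85b516_nt.LD.Stm

/-! Independence of slices and rarity of dependent kernels (Theorem LD, MP_85b516_nt). -/

open Finset Module

namespace Pool.Agent.P.MP_85b516_nt.LD

noncomputable section

namespace PInd

section lift
variable {Λ Xt Z : Type} [AddCommGroup Λ] [Fintype Z]

/-- The label with slice `a y • t` at `y`. -/
def lift (G : AddSubgroup (Xt → Λ)) (c a : Z → ℤ) (ha : ∑ y, c y * a y = 0) :
    G →+ extG G c where
  toFun t := ⟨fun q => a q.1 • t.1 q.2, fun x => G.zsmul_mem t.2 (a x), fun v => by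
    simp only [← mul_zsmul]
    rw [← Finset.sum_smul, ha, zero_smul]⟩
  map_zero' := Subtype.ext (funext fun q => by simp)
  map_add' s t := Subtype.ext (funext fun q => by simp)

lemma slG_lift (G : AddSubgroup (Xt → Λ)) (c a : Z → ℤ) (ha : ∑ y, c y * a y = 0) (y : Z)
    (t : G) : slG G c y (lift G c a ha t) = a y • t := rfl

variable [DecidableEq Z]

/-- The two-point coefficient vector. -/
def co (c : Z → ℤ) (x z y : Z) : ℤ := (if y = x then c z else 0) - if y = z then c x else 0

lemma sum_co (c : Z → ℤ) (x z : Z) : ∑ y, c y * co c x z y = 0 := by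
  simp only [co, mul_sub, mul_ite, mul_zero, sum_sub_distrib, sum_ite_eq', mem_univ, if_true]
  ring

omit [Fintype Z] in
lemma co_self (c : Z → ℤ) {x z : Z} (h : x ≠ z) : co c x z x = c z := by simp [co, h]

omit [Fintype Z] in
lemma co_ne (c : Z → ℤ) {x z y : Z} (h : y ≠ x) (h' : y ≠ z) : co c x z y = 0 := by
  simp [co, h, h']

end lift

lemma bij {Λ Xt : Type} [AddCommGroup Λ] [Finite Λ] [Finite Xt] (G : AddSubgroup (Xt → Λ))
    {n : ℤ} (hn : Function.Injective fun t : Λ => n • t) :
    Function.Bijective fun t : G => n • t := by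
  refine Finite.injective_iff_bijective.1 fun s t h => Subtype.ext (funext fun v => hn ?_)
  exact congrFun (congrArg Subtype.val h) v

section dep
variable {F A ι : Type} [Field F] [AddCommGroup A] [Module F A] [FiniteDimensional F A]

lemma rk_sup (K : ι → Submodule F A) (B : Finset ι) : rk (B.sup K) ≤ ∑ j ∈ B, rk (K j) := by
  classical
  induction B using Finset.induction_on with
  | empty => simp [rk]
  | insert x B hx ih =>
    rw [sup_insert, sum_insert hx]
    refine le_trans ?_ (add_le_add le_rfl ih)
    unfold rk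
    exact_mod_cast Submodule.finrank_add_le_finrank_add_finrank (K x) (B.sup K)

lemma one_le_rk {S : Submodule F A} {u : A} (hu : u ∈ S) (h0 : u ≠ 0) : 1 ≤ rk S := by
  have h : finrank F S ≠ 0 := fun h => h0 (by
    rw [Submodule.finrank_eq_zero] at h
    simpa [h] using hu)
  unfold rk
  exact_mod_cast Nat.one_le_iff_ne_zero.2 h

lemma dep_insert [DecidableEq ι] {K : ι → Submodule F A} {B : Finset ι} {x : ι} (hx : x ∉ B)
    (h : Dep K (insert x B)) : Dep K B ∨ 1 ≤ rk (B.sup K ⊓ K x) := by
  obtain ⟨u, h1, h2, j, hj, h3⟩ := h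
  rw [sum_insert hx] at h2
  by_cases h0 : u x = 0
  · refine Or.inl ⟨u, fun i hi => h1 i (mem_insert_of_mem hi), by simpa [h0] using h2, j, ?_, h3⟩
    rcases mem_insert.1 hj with rfl | hj
    · exact absurd h0 h3
    · exact hj
  · refine Or.inr (one_le_rk ⟨?_, h1 x (mem_insert_self x B)⟩ h0)
    rw [eq_neg_of_add_eq_zero_left h2]
    exact neg_mem (Submodule.sum_mem _ fun i hi =>
      (le_sup (f := K) hi : K i ≤ B.sup K) (h1 i (mem_insert_of_mem hi)))

end dep

end PInd

open PInd

theorem s_ind : S_Ind := by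
  intro F Λ Xt Z _ _ _ _ _ _ G c hc
  refine ⟨fun z x hx => ?_, fun i y q hq => ?_, fun _ y => ?_⟩
  · have hxz : x ≠ z := ne_of_mem_erase hx
    refine ⟨lift G c (co c x z) (sum_co c x z), ?_, fun j hj hne t => ?_⟩
    · simp only [slG_lift, co_self c hxz]
      exact bij G (hc.2 z)
    · rw [slG_lift, co_ne c hne (ne_of_mem_erase hj), zero_smul]
  · obtain ⟨h1, h2⟩ := mem_product.1 hq
    have e : ∀ (r : Z × Z) (t : G), entG G c r (((lift (extG G c) c (co c q.1 i)
        (sum_co c q.1 i)).comp (lift G c (co c q.2 y) (sum_co c q.2 y))) t) =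
        co c q.1 i r.1 • co c q.2 y r.2 • t := fun r t => rfl
    refine ⟨_, ?_, fun j hj hne t => (e j t).trans ?_⟩
    · simp only [e, co_self c (ne_of_mem_erase h1), co_self c (ne_of_mem_erase h2)]
      exact (bij G (hc.2 i)).comp (bij G (hc.2 y))
    · obtain ⟨h3, h4⟩ := mem_product.1 hj
      by_cases h5 : j.1 = q.1
      · have h6 : j.2 ≠ q.2 := fun h6 => hne (Prod.ext h5 h6)
        rw [co_ne c h6 (ne_of_mem_erase h4), zero_smul, smul_zero]
      · rw [co_ne c h5 (ne_of_mem_erase h3), zero_smul]
  · obtain ⟨z, hz⟩ := exists_ne y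
    intro τ
    obtain ⟨σ, rfl⟩ := (bij (extG G c) (hc.2 z)).2 τ
    refine ⟨⟨fun q => co c y z q.2.1 • σ.1 (q.1, q.2.2), fun i =>
      (lift G c (co c y z) (sum_co c y z) (slG G c i σ)).2, fun v => ?_⟩, ?_⟩
    · simp only [smul_comm (c _) (co c y z v.1)]
      rw [← Finset.smul_sum, σ.2.2 v.2, smul_zero]
    · refine Subtype.ext (funext fun q => ?_)
      simp [co_self c hz.symm]

theorem s_dep : S_Dep := by
  classical
  intro F Ω G A ι _ _ _ _ _ _ _ _ π J K U lam mu hI hU hl hG hmu
  have hm : 0 ≤ mu := (av_nonneg fun t => rk_nonneg (K t)).trans hmu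
  have key : ∀ B : Finset ι, B ⊆ J →
      pr (fun ω => Dep (fun j => K (π j ω)) B) ≤ B.card * (J.card * lam * mu) := by
    intro B
    induction B using Finset.induction_on with
    | empty =>
      intro _
      refine (pr_mono (q := fun _ => False) fun ω h => ?_).trans (by simp [pr_false])
      obtain ⟨u, -, -, j, hj, -⟩ := h
      simp at hj
    | insert x B hx ih =>
      intro hB
      have hB' : B ⊆ J := fun j hj => hB (mem_insert_of_mem hj)
      have h1 : pr (fun ω => 1 ≤ rk (B.sup (fun j => K (π j ω)) ⊓ K (π x ω))) ≤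
          J.card * lam * mu := by
        refine (pr_le_av (fun ω => rk_nonneg _) fun ω h => h).trans ?_
        rw [hI.cond (hB (mem_insert_self x B)) (fun ω => B.sup fun j => K (π j ω))
          (fun ω ω' hh => sup_congr rfl fun j hj => by
            rw [hh j (hB' hj) (ne_of_mem_of_not_mem hj hx)]) fun S t => rk (S ⊓ K t)]
        calc _ ≤ av fun ω => lam * ∑ j ∈ B, rk (K (π j ω)) := av_mono fun ω =>
              (hG _ (Finset.sup_le fun j _ => hU _)).trans
                (mul_le_mul_of_nonneg_left (rk_sup _ B) hl)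
          _ = lam * ∑ j ∈ B, av fun t => rk (K t) := by
              rw [av_mul, av_sum]
              congr 1
              exact sum_congr rfl fun j hj => hI.av_eq (hB' hj) fun t => rk (K t)
          _ ≤ lam * (J.card * mu) := by
              refine mul_le_mul_of_nonneg_left ?_ hl
              refine (sum_le_card_nsmul _ _ mu fun j _ => hmu).trans ?_
              rw [nsmul_eq_mul]
              exact mul_le_mul_of_nonneg_right (by exact_mod_cast card_le_card hB') hm
          _ = _ := by ring
      refine (pr_mono fun ω h => dep_insert hx h).trans ((pr_or _ _).trans ?_)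
      rw [card_insert_of_notMem hx]
      push_cast
      linarith [ih hB']
  refine (key J Subset.rfl).trans_eq (by ring)

end

end Pool.Agent.P.MP_85b516_nt.LD
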