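import Pool.Agent.P.MP_85b516_nt.LD.Stm

/-! Package Int for Theorem LD (MP_85b516_nt): every point of the torus is a value of the
polynomial model. -/

open Finset
open AddMonoidAlgebra (single)

namespace Pool.Agent.P.MP_85b516_nt.LD

namespace PInt

lemma cls_congr {k k' : ℕ} : ∀ (l : List ℕ), k ≡ k' [MOD l.prod] → ∀ τ : Tx l,
    (cls k l τ ↔ cls k' l τ)
  | [], _, _ => Iff.rfl
  | p :: l, h, τ => by
    rw [List.prod_cons] at h
    have h1 : k ≡ k' [MOD p] := h.of_mul_right _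
    have h2 : k ≡ k' [MOD l.prod] := h.of_mul_left _
    have h3 : p ∣ k ↔ p ∣ k' := h1.dvd_iff dvd_rfl
    exact and_congr (by rw [h3]) (cls_congr l h2 τ.2)

instance finTx (l : List ℕ) : Finite (Tx l) := Finite.of_fintype _

lemma card_cls (k : ℕ) : ∀ l : List ℕ, Nat.card {τ : Tx l // cls k l τ} ≤ l.prod
  | [] => by
    have : Nat.card {τ : Tx [] // cls k [] τ} ≤ Nat.card Unit :=
      Nat.card_le_card_of_injective (fun τ => (τ.1 : Unit)) Subtype.val_injective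
    simpa using this
  | p :: l => by
    have h : Nat.card {τ : Tx (p :: l) // cls k (p :: l) τ} ≤
        Nat.card (Fin p × {τ : Tx l // cls k l τ}) := by
      refine Nat.card_le_card_of_injective (fun τ => (τ.1.1.2, ⟨τ.1.2, τ.2.2⟩)) ?_
      rintro ⟨⟨⟨b, i⟩, τ⟩, h1, h2⟩ ⟨⟨⟨b', i'⟩, τ'⟩, h1', h2'⟩ e
      obtain ⟨e1, e2⟩ := Prod.mk.inj e
      have e3 : τ = τ' := congrArg Subtype.val e2
      have e4 : b = b' := Bool.eq_iff_iff.2 (h1.trans h1'.symm)
      have e5 : i = i' := e1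
      subst e3 e4 e5
      rfl
    rw [Nat.card_prod, Nat.card_fin] at h
    rw [List.prod_cons]
    exact h.trans (Nat.mul_le_mul_left _ (card_cls k l))

lemma exists_k : ∀ (l : List ℕ), l.Nodup → (∀ p ∈ l, p.Prime) → ∀ (n r : ℕ),
    (∀ p ∈ l, Nat.Coprime n p) → ∀ τ : Tx l,
    ∃ k, k ≡ r [MOD n] ∧ (∀ p ∈ l, p ∣ k ∨ k ≡ 1 [MOD p]) ∧ cls k l τ
  | [], _, _, _, r, _, _ => ⟨r, rfl, by simp, trivial⟩
  | p :: l, hn, hp, n, r, hc, τ => by
    have hpp : p.Prime := hp p List.mem_cons_self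
    obtain ⟨hpl, hn'⟩ := List.nodup_cons.1 hn
    obtain ⟨r', hr1, hr2⟩ := Nat.chineseRemainder (hc p List.mem_cons_self) r
      (if τ.1.1 = true then 0 else 1)
    obtain ⟨k, hk1, hk2, hk3⟩ := exists_k l hn' (fun q hq => hp q (List.mem_cons_of_mem _ hq))
      (n * p) r' (fun q hq => Nat.Coprime.mul_left (hc q (List.mem_cons_of_mem _ hq))
        ((Nat.coprime_primes hpp (hp q (List.mem_cons_of_mem _ hq))).2
          fun e => hpl (e ▸ hq))) τ.2
    have hkp : k ≡ (if τ.1.1 = true then 0 else 1) [MOD p] := (hk1.of_mul_left _).trans hr2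
    refine ⟨k, (hk1.of_mul_right _).trans hr1, ?_, ?_, hk3⟩
    · intro q hq
      rcases List.mem_cons.1 hq with rfl | hq
      · split_ifs at hkp
        · exact Or.inl ((Nat.modEq_zero_iff_dvd).1 hkp)
        · exact Or.inr hkp
      · exact hk2 q hq
    · split_ifs at hkp with hb
      · exact ⟨fun _ => (Nat.modEq_zero_iff_dvd).1 hkp, fun _ => hb⟩
      · refine ⟨fun h => absurd h hb, fun h => ?_⟩
        exact absurd ((hkp.dvd_iff dvd_rfl).1 h) hpp.not_dvd_one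

lemma tht_ne {F : Type} [Field F] (ζ : ℕ → F) : ∀ (l : List ℕ), (∀ p ∈ l, ζ p ≠ 0) →
    ∀ τ : Tx l, tht ζ l τ ≠ 0
  | [], _, _ => one_ne_zero
  | p :: l, h, τ => mul_ne_zero (pow_ne_zero _ (h p List.mem_cons_self))
      (tht_ne ζ l (fun q hq => h q (List.mem_cons_of_mem _ hq)) τ.2)

lemma prod_sq {B : Type} [CommMonoid B] (M : ℕ) (g : ℕ → B) :
    ∏ k ∈ Icc 1 (M ^ 2), g k = ∏ r : Fin M, ∏ s : Fin M, g ((r : ℕ) + M * s + 1) := by
  have e1 : ∏ k ∈ Icc 1 (M ^ 2), g k = ∏ k ∈ range (M * M), g (k + 1) := by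
    rw [sq, ← Finset.Ico_add_one_right_eq_Icc, Finset.prod_Ico_eq_prod_range]
    simp [add_comm]
  rw [e1, Finset.prod_range, ← finProdFinEquiv.prod_comp, Fintype.prod_prod_type, prod_comm]
  rfl

/-- Admissible indices. -/
def Gd (n : ℕ) (l : List ℕ) (k : ℕ) : Prop := k ≡ 1 [MOD n] ∧ ∀ p ∈ l, p ∣ k ∨ k ≡ 1 [MOD p]

lemma gd_congr {n : ℕ} {l : List ℕ} {k k' : ℕ} (h : k ≡ k' [MOD n * l.prod]) (hk : Gd n l k) :
    Gd n l k' := by
  refine ⟨(h.of_mul_right _).symm.trans hk.1, fun p hp => ?_⟩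
  have h1 : k ≡ k' [MOD p] := (h.of_mul_left _).of_dvd (List.dvd_prod hp)
  rcases hk.2 p hp with h2 | h2
  · exact Or.inl ((h1.dvd_iff dvd_rfl).1 h2)
  · exact Or.inr (h1.symm.trans h2)

lemma fac_eq {F : Type} [Field F] {N a' : ℕ} {ξ : F} (hξ : ξ ^ a' = 1) {k : ℕ}
    (hk : k ≡ 1 [MOD N * a']) (i j d : ℕ) (w t : F) :
    (single ((j * k ^ d : ℕ) : ZMod N) ((ξ ^ i * w) ^ (j * k ^ d) * t ^ j) : BB F N) =
      algebraMap F (BB F N) (w ^ (j * k ^ d)) * (single (1 : ZMod N) (ξ ^ i * t)) ^ j := by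
  have h1 : k ^ d ≡ 1 [MOD N * a'] := by simpa using hk.pow d
  have h2 : ((j * k ^ d : ℕ) : ZMod N) = (j : ZMod N) := by
    have := (ZMod.natCast_eq_natCast_iff _ _ _).2 (h1.of_mul_right a')
    rw [Nat.cast_mul, this, Nat.cast_one, mul_one]
  have h3 : ξ ^ (k ^ d) = ξ := by
    have h4 : k ^ d ≡ 1 [MOD a'] := h1.of_mul_left N
    rw [pow_eq_pow_mod _ hξ, h4, ← pow_eq_pow_mod _ hξ, pow_one]
  have h5 : (ξ ^ i) ^ (j * k ^ d) = (ξ ^ i) ^ j := by
    rw [← pow_mul, show i * (j * k ^ d) = k ^ d * (i * j) by ring, pow_mul, h3, pow_mul]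
  rw [h2, AddMonoidAlgebra.single_pow, AddMonoidAlgebra.coe_algebraMap, Function.comp_apply,
    AddMonoidAlgebra.single_mul_single, mul_pow, mul_pow, h5]
  simp only [nsmul_eq_mul, mul_one, zero_add, Algebra.algebraMap_self, RingHom.id_apply]
  congr 1
  ring

lemma alg_mul {F : Type} [Field F] {N : ℕ} (w y : F) :
    algebraMap F (BB F N) w * (single (1 : ZMod N) y : BB F N) = single 1 (w * y) := by
  rw [AddMonoidAlgebra.coe_algebraMap, Function.comp_apply, AddMonoidAlgebra.single_mul_single]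
  simp

end PInt

open PInt in
theorem s_int (h1 : S_Span) (h2 : S_Fac) (h3 : S_Dist) (h4 : S_Interp) : S_Int := by
  classical
  intro q f a' N F _ _ _ _ ζ ξ l hq hN ha hl hp hξ z hz d hd
  have hpr : ∀ p ∈ l, p.Prime := fun p h => (hp p h).1
  have hN0 : 0 < N := Nat.pos_of_ne_zero (NeZero.ne N)
  have hl0 : 0 < l.prod := List.prod_pos fun p h => (hpr p h).pos
  set M := N * a' * l.prod with hM
  have hM0 : 0 < M := Nat.mul_pos (Nat.mul_pos hN0 ha) hl0
  choose β hβ using fun i => h1 (Additive (BB F N)ˣ) l (fun p h => (hpr p h).two_le) _ (hz i)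
  have hzβ : ∀ i v, (z i v : BB F N) = ∏ τ, ((Additive.toMul (β i τ) : (BB F N)ˣ) : BB F N) ^
      om l τ v := by
    intro i v
    have := congrArg Additive.toMul (hβ i v)
    rw [toMul_ofMul, toMul_sum] at this
    rw [this, Units.coe_prod]
    simp
  have hcop : ∀ p ∈ l, Nat.Coprime (N * a') p := fun p h =>
    Nat.Coprime.mul_left
      (hN ▸ Nat.Coprime.pow_left f ((Nat.coprime_primes hq (hpr p h)).2 (hp p h).2.2.2.symm))
      ((Nat.Prime.coprime_iff_not_dvd (hpr p h)).2 (hp p h).2.2.1).symm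
  have hκ : ∀ τ : Tx l, ∃ r : Fin M, Gd (N * a') l (r + 1) ∧ cls (r + 1) l τ := by
    intro τ
    obtain ⟨k, k1, k2, k3⟩ := exists_k l hl hpr (N * a') 1 hcop τ
    have e : k ≡ (k + M - 1) % M + 1 [MOD M] := by
      have e1 : (k + M - 1) % M + 1 ≡ (k + M - 1) + 1 [MOD M] := (Nat.mod_modEq _ _).add_right 1
      have e2 : k + M - 1 + 1 = k + M := by omega
      rw [e2] at e1
      exact (e1.trans (by simp [Nat.ModEq])).symm
    exact ⟨⟨(k + M - 1) % M, Nat.mod_lt _ hM0⟩, gd_congr e ⟨k1, k2⟩,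
      (cls_congr l (e.of_mul_left _) τ).1 k3⟩
  choose κ hκ1 hκ2 using hκ
  have hT : ∀ r : Fin M, ∃ t : Fin M → F, ∀ (i : Fin a') (τ : Tx l), cls (r + 1) l τ →
      ∏ s, (1 - single (1 : ZMod N) (ξ ^ (i : ℕ) * tht ζ l τ * t s) : BB F N) =
        if κ τ = r then ((Additive.toMul (β i τ) : (BB F N)ˣ) : BB F N) else 1 := by
    intro r
    obtain ⟨t, ht⟩ := h4 q f N F hq hN (Fin a' × {τ : Tx l // cls (r + 1) l τ})
      (fun x => ξ ^ (x.1 : ℕ) * tht ζ l x.2.1)
      (by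
        rintro ⟨i, τ, hτ⟩ ⟨i', τ', hτ'⟩ e
        obtain ⟨e1, e2⟩ := h3 F ζ ξ a' (r + 1) l hl
          (fun p h => ⟨(hp p h).1, (hp p h).2.1, (hp p h).2.2.1⟩) hξ i i' τ τ' hτ hτ' e
        subst e1 e2
        rfl)
      (fun x => mul_ne_zero (pow_ne_zero _ (hξ.ne_zero (by omega)))
        (tht_ne ζ l (fun p h => (hp p h).2.1.ne_zero (hpr p h).ne_zero) _))
      (fun x => if κ x.2.1 = r then ((Additive.toMul (β x.1 x.2.1) : (BB F N)ˣ) : BB F N) else 1)
      M (by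
        rw [Fintype.card_prod, Fintype.card_fin, ← Nat.card_eq_fintype_card, ← mul_assoc]
        exact Nat.mul_le_mul_left _ (card_cls _ l))
    exact ⟨t, fun i τ hτ => ht (i, ⟨τ, hτ⟩)⟩
  choose T hT using hT
  refine ⟨fun k => if h : (k - 1) / M < M ∧ Gd (N * a') l ((k - 1) % M + 1) then
    T ⟨(k - 1) % M, Nat.mod_lt _ hM0⟩ ⟨(k - 1) / M, h.1⟩ else 0, fun i v => ?_⟩
  rw [prod_sq, hzβ]
  have key : ∀ r : Fin M, (∏ s : Fin M, (if kp l v ∣ ((r : ℕ) + M * s + 1) then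
      1 - single ((j0 l v * ((r : ℕ) + M * s + 1) ^ d : ℕ) : ZMod N)
        ((ξ ^ (i : ℕ) * zz ζ l v) ^ (j0 l v * ((r : ℕ) + M * s + 1) ^ d) *
          (if h : ((r : ℕ) + M * s + 1 - 1) / M < M ∧
              Gd (N * a') l (((r : ℕ) + M * s + 1 - 1) % M + 1) then
            T ⟨((r : ℕ) + M * s + 1 - 1) % M, Nat.mod_lt _ hM0⟩
              ⟨((r : ℕ) + M * s + 1 - 1) / M, h.1⟩ else 0) ^ j0 l v) else 1 : BB F N)) =
      ∏ τ, if κ τ = r then ((Additive.toMul (β i τ) : (BB F N)ˣ) : BB F N) ^ om l τ v else 1 := by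
    intro r
    have em : ∀ s : Fin M, ((r : ℕ) + M * s + 1 - 1) % M = r := fun s => by
      rw [Nat.add_sub_cancel, Nat.add_mul_mod_self_left, Nat.mod_eq_of_lt r.2]
    have ed : ∀ s : Fin M, ((r : ℕ) + M * s + 1 - 1) / M = s := fun s => by
      rw [Nat.add_sub_cancel, Nat.add_mul_div_left _ _ hM0, Nat.div_eq_of_lt r.2, zero_add]
    have ec : ∀ s : Fin M, (r : ℕ) + 1 ≡ (r : ℕ) + M * s + 1 [MOD M] := fun s => by
      refine Nat.ModEq.add_right 1 ?_
      simp [Nat.ModEq]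
    by_cases hg : Gd (N * a') l (r + 1)
    · have e1 : ∀ s : Fin M, (if h : ((r : ℕ) + M * s + 1 - 1) / M < M ∧
              Gd (N * a') l (((r : ℕ) + M * s + 1 - 1) % M + 1) then
            T ⟨((r : ℕ) + M * s + 1 - 1) % M, Nat.mod_lt _ hM0⟩
              ⟨((r : ℕ) + M * s + 1 - 1) / M, h.1⟩ else 0) = T r s := fun s => by
        rw [dif_pos ⟨by rw [ed]; exact s.2, by rw [em]; exact hg⟩]
        congr 1 <;> apply Fin.ext
        · exact em s
        · exact ed s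
      have e2 : ∀ s : Fin M, (if kp l v ∣ ((r : ℕ) + M * s + 1) then
          1 - single ((j0 l v * ((r : ℕ) + M * s + 1) ^ d : ℕ) : ZMod N)
            ((ξ ^ (i : ℕ) * zz ζ l v) ^ (j0 l v * ((r : ℕ) + M * s + 1) ^ d) * T r s ^ j0 l v)
            else 1 : BB F N) = ∏ τ, if cls (r + 1) l τ then
              (1 - single (1 : ZMod N) (ξ ^ (i : ℕ) * tht ζ l τ * T r s) : BB F N) ^ om l τ v
              else 1 := fun s => by
        have hg' := gd_congr (ec s) hg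
        rw [fac_eq hξ.pow_eq_one hg'.1, h2 F (BB F N) ζ l _ d hl
          (fun p h => ⟨(hp p h).1, (hp p h).2.1⟩) hd hg'.2 v]
        refine prod_congr rfl fun τ _ => ?_
        rw [alg_mul, show tht ζ l τ * (ξ ^ (i : ℕ) * T r s) = ξ ^ (i : ℕ) * tht ζ l τ * T r s by
          ring]
        exact if_congr (cls_congr l ((ec s).of_mul_left _) τ).symm rfl rfl
      simp only [e1, e2]
      rw [prod_comm]
      refine prod_congr rfl fun τ _ => ?_
      by_cases hc : cls (r + 1) l τ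
      · simp only [if_pos hc]
        rw [prod_pow, hT r i τ hc]
        split_ifs <;> simp
      · simp only [if_neg hc, prod_const_one]
        rw [if_neg]
        rintro rfl
        exact hc (hκ2 τ)
    · have hj : j0 l v ≠ 0 := Nat.one_le_iff_ne_zero.1 (one_le_j0 l (fun p h => (hpr p h).one_le) v)
      rw [prod_eq_one, prod_eq_one]
      · intro τ _
        rw [if_neg]
        rintro rfl
        exact hg (hκ1 τ)
      · intro s _
        rw [dif_neg (fun h => hg (by have := h.2; rwa [em] at this)), zero_pow hj, mul_zero]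
        simp
  rw [prod_congr rfl fun r _ => key r, prod_comm]
  refine prod_congr rfl fun τ _ => ?_
  simp

end Pool.Agent.P.MP_85b516_nt.LD
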