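import Pool.Agent.P.MP_85b516_nt.LD.Stm

/-! Interpolation of jets (package Interp of Theorem LD). -/

open Finset
open AddMonoidAlgebra (single)

namespace Pool.Agent.P.MP_85b516_nt.LD

namespace PInterp

open Polynomial

/-- A polynomial with constant term one is a product of factors `1 - t X`. -/
lemma split {F : Type} [Field F] [IsAlgClosed F] : ∀ (D : ℕ) (r : F[X]), r.natDegree ≤ D →
    r.coeff 0 = 1 → ∃ t : Fin D → F, r = ∏ s, (1 - C (t s) * X) := by
  intro D
  induction D with
  | zero =>
    intro r hr h0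
    refine ⟨fun _ => 0, ?_⟩
    rw [eq_C_of_natDegree_le_zero hr, h0]
    simp
  | succ D ih =>
    intro r hr h0
    by_cases hd : r.degree = 0
    · refine ⟨fun _ => 0, ?_⟩
      rw [eq_C_of_degree_eq_zero hd, h0]
      simp
    · obtain ⟨a, ha⟩ := IsAlgClosed.exists_root r hd
      have hr0 : r ≠ 0 := by
        rintro rfl
        simp at h0
      have ha0 : a ≠ 0 := by
        rintro rfl
        rw [IsRoot.def, ← coeff_zero_eq_eval_zero, h0] at ha
        exact one_ne_zero ha
      obtain ⟨r', hr'⟩ := dvd_iff_isRoot.mpr ha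
      have hr'0 : r' ≠ 0 := by
        rintro rfl
        simp at hr'
        exact hr0 hr'
      have hdeg : r'.natDegree ≤ D := by
        have := natDegree_mul (X_sub_C_ne_zero a) hr'0
        rw [← hr', natDegree_X_sub_C] at this
        omega
      have hc : (C (-a) * r').coeff 0 = 1 := by
        rw [hr', mul_coeff_zero] at h0
        simpa using h0
      obtain ⟨t, ht⟩ := ih (C (-a) * r') ((natDegree_C_mul_le _ _).trans hdeg) hc
      refine ⟨Fin.cons a⁻¹ t, ?_⟩
      rw [Fin.prod_univ_succ]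
      simp only [Fin.cons_zero, Fin.cons_succ]
      rw [← ht, hr']
      have h1 : C a⁻¹ * C a = (1 : F[X]) := by
        rw [← C_mul, inv_mul_cancel₀ ha0, C_1]
      rw [C_neg]
      linear_combination (-(X * r')) * h1

/-- Every element is a polynomial in `single 1 θ`. -/
lemma surj {F : Type} [Field F] {N : ℕ} [NeZero N] (θ : F) (hθ : θ ≠ 0) (b : BB F N) :
    ∃ P : F[X], aeval (single (1 : ZMod N) θ : BB F N) P = b := by
  refine ⟨∑ c : ZMod N, C (b.coeff c * θ⁻¹ ^ c.val) * X ^ c.val, ?_⟩
  conv_rhs => rw [bb_sum b]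
  rw [map_sum]
  refine Finset.sum_congr rfl fun c _ => ?_
  rw [map_mul, map_pow, aeval_X, aeval_C, AddMonoidAlgebra.single_pow,
    AddMonoidAlgebra.coe_algebraMap]
  simp only [Function.comp_apply, Algebra.algebraMap_self, RingHom.id_apply]
  rw [AddMonoidAlgebra.single_mul_single]
  congr 1
  · simp
  · rw [mul_assoc, ← mul_pow, inv_mul_cancel₀ hθ, one_pow, mul_one]

lemma nil {q f N : ℕ} {F : Type} [Field F] [CharP F q] [NeZero N] (hq : q.Prime)
    (hN : N = q ^ f) (θ : F) :
    aeval (single (1 : ZMod N) θ : BB F N) ((X - C θ) ^ N) = 0 := by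
  have : Fact q.Prime := ⟨hq⟩
  have h : ((X - C θ : F[X])) ^ N = X ^ N - C θ ^ N := by
    rw [hN, sub_pow_char_pow]
  rw [h, map_sub, map_pow, map_pow, aeval_X, aeval_C, AddMonoidAlgebra.single_pow,
    AddMonoidAlgebra.coe_algebraMap]
  simp only [Function.comp_apply, Algebra.algebraMap_self, RingHom.id_apply]
  rw [AddMonoidAlgebra.single_pow]
  simp

end PInterp

open Polynomial in
theorem s_interp : S_Interp := by
  intro q f N F _ _ _ _ hq hN ι _ θ hinj hθ b D hD
  classical
  choose P hP using fun i => PInterp.surj (N := N) (θ i) (hθ i)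
    (single (-1 : ZMod N) (θ i)⁻¹ * (b i - 1))
  have hco : Pairwise (Function.onFun IsCoprime
      fun i => Ideal.span {((X - C (θ i)) ^ N : F[X])}) := by
    intro i j hij
    simp only [Function.onFun]
    rw [Ideal.isCoprime_span_singleton_iff]
    exact (pairwise_coprime_X_sub_C hinj hij).pow
  obtain ⟨u0, hu0⟩ := Ideal.exists_forall_sub_mem_ideal hco P
  set Q : F[X] := ∏ i, (X - C (θ i)) ^ N with hQ
  have hQm : Q.Monic := monic_prod_of_monic _ _ fun i _ => (monic_X_sub_C _).pow _
  have hQd : Q.natDegree = N * Fintype.card ι := by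
    rw [hQ, natDegree_prod_of_monic _ _ fun i _ => (monic_X_sub_C _).pow _]
    simp [natDegree_pow, mul_comm]
  have hdeg : (1 + X * (u0 %ₘ Q)).natDegree ≤ D := by
    refine (natDegree_add_le _ _).trans (max_le (by simp) ?_)
    by_cases h0 : u0 %ₘ Q = 0
    · simp [h0]
    · rw [natDegree_X_mul h0]
      have := natDegree_lt_natDegree h0 (degree_modByMonic_lt u0 hQm)
      omega
  obtain ⟨t, ht⟩ := PInterp.split D (1 + X * (u0 %ₘ Q)) hdeg (by simp)
  refine ⟨t, fun i => ?_⟩
  have h1 : aeval (single (1 : ZMod N) (θ i) : BB F N) Q = 0 := by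
    rw [hQ, map_prod]
    exact Finset.prod_eq_zero (mem_univ i) (PInterp.nil hq hN (θ i))
  have h2 : aeval (single (1 : ZMod N) (θ i) : BB F N) (u0 %ₘ Q) =
      single (-1 : ZMod N) (θ i)⁻¹ * (b i - 1) := by
    rw [aeval_modByMonic_eq_self_of_root h1, ← hP i, ← sub_eq_zero, ← map_sub]
    obtain ⟨w, hw⟩ := Ideal.mem_span_singleton.mp (hu0 i)
    rw [hw, map_mul, PInterp.nil hq hN, zero_mul]
  have h3 := congrArg (aeval (single (1 : ZMod N) (θ i) : BB F N)) ht
  rw [map_add, map_one, map_mul, aeval_X, h2, ← mul_assoc, AddMonoidAlgebra.single_mul_single,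
    add_neg_cancel, mul_inv_cancel₀ (hθ i), ← AddMonoidAlgebra.one_def, one_mul, add_sub_cancel,
    map_prod] at h3
  rw [h3]
  refine Finset.prod_congr rfl fun s _ => ?_
  rw [map_sub, map_one, map_mul, aeval_X, aeval_C, AddMonoidAlgebra.coe_algebraMap]
  simp only [Function.comp_apply, Algebra.algebraMap_self, RingHom.id_apply]
  rw [AddMonoidAlgebra.single_mul_single, zero_add, mul_comm]

end Pool.Agent.P.MP_85b516_nt.LD
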