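import Pool.Agent.P.MP_85b516_nt.LD.KA

/-! Package KB: algebraicity with jets. -/

open Finset Polynomial
open AddMonoidAlgebra (single)

namespace Pool.Agent.P.MP_85b516_nt.LD

namespace PKB

section Rel
variable {A B : Type} [CommRing A] [CommRing B] (ev : A →+* B) (d : A →+ A) (m : A)

/-- `w` is the derivative of `b` modulo `m`. -/
def Rel (b w : B) : Prop :=
  ∃ (P : A) (y z : B), b = ev P + ev m * y ∧ w = ev (d P) + ev (d m) * y + ev m * z

variable {ev d m}

lemma d_one (hd : ∀ a b, d (a * b) = a * d b + b * d a) : d 1 = 0 := by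
  have := hd 1 1
  simpa using this

lemma Rel.mul (hd : ∀ a b, d (a * b) = a * d b + b * d a) {b w b' w' : B} (h : Rel ev d m b w)
    (h' : Rel ev d m b' w') : Rel ev d m (b * b') (b * w' + b' * w) := by
  obtain ⟨P, y, z, rfl, rfl⟩ := h
  obtain ⟨P', y', z', rfl, rfl⟩ := h'
  refine ⟨P * P', y * ev P' + y' * ev P + ev m * y * y',
    (ev P + ev m * y) * z' + (ev P' + ev m * y') * z + y * ev (d P') + y' * ev (d P) +
      ev (d m) * y * y', ?_, ?_⟩
  · rw [map_mul]
    ring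
  · rw [hd, map_add, map_mul, map_mul]
    ring

lemma Rel.sub {b w b' w' : B} (h : Rel ev d m b w) (h' : Rel ev d m b' w') :
    Rel ev d m (b - b') (w - w') := by
  obtain ⟨P, y, z, rfl, rfl⟩ := h
  obtain ⟨P', y', z', rfl, rfl⟩ := h'
  refine ⟨P - P', y - y', z - z', ?_, ?_⟩
  · rw [map_sub]
    ring
  · rw [map_sub, map_sub]
    ring

lemma Rel.of (P : A) : Rel ev d m (ev P) (ev (d P)) := ⟨P, 0, 0, by ring, by ring⟩

lemma Rel.zero (hd : ∀ a b, d (a * b) = a * d b + b * d a) (H1 : ∀ P, ev m ∣ ev P → m ∣ P)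
    (H2 : ∀ x, ev m * x = 0 → ev m ∣ x) {w : B} (h : Rel ev d m 0 w) : ev m ∣ w := by
  obtain ⟨P, y, z, h1, rfl⟩ := h
  obtain ⟨Q, rfl⟩ := H1 P ⟨-y, by linear_combination -h1⟩
  obtain ⟨t, ht⟩ := H2 (ev Q + y) (by rw [map_mul] at h1; linear_combination -h1)
  refine ⟨ev (d Q) + ev (d m) * t + z, ?_⟩
  rw [hd, map_add, map_mul, map_mul]
  linear_combination ev (d m) * ht

lemma Rel.uniq (hd : ∀ a b, d (a * b) = a * d b + b * d a) (H1 : ∀ P, ev m ∣ ev P → m ∣ P)
    (H2 : ∀ x, ev m * x = 0 → ev m ∣ x) {b w w' : B} (h : Rel ev d m b w)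
    (h' : Rel ev d m b w') : ev m ∣ w - w' := by
  have := h.sub h'
  rw [sub_self] at this
  exact this.zero hd H1 H2

lemma Rel.one (hd : ∀ a b, d (a * b) = a * d b + b * d a) : Rel ev d m 1 0 := by
  have := Rel.of (ev := ev) (d := d) (m := m) 1
  rwa [d_one hd, map_one, map_zero] at this

lemma Rel.pow (hd : ∀ a b, d (a * b) = a * d b + b * d a) {b w : B} (h : Rel ev d m b (b * w))
    (k : ℕ) : Rel ev d m (b ^ k) (b ^ k * (k * w)) := by
  induction k with
  | zero => simpa using Rel.one hd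
  | succ k ih =>
    have := ih.mul hd h
    convert this using 1
    · ring
    · push_cast
      ring

lemma Rel.prod (hd : ∀ a b, d (a * b) = a * d b + b * d a) {ι : Type} (s : Finset ι)
    (b w : ι → B) (h : ∀ v, Rel ev d m (b v) (b v * w v)) :
    Rel ev d m (∏ v ∈ s, b v) ((∏ v ∈ s, b v) * ∑ v ∈ s, w v) := by
  classical
  induction s using Finset.induction_on with
  | empty => simpa using Rel.one hd
  | insert a s ha ih =>
    rw [prod_insert ha, sum_insert ha]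
    have := (h a).mul hd ih
    convert this using 1
    ring

/-- Logarithmic derivatives satisfy the multiplicative relations modulo `m`. -/
lemma Rel.code (hd : ∀ a b, d (a * b) = a * d b + b * d a) (H1 : ∀ P, ev m ∣ ev P → m ∣ P)
    (H2 : ∀ x, ev m * x = 0 → ev m ∣ x) {ι : Type} [Fintype ι] (b : ι → Bˣ) (w : ι → B)
    (h : ∀ v, Rel ev d m (b v) (b v * w v)) (r : ι → ℤ) (hr : ∏ v, b v ^ r v = 1) :
    ev m ∣ ∑ v, r v • w v := by
  have e1 : ∏ v, b v ^ (r v).toNat = ∏ v, b v ^ (-r v).toNat := by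
    rw [← div_eq_one, ← prod_div_distrib, ← hr]
    refine prod_congr rfl fun v _ => ?_
    rw [← zpow_natCast, ← zpow_natCast, div_eq_mul_inv, ← zpow_sub, Int.toNat_sub_toNat_neg]
  have e2 : ∏ v, (b v : B) ^ (r v).toNat = ∏ v, (b v : B) ^ (-r v).toNat := by
    simpa using congrArg Units.val e1
  have a1 := Rel.prod hd univ _ _ fun v => (h v).pow hd (r v).toNat
  have a2 := Rel.prod hd univ _ _ fun v => (h v).pow hd (-r v).toNat
  rw [e2] at a1
  have a3 := Rel.uniq hd H1 H2 a1 a2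
  have hu : IsUnit (∏ v, (b v : B) ^ (-r v).toNat) :=
    IsUnit.prod_univ_iff.2 fun v => (b v).isUnit.pow _
  rw [← mul_sub, hu.dvd_mul_left, ← sum_sub_distrib] at a3
  convert a3 using 2 with v
  rw [← sub_mul, zsmul_eq_mul]
  congr 1
  rw [← Int.cast_natCast, ← Int.cast_natCast (R := B) (-r v).toNat, ← Int.cast_sub,
    Int.toNat_sub_toNat_neg]

end Rel

section Loc
variable {Om : Type} [Field Om] {N : ℕ} [NeZero N]

/-- `s ^ n - τ`. -/
noncomputable def sg (n : ℕ) (s : BB Om N) (τ : Om) : BB Om N := aeval s (X ^ n - C τ)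

/-- The polynomial with given coefficients. -/
noncomputable def pl {R : Type} [CommRing R] {n : ℕ} (c : Fin n → R) : R[X] :=
  ∑ k : Fin n, monomial k (c k)

lemma coeff_pl {R : Type} [CommRing R] {n : ℕ} (c : Fin n → R) (k : Fin n) :
    (pl c).coeff k = c k := by
  rw [pl, finsetSum_coeff, sum_eq_single k]
  · simp
  · intro b _ hb
    rw [coeff_monomial, if_neg fun e => hb (Fin.ext e)]
  · simp

lemma degree_pl {R : Type} [CommRing R] {n : ℕ} (c : Fin n → R) : (pl c).degree < n := by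
  refine (degree_sum_le _ _).trans_lt ?_
  rw [Finset.sup_lt_iff (WithBot.bot_lt_coe _)]
  intro k _
  exact (degree_monomial_le _ _).trans_lt (by exact_mod_cast k.2)

lemma pl_eq_zero {R : Type} [Field R] {n : ℕ} (hn : 0 < n) (c : Fin n → R) (τ : R)
    (h : X ^ n - C τ ∣ pl c) : c = 0 := by
  have h0 : pl c = 0 := eq_zero_of_dvd_of_degree_lt h (by
    rw [degree_X_pow_sub_C hn]; exact degree_pl c)
  funext k
  rw [← coeff_pl c k, h0]
  rfl

lemma exists_pl {R : Type} [CommRing R] {n : ℕ} (P : R[X]) (h : P.degree < n) :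
    ∃ c : Fin n → R, pl c = P := by
  refine ⟨fun k => P.coeff k, ?_⟩
  exact (sum_fin (fun k a => monomial k a) (by simp) h).trans (sum_monomial_eq P)

omit [NeZero N] in
lemma aeval_pl {n : ℕ} (s : BB Om N) (c : Fin n → Om) :
    aeval s (pl c) = ∑ k, c k • s ^ (k : ℕ) := by
  simp [pl, aeval_monomial, Algebra.smul_def]

/-- The local structure at a generator. -/
def Loc (n : ℕ) (s : BB Om N) (τ : Om) : Prop :=
  (∀ P : Om[X], sg n s τ ∣ aeval s P → X ^ n - C τ ∣ P) ∧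
  (∀ x, sg n s τ * x = 0 → sg n s τ ∣ x) ∧
  (∀ b, ∃ (c : Fin n → Om) (y : BB Om N), b = aeval s (pl c) + sg n s τ * y) ∧
  Associated (eps Om N ^ n) (sg n s τ)

lemma loc_of (h2 : S_KB1) (q e : ℕ) [CharP Om q] (hq : q.Prime) (hN : N = q ^ (e + 1))
    (s : BB Om N) (hs : d1 s ≠ 0) : Loc (q ^ e) s (aug s ^ q ^ e) := by
  obtain ⟨hsurj, hker, υ, hυ⟩ := h2 q (e + 1) N Om hq (by omega) hN s hs
  have := Fact.mk hq
  have hm : (X - C (aug s)) ^ q ^ e = X ^ q ^ e - C (aug s ^ q ^ e) := by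
    rw [sub_pow_char_pow, C_pow]
  have hpos : 0 < q ^ e := pow_pos hq.pos e
  have h2n : q ^ e + q ^ e ≤ N := by
    rw [hN, pow_succ]
    nlinarith [hq.two_le]
  refine ⟨fun P hP => ?_, fun x hx => ?_, fun b => ?_, ?_⟩
  · obtain ⟨z, hz⟩ := hP
    obtain ⟨Q, rfl⟩ := hsurj z
    have h3 : aeval s (P - (X ^ q ^ e - C (aug s ^ q ^ e)) * Q) = 0 := by
      rw [map_sub, map_mul, hz, sg, sub_self]
    have h4 := (pow_dvd_pow _ (by omega : q ^ e ≤ N)).trans ((hker _).1 h3)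
    rw [hm] at h4
    exact (dvd_sub_left (dvd_mul_right _ _)).1 h4
  · obtain ⟨Q, rfl⟩ := hsurj x
    rw [sg, ← map_mul] at hx
    have h4 := (pow_dvd_pow _ h2n).trans ((hker _).1 hx)
    rw [pow_add, hm, mul_dvd_mul_iff_left (X_pow_sub_C_ne_zero hpos _)] at h4
    exact map_dvd (aeval s) h4
  · obtain ⟨Q, rfl⟩ := hsurj b
    have hmo : (X ^ q ^ e - C (aug s ^ q ^ e)).Monic := monic_X_pow_sub_C _ hpos.ne'
    obtain ⟨c, hc⟩ := exists_pl (n := q ^ e) (Q %ₘ (X ^ q ^ e - C (aug s ^ q ^ e))) (by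
      have := degree_modByMonic_lt Q hmo
      rwa [degree_X_pow_sub_C hpos] at this)
    refine ⟨c, aeval s (Q /ₘ (X ^ q ^ e - C (aug s ^ q ^ e))), ?_⟩
    rw [hc, sg, ← map_mul, ← map_add, modByMonic_add_div]
  · refine ⟨υ ^ q ^ e, ?_⟩
    rw [sg, ← hm, map_pow, map_sub, aeval_X, aeval_C, hυ, mul_pow, Units.val_pow_eq_pow_val]

omit [NeZero N] in
/-- A functional with prescribed values on the two layers. -/
lemma func {n : ℕ} (hn : 0 < n) {s : BB Om N} {τ : Om} (h : Loc n s τ) (t : Fin n → Om)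
    (I : BB Om N →ₗ[Om] Om) (hI : ∀ y, I (sg n s τ * y) = 0) :
    ∃ Λ : BB Om N →ₗ[Om] Om, ∀ (c : Fin n → Om) (y : BB Om N),
      Λ (aeval s (pl c) + sg n s τ * y) = ∑ k, c k * t k + I y := by
  let Ψ : ((Fin n → Om) × BB Om N) →ₗ[Om] BB Om N :=
    (Fintype.linearCombination Om fun k : Fin n => s ^ (k : ℕ)).coprod
      (LinearMap.mulLeft Om (sg n s τ))
  let φ : ((Fin n → Om) × BB Om N) →ₗ[Om] Om := (Fintype.linearCombination Om t).coprod I
  have hΨ : ∀ c y, Ψ (c, y) = aeval s (pl c) + sg n s τ * y := fun c y => by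
    rw [aeval_pl]
    simp [Ψ, Fintype.linearCombination_apply]
  have hφ : ∀ c y, φ (c, y) = ∑ k, c k * t k + I y := fun c y => by
    simp [φ, Fintype.linearCombination_apply]
  have hmem : φ ∈ (LinearMap.ker Ψ).dualAnnihilator := by
    rw [Submodule.mem_dualAnnihilator]
    rintro ⟨c, y⟩ hw
    rw [LinearMap.mem_ker, hΨ] at hw
    have hc : c = 0 := pl_eq_zero hn c τ (h.1 _ ⟨-y, by linear_combination hw⟩)
    subst hc
    rw [aeval_pl] at hw
    simp only [Pi.zero_apply, zero_smul, sum_const_zero, zero_add] at hw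
    obtain ⟨z, rfl⟩ := h.2.1 y hw
    rw [hφ, hI]
    simp
  rw [← LinearMap.range_dualMap_eq_dualAnnihilator_ker] at hmem
  obtain ⟨Λ, hΛ⟩ := hmem
  refine ⟨Λ, fun c y => ?_⟩
  rw [← hΨ, ← hφ, ← hΛ, LinearMap.dualMap_apply]

end Loc

section One
variable {K L Om : Type} [Field K] [Field L] [Algebra K L] [Field Om] {N : ℕ}

/-- The coefficientwise derivation. -/
noncomputable def dc (D : Derivation K L L) : Derivation K L[X] L[X] :=
  PolynomialModule.equivPolynomialSelf.compDer D.mapCoeffs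

lemma coeff_dc (D : Derivation K L L) (P : L[X]) (k : ℕ) : (dc D P).coeff k = D (P.coeff k) := rfl

lemma dc_monomial (D : Derivation K L L) (k : ℕ) (a : L) :
    dc D (monomial k a) = monomial k (D a) := by
  ext j
  rw [coeff_dc, coeff_monomial, coeff_monomial]
  split_ifs <;> simp

lemma dc_pl (D : Derivation K L L) {n : ℕ} (c : Fin n → L) :
    dc D (pl c) = pl fun k => D (c k) := by
  simp only [pl, map_sum, dc_monomial]

lemma dc_X (D : Derivation K L L) : dc D X = 0 := by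
  rw [← monomial_one_one_eq_X, dc_monomial]
  simp

lemma dc_m (D : Derivation K L L) (n : ℕ) (τ : L) : dc D (X ^ n - C τ) = -C (D τ) := by
  rw [map_sub, Derivation.leibniz_pow, dc_X, ← monomial_zero_left, dc_monomial]
  simp

lemma map_pl (ι : L →+* Om) {n : ℕ} (c : Fin n → L) : (pl c).map ι = pl fun k => ι (c k) := by
  simp only [pl, Polynomial.map_sum, map_monomial]

lemma lam_pl (lam : BB Om N →ₗ[Om] Om) (a s : BB Om N) {n : ℕ} (c : Fin n → Om) :
    lam (a * aeval s (pl c)) = ∑ k, c k * lam (a * s ^ (k : ℕ)) := by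
  rw [aeval_pl, mul_sum, map_sum]
  refine sum_congr rfl fun k _ => ?_
  rw [mul_smul_comm, map_smul, smul_eq_mul]

/-- The kernel vector of one colour. -/
lemma one {Xt Rr : Type} [Fintype Xt] (ι : L →+* Om) (D : Derivation K L L) {n : ℕ} (hn : 0 < n)
    (lam : BB Om N →ₗ[Om] Om) (hdual : ∀ φ : BB Om N →ₗ[Om] Om, ∃ ν : BB Om N,
      ∀ y, φ y = (ν * y).coeff 0) (hl : ∀ y, lam (eps Om N ^ n * y) = 0)
    (hdiv : ∀ w : BB Om N, (∀ y, lam (w * y) = 0) → eps Om N ^ n ∣ w) (h1 : lam 1 = 1)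
    (ρ : Rr → Xt → ℤ) (v0 v1 : Xt) (Y : Xt → (BB Om N)ˣ) (hρ0 : ∀ r, ∑ v, ρ r v = 0)
    (hρ : ∀ r, ∏ v, Y v ^ ρ r v = 1) (s : BB Om N) (hs : s = (Y v1 / Y v0 : (BB Om N)ˣ)) (τ : L)
    (hloc : Loc n s (ι τ)) (c : Xt → Fin n → L) (y : Xt → BB Om N)
    (hc : ∀ v, ((Y v / Y v0 : (BB Om N)ˣ) : BB Om N) =
      aeval s (pl fun k => ι (c v k)) + sg n s (ι τ) * y v)
    (I : Fin n → L) (hI : ∀ k, ι (I k) = lam (Y v0 * s ^ (k : ℕ))) :
    ∃ u : Xt → BB Om N, (∀ r, ∑ v, ρ r v • u v = 0) ∧ u v0 = u v1 ∧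
      (∀ v, ((Y v : BB Om N) * u v).coeff 0 = ι (D (∑ k, c v k * I k))) ∧
      (u = 0 → D τ = 0 ∧ (∀ k, D (I k) = 0) ∧ ∀ v k, D (c v k) = 0) := by
  let ev : L[X] →+* BB Om N := (aeval s : Om[X] →ₐ[Om] BB Om N).toRingHom.comp (mapRingHom ι)
  have hev : ∀ P, ev P = aeval s (P.map ι) := fun _ => rfl
  let d : L[X] →+ L[X] := (dc D).toLinearMap.toAddMonoidHom
  have hdd : ∀ P, d P = dc D P := fun _ => rfl
  have hd : ∀ a b, d (a * b) = a * d b + b * d a := fun a b => by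
    simp only [hdd, Derivation.leibniz, smul_eq_mul]
  set σ := sg n s (ι τ) with hσ
  have hmm : (X ^ n - C τ : L[X]).map ι = X ^ n - C (ι τ) := by simp
  have hm : ev (X ^ n - C τ) = σ := by rw [hev, hmm, hσ, sg]
  have H1 : ∀ P, ev (X ^ n - C τ) ∣ ev P → X ^ n - C τ ∣ P := fun P hP => by
    rw [hm, hev] at hP
    rw [← map_dvd_map' ι, hmm]
    exact hloc.1 _ hP
  have H2 : ∀ x, ev (X ^ n - C τ) * x = 0 → ev (X ^ n - C τ) ∣ x := by
    rw [hm]
    exact hloc.2.1
  have hlσ : ∀ z, lam (σ * z) = 0 := fun z => by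
    obtain ⟨t, ht⟩ := hloc.2.2.2
    rw [hσ, ← ht, mul_assoc, hl]
  let b : Xt → (BB Om N)ˣ := fun v => Y v / Y v0
  have hb : ∀ v, (Y v : BB Om N) = Y v0 * b v := fun v => by
    rw [← Units.val_mul, mul_div_cancel]
  let W : Xt → BB Om N := fun v => aeval s (pl fun k => ι (D (c v k))) - ι (D τ) • y v
  let w : Xt → BB Om N := fun v => ((b v)⁻¹ : (BB Om N)ˣ) * W v
  have hw : ∀ v, (b v : BB Om N) * w v = W v := fun v => Units.mul_inv_cancel_left _ _
  have hR : ∀ v, Rel ev d (X ^ n - C τ) (b v) (b v * w v) := fun v => by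
    refine ⟨pl (c v), y v, 0, ?_, ?_⟩
    · rw [hm, hev, map_pl]
      exact hc v
    · rw [hw, hdd, hdd, dc_pl, dc_m, map_neg, hev, hev, map_pl, map_C, aeval_C, mul_zero, add_zero,
        neg_mul, ← Algebra.smul_def, ← sub_eq_add_neg]
  obtain ⟨T, hT⟩ := hdual lam
  have hTσ : ∀ x, σ ∣ x → T * x = 0 := by
    rintro _ ⟨z, rfl⟩
    refine PKA.nondeg _ fun t => ?_
    rw [mul_assoc, ← hT, mul_assoc, hlσ]
  obtain ⟨Λ, hΛ⟩ := func hn hloc (fun k => ι (D (I k)))
    (ι (D τ) • lam ∘ₗ LinearMap.mulLeft Om (Y v0 : BB Om N)) (fun z => by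
      rw [LinearMap.smul_apply, LinearMap.comp_apply, LinearMap.mulLeft_apply, mul_left_comm, hlσ,
        smul_zero])
  simp only [LinearMap.smul_apply, LinearMap.comp_apply, LinearMap.mulLeft_apply, smul_eq_mul]
    at hΛ
  obtain ⟨ν, hν⟩ := hdual Λ
  have hw0 : σ ∣ w v0 := by
    have h3 := hR v0
    have h4 : b v0 = 1 := div_self' _
    rw [h4, Units.val_one, one_mul] at h3
    have := h3.uniq hd H1 H2 (Rel.one hd)
    rwa [hm, sub_zero] at this
  have hw1 : σ ∣ w v1 := by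
    have h3 := Rel.of (ev := ev) (d := d) (m := X ^ n - C τ) X
    rw [hdd, dc_X, map_zero, hev, map_X, aeval_X, hs] at h3
    have := (hR v1).uniq hd H1 H2 h3
    rwa [hm, sub_zero, (b v1).isUnit.dvd_mul_left] at this
  refine ⟨fun v => T * w v + ν * ((Y v0)⁻¹ : (BB Om N)ˣ), fun r => ?_, ?_, fun v => ?_, fun hu => ?_⟩
  · have h3 : ∏ v, b v ^ ρ r v = 1 := by
      have h4 : ∀ t : Finset Xt, ∏ v ∈ t, Y v0 ^ ρ r v = Y v0 ^ ∑ v ∈ t, ρ r v := fun t => by
        classical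
        induction t using Finset.induction_on with
        | empty => simp
        | insert a t ha ih => rw [prod_insert ha, sum_insert ha, ih, zpow_add]
      simp only [b, div_zpow]
      rw [prod_div_distrib, hρ, h4, hρ0, zpow_zero, div_one]
    have h5 := Rel.code hd H1 H2 b w hR (ρ r) h3
    rw [hm] at h5
    have h6 := hTσ _ h5
    simp only [smul_add, sum_add_distrib, ← sum_smul, hρ0, zero_smul, add_zero]
    rw [← h6, mul_sum]
    exact sum_congr rfl fun v _ => (mul_smul_comm _ _ _).symm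
  · simp only [hTσ _ hw0, hTσ _ hw1]
  · have e : (Y v : BB Om N) * (T * w v + ν * ((Y v0)⁻¹ : (BB Om N)ˣ)) =
        T * (Y v0 * W v) + ν * b v := by
      have h3 : (Y v0 : BB Om N) * ((Y v0)⁻¹ : (BB Om N)ˣ) = 1 := Units.mul_inv _
      rw [hb v, ← hw v]
      linear_combination ν * (b v : BB Om N) * h3
    rw [e, ← cf_apply, map_add, cf_apply, cf_apply, ← hT, ← hν, hc v, hΛ]
    simp only [W]
    rw [mul_sub, map_sub, lam_pl, mul_smul_comm, map_smul, smul_eq_mul, map_sum, map_sum]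
    simp only [Derivation.leibniz, smul_eq_mul, map_add, map_mul, sum_add_distrib, ← hI,
      mul_comm (ι (I _))]
    ring
  · have h3 : ν = 0 := by
      have := congrFun hu v0
      simp only [hTσ _ hw0, zero_add, Pi.zero_apply] at this
      exact (Units.mul_left_eq_zero _).1 this
    have h4 : ∀ x, Λ x = 0 := fun x => by
      rw [hν, h3, zero_mul]
      rfl
    have h5 : D τ = 0 := by
      have := hΛ 0 ((Y v0)⁻¹ : (BB Om N)ˣ)
      rw [h4, Units.mul_inv, h1] at this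
      simpa using this.symm
    refine ⟨h5, fun k => ?_, fun v k => ?_⟩
    · have := hΛ (Pi.single k 1) 0
      rw [h4, sum_eq_single k (fun j _ hj => by simp [hj]) (by simp)] at this
      simpa using this.symm
    · have h6 : T * w v = 0 := by
        have := congrFun hu v
        simpa only [h3, zero_mul, add_zero, Pi.zero_apply] using this
      have h7 : σ ∣ w v := hloc.2.2.2.dvd_iff_dvd_left.1 (hdiv _ fun z => by
        rw [hT, ← mul_assoc, h6, zero_mul]
        rfl)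
      have h8 : σ ∣ aeval s (pl fun k => ι (D (c v k))) := by
        have := h7.mul_left (b v : BB Om N)
        rw [hw] at this
        simpa only [W, h5, map_zero, zero_smul, sub_zero] using this
      have h9 := congrFun (pl_eq_zero hn _ _ (hloc.1 _ h8)) k
      exact (map_eq_zero ι).1 h9

end One

end PKB

open PKB in
theorem s_kb (h1 : S_D1) (h2 : S_KB1) (h3 : S_KB2) : S_KB := by
  intro q e N Om J Xt Rr _ _ _ _ _ K ρ v0 v1 Y hq _ hN hρ0 hρ hK htan hnd
  classical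
  obtain ⟨hdual, hl, -, hdiv, hone⟩ := h3 q e N Om hq hN
  have hpos : 0 < q ^ e := pow_pos hq.pos e
  have h0 : (N : Om) = 0 := by
    rw [hN, Nat.cast_pow, CharP.cast_eq_zero, zero_pow (by omega)]
  let s : J → BB Om N := fun i => (Y i v1 / Y i v0 : (BB Om N)ˣ)
  have hb : ∀ i v, (Y i v : BB Om N) = Y i v0 * (Y i v / Y i v0 : (BB Om N)ˣ) := fun i v => by
    rw [← Units.val_mul, mul_div_cancel]
  have hs : ∀ i, d1 (s i) ≠ 0 := fun i h => htan i (by
    have h4 : (Y i v1 : BB Om N) = Y i v0 * s i := hb i v1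
    rw [h4, h1 Om N h0, map_mul, h]
    ring)
  have hloc : ∀ i, Loc (q ^ e) (s i) (aug (s i) ^ q ^ e) := fun i => loc_of h2 q e hq hN _ (hs i)
  choose c y hc using fun i v => (hloc i).2.2.1 ((Y i v / Y i v0 : (BB Om N)ˣ) : BB Om N)
  let a : J ⊕ (J × Fin (q ^ e)) ⊕ (J × Xt × Fin (q ^ e)) → Om :=
    Sum.elim (fun i => aug (s i) ^ q ^ e) (Sum.elim
      (fun p => lamn (q ^ e) ((Y p.1 v0 : BB Om N) * s p.1 ^ (p.2 : ℕ)))
      fun p => c p.1 p.2.1 p.2.2)
  have halg := PKAH.alg_of_der (K := K) (Set.range a) (Set.finite_range a) ?_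
  · intro i v
    have hs0 : IsAlgebraic K (aug (s i)) := IsAlgebraic.of_pow hpos (halg _ ⟨Sum.inl i, rfl⟩)
    have hne : aug (Y i v0 : BB Om N) ≠ 0 := ((Y i v0).isUnit.map aug).ne_zero
    have hσ : aug (PKB.sg (q ^ e) (s i) (aug (s i) ^ q ^ e)) = 0 := by simp [PKB.sg]
    have e1 : aug (Y i v : BB Om N) / aug (Y i v0 : BB Om N) =
        ∑ k, c i v k * aug (s i) ^ (k : ℕ) := by
      rw [hb i v, map_mul, mul_div_cancel_left₀ _ hne, hc i v, map_add, map_mul, hσ, zero_mul,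
        add_zero, aeval_pl, map_sum]
      simp only [map_smul, map_pow, smul_eq_mul]
    rw [e1]
    exact (IsIntegral.sum _ fun k _ =>
      (halg _ ⟨Sum.inr (Sum.inr (i, v, k)), rfl⟩).isIntegral.mul
        (hs0.isIntegral.pow _)).isAlgebraic
  intro D
  let a' : J ⊕ (J × Fin (q ^ e)) ⊕ (J × Xt × Fin (q ^ e)) →
      IntermediateField.adjoin K (Set.range a) :=
    fun p => ⟨a p, IntermediateField.subset_adjoin K _ ⟨p, rfl⟩⟩
  let ι : IntermediateField.adjoin K (Set.range a) →+* Om :=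
    (IntermediateField.adjoin K (Set.range a)).val.toRingHom
  choose u hu1 hu2 hu3 hu4 using fun i => one ι D hpos (lamn (q ^ e)) hdual hl hdiv hone ρ v0 v1
    (Y i) hρ0 (hρ i) (s i) rfl (a' (Sum.inl i)) (hloc i)
    (fun v k => a' (Sum.inr (Sum.inr (i, v, k)))) (y i) (hc i)
    (fun k => a' (Sum.inr (Sum.inl (i, k)))) (fun _ => rfl)
  have hz := hnd u hu1 hu2 fun v => ?_
  · rintro _ ⟨p, rfl⟩
    rcases p with i | ⟨i, k⟩ | ⟨i, v, k⟩
    · exact (hu4 i (congrFun hz i)).1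
    · exact (hu4 i (congrFun hz i)).2.1 k
    · exact (hu4 i (congrFun hz i)).2.2 v k
  · simp only [hu3]
    rw [← map_sum, ← map_sum]
    have e1 : ∑ i, ∑ k, a' (Sum.inr (Sum.inr (i, v, k))) * a' (Sum.inr (Sum.inl (i, k))) =
        algebraMap K _ ⟨_, hK v⟩ := by
      apply ι.injective
      rw [map_sum]
      change _ = ∑ i, lamn (q ^ e) (Y i v : BB Om N)
      refine sum_congr rfl fun i _ => ?_
      obtain ⟨t, ht⟩ := (hloc i).2.2.2
      rw [hb i v, hc i v, mul_add, map_add, lam_pl, ← ht, mul_assoc, mul_left_comm, hl, add_zero,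
        map_sum]
      rfl
    rw [e1, Derivation.map_algebraMap, map_zero]

end Pool.Agent.P.MP_85b516_nt.LD
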