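import Pool.Agent.P.MP_85b516_nt.LD.Stm

/-! The basic dimension estimates for random kernels. -/

open Finset Module

namespace Pool.Agent.P.MP_85b516_nt.LD

noncomputable section

namespace PLQ

variable {F Λ V Xt Z : Type} [Field F] [AddCommGroup Λ] [AddCommGroup V] [Module F V]
  [FiniteDimensional F V] [Finite Xt] [Fintype Z] [DecidableEq Z] {e : Λ → V →ₗ[F] F}
  {U : Submodule F (Xt → V)} {c : Z → ℤ}

omit [FiniteDimensional F V] [Finite Xt] in
lemma van_bot (hc : ∀ x, (c x : F) ≠ 0) {S : Submodule F (Z × Xt → V)} (hS : S ≤ extU U c)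
    (x : Z) : Van (univ.erase x) S = ⊥ := by
  refine (Submodule.eq_bot_iff _).2 fun w hw => ?_
  obtain ⟨h1, h2⟩ := mem_Van.1 hw
  have h3 : ∀ y, y ≠ x → ∀ v, w (y, v) = 0 := fun y hy v => congrFun (h2 y (by simp [hy])) v
  funext ⟨y, v⟩
  by_cases hy : y = x
  · have h4 := (hS h1).2 v
    rw [sum_eq_single x (fun y _ hy => by rw [h3 y hy, smul_zero]) (by simp),
      ← Int.cast_smul_eq_zsmul F, smul_eq_zero] at h4
    exact hy ▸ h4.resolve_left (hc x)
  · exact h3 y hy v

omit [DecidableEq Z] in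
lemma split_KA (ω : Z × Xt → Λ) (A : Finset Z) (S : Submodule F (Z × Xt → V)) (x : Z) :
    rk (KA e U ω A S) = rk (KA e U ω A (Van {x} S)) + rk ((KA e U ω A S).map (sl F x)) := by
  rw [rk_split _ (sl F x)]
  congr 2
  ext w
  simp only [Submodule.mem_inf, mem_KA, mem_Van, LinearMap.mem_ker, mem_singleton, forall_eq]
  tauto

lemma insert_KA (ω : Z × Xt → Λ) (A : Finset Z) (S : Submodule F (Z × Xt → V)) (x : Z)
    {T : Submodule F (Z × Xt → V)} (hT : KA e U ω A S ≤ T) :
    rk (KA e U ω (insert x A) S) ≤ rk (KA e U ω A (Van {x} S)) +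
      rk (T.map (sl F x) ⊓ Ker e U fun v => ω (x, v)) := by
  rw [split_KA _ _ _ x]
  refine add_le_add (rk_mono fun w hw => ?_) (rk_mono ?_)
  · exact mem_KA.2 ⟨(mem_KA.1 hw).1, fun y hy => (mem_KA.1 hw).2 y (mem_insert_of_mem hy)⟩
  · rintro _ ⟨w, hw, rfl⟩
    obtain ⟨h1, h2⟩ := mem_KA.1 hw
    exact ⟨⟨w, hT (mem_KA.2 ⟨h1, fun y hy => h2 y (mem_insert_of_mem hy)⟩), rfl⟩,
      h2 x (mem_insert_self _ _)⟩

lemma sum_van (hc : ∀ x, (c x : F) ≠ 0) {S : Submodule F (Z × Xt → V)} (hS : S ≤ extU U c)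
    (x : Z) (B : Finset Z) (hB : x ∉ B) :
    ∑ z ∈ B, rk (Van ((univ.erase x).erase z) S) ≤ rk (Van (univ.erase x \ B) S) := by
  induction B using Finset.induction_on with
  | empty => simpa using rk_nonneg _
  | insert z B hz ih =>
    have h1 : Van ((univ.erase x).erase z) S ⊓ LinearMap.ker (sl F z) = ⊥ := by
      refine le_bot_iff.1 (le_trans (fun w hw => ?_) (van_bot hc hS x).le)
      refine mem_Van.2 ⟨(mem_Van.1 hw.1).1, fun y hy => ?_⟩
      by_cases h : y = z
      · exact h ▸ hw.2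
      · exact (mem_Van.1 hw.1).2 y (mem_erase.2 ⟨h, hy⟩)
    rw [sum_insert hz, rk_split (Van (univ.erase x \ insert z B) S) (sl F z), add_comm,
      rk_split _ (sl F z), h1, rk, finrank_bot, Nat.cast_zero, zero_add]
    refine add_le_add ((ih fun h => hB (mem_insert_of_mem h)).trans (rk_mono fun w hw => ?_))
      (rk_mono (Submodule.map_mono fun w hw => ?_))
    · obtain ⟨h2, h3⟩ := mem_Van.1 hw
      refine ⟨mem_Van.2 ⟨h2, fun y hy => h3 y ?_⟩, h3 z ?_⟩
      · exact sdiff_subset_sdiff subset_rfl (subset_insert z B) hy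
      · exact mem_sdiff.2 ⟨mem_erase.2 ⟨fun h => hB (h ▸ mem_insert_self _ _), mem_univ _⟩, hz⟩
    · refine mem_Van.2 ⟨(mem_Van.1 hw).1, fun y hy => (mem_Van.1 hw).2 y ?_⟩
      exact mem_erase.2 ⟨fun h => (mem_sdiff.1 hy).2 (h ▸ mem_insert_self _ _), (mem_sdiff.1 hy).1⟩

end PLQ

open PLQ

theorem s_lq (h : S_Ind) : S_LQ := by
  intro F Λ V Xt Z _ _ _ _ _ _ _ _ _ _ e G U c lam hc h0 hG
  have hI := (h F Λ Xt Z G c hc).1
  have h2 : ∀ S ≤ extU U c, ∀ (x z : Z) (A : Finset Z), x ≠ z → x ∉ A → z ∉ A →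
      av (fun ω : extG G c => rk ((KA e U ω.1 A S).map (sl F x) ⊓ Ker e U fun v => ω.1 (x, v))) ≤
        lam * av (fun ω : extG G c => rk ((KA e U ω.1 A S).map (sl F x))) := by
    intro S hS x z A hxz hx hz
    have h1 := (hI z).cond (j := x) (by simp [hxz]) (fun ω => (KA e U ω.1 A S).map (sl F x))
      (fun ω ω' hω => by
        congr 1
        ext w
        refine mem_KA.trans (Iff.trans (and_congr_right' (forall₂_congr fun y hy => ?_))
          mem_KA.symm)
        have := congrArg Subtype.val (hω y (by simpa using ne_of_mem_of_not_mem hy hz)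
          (ne_of_mem_of_not_mem hy hx))
        exact (show (fun v => ω.1 (y, v)) = fun v => ω'.1 (y, v) from this) ▸ Iff.rfl)
      fun T t => rk (T ⊓ Ker e U t.1)
    refine h1.le.trans ((av_mono fun ω => hG _ ?_).trans (av_mul _ _).le)
    rintro _ ⟨w, hw, rfl⟩
    exact (hS (mem_KA.1 hw).1).1 x
  have hK : ∀ (ω : Z × Xt → Λ) S, KA e U ω ∅ S = S := fun ω S => by simp [KA]
  intro S hS
  refine ⟨fun A => ?_, h2 S hS, fun x z A hxz hx hz => ?_, fun x => ?_, van_bot hc.1 hS⟩
  · induction A using Finset.induction_on generalizing S with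
    | empty =>
      simp only [hK, av_const, show Van ∅ S = S by simp [Van]]
      linarith
    | insert x A hx ih =>
      obtain ⟨z, hz⟩ := exists_ne x
      have h3 := h2 S hS x z ∅ hz.symm (by simp) (by simp)
      have h4 := ih (Van {x} S) (inf_le_left.trans hS)
      have h5 := split_KA (e := e) (U := U) 0 ∅ S x
      have h6 : Van A (Van {x} S) = Van (insert x A) S := by
        ext w
        simp only [mem_Van, mem_singleton, forall_eq, forall_mem_insert, and_assoc]
      simp only [hK, av_const] at h3 h5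
      refine (av_mono fun ω : extG G c => insert_KA ω.1 A S x (T := S) inf_le_left).trans ?_
      rw [av_add, h5, ← h6]
      linarith
  · refine (av_mono fun ω : extG G c => insert_KA ω.1 A S x le_rfl).trans ?_
    rw [av_add, av_congr fun ω : extG G c => split_KA ω.1 A S x, av_add]
    linarith [h2 S hS x z A hxz hx hz]
  · obtain ⟨z, hz, h3⟩ := exists_min_image (univ.erase x)
      (fun z => rk (Van ((univ.erase x).erase z) S)) ((exists_ne x).imp fun z hz => by simp [hz])
    refine ⟨z, ne_of_mem_erase hz, le_trans ?_ ((sum_van hc.1 hS x (univ.erase x)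
      (notMem_erase _ _)).trans (rk_mono inf_le_left))⟩
    have h4 := card_nsmul_le_sum _ _ _ h3
    rwa [card_erase_of_mem (mem_univ x), card_univ, nsmul_eq_mul,
      Nat.cast_pred Fintype.card_pos] at h4

end

end Pool.Agent.P.MP_85b516_nt.LD
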