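import Pool.Agent.P.MP_85b516_nt.LD.Stm

/-! The linear and the quadratic recursion for random kernels. -/

open Finset Module

namespace Pool.Agent.P.MP_85b516_nt.LD

namespace PLin

variable {F Λ V Xt Z : Type} [Field F] [AddCommGroup Λ] [AddCommGroup V] [Module F V]
  [FiniteDimensional F V] [Finite Xt] [Fintype Z]
  {e : Λ → V →ₗ[F] F} {U : Submodule F (Xt → V)} {c : Z → ℤ} {S : Submodule F (Z × Xt → V)}

omit [FiniteDimensional F V] [Finite Xt] [Fintype Z] in
lemma Van_le (A : Finset Z) (S : Submodule F (Z × Xt → V)) : Van A S ≤ S := inf_le_left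

lemma rk_zero {T : Submodule F (Z × Xt → V)} {B : Finset Z} (hb : Van B S = ⊥) (h : T ≤ S)
    (h' : ∀ w ∈ T, ∀ y ∈ B, sl F y w = 0) : rk T = 0 := by
  have : T = ⊥ := le_bot_iff.1 (hb ▸ fun w hw => mem_Van.2 ⟨h hw, h' w hw⟩)
  simp [this, rk]

lemma rk_one (z : Z) (S : Submodule F (Z × Xt → V)) :
    rk S = rk (Van {z} S) + rk (S.map (sl F z)) := by
  rw [rk_split S (sl F z)]
  congr 2
  ext w
  simp [mem_Van]

lemma rk_sum (S : Submodule F (Z × Xt → V)) : rk S ≤ ∑ x, rk (S.map (sl F x)) := by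
  let f : S →ₗ[F] (∀ x : Z, ↥(S.map (sl F x))) := LinearMap.pi fun x => (sl F x).submoduleMap S
  have hf : Function.Injective f := by
    refine (injective_iff_map_eq_zero _).2 fun w hw => ?_
    ext ⟨y, v⟩
    exact congrFun (congrArg Subtype.val (congrFun hw y)) v
  have := LinearMap.finrank_le_finrank_of_injective hf
  rw [Module.finrank_pi_fintype] at this
  unfold rk
  exact_mod_cast this

lemma rk_KA (ω : Z × Xt → Λ) (A : Finset Z) (S : Submodule F (Z × Xt → V)) :
    rk (S ⊓ Ker e (extU U c) ω) ≤ rk (KA e U ω A S) :=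
  rk_mono fun _ hw => mem_KA.2 ⟨hw.1, fun x _ => (mem_Ker_ext.1 hw.2).2 x⟩

lemma rk_slice (ω : Z × Xt → Λ) (z : Z) (A B : Finset Z) (S : Submodule F (Z × Xt → V)) :
    rk (S ⊓ Ker e (extU U c) ω) ≤ rk (KA e U ω A (Van {z} S)) +
      rk ((KA e U ω B S).map (sl F z) ⊓ Ker e U fun v => ω (z, v)) := by
  rw [rk_split _ (sl F z)]
  refine add_le_add (rk_mono fun w hw => mem_KA.2 ⟨mem_Van.2 ⟨hw.1.1, fun x hx => ?_⟩,
    fun x _ => (mem_Ker_ext.1 hw.1.2).2 x⟩) (rk_mono ?_)
  · rw [mem_singleton.1 hx]; exact hw.2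
  · rintro _ ⟨w, hw, rfl⟩
    exact ⟨⟨w, mem_KA.2 ⟨hw.1, fun x _ => (mem_Ker_ext.1 hw.2).2 x⟩, rfl⟩, (mem_Ker_ext.1 hw.2).2 z⟩

lemma rk_map (x : Z) (S : Submodule F (Z × Xt → V)) : rk (S.map (sl F x)) ≤ rk S := by
  linarith [rk_one x S, rk_nonneg (Van {x} S)]

end PLin

open PLin

theorem s_lin (h : S_LQ) : S_Lin := by
  intro F Λ V Xt Z _ _ _ _ _ _ _ _ e G U c lam hc hn h0 h1 hg S hS
  classical
  have : Nontrivial Z := Fintype.one_lt_card_iff_nontrivial.1 (by omega)
  have H := h F Λ V Xt Z e G U c lam hc h0 hg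
  have hn' : (5 : ℝ) ≤ Fintype.card Z := by exact_mod_cast hn
  have h2 : 0 ≤ 1 - lam := by linarith
  have h3 := mul_nonneg h0 h2
  have s0 := rk_nonneg S
  obtain ⟨L, Q0, Q1, pr, bot⟩ := H S hS
  obtain ⟨t, ht⟩ : ∃ t : ℝ, t = 1 / (2 * Fintype.card Z) := ⟨_, rfl⟩
  have ht' : t * (2 * Fintype.card Z) = 1 := by rw [ht]; field_simp
  have ht0 : 0 < t := by rw [ht]; positivity
  rw [div_eq_mul_one_div, ← ht]
  by_cases hz : ∃ z, rk S ≤ 2 * rk (Van {z} S)
  · obtain ⟨z, hz⟩ := hz
    have hS' : Van {z} S ≤ extU U c := (Van_le _ _).trans hS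
    obtain ⟨x, hx, hr⟩ : ∃ x, x ≠ z ∧
        rk (Van {z} S) ≤ Fintype.card Z * rk ((Van {z} S).map (sl F x)) := by
      obtain ⟨x, -, hx⟩ := exists_max_image univ (fun x => rk ((Van {z} S).map (sl F x)))
        univ_nonempty
      have a := (rk_sum (Van {z} S)).trans (sum_le_card_nsmul _ _ _ hx)
      rw [card_univ, nsmul_eq_mul] at a
      by_cases e : x = z
      · obtain ⟨y, hy⟩ := exists_ne z
        refine ⟨y, hy, a.trans (mul_le_mul_of_nonneg_left (le_trans (le_of_eq ?_) (rk_nonneg _))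
          (by positivity))⟩
        have : (Van {z} S).map (sl F x) = ⊥ := by
          rw [eq_bot_iff]
          rintro _ ⟨w, hw, rfl⟩
          exact (mem_Van.1 hw).2 x (by simp [e])
        simp [this, rk]
      · exact ⟨x, e, a⟩
    obtain ⟨w, hw⟩ := exists_ne z
    have a1 := Q0 z w ∅ hw.symm (by simp) (by simp)
    have a2 := (H _ hS').2.2.1 x z ((univ.erase z).erase x) hx (by simp) (by simp)
    have a3 := (H _ ((Van_le {x} _).trans hS')).1 ((univ.erase z).erase x)
    have a4 := (H _ hS').1 ((univ.erase z).erase x)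
    rw [rk_zero (T := Van _ (Van {x} _)) (bot z) ((Van_le _ _).trans ((Van_le _ _).trans
      (Van_le _ _))) fun w hw y hy => by
        by_cases e : y = x
        · exact (mem_Van.1 (mem_Van.1 hw).1).2 y (by simp [e])
        · exact (mem_Van.1 hw).2 y (mem_erase.2 ⟨e, hy⟩)] at a3
    rw [rk_zero (T := Van _ (Van {z} _)) (bot x) ((Van_le _ _).trans (Van_le _ _))
      fun w hw y hy => by
        by_cases e : y = z
        · exact (mem_Van.1 (mem_Van.1 hw).1).2 y (by simp [e])
        · exact (mem_Van.1 hw).2 y (by simp [e, (mem_erase.1 hy).1])] at a4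
    have a5 := av_mono fun ω : extG G c =>
      rk_slice (e := e) (U := U) (c := c) ω.1 z (insert x ((univ.erase z).erase x)) ∅ S
    rw [av_add] at a5
    have a6 : av (fun ω : extG G c => rk ((KA e U ω.1 ∅ S).map (sl F z))) = rk (S.map (sl F z)) := by
      rw [← av_const (α := extG G c) (rk (S.map (sl F z)))]
      exact av_congr fun ω => by simp [KA]
    have b1 := rk_one z S
    have b2 := rk_one x (Van {z} S)
    have b3 : t * rk S ≤ rk ((Van {z} S).map (sl F x)) := by
      have := mul_le_mul_of_nonneg_left (hz.trans (mul_le_mul_of_nonneg_left hr zero_le_two)) ht0.le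
      rwa [← mul_assoc 2, ← mul_assoc t, ht', one_mul] at this
    rw [a6] at a1
    nlinarith [mul_le_mul_of_nonneg_left a3 h2, mul_le_mul_of_nonneg_left a4 h0,
      mul_le_mul_of_nonneg_left b3 h3]
  · simp only [not_exists, not_le] at hz
    obtain ⟨x⟩ : Nonempty Z := inferInstance
    obtain ⟨z, hzx, p⟩ := pr x
    have a2 := Q1 x z ((univ.erase x).erase z) hzx.symm (by simp) (by simp)
    have a3 := (H _ ((Van_le {x} _).trans hS)).1 ((univ.erase x).erase z)
    have a4 := L ((univ.erase x).erase z)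
    rw [rk_zero (T := Van _ (Van {x} _)) (bot z) ((Van_le _ _).trans (Van_le _ _))
      fun w hw y hy => by
        by_cases e : y = x
        · exact (mem_Van.1 (mem_Van.1 hw).1).2 y (by simp [e])
        · exact (mem_Van.1 hw).2 y (by simp [e, (mem_erase.1 hy).1])] at a3
    have a5 := av_mono fun ω : extG G c =>
      rk_KA (e := e) (U := U) (c := c) ω.1 (insert x ((univ.erase x).erase z)) S
    have b1 : 4 * rk (Van ((univ.erase x).erase z) S) ≤ rk S :=
      (mul_le_mul_of_nonneg_right (by linarith) (rk_nonneg _)).trans p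
    have b2 : t * rk S ≤ 1 / 4 * rk S := mul_le_mul_of_nonneg_right (by nlinarith) s0
    nlinarith [mul_le_mul_of_nonneg_left a3 h2, mul_le_mul_of_nonneg_left a4 h0,
      mul_le_mul_of_nonneg_left b1 h3, mul_le_mul_of_nonneg_left b2 h3,
      mul_le_mul_of_nonneg_left (hz x).le h3]

theorem s_quad (h : S_LQ) : S_Quad := by
  intro F Λ V Xt Z _ _ _ _ _ _ _ _ e G U c lam hc hn h0 h1 hg S hS
  classical
  have : Nontrivial Z := Fintype.one_lt_card_iff_nontrivial.1 (by omega)
  have H := h F Λ V Xt Z e G U c lam hc h0 hg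
  have hn' : (5 : ℝ) ≤ Fintype.card Z := by exact_mod_cast hn
  have h2 : 0 ≤ 1 - lam := by linarith
  obtain ⟨z⟩ : Nonempty Z := inferInstance
  have key : ∀ A : Finset Z, z ∉ A → ∀ T ≤ extU U c, (∀ w ∈ T, ∀ y, y ∉ A → sl F y w = 0) →
      av (fun ω : extG G c => rk (KA e U ω.1 A T)) ≤ A.card * lam ^ 2 * rk T := by
    intro A
    induction A using Finset.induction_on with
    | empty =>
      intro _ T hT hv
      have a := (H T hT).1 ∅
      have b := rk_zero ((H T hT).2.2.2.2 z) le_rfl fun w hw y _ => hv w hw y (by simp)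
      have d := rk_zero ((H T hT).2.2.2.2 z) (Van_le ∅ T) fun w hw y _ =>
        hv w (Van_le _ _ hw) y (by simp)
      rw [b, d] at a
      simpa [b] using a
    | insert x A hx ih =>
      intro hz T hT hv
      rw [mem_insert, not_or] at hz
      have a2 := (H T hT).2.2.1 x z A (Ne.symm hz.1) hx hz.2
      have a3 := ih hz.2 (Van {x} T) ((Van_le _ _).trans hT) fun w hw y hy => by
        by_cases e : y = x
        · exact (mem_Van.1 hw).2 y (by simp [e])
        · exact hv w (Van_le _ _ hw) y (by simp [e, hy])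
      have a4 := (H T hT).1 A
      rw [rk_zero (T := Van A T) ((H T hT).2.2.2.2 x) (Van_le _ _) fun w hw y hy => by
        by_cases e : y ∈ A
        · exact (mem_Van.1 hw).2 y e
        · exact hv w (Van_le _ _ hw) y (by simp [e, (mem_erase.1 hy).1])] at a4
      have b0 : (0 : ℝ) ≤ A.card * lam ^ 2 := by positivity
      have b1 := mul_le_mul_of_nonneg_left (rk_mono (Van_le {x} T)) b0
      have b2 := mul_nonneg h0 (mul_nonneg b0 (rk_nonneg T))
      rw [card_insert_of_notMem hx]
      push_cast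
      nlinarith [mul_le_mul_of_nonneg_left (a3.trans b1) h2, mul_le_mul_of_nonneg_left a4 h0]
  obtain ⟨L, Q0, -, pr, -⟩ := H S hS
  obtain ⟨w, hw, p⟩ := pr z
  have a1 := key (univ.erase z) (by simp) (Van {z} S) ((Van_le _ _).trans hS) fun w hw y hy =>
    (mem_Van.1 hw).2 y (by simpa using hy)
  have a2 := Q0 z w ((univ.erase z).erase w) hw.symm (by simp) (by simp)
  have a3 := av_mono fun ω : extG G c => rk_map z (KA e U ω.1 ((univ.erase z).erase w) S)
  have a4 := L ((univ.erase z).erase w)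
  have a5 := av_mono fun ω : extG G c =>
    rk_slice (e := e) (U := U) (c := c) ω.1 z (univ.erase z) ((univ.erase z).erase w) S
  rw [av_add] at a5
  rw [card_erase_of_mem (mem_univ z), card_univ, Nat.cast_pred (by omega)] at a1
  have b0 : (0 : ℝ) ≤ (Fintype.card Z - 1) * lam ^ 2 := mul_nonneg (by linarith) (sq_nonneg _)
  have b1 := mul_le_mul_of_nonneg_left (rk_mono (Van_le {z} S)) b0
  have b2 : rk (Van ((univ.erase z).erase w) S) ≤ 1 / ((Fintype.card Z : ℝ) - 1) * rk S := by
    rw [one_div, le_inv_mul_iff₀ (by linarith)]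
    exact p
  have b3 := mul_nonneg (sq_nonneg lam) (rk_nonneg (Van ((univ.erase z).erase w) S))
  rw [div_eq_mul_one_div]
  nlinarith [mul_le_mul_of_nonneg_left (a3.trans a4) h0, mul_le_mul_of_nonneg_left b2 h0]

end Pool.Agent.P.MP_85b516_nt.LD
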