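import Pool.Agent.P.MP_85b516_nt.LD.Stm

/-! From configurations to all moduli (Theorem LD, MP_85b516_nt). -/

open Finset

namespace Pool.Agent.P.MP_85b516_nt.LD

lemma main_one (h1 : S_Ndp) (h2 : S_Core) (a' N M : ℕ) (E : Finset ℕ) (ha : 1 ≤ a') (hN : 1 ≤ N)
    (hM : M.Prime) : ∃ (L : List ℕ) (D : ℕ), (∀ r ∈ L, r ∉ E) ∧ ∀ d, D ≤ d → ∀ q e : ℕ, q.Prime →
      ((e = 0 ∧ N = 1) ∨ (1 ≤ e ∧ N = q ^ (e + 1))) → ¬ q ∣ a' → q ≠ M → q ∉ L →
      ∀ b h : ℕ, 1 ≤ h →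
        ¬ ∀ n, pd d (q ^ e * a' * (n + h) + b) ≡ pd d (q ^ e * a' * n + b) [MOD q] := by
  classical
  obtain ⟨L, hL, hLp, H⟩ := h1 a' N M (E ∪ a'.primeFactors) ha hN hM
  choose dd hdd using fun (p : ℕ) (l : List ℕ) => h2 a' N p l ha
  refine ⟨L, L.tails.toFinset.sup fun t => dd t.headI t.tail,
    fun r hr h => (hLp r hr).2 (mem_union_left _ h), ?_⟩
  intro d hd q e hq hc hqa hqM hqL
  haveI : Fact q.Prime := ⟨hq⟩
  obtain ⟨f, hf⟩ : ∃ f, N = q ^ f := by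
    rcases hc with ⟨-, h⟩ | ⟨-, h⟩
    · exact ⟨0, by simpa using h⟩
    · exact ⟨_, h⟩
  obtain ⟨p, l, hs, hP⟩ := H q f (AlgebraicClosure (ZMod q)) hq hf hqM hqL
  have hle : dd p l ≤ d := le_trans (le_sup (f := fun t : List ℕ => dd t.headI t.tail)
    (List.mem_toFinset.2 ((List.mem_tails _ _).2 hs))) hd
  refine hdd p l d hle q e (AlgebraicClosure (ZMod q)) hq inferInstance hc hqa
    (hL.sublist hs.sublist) (fun r hr => ?_) hP
  have hr' := hs.subset hr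
  refine ⟨(hLp r hr').1, fun h => (hLp r hr').2 (mem_union_right _ ?_), fun h => hqL (h ▸ hr')⟩
  exact Nat.mem_primeFactors.2 ⟨(hLp r hr').1, h, by omega⟩

lemma main_prime (h1 : S_Ndp) (h2 : S_Core) (a q : ℕ) (ha : 1 ≤ a) (hq : q.Prime) :
    ∃ D : ℕ, ∀ d, D ≤ d → ∀ b h : ℕ, 1 ≤ h →
      ¬ ∀ n, pd d (a * (n + h) + b) ≡ pd d (a * n + b) [MOD q] := by
  obtain ⟨e, a', hqa, rfl⟩ := Nat.exists_eq_pow_mul_and_not_dvd (n := a) (by omega) q hq.ne_one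
  have ha' : 1 ≤ a' := Nat.pos_of_ne_zero fun h => hqa (h ▸ dvd_zero q)
  obtain ⟨M, hM, hMp⟩ := Nat.exists_infinite_primes (q + 1)
  obtain ⟨L, D, hL, H⟩ := main_one h1 h2 a' (if e = 0 then 1 else q ^ (e + 1)) M {q} ha'
    (by split_ifs; exacts [le_rfl, pow_pos hq.pos _]) hMp
  refine ⟨D, fun d hd => H d hd q e hq ?_ hqa (by omega) fun h => hL q h (mem_singleton_self q)⟩
  by_cases he : e = 0
  · exact Or.inl ⟨he, if_pos he⟩
  · exact Or.inr ⟨by omega, if_neg he⟩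

theorem s_main (h1 : S_Ndp) (h2 : S_Core) : S_Main := by
  classical
  intro a ha
  obtain ⟨L, D, -, H⟩ := main_one h1 h2 a 1 2 ∅ ha le_rfl Nat.prime_two
  have hp : ∀ q : ℕ, ∃ D : ℕ, q.Prime → ∀ d, D ≤ d → ∀ b h : ℕ, 1 ≤ h →
      ¬ ∀ n, pd d (a * (n + h) + b) ≡ pd d (a * n + b) [MOD q] := fun q => by
    by_cases hq : q.Prime
    · exact (main_prime h1 h2 a q ha hq).imp fun _ h _ => h
    · exact ⟨0, fun h => absurd h hq⟩
  choose dd hdd using hp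
  refine ⟨max D ((insert 2 (L.toFinset ∪ a.primeFactors)).sup dd), ?_⟩
  intro d hd m b h hm hh hper
  obtain ⟨q, hq, hqm⟩ := Nat.exists_prime_and_dvd (n := m) (by omega)
  have hper' : ∀ n, pd d (a * (n + h) + b) ≡ pd d (a * n + b) [MOD q] :=
    fun n => (hper n).of_dvd hqm
  by_cases hE : q ∈ insert 2 (L.toFinset ∪ a.primeFactors)
  · exact hdd q hq d ((le_sup hE).trans ((le_max_right _ _).trans hd)) b h hh hper'
  · simp only [mem_insert, mem_union, List.mem_toFinset, Nat.mem_primeFactors, not_or] at hE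
    refine H d ((le_max_left _ _).trans hd) q 0 hq (Or.inl ⟨rfl, rfl⟩)
      (fun h => hE.2.2 ⟨hq, h, by omega⟩) hE.1 hE.2.1 b h hh ?_
    simpa using hper'

end Pool.Agent.P.MP_85b516_nt.LD
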