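import Pool.Agent.P.MP_85b516_nt.LD.Stm

/-! Lacunary substitution and transfer of non-degeneracy (MP_85b516_nt, Theorem LD). -/

open PowerSeries Finset Module
open AddMonoidAlgebra (single)

namespace Pool.Agent.P.MP_85b516_nt.LD

noncomputable section

namespace PMat

lemma wt_lt {K E d : ℕ} (h : ∀ k, 1 ≤ k → k ≤ K → E * k ^ d < (k + 1) ^ d) (e : ℕ → ℕ)
    (he : ∑ k ∈ Icc 1 K, e k ≤ E) : ∑ k ∈ Icc 1 K, e k * k ^ d < (K + 1) ^ d := by
  rcases Nat.eq_zero_or_pos K with rfl | hK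
  · simp
  · refine lt_of_le_of_lt ?_ (h K hK le_rfl)
    calc ∑ k ∈ Icc 1 K, e k * k ^ d ≤ ∑ k ∈ Icc 1 K, e k * K ^ d :=
          sum_le_sum fun k hk =>
            Nat.mul_le_mul_left _ (Nat.pow_le_pow_left (mem_Icc.1 hk).2 d)
      _ = (∑ k ∈ Icc 1 K, e k) * K ^ d := (sum_mul _ _ _).symm
      _ ≤ E * K ^ d := Nat.mul_le_mul_right _ he

lemma wt_inj {E d : ℕ} (e e' : ℕ → ℕ) : ∀ K : ℕ,
    (∀ k, 1 ≤ k → k ≤ K → E * k ^ d < (k + 1) ^ d) → ∑ k ∈ Icc 1 K, e k ≤ E →
    ∑ k ∈ Icc 1 K, e' k ≤ E → ∑ k ∈ Icc 1 K, e k * k ^ d = ∑ k ∈ Icc 1 K, e' k * k ^ d →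
    ∀ k ∈ Icc 1 K, e k = e' k
  | 0, _, _, _, _ => by simp
  | K + 1, h, h1, h2, h3 => by
    rw [sum_Icc_succ_top (by omega)] at h1 h2 h3
    rw [sum_Icc_succ_top (by omega)] at h3
    have h' : ∀ k, 1 ≤ k → k ≤ K → E * k ^ d < (k + 1) ^ d := fun k a b => h k a (by omega)
    have a1 := wt_lt h' e (by omega)
    have a2 := wt_lt h' e' (by omega)
    have hp : 0 < (K + 1) ^ d := by positivity
    have q : e (K + 1) = e' (K + 1) := by
      have := congrArg (· / (K + 1) ^ d) h3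
      simpa only [Nat.add_mul_div_right _ _ hp, Nat.div_eq_of_lt a1, Nat.div_eq_of_lt a2,
        zero_add] using this
    rw [q] at h3
    intro k hk
    rcases Nat.lt_or_ge k (K + 1) with g | g
    · exact wt_inj e e' K h' (by omega) (by omega) (by omega) k
        (mem_Icc.2 ⟨(mem_Icc.1 hk).1, by omega⟩)
    · obtain rfl : k = K + 1 := le_antisymm (mem_Icc.1 hk).2 g
      exact q

section G
variable {J Xt Rr : Type} [Fintype J] [Fintype Xt] {N : ℕ} [NeZero N]

open scoped Classical in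
/-- The matrix of the non-degeneracy conditions. -/
def GM {R : Type} [CommRing R] (ρ : Rr → Xt → ℤ) (v0 v1 : Xt) (z : J → Xt → ZMod N → R) :
    Matrix ((J × Rr × ZMod N) ⊕ (J × ZMod N) ⊕ Xt) (J × Xt × ZMod N) R :=
  Matrix.of (Sum.elim
    (fun a b => if b.1 = a.1 then ρ a.2.1 b.2.1 • z b.1 b.2.1 (a.2.2 - b.2.2) else 0)
    (Sum.elim
      (fun a b => if b.1 = a.1 then
        (if b.2.1 = v0 then z b.1 b.2.1 (a.2 - b.2.2) else 0) -
          (if b.2.1 = v1 then z b.1 b.2.1 (a.2 - b.2.2) else 0) else 0)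
      fun v b => if b.2.1 = v ∧ b.2.2 = 0 then 1 else 0))

omit [Fintype J] [Fintype Xt] [NeZero N] in
lemma GM_map {R S : Type} [CommRing R] [CommRing S] (f : R →+* S) (ρ : Rr → Xt → ℤ) (v0 v1 : Xt)
    (z : J → Xt → ZMod N → R) :
    (GM ρ v0 v1 z).map f = GM ρ v0 v1 fun i v c => f (z i v c) := by
  ext a b
  rcases a with a | a | a <;> simp only [GM, Matrix.map_apply, Matrix.of_apply, Sum.elim_inl,
    Sum.elim_inr] <;> split_ifs <;> simp

omit [Fintype J] [Fintype Xt] [NeZero N] in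
lemma GM_mem {F R : Type} [CommRing F] [CommRing R] [Algebra F R] (P : Submodule F R)
    (h1 : (1 : R) ∈ P) (ρ : Rr → Xt → ℤ) (v0 v1 : Xt) (z : J → Xt → ZMod N → R)
    (hz : ∀ i v c, z i v c ∈ P) (a) (b) : GM ρ v0 v1 z a b ∈ P := by
  rcases a with a | a | a <;> simp only [GM, Matrix.of_apply, Sum.elim_inl, Sum.elim_inr]
  · split_ifs
    · exact P.toAddSubgroup.zsmul_mem (hz _ _ _) _
    · exact P.zero_mem
  · split_ifs <;> simp [hz]
  · split_ifs
    · exact h1
    · exact P.zero_mem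

lemma cf_mul {R : Type} [CommRing R] (y u : BB R N) (c : ZMod N) :
    (y * u).coeff c = ∑ c', y.coeff (c - c') * u.coeff c' := by
  rw [mul_comm, coeff_mul_bb]
  exact sum_congr rfl fun _ _ => mul_comm _ _

lemma GM_row1 {R : Type} [CommRing R] (ρ : Rr → Xt → ℤ) (v0 v1 : Xt) (Z u : J → Xt → BB R N)
    (i : J) (r : Rr) (c : ZMod N) :
    (GM ρ v0 v1 fun i v c => (Z i v).coeff c).mulVec (fun b => (u b.1 b.2.1).coeff b.2.2)
      (Sum.inl (i, r, c)) = (∑ v, ρ r v • (Z i v * u i v)).coeff c := by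
  classical
  change _ = cf c _
  rw [map_sum]
  simp only [map_zsmul, cf_apply, cf_mul, Matrix.mulVec, dotProduct, GM, Matrix.of_apply,
    Sum.elim_inl, Fintype.sum_prod_type]
  rw [sum_eq_single i]
  · simp [Finset.mul_sum, mul_assoc]
  · intro j _ hj
    simp [hj]
  · simp

lemma GM_row2 {R : Type} [CommRing R] (ρ : Rr → Xt → ℤ) (v0 v1 : Xt) (Z u : J → Xt → BB R N)
    (i : J) (c : ZMod N) :
    (GM ρ v0 v1 fun i v c => (Z i v).coeff c).mulVec (fun b => (u b.1 b.2.1).coeff b.2.2)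
      (Sum.inr (Sum.inl (i, c))) = (Z i v0 * u i v0).coeff c - (Z i v1 * u i v1).coeff c := by
  classical
  simp only [cf_mul, Matrix.mulVec, dotProduct, GM, Matrix.of_apply,
    Sum.elim_inl, Sum.elim_inr, Fintype.sum_prod_type]
  rw [sum_eq_single i]
  · simp only [if_true, sub_mul, sum_sub_distrib, ite_mul, zero_mul]
    rw [sum_comm, sum_comm (s := (univ : Finset Xt))]
    simp
  · intro j _ hj
    simp [hj]
  · simp

lemma GM_row3 {R : Type} [CommRing R] (ρ : Rr → Xt → ℤ) (v0 v1 : Xt) (Z u : J → Xt → BB R N)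
    (v : Xt) :
    (GM ρ v0 v1 fun i v c => (Z i v).coeff c).mulVec (fun b => (u b.1 b.2.1).coeff b.2.2)
      (Sum.inr (Sum.inr v)) = ∑ i, (u i v).coeff 0 := by
  classical
  simp only [Matrix.mulVec, dotProduct, GM, Matrix.of_apply, Sum.elim_inr, Fintype.sum_prod_type]
  refine sum_congr rfl fun i _ => ?_
  rw [sum_eq_single v]
  · simp
  · intro w _ hw
    simp [hw]
  · simp

lemma ndz_iff {R : Type} [CommRing R] (ρ : Rr → Xt → ℤ) (v0 v1 : Xt) (Z : J → Xt → BB R N) :
    NDZ ρ v0 v1 Z ↔ ∀ x, (GM ρ v0 v1 fun i v c => (Z i v).coeff c).mulVec x = 0 → x = 0 := by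
  constructor
  · intro H x hx
    obtain ⟨u, rfl⟩ : ∃ u : J → Xt → BB R N, x = fun b => (u b.1 b.2.1).coeff b.2.2 := by
      refine ⟨fun i v => ∑ c, single c (x (i, v, c)), funext fun b => ?_⟩
      simp [AddMonoidAlgebra.coeff_sum, Finsupp.finsetSum_apply, Finsupp.single_apply]
    have := H u (fun i r => ?_) (fun i => ?_) fun v => ?_
    · subst this
      rfl
    · ext c
      exact (GM_row1 ρ v0 v1 Z u i r c).symm.trans (congrFun hx _)
    · ext c
      exact sub_eq_zero.1 ((GM_row2 ρ v0 v1 Z u i c).symm.trans (congrFun hx _))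
    · exact (GM_row3 ρ v0 v1 Z u v).symm.trans (congrFun hx _)
  · intro H u h1 h2 h3
    have := H (fun b => (u b.1 b.2.1).coeff b.2.2) (funext fun a => ?_)
    · funext i v
      ext c
      exact congrFun this (i, v, c)
    · rcases a with ⟨i, r, c⟩ | ⟨i, c⟩ | v
      · rw [GM_row1, h1]
        rfl
      · rw [GM_row2, h2, sub_self]
        rfl
      · rw [GM_row3, h3]
        rfl

end G

lemma det_deg {F n : Type} [Field F] [Fintype n] [DecidableEq n]
    (A : Matrix n n (MvPolynomial ℕ F)) (E : ℕ) (h : ∀ a b, (A a b).totalDegree ≤ E) :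
    A.det.totalDegree ≤ Fintype.card n * E := by
  rw [Matrix.det_apply']
  refine (MvPolynomial.totalDegree_finsetSum _ _).trans (Finset.sup_le fun σ _ => ?_)
  refine (MvPolynomial.totalDegree_mul _ _).trans ?_
  have e : (((Equiv.Perm.sign σ : ℤˣ) : ℤ) : MvPolynomial ℕ F).totalDegree = 0 := by
    rw [← map_intCast (MvPolynomial.C : F →+* MvPolynomial ℕ F), MvPolynomial.totalDegree_C]
  rw [e, zero_add]
  refine (MvPolynomial.totalDegree_finsetProd _ _).trans ?_
  exact (sum_le_card_nsmul _ _ E fun i _ => h _ _).trans (by simp)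

lemma det_mem {F R n : Type} [CommRing F] [CommRing R] [Algebra F R] [Fintype n] [DecidableEq n]
    (P : Subalgebra F R) (A : Matrix n n R) (h : ∀ a b, A a b ∈ P) : A.det ∈ P := by
  rw [Matrix.det_apply']
  exact sum_mem fun σ _ => mul_mem (intCast_mem P _) (prod_mem fun i _ => h _ _)

end PMat

open PMat

theorem s_lac : S_Lac := by
  classical
  intro F _ D K E d hD hE hV _ hk hdvd
  have hs : ∀ m ∈ D.support, m.support ⊆ Icc 1 K := fun m hm k hk' =>
    hV ((MvPolynomial.mem_vars_iff_mem_support k).2 ⟨m, hm, hk'⟩)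
  have hle : ∀ m ∈ D.support, ∑ k ∈ Icc 1 K, m k ≤ E := fun m hm => by
    refine le_trans (le_of_eq ?_) ((MvPolynomial.le_totalDegree hm).trans hE)
    exact (Finsupp.sum_of_support_subset m (hs m hm) (fun _ e => e) fun _ _ => rfl).symm
  have ha : MvPolynomial.aeval (fun k => (X : F⟦X⟧) ^ (k ^ d)) D =
      ∑ m ∈ D.support, C (D.coeff m) * X ^ (∑ k ∈ Icc 1 K, m k * k ^ d) := by
    conv_lhs => rw [D.as_sum]
    rw [map_sum]
    refine sum_congr rfl fun m hm => ?_
    rw [MvPolynomial.aeval_monomial,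
      Finsupp.prod_of_support_subset m (hs m hm) _ fun _ _ => pow_zero _, ← prod_pow_eq_pow_sum]
    congr 1
    exact prod_congr rfl fun k _ => by rw [← pow_mul, mul_comm]
  obtain ⟨m, hm⟩ := MvPolynomial.support_nonempty.2 hD
  have h0 := X_pow_dvd_iff.1 hdvd _ (wt_lt hk m (hle m hm))
  rw [ha, map_sum, sum_eq_single m] at h0
  · simp only [coeff_C_mul, coeff_X_pow, if_true, mul_one] at h0
    exact MvPolynomial.mem_support_iff.1 hm h0
  · intro m' hm' hne
    rw [coeff_C_mul, coeff_X_pow, if_neg, mul_zero]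
    intro e
    apply hne
    ext k
    by_cases g : k ∈ Icc 1 K
    · exact (wt_inj m m' K hk (hle m hm) (hle m' hm') e k g).symm
    · rw [Finsupp.notMem_support_iff.1 fun a => g (hs m hm a),
        Finsupp.notMem_support_iff.1 fun a => g (hs m' hm' a)]
  · exact fun a => absurd hm a

theorem s_mat (h : S_Lac) : S_Mat := by
  classical
  intro F J Xt Rr _ _ _ _ N _ ρ v0 v1 Zm Zt t K E d hZ hd hk h2 h3
  rw [ndz_iff] at h2 ⊢
  simp only [coeff_mp] at h2 ⊢
  rw [← GM_map] at h2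
  rw [← GM_map]
  set G := GM ρ v0 v1 fun i v c => (Zm i v).coeff c with hG
  set G' := GM ρ v0 v1 fun i v c => (Zt i v).coeff c with hG'
  have hinj : LinearMap.ker (Matrix.toLin' (G.map (MvPolynomial.eval t))) = ⊥ := by
    rw [LinearMap.ker_eq_bot']
    exact fun u hu => h2 u hu
  obtain ⟨g, hg⟩ := LinearMap.exists_leftInverse_of_injective _ hinj
  obtain ⟨B, hB⟩ : ∃ B : Matrix (J × Xt × ZMod N) _ F,
      B * G.map (MvPolynomial.eval t) = (1 : Matrix (J × Xt × ZMod N) (J × Xt × ZMod N) F) := by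
    refine ⟨LinearMap.toMatrix' g, ?_⟩
    have := congrArg LinearMap.toMatrix' hg
    rwa [LinearMap.toMatrix'_comp, LinearMap.toMatrix'_toLin', LinearMap.toMatrix'_id] at this
  obtain ⟨A, hA⟩ : ∃ A, A = B.map (algebraMap F (MvPolynomial ℕ F)) * G := ⟨_, rfl⟩
  have hdet : MvPolynomial.eval t A.det = 1 := by
    rw [RingHom.map_det, RingHom.mapMatrix_apply, hA, Matrix.map_mul, Matrix.map_map]
    have : B.map (MvPolynomial.eval t ∘ algebraMap F (MvPolynomial ℕ F)) = B := by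
      ext a b
      simp
    rw [this]
    exact (congrArg Matrix.det hB).trans Matrix.det_one
  have hAm : ∀ P : Submodule F (MvPolynomial ℕ F), 1 ∈ P → (∀ i v c, (Zm i v).coeff c ∈ P) →
      ∀ a b, A a b ∈ P := by
    intro P p1 p2 a b
    rw [hA, Matrix.mul_apply]
    refine P.sum_mem fun x _ => ?_
    rw [Matrix.map_apply, ← Algebra.smul_def]
    exact P.smul_mem _ (GM_mem P p1 ρ v0 v1 _ p2 _ _)
  have d1 := det_deg A E fun a b => (MvPolynomial.mem_restrictTotalDegree ℕ E _).1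
    (hAm _ ((MvPolynomial.mem_restrictTotalDegree ℕ E _).2 (by simp))
      (fun i v c => (MvPolynomial.mem_restrictTotalDegree ℕ E _).2 (hZ i v c).1) a b)
  have d2 := det_mem (MvPolynomial.supported F (↑(Icc 1 K) : Set ℕ)) A
    (hAm (Subalgebra.toSubmodule (MvPolynomial.supported F (↑(Icc 1 K) : Set ℕ)))
      (Subalgebra.one_mem _) fun i v c =>
      MvPolynomial.mem_supported.2 (Finset.coe_subset.2 (hZ i v c).2))
  have hn := h F A.det K _ d (fun e => by simp [e] at hdet) d1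
    (Finset.coe_subset.1 (MvPolynomial.mem_supported.1 d2)) hd fun k a b => by
      simpa [Fintype.card_prod, ZMod.card, mul_assoc] using hk k a b
  set π := Ideal.Quotient.mk (Ideal.span {(X : F⟦X⟧) ^ ((K + 1) ^ d)}) with hπ
  set φ : MvPolynomial ℕ F →+* F⟦X⟧ :=
    (MvPolynomial.aeval (fun k => (X : F⟦X⟧) ^ (k ^ d))).toRingHom with hφ
  obtain ⟨A', hA'⟩ : ∃ A', A' = B.map (algebraMap F F⟦X⟧) * G' := ⟨_, rfl⟩
  have e1 : G.map (π.comp φ) = G'.map π := by
    rw [hG, hG', GM_map, GM_map]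
    congr 1
    funext i v c
    exact (Ideal.Quotient.eq.2 (Ideal.mem_span_singleton.2 (h3 i v c))).symm
  have e2 : A.map (π.comp φ) = A'.map π := by
    rw [hA, hA', Matrix.map_mul, Matrix.map_mul, e1, Matrix.map_map, Matrix.map_map]
    congr 2
    funext s
    simp [hφ]
  have e3 : A'.det ≠ 0 := by
    intro e
    apply hn
    have : π.comp φ A.det = π A'.det := by
      rw [RingHom.map_det, RingHom.map_det, RingHom.mapMatrix_apply, RingHom.mapMatrix_apply, e2]
    rw [e, map_zero] at this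
    exact Ideal.mem_span_singleton.1 (Ideal.Quotient.eq_zero_iff_mem.1 this)
  have e4 : (A'.map (algebraMap F⟦X⟧ (FractionRing F⟦X⟧))).det ≠ 0 := by
    rw [← RingHom.mapMatrix_apply, ← RingHom.map_det]
    exact (map_ne_zero_iff _ (IsFractionRing.injective F⟦X⟧ _)).2 e3
  intro x hx
  refine Matrix.eq_zero_of_mulVec_eq_zero e4 ?_
  rw [hA', Matrix.map_mul, ← Matrix.mulVec_mulVec, hx, Matrix.mulVec_zero]

end

end Pool.Agent.P.MP_85b516_nt.LD
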