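import Pool.Agent.P.MP_85b516_nt.LD.Stm

/-! Existence of non-degenerate points (Theorem LD, MP_85b516_nt). -/

open PowerSeries Finset Module

namespace Pool.Agent.P.MP_85b516_nt.LD

lemma finrank_bb (F : Type) [Field F] (N : ℕ) [NeZero N] : finrank F (BB F N) = N := by
  rw [finrank_eq_card_basis (AddMonoidAlgebra.basis (ZMod N) F), ZMod.card]

lemma eF_apply {F : Type} [Field F] (a' N M : ℕ) (z : F) (t : Fin a' → ZMod N × ZMod M)
    (u : Fin a' → BB F N) : eF a' N M z t u = ∑ i, z ^ (t i).2.val * (u i).coeff (-(t i).1) := by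
  rw [eF, LinearMap.sum_apply]
  rfl

lemma eF_sep {F : Type} [Field F] (a' N M : ℕ) (z : F) (hM : M.Prime) (hz : IsPrimitiveRoot z M)
    (u : Fin a' → BB F N) (h : ∀ t, eF a' N M z t u = 0) : u = 0 := by
  classical
  haveI : Fact (1 < M) := ⟨hM.one_lt⟩
  funext i
  ext c
  have h0 := h fun _ => (-c, 0)
  have h1 := h fun j => (-c, if j = i then 1 else 0)
  rw [eF_apply] at h0 h1
  have h2 : (z - 1) * (u i).coeff c = 0 := by
    rw [← sub_eq_zero_of_eq (h1.trans h0.symm), ← sum_sub_distrib, sum_eq_single i]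
    · simp [ZMod.val_one, sub_mul]
    · intro j _ hj
      simp [hj]
    · simp
  have hz1 : z - 1 ≠ 0 := sub_ne_zero.2 (hz.ne_one hM.one_lt)
  simpa using (mul_eq_zero.1 h2).resolve_left hz1

lemma inj_zmod {n r : ℕ} (h : Nat.Coprime r n) : Function.Injective fun t : ZMod n => (r : ℤ) • t := by
  intro t t' e
  have hu := (ZMod.unitOfCoprime r h).isUnit
  rw [ZMod.coe_unitOfCoprime] at hu
  apply hu.mul_left_cancel
  simpa using e

theorem s_ndp (h1 : S_RK) (h2 : S_ID) : S_Ndp := by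
  intro a' N M E ha hN hM
  obtain ⟨L, hL, hLp, H⟩ := h1 ((N * M) ^ a') (a' * N) (insert M E) (Nat.mul_pos ha hN)
  refine ⟨L, hL, fun r hr => ⟨(hLp r hr).1, fun h => (hLp r hr).2 (mem_insert_of_mem h)⟩, ?_⟩
  intro q f F _ _ _ hq hNq hqM hqL
  haveI : NeZero N := ⟨by omega⟩
  haveI : NeZero M := ⟨hM.ne_zero⟩
  have hcast : ∀ r : ℕ, r.Prime → r ≠ q → (r : F) ≠ 0 := fun r hr hne h =>
    hne ((Nat.prime_dvd_prime_iff_eq hq hr).1 ((CharP.cast_eq_zero_iff F q r).1 h)).symm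
  haveI : NeZero (M : F) := ⟨hcast M hM hqM.symm⟩
  obtain ⟨z, hz⟩ := HasEnoughRootsOfUnity.exists_primitiveRoot F M
  have hq' : ∀ r ∈ L, r ≠ q := fun r hr h => hqL (h ▸ hr)
  obtain ⟨p, l, hs, hpr⟩ := H F (Fin a' → ZMod N × ZMod M) (Fin a' → BB F N) (eF a' N M z)
    (by simp [Nat.card_eq_fintype_card])
    (by rw [finrank_pi_fintype]; simp [finrank_bb])
    (eF_sep a' N M z hM hz)
    (fun r hr => ⟨hcast r (hLp r hr).1 (hq' r hr), by
      have c1 : Nat.Coprime r N := by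
        rw [hNq]
        exact Nat.Coprime.pow_right _ ((Nat.coprime_primes (hLp r hr).1 hq).2 (hq' r hr))
      have c2 : Nat.Coprime r M := (Nat.coprime_primes (hLp r hr).1 hM).2 fun h =>
        (hLp r hr).2 (h ▸ mem_insert_self _ _)
      intro t t' e
      funext i
      have := congrFun e i
      exact Prod.ext (inj_zmod c1 (congrArg Prod.fst this)) (inj_zmod c2 (congrArg Prod.snd this))⟩)
  exact ⟨p, l, hs, h2 q f a' N M p l F z hq hNq hM hz
    (fun r hr => ⟨(hLp r (hs.subset hr)).1, hcast r (hLp r (hs.subset hr)).1 (hq' r (hs.subset hr))⟩) hpr⟩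

end Pool.Agent.P.MP_85b516_nt.LD
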