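import Pool.Agent.P.MP_85b516_nt.LD.Stm

/-! Non-degeneracy of the true series for large `d`. -/

open PowerSeries Finset Module
open AddMonoidAlgebra (single)

namespace Pool.Agent.P.MP_85b516_nt.LD

noncomputable section

namespace PNdt

lemma bern (k : ℕ) : ∀ d : ℕ, k ^ d * (k + d) ≤ (k + 1) ^ d * k
  | 0 => by simp
  | d + 1 => by
    have h1 := bern k d
    have h2 : k ^ d ≤ (k + 1) ^ d := Nat.pow_le_pow_left (Nat.le_succ k) d
    calc k ^ (d + 1) * (k + (d + 1)) = k * (k ^ d * (k + d)) + k ^ d * k := by ring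
      _ ≤ k * ((k + 1) ^ d * k) + (k + 1) ^ d * k :=
        Nat.add_le_add (Nat.mul_le_mul_left k h1) (Nat.mul_le_mul_right k h2)
      _ = (k + 1) ^ (d + 1) * k := by ring

lemma gap (C K d k : ℕ) (hd : C * K ≤ d) (h1 : 1 ≤ k) (h2 : k ≤ K) : C * k ^ d < (k + 1) ^ d := by
  have h3 := bern k d
  have h4 : C * k < k + d := by
    have := Nat.mul_le_mul_left C h2
    omega
  have h5 : 0 < k ^ d := Nat.pow_pos h1
  have h6 : C * k ^ d * k < (k + 1) ^ d * k := by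
    calc C * k ^ d * k = k ^ d * (C * k) := by ring
      _ < k ^ d * (k + d) := Nat.mul_lt_mul_of_pos_left h4 h5
      _ ≤ _ := h3
  exact Nat.lt_of_mul_lt_mul_right h6

lemma pd_zero (d : ℕ) : pd d 0 = 1 := by
  unfold pd
  rw [Nat.card_eq_one_iff_unique]
  refine ⟨⟨fun a b => Subtype.ext (Subsingleton.elim _ _)⟩, ⟨⟨default, fun i hi => ?_⟩⟩⟩
  simp at hi

lemma yv_const {F : Type} [Field F] (d j : ℕ) (w : F) : constantCoeff (yv d j w) = 1 := by
  rw [← coeff_zero_eq_constantCoeff_apply]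
  simp [yv, sb, PP, pd_zero]

section deg
variable {F : Type} [Field F] {N : ℕ}

/-- bounded degree and variables -/
def Q (S : Finset ℕ) (E : ℕ) (r : MvPolynomial ℕ F) : Prop := r.totalDegree ≤ E ∧ r.vars ⊆ S

lemma Q.zero (S : Finset ℕ) (E : ℕ) : Q S E (0 : MvPolynomial ℕ F) := by simp [Q]

lemma Q.C (S : Finset ℕ) (E : ℕ) (a : F) : Q S E (MvPolynomial.C a) := by
  simp [Q, MvPolynomial.totalDegree_C, MvPolynomial.vars_C]

lemma Q.add {S : Finset ℕ} {E : ℕ} {r s : MvPolynomial ℕ F} (h : Q S E r) (h' : Q S E s) :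
    Q S E (r + s) :=
  ⟨(MvPolynomial.totalDegree_add r s).trans (max_le h.1 h'.1),
    (MvPolynomial.vars_add_subset r s).trans (union_subset h.2 h'.2)⟩

lemma Q.sub {S : Finset ℕ} {E : ℕ} {r s : MvPolynomial ℕ F} (h : Q S E r) (h' : Q S E s) :
    Q S E (r - s) := by
  rw [sub_eq_add_neg]
  exact h.add ⟨by rw [MvPolynomial.totalDegree_neg]; exact h'.1,
    by rw [MvPolynomial.vars_neg]; exact h'.2⟩

lemma Q.mul {S : Finset ℕ} {E E' : ℕ} {r s : MvPolynomial ℕ F} (h : Q S E r) (h' : Q S E' s) :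
    Q S (E + E') (r * s) :=
  ⟨(MvPolynomial.totalDegree_mul r s).trans (Nat.add_le_add h.1 h'.1),
    (MvPolynomial.vars_mul r s).trans (union_subset h.2 h'.2)⟩

lemma Q.sum {S : Finset ℕ} {E : ℕ} {ι : Type} (s : Finset ι) (f : ι → MvPolynomial ℕ F)
    (h : ∀ i ∈ s, Q S E (f i)) : Q S E (∑ i ∈ s, f i) :=
  sum_induction f (Q S E) (fun _ _ => Q.add) (Q.zero S E) h

lemma Q.X_pow {S : Finset ℕ} {k : ℕ} (hk : k ∈ S) :
    ∀ j : ℕ, Q S j (MvPolynomial.X k ^ j : MvPolynomial ℕ F)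
  | 0 => by simpa using Q.C S 0 (1 : F)
  | j + 1 => by
    rw [pow_succ]
    refine (Q.X_pow hk j).mul ⟨by simp, ?_⟩
    rw [MvPolynomial.vars_X]
    simpa using hk

/-- all coefficients are bounded -/
def PQ (S : Finset ℕ) (E : ℕ) (y : BB (MvPolynomial ℕ F) N) : Prop := ∀ c, Q S E (y.coeff c)

lemma PQ.mono {S : Finset ℕ} {E E' : ℕ} {y : BB (MvPolynomial ℕ F) N} (h : PQ S E y)
    (hE : E ≤ E') : PQ S E' y := fun c => ⟨(h c).1.trans hE, (h c).2⟩

lemma PQ.single {S : Finset ℕ} {E : ℕ} (a : ZMod N) {r : MvPolynomial ℕ F} (h : Q S E r) :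
    PQ S E (single a r) := fun c => by
  classical
  rw [AddMonoidAlgebra.coeff_single, Finsupp.single_apply]
  split_ifs
  · exact h
  · exact Q.zero S E

lemma PQ.one (S : Finset ℕ) (E : ℕ) : PQ S E (1 : BB (MvPolynomial ℕ F) N) := by
  rw [AddMonoidAlgebra.one_def]
  exact PQ.single 0 (by simpa using Q.C S E (1 : F))

lemma PQ.sub {S : Finset ℕ} {E : ℕ} {y y' : BB (MvPolynomial ℕ F) N} (h : PQ S E y)
    (h' : PQ S E y') : PQ S E (y - y') := fun c => (h c).sub (h' c)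

lemma PQ.mul [NeZero N] {S : Finset ℕ} {E E' : ℕ} {y y' : BB (MvPolynomial ℕ F) N} (h : PQ S E y)
    (h' : PQ S E' y') : PQ S (E + E') (y * y') := fun c => by
  rw [coeff_mul_bb]
  exact Q.sum _ _ fun c' _ => (h c').mul (h' _)

lemma PQ.prod [NeZero N] {S : Finset ℕ} {E : ℕ} (s : Finset ℕ) (f : ℕ → BB (MvPolynomial ℕ F) N)
    (h : ∀ i ∈ s, PQ S E (f i)) : PQ S (s.card * E) (∏ i ∈ s, f i) := by
  induction s using Finset.induction_on with
  | empty => simpa using PQ.one S 0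
  | insert i s hi ih =>
    rw [prod_insert hi, card_insert_of_notMem hi, Nat.succ_mul, add_comm]
    exact (h i (by simp)).mul (ih fun j hj => h j (by simp [hj]))

end deg

section cm
variable {R : Type} [CommMonoid R]

lemma cm_mul {l : List ℕ} {y y' : Vx l → Rˣ} (h : Cm l y) (h' : Cm l y') :
    Cm l fun v => y v * y' v := by
  rw [cm_iff] at *
  intro r
  simp only [mul_zpow, prod_mul_distrib, h r, h' r, mul_one]

lemma cm_inv {l : List ℕ} {y : Vx l → Rˣ} (h : Cm l y) : Cm l fun v => (y v)⁻¹ := by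
  rw [cm_iff] at *
  intro r
  simp only [inv_zpow, prod_inv_distrib, h r, inv_one]

lemma cm_pow (l : List ℕ) (d b : ℕ) (g : Rˣ) : Cm l fun v => g ^ (jv d l v * b) := by
  have h := (jv_cw d l).map (zmultiplesHom (Additive Rˣ) (Additive.ofMul (g ^ b)))
  unfold Cm
  convert h using 2 with v
  simp only [zmultiplesHom_apply, natCast_zsmul]
  rw [← ofMul_pow, ← pow_mul, mul_comm]

end cm

/-- the unit `x g` -/
def gu {F : Type} [Field F] (N : ℕ) (x : F) (hx : x ≠ 0) : (BB F N)ˣ where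
  val := single 1 x
  inv := single (-1) x⁻¹
  val_inv := by
    rw [AddMonoidAlgebra.single_mul_single, add_neg_cancel, mul_inv_cancel₀ hx]; rfl
  inv_val := by
    rw [AddMonoidAlgebra.single_mul_single, neg_add_cancel, inv_mul_cancel₀ hx]; rfl

lemma gu_pow {F : Type} [Field F] (N : ℕ) (x : F) (hx : x ≠ 0) (n : ℕ) :
    ((gu N x hx ^ n : (BB F N)ˣ) : BB F N) = single (n : ZMod N) (x ^ n) := by
  rw [Units.val_pow_eq_pow_val]
  change (single (1 : ZMod N) x) ^ n = _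
  rw [AddMonoidAlgebra.single_pow, nsmul_eq_mul, mul_one]

/-- the polynomial model -/
def Zm {F : Type} [Field F] (N d n j κ K : ℕ) (x w : F) : BB (MvPolynomial ℕ F) N :=
  single (n : ZMod N) (MvPolynomial.C (x ^ n)) * ∏ k ∈ Icc 1 K, (if κ ∣ k then
    1 - single ((j * k ^ d : ℕ) : ZMod N)
      (MvPolynomial.C (w ^ (j * k ^ d)) * MvPolynomial.X k ^ j) else 1)

lemma Zm_P {F : Type} [Field F] (N d n j κ K : ℕ) [NeZero N] (x w : F) :
    PQ (Icc 1 K) (K * j) (Zm N d n j κ K x w) := by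
  have h := (PQ.single (N := N) (n : ZMod N) (Q.C (Icc 1 K) 0 (x ^ n))).mul
    (PQ.prod (S := Icc 1 K) (E := j) (Icc 1 K) (fun k => if κ ∣ k then
      1 - single ((j * k ^ d : ℕ) : ZMod N)
        (MvPolynomial.C (w ^ (j * k ^ d)) * MvPolynomial.X k ^ j) else 1) fun k hk => by
      split_ifs
      · refine (PQ.one _ _).sub (PQ.single _ ?_)
        simpa using (Q.C (Icc 1 K) 0 (w ^ (j * k ^ d))).mul (Q.X_pow hk j)
      · exact PQ.one _ _)
  simpa [Zm] using h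

lemma mp_Zm {F S : Type} [Field F] [CommRing S] (N d n j κ K : ℕ) (x w : F)
    (f : MvPolynomial ℕ F →+* S) :
    mp N f (Zm N d n j κ K x w) = single (n : ZMod N) (f (MvPolynomial.C (x ^ n))) *
      ∏ k ∈ Icc 1 K, (if κ ∣ k then 1 - single ((j * k ^ d : ℕ) : ZMod N)
        (f (MvPolynomial.C (w ^ (j * k ^ d))) * f (MvPolynomial.X k) ^ j) else 1) := by
  rw [Zm, map_mul, mp_single, map_prod]
  congr 1
  refine prod_congr rfl fun k _ => ?_
  split_ifs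
  · rw [map_sub, map_one, mp_single, map_mul, map_pow f (MvPolynomial.X k)]
  · exact map_one _

lemma cong {F : Type} [Field F] (h3 : S_Zt) (N d n j κ K : ℕ) [NeZero N] (x w : F) (z : F⟦X⟧)
    (hd : 1 ≤ d) (hj : 1 ≤ j) (hκ : 1 ≤ κ) (hz : yv d (j * κ ^ d) w * z = 1) (c : ZMod N) :
    (X : F⟦X⟧) ^ ((K + 1) ^ d) ∣
      (single (n : ZMod N) (C (x ^ n)) * Dl N z : BB F⟦X⟧ N).coeff c -
        MvPolynomial.aeval (fun k => (X : F⟦X⟧) ^ (k ^ d)) ((Zm N d n j κ K x w).coeff c) := by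
  obtain ⟨u, hu⟩ := h3 F d j κ K w z hd hj hκ hz
  set φ : MvPolynomial ℕ F →+* F⟦X⟧ :=
    (MvPolynomial.aeval (fun k => (X : F⟦X⟧) ^ (k ^ d)) : MvPolynomial ℕ F →ₐ[F] F⟦X⟧).toRingHom
    with hφ
  have hC : ∀ a : F, φ (MvPolynomial.C a) = C a := fun a => by
    simp [hφ, algebraMap_eq]
  have hX : ∀ k : ℕ, φ (MvPolynomial.X k) = X ^ (k ^ d) := fun k => by simp [hφ]
  have e1 : mp N φ (Zm N d n j κ K x w) = single (n : ZMod N) (C (x ^ n)) *
      Dl N (∏ k ∈ Icc 1 K,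
        (if κ ∣ k then 1 - C (w ^ (j * k ^ d)) * X ^ (j * k ^ d) else 1 : F⟦X⟧)) := by
    rw [mp_Zm, hC, map_prod]
    congr 1
    refine prod_congr rfl fun k _ => ?_
    split_ifs
    · rw [map_sub, map_one, Dl_monomial, hC, hX, ← pow_mul, mul_comm (k ^ d) j]
    · exact (map_one _).symm
  have e2 : (MvPolynomial.aeval (fun k => (X : F⟦X⟧) ^ (k ^ d)) ((Zm N d n j κ K x w).coeff c)) =
      (mp N φ (Zm N d n j κ K x w)).coeff c := (coeff_mp φ _ c).symm
  have e3 : Dl N ((X : F⟦X⟧) ^ ((K + 1) ^ d)) =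
      single (((K + 1) ^ d : ℕ) : ZMod N) ((X : F⟦X⟧) ^ ((K + 1) ^ d)) := by
    simpa using Dl_monomial (N := N) (1 : F) ((K + 1) ^ d)
  have e4 : (single (n : ZMod N) (C (x ^ n)) * Dl N z : BB F⟦X⟧ N) - mp N φ (Zm N d n j κ K x w) =
      single (((K + 1) ^ d : ℕ) : ZMod N) ((X : F⟦X⟧) ^ ((K + 1) ^ d)) *
        (single (n : ZMod N) (C (x ^ n)) * Dl N u) := by
    rw [e1, ← mul_sub, ← map_sub, hu, map_mul, e3]
    ring
  have e5 := congrArg (fun y : BB F⟦X⟧ N => y.coeff c) e4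
  simp only [AddMonoidAlgebra.coeff_single_mul_apply _ ((X : F⟦X⟧) ^ ((K + 1) ^ d))] at e5
  rw [e2]
  exact ⟨_, e5⟩

end PNdt

open PNdt in
theorem s_ndt (h1 : S_Int) (h2 : S_Mat) (h3 : S_Zt) : S_Ndt := by
  intro a' N p l _ ha'
  set L := p :: l with hL
  set K := (N * a' * L.prod) ^ 2 with hK
  refine ⟨Fintype.card (Fin a') * Fintype.card (Vx L) * N * (K * L.prod) * K + 1, ?_⟩
  intro d hd q f F _ _ _ ζ ξ hq hN hnd hpr hξ hndp b
  obtain ⟨h, hcm, hND⟩ := hndp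
  have hd1 : 1 ≤ d := by omega
  have hξ0 : ξ ≠ 0 := hξ.ne_zero (by omega)
  have hx : ∀ i : Fin a', ξ ^ (i : ℕ) ≠ 0 := fun i => pow_ne_zero _ hξ0
  have hL1 : ∀ r ∈ L, 1 ≤ r := fun r hr => (hpr r hr).1.one_lt.le
  have hprod : 0 < L.prod := List.prod_pos hL1
  obtain ⟨t, ht⟩ := h1 q f a' N F ζ ξ L hq hN ha' hnd hpr hξ
    (fun i v => (gu N (ξ ^ (i : ℕ)) (hx i) ^ (jv d L v * b))⁻¹ * (h i v)⁻¹)
    (fun i => cm_mul (cm_inv (cm_pow L d b _)) (cm_inv (hcm i))) d hd1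
  have hz : ∀ (i : Fin a') (v : Vx L), yv d (jv d L v) (ξ ^ (i : ℕ) * zz ζ L v) *
      (yv d (jv d L v) (ξ ^ (i : ℕ) * zz ζ L v))⁻¹ = 1 := fun i v =>
    PowerSeries.mul_inv_cancel _ (by rw [yv_const]; exact one_ne_zero)
  have key := h2 F (Fin a') (Vx L) (Rw L) N (rho L) (bs L) (vv N p l)
    (fun i v => Zm N d (jv d L v * b) (j0 L v) (kp L v) K (ξ ^ (i : ℕ)) (ξ ^ (i : ℕ) * zz ζ L v))
    (fun i v => single ((jv d L v * b : ℕ) : ZMod N) (C ((ξ ^ (i : ℕ)) ^ (jv d L v * b))) *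
      Dl N (yv d (jv d L v) (ξ ^ (i : ℕ) * zz ζ L v))⁻¹) t K (K * L.prod) d
    (fun i v c => (Zm_P N d _ _ _ K _ _).mono
      (Nat.mul_le_mul_left K (Nat.le_of_dvd hprod (j0_dvd L v))) c) hd1
    (fun k hk1 hk2 => gap _ K d k (by omega) hk1 hk2) ?_ ?_
  · refine (nd_iff fun i v => ?_).2 key
    rw [← map_mul, YY, mul_mul_mul_comm, ← map_mul, hz, map_one, mul_one,
      AddMonoidAlgebra.single_mul_single, neg_add_cancel, ← map_mul, ← mul_pow,
      inv_mul_cancel₀ (hx i), one_pow, map_one]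
    exact map_one _
  · refine (nd_iff fun i v => ?_).1 hND
    have e := ht i v
    rw [mp_Zm]
    simp only [MvPolynomial.eval_C, MvPolynomial.eval_X]
    rw [e, ← gu_pow N _ (hx i), ← Units.val_mul, ← Units.val_mul, mul_inv_cancel_left,
      mul_inv_cancel, Units.val_one]
  · intro i v c
    refine cong h3 N d _ _ _ K _ _ _ hd1 (one_le_j0 L hL1 v) (one_le_kp L hL1 v) ?_ c
    rw [← jv_eq]
    exact hz i v

end

end Pool.Agent.P.MP_85b516_nt.LD
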