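import Pool.Agent.P.MP_85b516_nt.LD.Stm

/-! The series form a multiplicative codeword, and the section relation (Theorem LD). -/

open PowerSeries Finset Module
open AddMonoidAlgebra (single)

namespace Pool.Agent.P.MP_85b516_nt.LD

noncomputable section

namespace PNorm

lemma sb_sb {R : Type} [CommRing R] {j : ℕ} (hj : j ≠ 0) (k : ℕ) (w u : R) (f : R⟦X⟧) :
    sb j w (sb k (u ^ j) f) = sb (j * k) (w * u) f := by
  ext n
  simp only [sb, coeff_mk]
  by_cases h : j ∣ n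
  · obtain ⟨m, rfl⟩ := h
    have hj' := Nat.pos_of_ne_zero hj
    rw [if_pos (dvd_mul_right _ _), Nat.mul_div_cancel_left _ hj', Nat.mul_div_mul_left _ _ hj']
    simp only [Nat.mul_dvd_mul_iff_left hj']
    split_ifs
    · rw [← pow_mul, mul_pow]
      ring
    · exact zero_mul _
  · rw [if_neg h, if_neg fun h' => h ((dvd_mul_right j k).trans h')]

lemma line (h : S_Un) {F : Type} [Field F] {d p J : ℕ} {ζ : F} (w : F) (hd : 1 ≤ d) (hp : p.Prime)
    (hζ : IsPrimitiveRoot ζ p) (hJ : J ≠ 0) (hc : Nat.Coprime J p) :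
    (∏ i : Fin p, yv d J (w * ζ ^ (i : ℕ))) * yv d (J * p ^ (d + 1)) w =
      yv d (J * p) w * yv d (J * p ^ d) w ^ p := by
  have e := congrArg (sbH J hJ w) (h F d p (ζ ^ J) hd hp (hζ.pow_of_coprime J hc))
  have e1 : ∀ k, sb J w (sb k 1 (PP F d)) = yv d (J * k) w := fun k => by
    have := sb_sb hJ k w 1 (PP F d)
    rwa [one_pow, mul_one] at this
  have e2 : ∀ i : ℕ, sb J w (sb 1 ((ζ ^ J) ^ i) (PP F d)) = yv d J (w * ζ ^ i) := fun i => by
    have := sb_sb hJ 1 w (ζ ^ i) (PP F d)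
    rwa [mul_one, pow_right_comm] at this
  simpa only [map_mul, map_prod, map_pow, sbH_apply, e1, e2] using e

lemma norm (h : S_Un) {F : Type} [Field F] (ζ : ℕ → F) {d : ℕ} (hd : 1 ≤ d) :
    ∀ l : List ℕ, l.Nodup → (∀ p ∈ l, p.Prime ∧ IsPrimitiveRoot (ζ p) p) → ∀ (j : ℕ) (x : F),
      j ≠ 0 → (∀ p ∈ l, Nat.Coprime j p) → ∀ u : Vx l → (F⟦X⟧)ˣ,
      (∀ v, (u v : F⟦X⟧) = yv d (j * jv d l v) (x * zz ζ l v)) → Cm l u
  | [], _, _, _, _, _, _, _, _ => trivial
  | p :: l, hn, hl, j, x, hj, hc, u, hu => by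
    obtain ⟨hp, hζ⟩ := hl p List.mem_cons_self
    have hl' := fun q hq => hl q (List.mem_cons_of_mem p hq)
    have hpq : ∀ q ∈ l, Nat.Coprime p q := fun q hq =>
      (Nat.coprime_primes hp (hl' q hq).1).2 fun e => (List.nodup_cons.1 hn).1 (e ▸ hq)
    refine ⟨fun y => ?_, fun v => ?_⟩
    · refine norm h ζ hd l (List.nodup_cons.1 hn).2 hl' (j * p ^ lev d p y) (x * rtz ζ p y)
        (mul_ne_zero hj (pow_ne_zero _ hp.ne_zero)) (fun q hq => Nat.Coprime.mul_left
          (hc q (List.mem_cons_of_mem p hq)) (Nat.Coprime.pow_left _ (hpq q hq)))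
        (fun v => u (y, v)) fun v => ?_
      rw [hu, mul_assoc, mul_assoc]
      rfl
    · have hcv : Nat.Coprime (j * jv d l v) p := Nat.Coprime.mul_left (hc p List.mem_cons_self)
        (jv_coprime d l p (fun q hq => (hpq q hq).symm) v)
      have hJ : j * jv d l v ≠ 0 := fun e => by
        rw [e, Nat.coprime_zero_left] at hcv
        exact hp.ne_one hcv
      have hy : ∀ y : Zp p, (u (y, v) : F⟦X⟧) =
          yv d (j * jv d l v * p ^ lev d p y) (x * zz ζ l v * rtz ζ p y) := fun y => by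
        rw [hu, mul_assoc, mul_assoc, mul_comm (jv d l v), mul_comm (zz ζ l v)]
        rfl
      have e : (∏ i : Fin p, u (Sum.inl i, v)) * u (Sum.inr 2, v) =
          u (Sum.inr 0, v) * u (Sum.inr 1, v) ^ p := by
        refine Units.ext ?_
        have := line h (x * zz ζ l v) hd hp hζ hJ hcv
        simpa [hy, lev, rtz] using this
      have e' := congrArg Additive.ofMul e
      rw [ofMul_mul, ofMul_mul, ofMul_prod, ofMul_pow] at e'
      rw [sum_czI, sub_sub, sub_add_eq_add_sub, sub_eq_zero]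
      exact e'

lemma geom {F : Type} [Field F] {a : ℕ} {ξ : F} (h : IsPrimitiveRoot ξ a) (ha : 1 ≤ a) (s m : ℕ) :
    ∑ i : Fin a, (ξ ^ (i : ℕ))⁻¹ ^ s * (ξ ^ (i : ℕ)) ^ m = if s ≡ m [MOD a] then (a : F) else 0 := by
  have h0 : ξ ≠ 0 := h.ne_zero (by omega)
  have e : ∀ i : ℕ, (ξ ^ i)⁻¹ ^ s * (ξ ^ i) ^ m = (ξ ^ ((m : ℤ) - s)) ^ i := fun i => by
    rw [zpow_sub₀ h0, zpow_natCast, zpow_natCast, div_pow, pow_right_comm ξ m, pow_right_comm ξ s,
      inv_pow, div_eq_inv_mul]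
  simp only [e]
  rw [Fin.sum_univ_eq_sum_range (fun g => (ξ ^ ((m : ℤ) - s)) ^ g) a]
  have h1 : ξ ^ ((m : ℤ) - s) = 1 ↔ s ≡ m [MOD a] := by
    rw [h.zpow_eq_one_iff_dvd, Nat.modEq_iff_dvd]
  split_ifs with hn
  · rw [h1.2 hn]
    simp
  · have h2 : (ξ ^ ((m : ℤ) - s)) ^ a = 1 := by
      rw [← zpow_natCast, ← zpow_mul, mul_comm, zpow_mul, zpow_natCast, h.pow_eq_one, one_zpow]
    have h3 := mul_geom_sum (ξ ^ ((m : ℤ) - s)) a
    rw [h2, sub_self] at h3
    exact (mul_eq_zero.1 h3).resolve_left (sub_ne_zero.2 fun e => hn (h1.1 e))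

lemma dvd_val {N n : ℕ} [NeZero N] (hn : n ∣ N) (s m : ℕ) :
    n ∣ ((m : ZMod N) - s).val ↔ s ≡ m [MOD n] := by
  rw [← ZMod.natCast_eq_zero_iff, ← ZMod.natCast_eq_natCast_iff, ZMod.natCast_val,
    ← ZMod.castHom_apply (h := hn), map_sub, map_natCast, map_natCast, sub_eq_zero, eq_comm]

lemma coeff_lamn {F : Type} [Field F] {N n : ℕ} [NeZero N] (hn : n ∣ N) (s m : ℕ) (r : F)
    (y : F⟦X⟧) : coeff m (lamn n (single (-(s : ZMod N)) (C r) * Dl N y)) =
      if s ≡ m [MOD n] then r * coeff m y else 0 := by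
  rw [lamn_apply, map_sum, sum_eq_single ((m : ZMod N) - s)]
  · simp only [dvd_val hn]
    split_ifs
    · rw [AddMonoidAlgebra.coeff_single_mul_apply, coeff_Dl, coeff_C_mul, sec, coeff_mk,
        if_pos (by ring)]
    · exact map_zero _
  · intro c _ hc
    split_ifs
    · rw [AddMonoidAlgebra.coeff_single_mul_apply, coeff_Dl, coeff_C_mul, sec, coeff_mk,
        if_neg fun e => hc (by rw [e]; ring), mul_zero]
    · exact map_zero _
  · simp

end PNorm

open PNorm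

theorem s_norm (h : S_Un) : S_Norm := by
  intro F _ ζ l d x hd hn hl u hu
  exact PNorm.norm h ζ hd l hn hl 1 x one_ne_zero (fun p _ => Nat.coprime_one_left p) u
    fun v => by rw [hu, one_mul]

theorem s_sec : S_Sec := by
  intro F _ N _ n a' d b j ξ z hn ha hξ hna hj hj1
  ext m
  rw [map_sum, ← nsmul_eq_mul, map_nsmul, nsmul_eq_mul]
  simp only [YY, coeff_lamn hn, yv, sb, SS, PP, coeff_mk]
  by_cases hm : j ∣ m
  · obtain ⟨k, rfl⟩ := hm
    rw [Nat.mul_div_cancel_left _ (by omega : 0 < j)]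
    simp only [dvd_mul_right, if_true]
    have c1 : ∀ t, Nat.Coprime j t → (j * b ≡ j * k [MOD t] ↔ k ≡ b [MOD t]) := fun t ht =>
      ⟨fun h => (Nat.ModEq.cancel_left_of_coprime ht.symm h).symm, fun h => (h.mul_left j).symm⟩
    have c2 : k % (n * a') = b % (n * a') ↔ k ≡ b [MOD n] ∧ k ≡ b [MOD a'] :=
      (Nat.modEq_and_modEq_iff_modEq_mul hna).symm
    simp only [c1 n (Nat.Coprime.coprime_mul_right_right hj), c2]
    by_cases h1 : k ≡ b [MOD n]
    · simp only [h1, if_true, true_and]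
      have e : ∀ i : Fin a', (ξ ^ (i : ℕ))⁻¹ ^ (j * b) * ((pd d k : F) * (ξ ^ (i : ℕ) * z) ^ (j * k)) =
          (ξ ^ (i : ℕ))⁻¹ ^ (j * b) * (ξ ^ (i : ℕ)) ^ (j * k) * ((pd d k : F) * z ^ (j * k)) :=
        fun i => by rw [mul_pow]; ring
      simp only [e]
      rw [← sum_mul, geom hξ ha]
      simp only [c1 a' (Nat.Coprime.coprime_mul_left_right hj)]
      split_ifs <;> simp
    · simp [h1]
  · simp [hm]

end

end Pool.Agent.P.MP_85b516_nt.LD
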