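import Pool.Agent.P.MP_85b516_nt.LD.Stm

/-! The random kernel theorem (Theorem LD, MP_85b516_nt). -/

open Finset Module

namespace Pool.Agent.P.MP_85b516_nt.LD

namespace PRK

theorem sel (P : ℕ → ℕ → ℝ) : ∀ (t0 k1 : ℕ), P k1 t0 ≤ 1 / 2 →
    ∃ a m, k1 ≤ a ∧ a + 3 ≤ k1 + 3 * (t0 + 1) ∧ P a m ≤ 1 / 2 ∧
      ∀ t, t + 1 = m → 1 / 2 < P (a + 3) t
  | 0, k1, h => ⟨k1, 0, le_rfl, by omega, h, fun t ht => by omega⟩
  | t + 1, k1, h => by
    by_cases hc : P (k1 + 3) t ≤ 1 / 2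
    · obtain ⟨a, m, h1, h2, h3, h4⟩ := sel P t (k1 + 3) hc
      exact ⟨a, m, by omega, by omega, h3, h4⟩
    · refine ⟨k1, t + 1, le_rfl, by omega, h, fun s hs => ?_⟩
      obtain rfl : s = t := by omega
      exact not_le.1 hc

theorem suf (l : List ℕ) (p : ℕ → ℕ) {k : ℕ} : ∀ {n : ℕ}, k ≤ n → lst l p k <:+ lst l p n := by
  intro n hn
  induction n, hn using Nat.le_induction with
  | base => exact List.suffix_refl _
  | succ n _ ih => exact ih.trans (List.suffix_cons _ _)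

theorem mem_lst (l : List ℕ) (p : ℕ → ℕ) {k n : ℕ} (h : k < n) : p k ∈ lst l p n :=
  (suf l p (show k + 1 ≤ n from h)).subset List.mem_cons_self

theorem cs {F Λ : Type} [Field F] [AddCommGroup Λ] {q : ℕ} (h1 : (q : F) ≠ 0)
    (h2 : Function.Injective fun t : Λ => (q : ℤ) • t) : Cs F Λ (czI q) := by
  refine ⟨fun x => ?_, fun x => ?_⟩
  · rcases x with i | i
    · simp [czI]
    · fin_cases i <;> simp [czI, h1]
  · rcases x with i | i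
    · intro a b hab
      simpa [czI] using hab
    · fin_cases i
      · intro a b hab
        simpa [czI] using hab
      · intro a b hab
        apply h2
        simpa [czI] using hab
      · intro a b hab
        simpa [czI] using hab

theorem pow_le {x : ℝ} (h1 : x ≤ 1) (r : ℕ) : (1 - x) ^ r * (1 + r * x) ≤ 1 := by
  induction r with
  | zero => simp
  | succ r ih =>
    have h2 : 0 ≤ (1 - x) ^ r := pow_nonneg (by linarith) r
    have h3 : (1 - x) * (1 + (r + 1 : ℝ) * x) ≤ 1 + r * x := by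
      have : 0 ≤ ((r : ℝ) + 1) * x ^ 2 := by positivity
      nlinarith
    calc (1 - x) ^ (r + 1) * (1 + ((r + 1 : ℕ) : ℝ) * x)
        = (1 - x) ^ r * ((1 - x) * (1 + (r + 1 : ℝ) * x)) := by push_cast; ring
      _ ≤ (1 - x) ^ r * (1 + r * x) := mul_le_mul_of_nonneg_left h3 h2
      _ ≤ 1 := ih

theorem small {C n n' u : ℝ} (hC : 0 < C) (hn : 1 ≤ n) (hnn : n ≤ n') (hu : 0 ≤ u)
    (h : C * n' ^ 5 * u ≤ 1) (i : ℕ) (hi : i ≤ 5) : n ^ i * u ≤ 1 / C := by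
  rw [le_div_iff₀ hC]
  have h1 : n ^ i ≤ n' ^ 5 :=
    (pow_le_pow_right₀ hn hi).trans (pow_le_pow_left₀ (by linarith) hnn 5)
  calc n ^ i * u * C ≤ n' ^ 5 * u * C := by gcongr
    _ = C * n' ^ 5 * u := by ring
    _ ≤ 1 := h

theorem xs {x b : ℝ} {r : ℕ} (h0 : 0 ≤ x) (h1 : x ≤ 1) (hb : b ≤ 1 / 200)
    (h : 1 / 2 < (1 - x) ^ r + b) : r * x ≤ 3 := by
  have h2 := pow_le h1 r
  have h3 : (0 : ℝ) ≤ r * x := by positivity
  have h4 : 1 / 4 ≤ (1 - x) ^ r := by linarith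
  nlinarith

theorem eta_le {C n0 n1 u0 u1 x y eta : ℝ} {r0 r2 : ℕ} (hC : 0 < C) (h0 : 1 ≤ n0) (h01 : n0 ≤ n1)
    (hu0 : 0 ≤ u0) (a0 : C * n1 ^ 5 * u0 ≤ 1) (a1 : n1 ^ 4 * u1 ≤ 1 / C)
    (b0 : C * n1 ^ 2 ≤ 2 ^ r0) (b1 : C * n1 ≤ r2) (hx0 : 0 ≤ x) (hx : r2 * x ≤ 3)
    (hy : y ≤ (1 / 2) ^ r0 + n0 ^ 3 * u0) (he : eta ≤ n1 ^ 3 * u1 + x + n1 * y) :
    2 * n1 * eta + n1 ^ 4 * u1 ≤ 13 / C := by
  have hn1 : 0 < n1 := by linarith
  have e1 : n1 * x ≤ 3 / C := by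
    rw [le_div_iff₀ hC]
    nlinarith
  have e2 : n1 ^ 2 * (1 / 2) ^ r0 ≤ 1 / C := by
    rw [le_div_iff₀ hC, one_div, inv_pow, mul_right_comm, ← div_eq_mul_inv,
      div_le_one (by positivity)]
    linarith
  have e3 : n1 ^ 2 * (n0 ^ 3 * u0) ≤ 1 / C := by
    have h5 := small hC (h0.trans h01) le_rfl hu0 a0 5 le_rfl
    calc n1 ^ 2 * (n0 ^ 3 * u0) ≤ n1 ^ 2 * (n1 ^ 3 * u0) := by gcongr
      _ = n1 ^ 5 * u0 := by ring
      _ ≤ 1 / C := h5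
  have e4 : n1 ^ 2 * y ≤ 2 / C := by
    calc n1 ^ 2 * y ≤ n1 ^ 2 * ((1 / 2) ^ r0 + n0 ^ 3 * u0) := by gcongr
      _ = n1 ^ 2 * (1 / 2) ^ r0 + n1 ^ 2 * (n0 ^ 3 * u0) := by ring
      _ ≤ 1 / C + 1 / C := add_le_add e2 e3
      _ = 2 / C := by ring
  calc 2 * n1 * eta + n1 ^ 4 * u1 ≤ 2 * n1 * (n1 ^ 3 * u1 + x + n1 * y) + n1 ^ 4 * u1 := by gcongr
    _ = 3 * (n1 ^ 4 * u1) + 2 * (n1 * x) + 2 * (n1 ^ 2 * y) := by ring
    _ ≤ 3 * (1 / C) + 2 * (3 / C) + 2 * (2 / C) := by gcongr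
    _ = 13 / C := by ring

theorem markov {α : Type} [Finite α] (d : α → ℕ) {mu : ℝ} (h : av (fun a => (d a : ℝ)) ≤ mu) :
    pr (fun a => ⌈2 * mu⌉₊ < d a) ≤ 1 / 2 := by
  have h1 : 2 * mu ≤ (⌈2 * mu⌉₊ : ℝ) := Nat.le_ceil _
  have h2 : (0 : ℝ) < (⌈2 * mu⌉₊ : ℝ) + 1 := by positivity
  have h3 := pr_le_av (p := fun a => ⌈2 * mu⌉₊ < d a)
    (f := fun a => 1 / ((⌈2 * mu⌉₊ : ℝ) + 1) * (d a : ℝ)) (fun a => by positivity) fun a ha => by
      rw [one_div, inv_mul_eq_div, one_le_div h2]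
      exact_mod_cast ha
  rw [av_mul] at h3
  refine h3.trans ?_
  rw [one_div, inv_mul_eq_div, div_le_iff₀ h2]
  linarith

end PRK

open PRK in
theorem s_rk (h1 : S_Sched) (h2 : S_Lev) (h3 : S_Conc) (h4 : S_Grid) : S_RK := by
  intro Lam nV E hnV
  rcases Nat.eq_zero_or_pos Lam with rfl | hL
  · refine ⟨[], List.nodup_nil, by simp, fun F Λ V _ _ _ _ _ _ e hc => ?_⟩
    exact absurd hc Nat.card_pos.ne'
  have hL' : (1 : ℝ) ≤ Lam := by exact_mod_cast hL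
  have hV' : (1 : ℝ) ≤ nV := by exact_mod_cast hnV
  obtain ⟨l, p, lam, mu, k1, s1, s2, s3, s4, s5, s6, s7⟩ :=
    h1 (1 / (2 * Lam * nV)) (200 * Lam) nV E (by positivity)
      (by rw [div_le_one (by positivity)]; nlinarith)
  have hmu : 0 ≤ mu := le_trans (mul_nonneg (s5 0).1 (by positivity)) (s6 0)
  obtain ⟨n, hn⟩ : ∃ n, n = k1 + 3 * (⌈2 * mu⌉₊ + 1) := ⟨_, rfl⟩
  refine ⟨lst l p n, (s1 n).1, (s1 n).2, ?_⟩
  intro F Λ V _ _ _ _ _ _ e hc hV he hq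
  subst hc
  have hlev := h2 F Λ V e nV l p lam n hnV hV he
    (fun q hq' => ⟨((s1 n).2 q hq').1.two_le, hq q hq'⟩) s3 s4 s5
  have hcs : ∀ k, k < n → Cs F Λ (czI (p k)) := fun k hk =>
    cs (hq _ (mem_lst l p hk)).1 (hq _ (mem_lst l p hk)).2
  have hcard : ∀ k, Fintype.card (Zp (p k)) = p k + 3 := fun k => by simp
  have hconc := fun k (hk : k < n) =>
    haveI : Nontrivial (Zp (p k)) := ⟨Sum.inr 0, Sum.inr 1, by simp⟩
    h3 F Λ V (Vx (lst l p k)) (Zp (p k)) e (GG Λ (lst l p k)) (UL F V (lst l p k)) (czI (p k))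
      (lam k) mu (hcs k hk) (s5 k).1 (hlev k hk.le).1 ((hlev k hk.le).2.trans (s6 k))
  simp only [hcard] at hconc
  obtain ⟨a, m, a1, a2, a3, a4⟩ := sel (fun k t => pr fun ω : GG Λ (lst l p k) =>
      t < finrank F (Ker e (UL F V (lst l p k)) ω.1)) ⌈2 * mu⌉₊ k1
    (markov (fun ω : GG Λ (lst l p k1) => finrank F (Ker e (UL F V (lst l p k1)) ω.1))
      ((hlev k1 (by omega)).2.trans (s6 k1)))
  refine ⟨p a, lst l p a, suf l p (show a + 1 ≤ n by omega), ?_⟩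
  obtain ⟨C, hC⟩ : ∃ C : ℝ, C = 200 * Nat.card Λ := ⟨_, rfl⟩
  have hC2 : 200 ≤ C := by linarith
  have hC0 : 0 < C := by linarith
  have t7 : ∀ k, k1 ≤ k → C * ((p (k + 1) : ℝ) + 3) ^ 5 * (lam k * mu) ≤ 1 ∧
      C * ((p k : ℝ) + 3) ≤ ((p (k + 1) + 2 : ℕ) : ℝ) ∧ (p k : ℝ) + 3 ≤ (p (k + 1) : ℝ) + 3 ∧
      C * ((p (k + 1) : ℝ) + 3) ^ 2 ≤ 2 ^ (p k + 2) := fun k hk => by
    obtain ⟨b1, b2, b3, b4⟩ := s7 k hk
    rw [hC]
    refine ⟨?_, ?_, ?_, ?_⟩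
    · rw [← mul_assoc]
      exact_mod_cast b1
    · exact_mod_cast b2
    · exact_mod_cast Nat.add_le_add_right b3 3
    · exact_mod_cast b4
  have hu : ∀ k, 0 ≤ lam k * mu := fun k => mul_nonneg (s5 k).1 hmu
  have hp1 : ∀ k, (1 : ℝ) ≤ (p k : ℝ) + 3 := fun k => by
    have : (0 : ℝ) ≤ p k := Nat.cast_nonneg _
    linarith
  obtain ⟨x, hx⟩ : ∃ x, x = pr fun ω : GG Λ (lst l p (a + 2)) =>
      finrank F (Ker e (UL F V (lst l p (a + 2))) ω.1) < m := ⟨_, rfl⟩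
  have hx0 : 0 ≤ x := hx ▸ pr_nonneg _
  have hx3 : ((p (a + 2) + 2 : ℕ) : ℝ) * x ≤ 3 := by
    rcases m with _ | t
    · rw [hx, pr_congr (q := fun _ => False) fun _ => by simp, pr_false]
      simp
    · have c1 := (hconc (a + 2) (by omega) t).1
      have c2 : (pr fun ω : GG Λ (lst l p (a + 2)) =>
          t < finrank F (Ker e (UL F V (lst l p (a + 2))) ω.1)) = 1 - x := by
        rw [hx, ← pr_not]
        exact pr_congr fun _ => by omega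
      rw [c2] at c1
      have c3 := small hC0 (hp1 (a + 2)) (t7 (a + 2) (by omega)).2.2.1 (hu (a + 2))
        (t7 (a + 2) (by omega)).1 3 (by norm_num)
      have c4 : 1 / C ≤ 1 / 200 := one_div_le_one_div_of_le (by norm_num) hC2
      refine xs hx0 (hx ▸ pr_le_one _) (c3.trans c4) ((a4 t rfl).trans_le (c1.trans_eq ?_))
      push_cast
      rw [mul_assoc]
  have d0 := (hconc a (by omega) m).1
  have d1 := (hconc (a + 1) (by omega) m).2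
  have hy : (pr fun ω : GG Λ (lst l p (a + 1)) =>
      m < finrank F (Ker e (UL F V (lst l p (a + 1))) ω.1)) ≤
      (1 / 2) ^ (p a + 2) + ((p a : ℝ) + 3) ^ 3 * (lam a * mu) := by
    refine d0.trans (add_le_add (pow_le_pow_left₀ (pr_nonneg _) a3 _) (le_of_eq ?_))
    push_cast
    ring
  obtain ⟨eta, heta⟩ : ∃ eta, eta = pr fun ω : extG (GG Λ (lst l p (a + 1))) (czI (p (a + 1))) =>
      ¬ RowGood e (UL F V (lst l p (a + 1))) (czI (p (a + 1))) ω.1 := ⟨_, rfl⟩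
  have key : 2 * ((p (a + 1) : ℝ) + 3) * eta + ((p (a + 1) : ℝ) + 3) ^ 4 * (lam (a + 1) * mu) ≤
      13 / C := by
    refine eta_le hC0 (hp1 a) (t7 a a1).2.2.1 (hu a) (t7 a a1).1
      (small hC0 (hp1 (a + 1)) (t7 (a + 1) (by omega)).2.2.1 (hu (a + 1))
        (t7 (a + 1) (by omega)).1 4 (by norm_num))
      (t7 a a1).2.2.2 (t7 (a + 1) (by omega)).2.1 hx0 hx3 hy ?_
    rw [heta, hx]
    refine d1.trans_eq ?_
    push_cast
    rw [mul_assoc]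
    rfl
  have hp3 := s2 (a + 1)
  have g := h4 F Λ V (Vx (lst l p (a + 1))) (Zp (p (a + 1))) e (GG Λ (lst l p (a + 1)))
    (UL F V (lst l p (a + 1))) (czI (p (a + 1))) (lam (a + 1)) mu eta (Sum.inl ⟨0, by omega⟩)
    (Sum.inl ⟨1, by omega⟩) (Sum.inr 2) (hcs _ (by omega)) (s5 _).1 (hlev _ (by omega)).1
    ((hlev _ (by omega)).2.trans (s6 _)) (by simp) (by simp) (by simp) rfl rfl rfl heta.ge
  simp only [hcard] at g
  push_cast at g
  rw [mul_assoc _ (lam (a + 1)) mu] at g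
  have hΛ : (0 : ℝ) < Nat.card Λ := by linarith
  have e13 : (Nat.card Λ : ℝ) * (13 / C) = 13 / 200 := by
    rw [hC]
    field_simp
  have g2 := g (by nlinarith [mul_le_mul_of_nonneg_left key hΛ.le])
  have g3 := mul_le_mul_of_nonneg_left (g2.trans (mul_le_mul_of_nonneg_left key (by norm_num))) hΛ.le
  have g4 : (Nat.card Λ : ℝ) * (5 * (13 / C)) = 13 / 40 := by linarith
  rw [mul_comm]
  exact g3.trans_lt (by rw [g4]; norm_num)

end Pool.Agent.P.MP_85b516_nt.LD
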