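import Pool.Agent.P.MP_85b516_nt.LD.Stm

/-! The schedule of primes (Theorem LD). -/

namespace Pool.Agent.P.MP_85b516_nt.LD

namespace PSched

theorem card_cons (p : ℕ) (l : List ℕ) : Nat.card (Vx (p :: l)) = (p + 3) * Nat.card (Vx l) := by
  have : Nat.card (Vx (p :: l)) = Nat.card (Zp p × Vx l) := rfl
  rw [this, Nat.card_prod]
  simp

theorem mem_lst (l : List ℕ) (p : ℕ → ℕ) (x : ℕ) :
    ∀ k, x ∈ lst l p k → x ∈ l ∨ ∃ j < k, p j = x
  | 0, h => Or.inl h
  | k + 1, h => by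
    rcases List.mem_cons.1 h with h | h
    · exact Or.inr ⟨k, Nat.lt_succ_self k, h.symm⟩
    · rcases mem_lst l p x k h with h | ⟨j, hj, h⟩
      · exact Or.inl h
      · exact Or.inr ⟨j, Nat.lt_succ_of_lt hj, h⟩

theorem nodup_lst (l : List ℕ) (p : ℕ → ℕ) (hl : l.Nodup) (hp : StrictMono p)
    (hn : ∀ k, p k ∉ l) : ∀ k, (lst l p k).Nodup
  | 0 => hl
  | k + 1 => by
    refine List.nodup_cons.2 ⟨fun h => ?_, nodup_lst l p hl hp hn k⟩
    rcases mem_lst l p _ k h with h | ⟨j, hj, h⟩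
    · exact hn k h
    · exact (hp hj).ne h

theorem prod_le (x : ℕ → ℝ) (h0 : ∀ q, 0 ≤ x q) (h1 : ∀ q, x q ≤ 1) : ∀ l : List ℕ,
    0 ≤ (l.map fun q => 1 - x q).prod ∧
      (l.map fun q => 1 - x q).prod * (1 + (l.map x).sum) ≤ 1 ∧ 0 ≤ (l.map x).sum
  | [] => by simp
  | q :: l => by
    obtain ⟨a, b, c⟩ := prod_le x h0 h1 l
    simp only [List.map_cons, List.prod_cons, List.sum_cons]
    have e0 := h0 q
    have e1 := h1 q
    refine ⟨mul_nonneg (by linarith) a, ?_, by linarith⟩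
    generalize (l.map fun q => 1 - x q).prod = P at *
    generalize (l.map x).sum = S at *
    have e2 : (1 - x q) * (1 + (x q + S)) ≤ 1 + S := by nlinarith [mul_nonneg e0 c, mul_nonneg e0 e0]
    calc _ = P * ((1 - x q) * (1 + (x q + S))) := by ring
      _ ≤ P * (1 + S) := mul_le_mul_of_nonneg_left e2 a
      _ ≤ 1 := b

theorem three_le (i : ℕ) (hi : 4 ≤ i) : 3 * i ≤ 2 ^ i := by
  induction i, hi using Nat.le_induction with
  | base => norm_num
  | succ n hn ih => rw [pow_succ]; omega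

/-- The sequence of proportions. -/
noncomputable def lm (p : ℕ → ℕ) (a : ℝ) : ℕ → ℝ
  | 0 => a
  | k + 1 => ((p k : ℝ) + 3) * lm p a k ^ 2 + lm p a k / ((p k : ℝ) + 2)

theorem lm_nonneg (p : ℕ → ℕ) {a : ℝ} (ha : 0 ≤ a) : ∀ k, 0 ≤ lm p a k
  | 0 => ha
  | k + 1 => by
    have := lm_nonneg p ha k
    unfold lm
    positivity

/-- The decay of the proportions. -/
theorem decay (p : ℕ → ℕ) (N : ℕ → ℝ) (R : ℝ) {a : ℝ} (ha : 0 ≤ a) (hN : ∀ k, (p k : ℝ) + 3 ≤ N k)
    (hR : ∀ k, N (k + 1) = R * N k) (hR1 : 1 ≤ R) (hp : ∀ k, 4 * R ^ 5 ≤ (p k : ℝ) + 2)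
    (h0 : N 1 ^ 5 * a ≤ 1) : ∀ k, N (k + 1) ^ 5 * lm p a k ≤ (1 / 2) ^ k ∧
      ((p k : ℝ) + 3) ^ 2 * lm p a k ≤ (1 / 2) ^ k := by
  have key : ∀ k, N (k + 1) ^ 5 * lm p a k ≤ (1 / 2) ^ k →
      ((p k : ℝ) + 3) ^ 2 * lm p a k ≤ (1 / 2) ^ k := by
    intro k hk
    refine le_trans (mul_le_mul_of_nonneg_right ?_ (lm_nonneg p ha k)) hk
    have p0 : (0 : ℝ) ≤ p k := Nat.cast_nonneg _
    have n1 : (p k : ℝ) + 3 ≤ N (k + 1) := by
      rw [hR]
      nlinarith [hN k]
    calc ((p k : ℝ) + 3) ^ 2 ≤ ((p k : ℝ) + 3) ^ 5 :=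
          pow_le_pow_right₀ (by linarith) (by norm_num)
      _ ≤ _ := pow_le_pow_left₀ (by linarith) n1 5
  have main : ∀ k, N (k + 1) ^ 5 * lm p a k ≤ (1 / 2) ^ k := by
    intro k
    induction k with
    | zero => simpa [lm] using h0
    | succ k ih =>
      have l0 := lm_nonneg p ha k
      have p0 : (0 : ℝ) ≤ p k := Nat.cast_nonneg _
      have h1 : ((p k : ℝ) + 3) ^ 2 * lm p a k ≤ 1 :=
        (key k ih).trans (pow_le_one₀ (by norm_num) (by norm_num))
      have n0 : 0 ≤ N (k + 1) := le_trans (by positivity) (hN (k + 1))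
      have h2 : lm p a (k + 1) ≤ 2 * lm p a k / ((p k : ℝ) + 2) := by
        have : ((p k : ℝ) + 3) * lm p a k ^ 2 ≤ lm p a k / ((p k : ℝ) + 2) := by
          rw [le_div_iff₀ (by positivity)]
          have : ((p k : ℝ) + 3) * ((p k : ℝ) + 2) * lm p a k ≤ 1 := by nlinarith
          nlinarith
        have e : lm p a (k + 1) =
          ((p k : ℝ) + 3) * lm p a k ^ 2 + lm p a k / ((p k : ℝ) + 2) := rfl
        rw [e, mul_div_assoc]
        linarith
      have r0 : 0 < R ^ 5 := by positivity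
      have h3 : lm p a (k + 1) * R ^ 5 ≤ lm p a k / 2 := by
        have : 2 * lm p a k / ((p k : ℝ) + 2) ≤ 2 * lm p a k / (4 * R ^ 5) :=
          div_le_div_of_nonneg_left (by positivity) (by positivity) (hp k)
        calc _ ≤ 2 * lm p a k / (4 * R ^ 5) * R ^ 5 :=
              mul_le_mul_of_nonneg_right (h2.trans this) r0.le
          _ = _ := by field_simp; ring
      rw [hR (k + 1), mul_pow, pow_succ (1 / 2 : ℝ)]
      calc _ = N (k + 1) ^ 5 * (lm p a (k + 1) * R ^ 5) := by ring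
        _ ≤ N (k + 1) ^ 5 * (lm p a k / 2) := mul_le_mul_of_nonneg_left h3 (by positivity)
        _ = N (k + 1) ^ 5 * lm p a k * (1 / 2) := by ring
        _ ≤ _ := mul_le_mul_of_nonneg_right ih (by norm_num)
  exact fun k => ⟨main k, key k (main k)⟩

/-- The expected dimension stays bounded. -/
theorem growth (l : List ℕ) (p : ℕ → ℕ) {a : ℝ} (ha : 0 ≤ a)
    (h1 : ∀ k, ((p k : ℝ) + 3) ^ 2 * lm p a k ≤ (1 / 2) ^ k) (h2 : ∀ k, (2 : ℝ) ^ k ≤ (p k : ℝ) + 2) :
    ∀ k, lm p a k * Nat.card (Vx (lst l p k)) ≤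
      a * Nat.card (Vx l) * Real.exp (4 - 4 * (1 / 2) ^ k)
  | 0 => by simp [lm, lst]
  | k + 1 => by
    have ih := growth l p ha h1 h2 k
    have l0 := lm_nonneg p ha k
    have p0 : (0 : ℝ) ≤ p k := Nat.cast_nonneg _
    have e : lm p a (k + 1) = ((p k : ℝ) + 3) * lm p a k ^ 2 + lm p a k / ((p k : ℝ) + 2) := rfl
    have e' : lst l p (k + 1) = p k :: lst l p k := rfl
    have h3 : 1 / ((p k : ℝ) + 2) ≤ (1 / 2) ^ k := by
      rw [one_div_pow]
      exact one_div_le_one_div_of_le (by positivity) (h2 k)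
    have h4 : ((p k : ℝ) + 3) ^ 2 * lm p a k + (1 + 1 / ((p k : ℝ) + 2)) ≤
        Real.exp (2 * (1 / 2) ^ k) := by
      have := Real.add_one_le_exp (2 * (1 / 2 : ℝ) ^ k)
      linarith [h1 k]
    rw [e, e', card_cons]
    push_cast
    calc _ = (lm p a k * Nat.card (Vx (lst l p k))) *
            (((p k : ℝ) + 3) ^ 2 * lm p a k + (1 + 1 / ((p k : ℝ) + 2))) := by
          field_simp
          ring
      _ ≤ (a * Nat.card (Vx l) * Real.exp (4 - 4 * (1 / 2) ^ k)) * Real.exp (2 * (1 / 2) ^ k) :=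
          mul_le_mul ih h4 (by positivity) (by positivity)
      _ = _ := by
          rw [mul_assoc, ← Real.exp_add]
          congr 2
          ring

end PSched

open PSched in
theorem s_sched (h : S_Primes) : S_Sched := by
  intro θ C nV E hθ hθ1
  obtain ⟨q, hq, hG⟩ := h
  obtain ⟨T, hT⟩ : ∃ T, T = C + 2 := ⟨_, rfl⟩
  obtain ⟨i0, hi0⟩ : ∃ i0, i0 = 5 * T + 2 + E.sup id := ⟨_, rfl⟩
  set p : ℕ → ℕ := fun k => q (i0 + T * k) with hp
  set N : ℕ → ℝ := fun k => 2 ^ (i0 + T * k + 2) with hN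
  have plo : ∀ k, 2 ^ (i0 + T * k) < p k := fun k => (hq _).2.1
  have phi : ∀ k, p k ≤ 2 ^ (i0 + T * k + 1) := fun k => (hq _).2.2
  have big : ∀ k, i0 + T * k < 2 ^ (i0 + T * k) := fun k => Nat.lt_two_pow_self
  have pN : ∀ k, p k + 3 ≤ 2 ^ (i0 + T * k + 2) := by
    intro k
    have a := phi k
    have b := big k
    rw [pow_succ] at a
    rw [pow_add]
    omega
  have pN' : ∀ k, (p k : ℝ) + 3 ≤ N k := fun k => by
    simp only [hN]
    exact_mod_cast pN k
  have lt : ∀ k, p k < p (k + 1) := fun k =>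
    lt_of_le_of_lt ((phi k).trans (Nat.pow_le_pow_right (by norm_num) (by
      rw [Nat.mul_succ]; omega))) (plo (k + 1))
  have N1 : (0 : ℝ) < N 1 ^ 5 := by
    simp only [hN]
    positivity
  obtain ⟨G, hG1, hG2⟩ := hG E (N 1 ^ 5 / θ)
  have a0 : (0 : ℝ) ≤ 1 / N 1 ^ 5 := by positivity
  have dec := decay p N (2 ^ T) a0 pN' (fun k => by
      simp only [hN]
      rw [← pow_add]
      congr 1
      ring) (one_le_pow₀ (by norm_num)) (fun k => by
      have : 4 * (2 ^ T) ^ 5 ≤ p k + 2 := by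
        have a : 4 * (2 ^ T) ^ 5 = 2 ^ (5 * T + 2) := by ring
        have b : 2 ^ (5 * T + 2) ≤ 2 ^ (i0 + T * k) := Nat.pow_le_pow_right (by norm_num) (by omega)
        have := plo k
        omega
      exact_mod_cast this) (by rw [mul_one_div_cancel N1.ne'])
  have gr := growth G.toList p a0 (fun k => (dec k).2) (fun k => by
    have : 2 ^ k ≤ p k + 2 := by
      have b : 2 ^ k ≤ 2 ^ (i0 + T * k) := Nat.pow_le_pow_right (by norm_num) (by nlinarith)
      have := plo k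
      omega
    exact_mod_cast this)
  obtain ⟨mu, hmu⟩ : ∃ mu : ℝ, mu = nV * (1 / N 1 ^ 5 * Nat.card (Vx G.toList) * Real.exp 4) :=
    ⟨_, rfl⟩
  have mu0 : 0 ≤ mu := by
    rw [hmu]
    positivity
  refine ⟨G.toList, p, lm p (1 / N 1 ^ 5), mu, ⌈C * mu⌉₊, fun k => ⟨?_, fun x hx => ?_⟩,
    fun k => ?_, ?_, fun k => le_rfl, fun k => ⟨lm_nonneg p a0 k, ?_⟩, fun k => ?_,
    fun k hk => ⟨?_, ?_, (lt k).le, ?_⟩⟩
  · exact nodup_lst _ p G.nodup_toList (strictMono_nat_of_lt_succ lt)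
      (fun k hk => (hG1 _ (Finset.mem_toList.1 hk)).2.2 _ rfl) k
  · rcases mem_lst _ p x k hx with hx | ⟨j, -, rfl⟩
    · have := hG1 _ (Finset.mem_toList.1 hx)
      exact ⟨this.1, this.2.1⟩
    · refine ⟨(hq _).1, fun hE => ?_⟩
      have a : p j ≤ E.sup id := Finset.le_sup (f := id) hE
      have b := plo j
      have c := big j
      omega
  · have b := plo k
    have c := big k
    omega
  · obtain ⟨a, b, c⟩ := prod_le (fun q : ℕ => θ / ((q : ℝ) + 3)) (fun q => by positivity)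
      (fun q => by
        have : (0 : ℝ) ≤ q := Nat.cast_nonneg _
        rw [div_le_one (by positivity)]
        linarith) G.toList
    have s : (G.toList.map fun q : ℕ => θ / ((q : ℝ) + 3)).sum =
        θ * ∑ p ∈ G, 1 / ((p : ℝ) + 3) := by
      rw [Finset.sum_map_toList, Finset.mul_sum]
      exact Finset.sum_congr rfl fun x _ => by ring
    rw [s] at b
    rw [div_le_iff₀ hθ] at hG2
    change _ ≤ 1 / N 1 ^ 5
    rw [le_div_iff₀ N1]
    refine le_trans (mul_le_mul_of_nonneg_left ?_ a) b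
    linarith
  · have a := (dec k).2
    have b : ((1 : ℝ) / 2) ^ k ≤ 1 := pow_le_one₀ (by norm_num) (by norm_num)
    have c := lm_nonneg p a0 k
    have d : (0 : ℝ) ≤ p k := Nat.cast_nonneg _
    have e : (1 : ℝ) ≤ ((p k : ℝ) + 3) ^ 2 := one_le_pow₀ (by linarith)
    nlinarith
  · have a := gr k
    have b : Real.exp (4 - 4 * (1 / 2) ^ k) ≤ Real.exp 4 :=
      Real.exp_le_exp.2 (by have : (0 : ℝ) ≤ (1 / 2) ^ k := by positivity
                            linarith)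
    rw [hmu]
    calc _ = nV * (lm p (1 / N 1 ^ 5) k * Nat.card (Vx (lst G.toList p k))) := by ring
      _ ≤ _ := mul_le_mul_of_nonneg_left
          (a.trans (mul_le_mul_of_nonneg_left b (by positivity))) (by positivity)
  · have a := (dec k).1
    have c := lm_nonneg p a0 k
    have b : ((p (k + 1) : ℝ) + 3) ^ 5 * lm p (1 / N 1 ^ 5) k ≤ (1 / 2) ^ k :=
      le_trans (mul_le_mul_of_nonneg_right (pow_le_pow_left₀ (by positivity) (pN' _) 5) c) a
    have d : C * mu ≤ 2 ^ k := by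
      have e : C * mu ≤ k := Nat.ceil_le.1 hk
      have f : (k : ℝ) ≤ 2 ^ k := by exact_mod_cast (Nat.lt_two_pow_self (n := k)).le
      linarith
    calc _ = (C * mu) * (((p (k + 1) : ℝ) + 3) ^ 5 * lm p (1 / N 1 ^ 5) k) := by ring
      _ ≤ 2 ^ k * (1 / 2) ^ k := mul_le_mul d b (by positivity) (by positivity)
      _ = 1 := by rw [← mul_pow]; norm_num
  · have a : C ≤ 2 ^ C := Nat.lt_two_pow_self.le
    have b := plo (k + 1)
    have c : 2 ^ C * 2 ^ (i0 + T * k + 2) = 2 ^ (i0 + T * (k + 1)) := by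
      rw [← pow_add]
      congr 1
      rw [Nat.mul_succ]
      omega
    have d := Nat.mul_le_mul a (pN k)
    omega
  · have a : C ≤ 2 ^ C := Nat.lt_two_pow_self.le
    have d := Nat.mul_le_mul a (Nat.pow_le_pow_left (pN (k + 1)) 2)
    refine d.trans ?_
    rw [← pow_mul, ← pow_add]
    refine Nat.pow_le_pow_right (by norm_num) ?_
    have b := plo k
    have c := three_le (i0 + T * k) (by omega)
    have e : T * (k + 1) = T * k + T := Nat.mul_succ _ _
    omega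

end Pool.Agent.P.MP_85b516_nt.LD
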