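import Pool.Agent.P.MP_85b516_nt.LD.Stm

/-! Package Span: pole vectors span the code, factorisation, distinct poles. -/

open Finset

namespace Pool.Agent.P.MP_85b516_nt.LD

noncomputable section

namespace PSpan

lemma cw_sub {M : Type} [AddCommGroup M] {l : List ℕ} {w w' : Vx l → M} (h : Cw l w)
    (h' : Cw l w') : Cw l fun v => w v - w' v := by
  rw [cw_iff] at h h' ⊢
  intro r
  simp only [smul_sub, sum_sub_distrib, h r, h' r, sub_zero]

lemma sum_tx {M : Type} [AddCommMonoid M] (p : ℕ) (l : List ℕ) (f : Tx (p :: l) → M) :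
    ∑ τ, f τ = ∑ s : Bool × Fin p, ∑ τ : Tx l, f (s, τ) :=
  Fintype.sum_prod_type (α₁ := Bool × Fin p) (α₂ := Tx l) f

lemma prod_tx {M : Type} [CommMonoid M] (p : ℕ) (l : List ℕ) (f : Tx (p :: l) → M) :
    ∏ τ, f τ = ∏ s : Bool × Fin p, ∏ τ : Tx l, f (s, τ) :=
  Fintype.prod_prod_type (α₁ := Bool × Fin p) (α₂ := Tx l) f

/-- The local coefficients. -/
def gam {M : Type} [AddCommGroup M] (p : ℕ) (w : Zp p → M) (s : Bool × Fin p) : M :=
  if s.1 then (if (s.2 : ℕ) = 0 then w (Sum.inr 1) else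
    if (s.2 : ℕ) = 1 then w (Sum.inr 2) - w (Sum.inr 1) else 0)
  else w (Sum.inl s.2) - w (Sum.inr 1)

lemma sum_zero {M : Type} [AddCommMonoid M] {p : ℕ} (hp : 0 < p) (f : Fin p → M) :
    ∑ t : Fin p, (if (t : ℕ) = 0 then f t else 0) = f ⟨0, hp⟩ := by
  rw [sum_eq_single ⟨0, hp⟩]
  · simp
  · intro t _ ht
    rw [if_neg]
    intro h
    exact ht (Fin.ext h)
  · simp

lemma sum_two {M : Type} [AddCommMonoid M] {p : ℕ} (hp : 2 ≤ p) (a b : M) :
    ∑ t : Fin p, (if (t : ℕ) = 0 then a else if (t : ℕ) = 1 then b else 0) = a + b := by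
  obtain ⟨n, rfl⟩ : ∃ n, p = n + 2 := ⟨p - 2, by omega⟩
  rw [Fin.sum_univ_succ, Fin.sum_univ_succ]
  simp

lemma loc_span {M : Type} [AddCommGroup M] {p : ℕ} (hp : 2 ≤ p) (w : Zp p → M)
    (h : ∑ x, czI p x • w x = 0) (x : Zp p) : w x = ∑ s, loc p s x • gam p w s := by
  rw [sum_czI] at h
  rw [Fintype.sum_prod_type, Fintype.sum_bool]
  have hp0 : 0 < p := by omega
  rcases x with i | i
  · have e1 : ∑ t : Fin p, loc p (true, t) (Sum.inl i) • gam p w (true, t) = w (Sum.inr 1) := by
      rw [← sum_zero hp0 fun _ => w (Sum.inr 1)]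
      refine sum_congr rfl fun t _ => ?_
      by_cases ht : (t : ℕ) = 0 <;> simp [loc, gam, ht]
    have e2 : ∑ t : Fin p, loc p (false, t) (Sum.inl i) • gam p w (false, t) =
        w (Sum.inl i) - w (Sum.inr 1) := by
      rw [sum_eq_single i]
      · simp [loc, gam]
      · intro t _ ht
        simp [loc, ht]
      · simp
    rw [e1, e2]
    abel
  · fin_cases i
    · have e1 : ∑ t : Fin p, loc p (true, t) (Sum.inr 0) • gam p w (true, t) =
          w (Sum.inr 1) + (w (Sum.inr 2) - w (Sum.inr 1)) := by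
        rw [← sum_two hp]
        refine sum_congr rfl fun t _ => ?_
        simp [loc, gam]
      have e2 : ∑ t : Fin p, loc p (false, t) (Sum.inr 0) • gam p w (false, t) =
          ∑ t : Fin p, w (Sum.inl t) - p • w (Sum.inr 1) := by
        simp [loc, gam, sum_sub_distrib]
      change w (Sum.inr 0) = ∑ t : Fin p, loc p (true, t) (Sum.inr 0) • gam p w (true, t) +
        ∑ t : Fin p, loc p (false, t) (Sum.inr 0) • gam p w (false, t)
      rw [e1, e2, ← sub_eq_zero, ← neg_eq_zero, ← h]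
      abel
    · have e1 : ∑ t : Fin p, loc p (true, t) (Sum.inr 1) • gam p w (true, t) = w (Sum.inr 1) := by
        rw [← sum_zero hp0 fun _ => w (Sum.inr 1)]
        refine sum_congr rfl fun t _ => ?_
        by_cases ht : (t : ℕ) = 0 <;> simp [loc, gam, ht]
      have e2 : ∑ t : Fin p, loc p (false, t) (Sum.inr 1) • gam p w (false, t) = 0 := by
        simp [loc]
      change w (Sum.inr 1) = ∑ t : Fin p, loc p (true, t) (Sum.inr 1) • gam p w (true, t) +
        ∑ t : Fin p, loc p (false, t) (Sum.inr 1) • gam p w (false, t)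
      rw [e1, e2, add_zero]
    · have e1 : ∑ t : Fin p, loc p (true, t) (Sum.inr 2) • gam p w (true, t) =
          w (Sum.inr 1) + (w (Sum.inr 2) - w (Sum.inr 1)) := by
        rw [← sum_two hp]
        refine sum_congr rfl fun t _ => ?_
        simp [loc, gam]
      have e2 : ∑ t : Fin p, loc p (false, t) (Sum.inr 2) • gam p w (false, t) = 0 := by
        simp [loc]
      change w (Sum.inr 2) = ∑ t : Fin p, loc p (true, t) (Sum.inr 2) • gam p w (true, t) +
        ∑ t : Fin p, loc p (false, t) (Sum.inr 2) • gam p w (false, t)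
      rw [e1, e2]
      abel

lemma span {M : Type} [AddCommGroup M] : ∀ (l : List ℕ), (∀ p ∈ l, 2 ≤ p) →
    ∀ w : Vx l → M, Cw l w → ∃ β : Tx l → M, ∀ v, w v = ∑ τ, om l τ v • β τ
  | [], _, w, _ => ⟨fun _ => w (), fun v => by
      have : ∑ τ : Tx [], om [] τ v • w () = om [] () v • w () :=
        Fintype.sum_unique (ι := Unit) fun τ => om [] τ v • w ()
      rw [this]
      simp [om]
      rfl⟩
  | p :: l, hl, w, h => by
    have hp := hl p List.mem_cons_self
    have hg : ∀ s : Bool × Fin p, Cw l fun v => gam p (fun x => w (x, v)) s := by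
      intro s
      unfold gam
      split_ifs
      · exact h.1 _
      · exact cw_sub (h.1 _) (h.1 _)
      · exact Cw.const 0 l
      · exact cw_sub (h.1 _) (h.1 _)
    choose β hβ using fun s => span l (fun q hq => hl q (List.mem_cons_of_mem _ hq)) _ (hg s)
    refine ⟨fun τ => β τ.1 τ.2, fun v => ?_⟩
    rw [sum_tx]
    have e := loc_span hp (fun x => w (x, v.2)) (h.2 v.2) v.1
    refine e.trans (sum_congr rfl fun s _ => ?_)
    rw [hβ s v.2, smul_sum]
    refine sum_congr rfl fun τ _ => ?_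
    rw [← mul_smul]
    rfl

lemma prod_root {F B : Type} [Field F] [CommRing B] [Algebra F B] {z : F} {p : ℕ} (hp : 0 < p)
    (hz : IsPrimitiveRoot z p) (Y : B) :
    ∏ t : Fin p, (1 - algebraMap F B (z ^ (t : ℕ)) * Y) = 1 - Y ^ p := by
  have h1 : (1 : Polynomial F) - Polynomial.X ^ p =
      ∏ t : Fin p, (1 - Polynomial.C (z ^ (t : ℕ)) * Polynomial.X) := by
    have hz' : IsPrimitiveRoot (Polynomial.C z) p :=
      hz.map_of_injective (f := (Polynomial.C : F →+* Polynomial F)) Polynomial.C_injective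
    have h2 := hz'.pow_sub_pow_eq_prod_sub_mul 1 Polynomial.X hp
    rw [one_pow] at h2
    rw [h2, Fin.prod_univ_eq_prod_range (fun t => 1 - Polynomial.C (z ^ t) * Polynomial.X) p]
    symm
    refine prod_bij (fun t _ => Polynomial.C z ^ t) (fun t _ => ?_) (fun a ha b hb e => ?_)
      (fun w hw => ?_) (fun t _ => by rw [map_pow])
    · rw [Polynomial.mem_nthRootsFinset hp, ← pow_mul, mul_comm, pow_mul, hz'.pow_eq_one, one_pow]
    · exact hz'.pow_inj (mem_range.1 ha) (mem_range.1 hb) e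
    · have : NeZero p := ⟨hp.ne'⟩
      obtain ⟨t, ht, e⟩ := hz'.eq_pow_of_pow_eq_one ((Polynomial.mem_nthRootsFinset hp _).1 hw)
      exact ⟨t, mem_range.2 ht, e⟩
  have h3 := congrArg (Polynomial.aeval Y) h1
  simpa [map_prod] using h3.symm

lemma prod_zero {M : Type} [CommMonoid M] {p : ℕ} (hp : 0 < p) (f : Fin p → M) :
    ∏ t : Fin p, f t ^ (if (t : ℕ) = 0 then 1 else 0) = f ⟨0, hp⟩ := by
  rw [prod_eq_single ⟨0, hp⟩]
  · simp
  · intro t _ ht
    rw [if_neg, pow_zero]
    intro h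
    exact ht (Fin.ext h)
  · simp

open scoped Classical in
lemma fac {F B : Type} [Field F] [CommRing B] [Algebra F B] (ζ : ℕ → F) (k d : ℕ) (hd : 1 ≤ d) :
    ∀ (l : List ℕ), l.Nodup → (∀ p ∈ l, p.Prime ∧ IsPrimitiveRoot (ζ p) p) →
    (∀ p ∈ l, p ∣ k ∨ k ≡ 1 [MOD p]) → ∀ (v : Vx l) (y : B),
    (if kp l v ∣ k then 1 - algebraMap F B (zz ζ l v ^ (j0 l v * k ^ d)) * y ^ j0 l v else 1) =
      ∏ τ, if cls k l τ then (1 - algebraMap F B (tht ζ l τ) * y) ^ om l τ v else 1
  | [], _, _, _, v, y => by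
    have : (∏ τ : Tx [], if cls k [] τ then (1 - algebraMap F B (tht ζ [] τ) * y) ^ om [] τ v
        else 1) = if cls k [] () then (1 - algebraMap F B (tht ζ [] ()) * y) ^ om [] () v else 1 :=
      Fintype.prod_unique (ι := Unit) fun τ =>
        if cls k [] τ then (1 - algebraMap F B (tht ζ [] τ) * y) ^ om [] τ v else 1
    rw [this]
    simp [cls, kp, j0, zz, tht, om]
  | p :: l, hn, hl, hk, v, y => by
    obtain ⟨x, v⟩ := v
    obtain ⟨hp, hz⟩ := hl p List.mem_cons_self
    have hl' : ∀ q ∈ l, q.Prime ∧ IsPrimitiveRoot (ζ q) q :=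
      fun q hq => hl q (List.mem_cons_of_mem _ hq)
    have hco : ∀ q ∈ l, Nat.Coprime q p := fun q hq =>
      (Nat.coprime_primes (hl' q hq).1 hp).2 fun e => (List.nodup_cons.1 hn).1 (e ▸ hq)
    have ih := fac ζ k d hd l (List.nodup_cons.1 hn).2 hl'
      (fun q hq => hk q (List.mem_cons_of_mem _ hq)) (B := B) v
    set A := zz ζ l v ^ (j0 l v * k ^ d) with hA
    set G : Fin p → B := fun t => if kp l v ∣ k then
      1 - algebraMap F B A * (algebraMap F B (ζ p ^ (t : ℕ)) * y) ^ j0 l v else 1 with hG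
    have key : (∏ τ : Tx (p :: l), if cls k (p :: l) τ then
        (1 - algebraMap F B (tht ζ (p :: l) τ) * y) ^ om (p :: l) τ (x, v) else 1) =
        ∏ t : Fin p, G t ^ loc p (decide (p ∣ k), t) x := by
      rw [prod_tx, Fintype.prod_prod_type, prod_eq_single (decide (p ∣ k))]
      · refine prod_congr rfl fun t _ => ?_
        rw [hG]
        simp only
        rw [ih, ← prod_pow]
        refine prod_congr rfl fun τ _ => ?_
        have e : cls k (p :: l) ((decide (p ∣ k), t), τ) ↔ cls k l τ := by simp [cls]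
        by_cases hc : cls k l τ
        · rw [if_pos (e.2 hc), if_pos hc, ← pow_mul, mul_comm (om l τ v)]
          simp only [tht, om, map_mul]
          congr 2
          ring
        · rw [if_neg (fun h => hc (e.1 h)), if_neg hc, one_pow]
      · intro b _ hb
        refine prod_eq_one fun t _ => prod_eq_one fun τ _ => if_neg fun h => hb ?_
        have := h.1
        cases b <;> simp_all
      · simp
    have all : ∏ t : Fin p, G t = if kp l v ∣ k then
        1 - algebraMap F B (zz ζ l v ^ (p * j0 l v * k ^ d)) * y ^ (p * j0 l v) else 1 := by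
      by_cases hc : kp l v ∣ k
      · simp only [hG, if_pos hc]
        have hz' : IsPrimitiveRoot (ζ p ^ j0 l v) p := hz.pow_of_coprime _ (j0_coprime l p hco v)
        have := prod_root hp.pos hz' (algebraMap F B A * y ^ j0 l v)
        rw [mul_pow, ← map_pow, hA, ← pow_mul, ← pow_mul] at this
        rw [show p * j0 l v * k ^ d = j0 l v * k ^ d * p by ring, mul_comm p, ← this]
        refine prod_congr rfl fun t _ => ?_
        simp only [hA, map_pow, mul_pow]
        ring
      · simp [hG, hc]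
    have g0 : G ⟨0, hp.pos⟩ = if kp l v ∣ k then 1 - algebraMap F B A * y ^ j0 l v else 1 := by
      simp [hG]
    rw [key]
    by_cases hpk : p ∣ k
    · have hkp : p * kp l v ∣ k ↔ kp l v ∣ k :=
        ⟨fun h => (dvd_mul_left _ _).trans h, fun h =>
          Nat.Coprime.mul_dvd_of_dvd_of_dvd (kp_coprime l p hco v).symm hpk h⟩
      rw [decide_eq_true hpk]
      rcases x with i | i
      · have e : (ζ p ^ (i : ℕ)) ^ (j0 l v * k ^ d) = 1 := by
          rw [← pow_mul]
          exact (hz.pow_eq_one_iff_dvd _).2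
            (((dvd_pow hpk (by omega)).mul_left _).mul_left _)
        simp only [loc, Sum.elim_inl, if_true]
        rw [prod_zero hp.pos, g0]
        simp [kp, j0, zz, l0, l1, rtz, mul_pow, e, hA]
      · fin_cases i
        · simp [loc, all, kp, j0, zz, l0, l1, rtz]
        · have : ∏ t : Fin p, G t ^ loc p (true, t) (Sum.inr 1) = G ⟨0, hp.pos⟩ := by
            rw [← prod_zero hp.pos G]
            simp [loc]
          refine Eq.trans ?_ this.symm
          rw [g0]
          simp [kp, j0, zz, l0, l1, rtz, hkp, hA]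
        · simp [loc, all, kp, j0, zz, l0, l1, rtz, hkp]
    · have hkp : ¬ p * kp l v ∣ k := fun h => hpk ((dvd_mul_right _ _).trans h)
      have hk1 : k ≡ 1 [MOD p] := (hk p List.mem_cons_self).resolve_left hpk
      rw [decide_eq_false hpk]
      rcases x with i | i
      · have e : (ζ p ^ (i : ℕ)) ^ (j0 l v * k ^ d) = (ζ p ^ (i : ℕ)) ^ j0 l v := by
          have h1 : ζ p ^ (k ^ d) = ζ p := by
            have h2 : k ^ d ≡ 1 [MOD p] := by simpa using hk1.pow d
            have := pow_eq_pow_of_modEq h2 hz.pow_eq_one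
            rwa [pow_one] at this
          rw [← pow_mul, ← mul_assoc, mul_comm _ (k ^ d), pow_mul, h1, pow_mul]
        have : ∏ t : Fin p, G t ^ loc p (false, t) (Sum.inl i) = G i := by
          rw [prod_eq_single i]
          · simp [loc]
          · intro t _ ht
            simp [loc, ht]
          · simp
        rw [this]
        simp only [hG, kp, j0, zz, l0, l1, rtz, Sum.elim_inl, pow_zero, one_mul, mul_pow, e,
          map_mul, map_pow, hA]
        split_ifs
        · ring
        · rfl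
      · fin_cases i
        · simp [loc, all, kp, j0, zz, l0, l1, rtz]
        · simp [loc, kp, l1, hkp]
        · simp [loc, kp, l1, hkp]

lemma tht_pow {F : Type} [Field F] (ζ : ℕ → F) : ∀ (l : List ℕ), (∀ p ∈ l, ζ p ^ p = 1) →
    ∀ τ : Tx l, tht ζ l τ ^ l.prod = 1
  | [], _, _ => by simp [tht]
  | p :: l, h, τ => by
    have ih := tht_pow ζ l (fun q hq => h q (List.mem_cons_of_mem _ hq)) τ.2
    rw [tht, List.prod_cons, mul_pow, mul_comm p, pow_mul (tht ζ l τ.2), ih, one_pow, mul_one,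
      ← pow_mul, ← mul_assoc, mul_comm _ p, pow_mul, h p List.mem_cons_self, one_pow]

lemma dist {F : Type} [Field F] (ζ : ℕ → F) (ξ : F) (a' k : ℕ) (hξ : IsPrimitiveRoot ξ a')
    (i i' : Fin a') : ∀ (l : List ℕ), l.Nodup →
    (∀ p ∈ l, p.Prime ∧ IsPrimitiveRoot (ζ p) p ∧ ¬ p ∣ a') →
    ∀ (τ τ' : Tx l), cls k l τ → cls k l τ' →
    ξ ^ (i : ℕ) * tht ζ l τ = ξ ^ (i' : ℕ) * tht ζ l τ' → i = i' ∧ τ = τ'
  | [], _, _, τ, τ', _, _, e => by
    simp only [tht, mul_one] at e
    exact ⟨Fin.ext (hξ.pow_inj i.2 i'.2 e), rfl⟩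
  | p :: l, hn, hl, τ, τ', hc, hc', e => by
    obtain ⟨⟨b, t⟩, τ⟩ := τ
    obtain ⟨⟨b', t'⟩, τ'⟩ := τ'
    obtain ⟨hp, hz, ha⟩ := hl p List.mem_cons_self
    have hl' : ∀ q ∈ l, q.Prime ∧ IsPrimitiveRoot (ζ q) q ∧ ¬ q ∣ a' :=
      fun q hq => hl q (List.mem_cons_of_mem _ hq)
    have hco : Nat.Coprime (a' * l.prod) p := by
      refine Nat.Coprime.mul_left ((Nat.Prime.coprime_iff_not_dvd hp).2 ha).symm ?_
      refine Nat.coprime_list_prod_left_iff.2 fun q hq => ?_
      exact (Nat.coprime_primes (hl' q hq).1 hp).2 fun e => (List.nodup_cons.1 hn).1 (e ▸ hq)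
    have hz' : IsPrimitiveRoot (ζ p ^ (a' * l.prod)) p := hz.pow_of_coprime _ hco
    have hpow : ∀ (j : ℕ) (s : ℕ) (σ : Tx l),
        (ξ ^ j * (ζ p ^ s * tht ζ l σ)) ^ (a' * l.prod) = (ζ p ^ (a' * l.prod)) ^ s := by
      intro j s σ
      have h1 : (ξ ^ j) ^ (a' * l.prod) = 1 := by
        rw [← pow_mul, ← mul_assoc, mul_comm j, mul_assoc, pow_mul, hξ.pow_eq_one, one_pow]
      have h2 : tht ζ l σ ^ (a' * l.prod) = 1 := by
        rw [mul_comm, pow_mul, tht_pow ζ l (fun q hq => (hl' q hq).2.1.pow_eq_one), one_pow]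
      rw [mul_pow, mul_pow, h1, h2, one_mul, mul_one, ← pow_mul, mul_comm s, pow_mul]
    simp only [tht] at e
    have ht : t = t' := by
      have := congrArg (· ^ (a' * l.prod)) e
      simp only [hpow] at this
      exact Fin.ext (hz'.pow_inj t.2 t'.2 this)
    subst ht
    have hb : b = b' := by
      have h1 : b = true ↔ p ∣ k := hc.1
      have h2 : b' = true ↔ p ∣ k := hc'.1
      cases b <;> cases b' <;> simp_all
    subst hb
    have hne : ζ p ^ (t : ℕ) ≠ 0 := pow_ne_zero _ (hz.ne_zero hp.ne_zero)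
    have e' : ξ ^ (i : ℕ) * tht ζ l τ = ξ ^ (i' : ℕ) * tht ζ l τ' := by
      apply mul_left_cancel₀ hne
      linear_combination e
    obtain ⟨h1, h2⟩ := dist ζ ξ a' k hξ i i' l (List.nodup_cons.1 hn).2 hl' τ τ' hc.2 hc'.2 e'
    exact ⟨h1, by rw [h2]⟩

end PSpan

theorem s_span : S_Span := fun _ _ l hl w h => PSpan.span l hl w h

theorem s_fac : S_Fac := fun _ _ _ _ _ ζ l k d hn hl hd hk v y =>
  PSpan.fac ζ k d hd l hn hl hk v y

theorem s_dist : S_Dist := fun _ _ ζ ξ a' k l hn hl hξ i i' τ τ' hc hc' e =>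
  PSpan.dist ζ ξ a' k hξ i i' l hn hl τ τ' hc hc' e

end

end Pool.Agent.P.MP_85b516_nt.LD
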