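import Pool.Agent.P.MP_85b516_nt.LD.Stm

/-! Package Tan of Theorem LD (MP_85b516_nt). -/

open PowerSeries Finset Module
open AddMonoidAlgebra (single)

namespace Pool.Agent.P.MP_85b516_nt.LD

namespace PTan

lemma cast_mod {R : Type} [CommRing R] {N : ℕ} (hN : (N : R) = 0) (m : ℕ) :
    ((m % N : ℕ) : R) = m := by
  conv_rhs => rw [← Nat.mod_add_div m N]
  rw [Nat.cast_add, Nat.cast_mul, hN, zero_mul, add_zero]

lemma val_add {R : Type} [CommRing R] {N : ℕ} [NeZero N] (hN : (N : R) = 0) (a b : ZMod N) :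
    (((a + b).val : ℕ) : R) = (a.val : R) + (b.val : R) := by
  rw [ZMod.val_add, cast_mod hN, Nat.cast_add]

lemma d1_single {R : Type} [CommRing R] {N : ℕ} [NeZero N] (c : ZMod N) (r : R) :
    d1 (single c r : BB R N) = (c.val : R) * r := by
  rw [d1_apply, sum_eq_single c]
  · simp
  · intro c' _ hc
    rw [AddMonoidAlgebra.coeff_single, Finsupp.single_apply, if_neg hc.symm, mul_zero]
  · simp

lemma d1_Dl {F : Type} [Field F] {N : ℕ} [NeZero N] (hN : (N : F) = 0) (f : F⟦X⟧) :
    d1 (Dl N f) = th f := by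
  rw [d1_apply]
  ext n
  have e : ∀ c : ZMod N, ((c.val : ℕ) : F⟦X⟧) = C ((c.val : ℕ) : F) := fun c =>
    (map_natCast (C : F →+* F⟦X⟧) _).symm
  simp only [map_sum, coeff_Dl, e, coeff_C_mul, sec, coeff_mk, th]
  rw [sum_eq_single (n : ZMod N)]
  · rw [if_pos rfl, ZMod.val_natCast, cast_mod hN]
  · intro c _ hc
    rw [if_neg hc.symm, mul_zero]
  · simp

lemma pd_zero (d : ℕ) : pd d 0 = 1 := by
  unfold pd
  rw [Nat.card_eq_one_iff_unique]
  refine ⟨inferInstance, ⟨⟨default, fun i hi => ?_⟩⟩⟩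
  simp at hi

lemma pd_one (d : ℕ) : pd d 1 = 1 := by
  unfold pd
  rw [Nat.card_eq_one_iff_unique]
  refine ⟨inferInstance, ⟨⟨default, fun i hi => ⟨1, one_pos, ?_⟩⟩⟩⟩
  simpa using hi

lemma coeff_one_mul' {F : Type} [Field F] (d : ℕ) (w w' : F) :
    coeff 1 (th (yv d 1 w) * yv d 1 w') = w := by
  rw [coeff_mul, Finset.Nat.sum_antidiagonal_succ]
  simp [th, yv, sb, PP, pd_zero, pd_one]

end PTan

open PTan

theorem s_d1 : S_D1 := by
  intro R _ N _ hN y y'
  conv_lhs => rw [bb_sum y, bb_sum y']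
  rw [d1_apply y, d1_apply y', aug_eq y, aug_eq y', sum_mul_sum, sum_mul_sum, sum_mul_sum,
    ← sum_add_distrib, map_sum]
  refine sum_congr rfl fun c _ => ?_
  rw [← sum_add_distrib, map_sum]
  refine sum_congr rfl fun c' _ => ?_
  rw [AddMonoidAlgebra.single_mul_single, d1_single, val_add hN]
  ring

theorem s_tan (h : S_D1) : S_Tan := by
  intro F _ N _ d b x z0 z1 hN _ hx hz e
  have hN' : (N : F⟦X⟧) = 0 := by
    rw [← map_natCast (C : F →+* F⟦X⟧), hN, map_zero]
  simp only [YY, h _ N hN', map_mul, aug_single, aug_Dl, d1_Dl hN] at e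
  have hu : (C (x⁻¹ ^ (1 * b)) : F⟦X⟧) ≠ 0 := by
    intro h0
    have := congrArg constantCoeff h0
    rw [constantCoeff_C, map_zero] at this
    exact pow_ne_zero _ (inv_ne_zero hx) this
  have e2 : th (yv d 1 (x * z1)) * yv d 1 (x * z0) = th (yv d 1 (x * z0)) * yv d 1 (x * z1) := by
    apply mul_left_cancel₀ (mul_ne_zero hu hu)
    linear_combination e
  have e3 := congrArg (coeff 1) e2
  rw [coeff_one_mul', coeff_one_mul'] at e3
  exact hz (mul_left_cancel₀ hx e3).symm

theorem s_per : S_Per := by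
  intro q F _ _ d a b h j z K ha hh hj hC hX hper
  have hj0 : j ≠ 0 := by omega
  set φ : F⟦X⟧ →+* FractionRing F⟦X⟧ :=
    (algebraMap F⟦X⟧ (FractionRing F⟦X⟧)).comp (sbH j hj0 z) with hφ
  have sC : ∀ r : F, sbH j hj0 z (C r) = C r := by
    intro r
    rw [sbH_apply]
    ext n
    rcases n with _ | n
    · simp [sb]
    · simp only [sb, coeff_mk, coeff_C, Nat.succ_ne_zero, if_false]
      split_ifs with h1 h2
      · exact absurd (Nat.eq_zero_of_dvd_of_div_eq_zero h1 h2) (Nat.succ_ne_zero n)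
      · simp
      · rfl
  have sX : sbH j hj0 z X = C (z ^ j) * X ^ j := by
    rw [sbH_apply]
    ext n
    simp only [sb, coeff_mk, coeff_C_mul, coeff_X_pow, coeff_X]
    by_cases hn : n = j
    · subst hn
      simp [Nat.div_self hj]
    · rw [if_neg hn, mul_zero]
      split_ifs with h1 h2
      · obtain ⟨k, rfl⟩ := h1
        rw [Nat.mul_div_cancel_left k hj] at h2
        exact absurd (by rw [h2, mul_one]) hn
      · simp
      · rfl
  have mC : ∀ r : F, φ (C r) ∈ K := fun r => by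
    rw [hφ, RingHom.comp_apply, sC]
    exact hC r
  have mX : φ X ∈ K := by
    rw [hφ, RingHom.comp_apply, sX, map_mul, map_pow _ X]
    exact K.mul_mem (hC _) (K.pow_mem hX j)
  have key : (1 - X ^ (a * h)) * SS F d a b =
      ∑ n ∈ range (a * h + b), C (coeff n ((1 - X ^ (a * h)) * SS F d a b)) * X ^ n := by
    ext m
    simp only [map_sum, coeff_C_mul, coeff_X_pow, mul_ite, mul_one, mul_zero]
    rw [sum_ite_eq]
    split_ifs with hm
    · rfl
    · have hm' : a * h + b ≤ m := by simpa using hm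
      obtain ⟨t, rfl⟩ : ∃ t, m = t + a * h := ⟨m - a * h, by omega⟩
      rw [sub_mul, one_mul, map_sub, coeff_X_pow_mul]
      simp only [SS, coeff_mk, Nat.add_mul_mod_self_left]
      split_ifs with ht
      · have hb : b ≤ t := by omega
        obtain ⟨n, hn⟩ : a ∣ t - b := (Nat.modEq_iff_dvd' hb).1 ht.symm
        have ht' : t = a * n + b := by omega
        have e1 : t + a * h = a * (n + h) + b := by rw [ht']; ring
        rw [e1, ht', sub_eq_zero]
        exact (CharP.natCast_eq_natCast F q).2 (hper n)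
      · simp
  have m1 : φ ((1 - X ^ (a * h)) * SS F d a b) ∈ K := by
    rw [key, map_sum]
    refine K.sum_mem fun n _ => ?_
    rw [map_mul, map_pow]
    exact K.mul_mem (mC _) (K.pow_mem mX n)
  have m2 : φ (1 - X ^ (a * h)) ∈ K := by
    rw [map_sub, map_one, map_pow]
    exact K.sub_mem K.one_mem (K.pow_mem mX _)
  have n2 : φ (1 - X ^ (a * h)) ≠ 0 := by
    rw [hφ, RingHom.comp_apply]
    intro h0
    have h1 := (IsFractionRing.injective F⟦X⟧ (FractionRing F⟦X⟧)) (h0.trans (map_zero _).symm)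
    have h2 := congrArg constantCoeff h1
    have h3 : a * h ≠ 0 := Nat.mul_ne_zero (by omega) (by omega)
    rw [map_sub, map_one, map_pow, sX] at h2
    simp [hj0, h3] at h2
  have e : algebraMap F⟦X⟧ (FractionRing F⟦X⟧) (sb j z (SS F d a b)) =
      φ ((1 - X ^ (a * h)) * SS F d a b) / φ (1 - X ^ (a * h)) := by
    rw [map_mul, mul_div_cancel_left₀ _ n2, hφ, RingHom.comp_apply, sbH_apply]
  rw [e]
  exact K.div_mem m1 m2

end Pool.Agent.P.MP_85b516_nt.LD
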