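import Pool.Agent.P.MP_85b516_nt.LD.Stm
import Pool.Agent.P.MP_85b516_nt.GEN

/-! Truncated Euler products and the norm identity (Theorem LD). -/

open PowerSeries Finset Module Filter Topology

namespace Pool.Agent.P.MP_85b516_nt.LD

noncomputable section

namespace PTrunc

/-- Reduction modulo a power of `X`. -/
def qq (R : Type) [CommRing R] (N : ℕ) :
    R⟦X⟧ →+* (R⟦X⟧ ⧸ Ideal.span {(X : R⟦X⟧) ^ N}) := Ideal.Quotient.mk _

lemma qq_eq {R : Type} [CommRing R] {N : ℕ} {f g : R⟦X⟧} :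
    qq R N f = qq R N g ↔ (X : R⟦X⟧) ^ N ∣ f - g := by
  rw [qq, Ideal.Quotient.eq, Ideal.mem_span_singleton]

lemma qq_one {R : Type} [CommRing R] {N m : ℕ} (h : N ≤ m) (c : R⟦X⟧) :
    qq R N (1 - c * X ^ m) = 1 := by
  rw [← map_one (qq R N), qq_eq]
  have : (1 - c * X ^ m - 1 : R⟦X⟧) = -(c * X ^ m) := by ring
  rw [this, dvd_neg]
  exact Dvd.dvd.mul_left (pow_dvd_pow _ h) _

lemma reindex {A : Type} [CommMonoid A] (g : ℕ → A) {K κ : ℕ} (hκ : 1 ≤ κ)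
    (hg : ∀ k, K < k → g k = 1) :
    ∏ m ∈ Icc 1 K, g (κ * m) = ∏ k ∈ Icc 1 K, if κ ∣ k then g k else 1 := by
  rw [← prod_filter, ← prod_image (s := Icc 1 K) (g := fun m => κ * m) (f := g)
    (fun a _ b _ e => Nat.eq_of_mul_eq_mul_left hκ e)]
  symm
  refine prod_subset (fun k hk => ?_) fun k hk hk' => hg k ?_
  · obtain ⟨hk1, m, rfl⟩ := mem_filter.1 hk
    obtain ⟨h1, h2⟩ := mem_Icc.1 hk1
    refine mem_image.2 ⟨m, mem_Icc.2 ⟨Nat.pos_of_mul_pos_left h1, ?_⟩, rfl⟩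
    exact (Nat.le_mul_of_pos_left m hκ).trans h2
  · obtain ⟨m, hm, rfl⟩ := mem_image.1 hk
    by_contra h
    exact hk' (mem_filter.2 ⟨mem_Icc.2 ⟨Nat.mul_pos hκ (mem_Icc.1 hm).1, not_lt.1 h⟩,
      dvd_mul_right _ _⟩)

open scoped PowerSeries.WithPiTopology Classical

lemma fin_prod (d K M : ℕ) (hd : 1 ≤ d) (hM : (K + 1) ^ d ≤ M) :
    qq ℤ ((K + 1) ^ d) ((∏ i ∈ range M, PGEN.FF d i) * ∏ k ∈ Icc 1 K, (1 - X ^ (k ^ d))) = 1 := by
  have h1 : ∀ i, PGEN.FF d i * (if PGEN.Pw d (i + 1) then 1 - X ^ (i + 1) else 1) = 1 := by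
    intro i
    rw [PGEN.FF]
    split_ifs
    · simp_rw [pow_mul]
      exact PowerSeries.WithPiTopology.tsum_pow_mul_one_sub_of_constantCoeff_eq_zero (by simp)
    · exact mul_one _
  have h2 : qq ℤ ((K + 1) ^ d) (∏ k ∈ Icc 1 K, (1 - X ^ (k ^ d))) =
      qq ℤ ((K + 1) ^ d) (∏ i ∈ range M, if PGEN.Pw d (i + 1) then 1 - X ^ (i + 1) else 1) := by
    rw [← prod_filter, map_prod, map_prod]
    have e : ∏ k ∈ Icc 1 K, qq ℤ ((K + 1) ^ d) (1 - X ^ (k ^ d)) =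
        ∏ i ∈ (Icc 1 K).image (fun k => k ^ d - 1), qq ℤ ((K + 1) ^ d) (1 - X ^ (i + 1)) := by
      rw [prod_image]
      · refine prod_congr rfl fun k hk => ?_
        have h0 : 0 < k ^ d := pow_pos (mem_Icc.1 hk).1 d
        rw [show k ^ d - 1 + 1 = k ^ d by omega]
      · intro k hk k' hk' h
        have h0 : 0 < k ^ d := pow_pos (mem_Icc.1 hk).1 d
        have h0' : 0 < k' ^ d := pow_pos (mem_Icc.1 hk').1 d
        have h' : k ^ d - 1 = k' ^ d - 1 := h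
        exact Nat.pow_left_injective (by omega : d ≠ 0) (show k ^ d = k' ^ d by omega)
    rw [e]
    refine prod_subset (fun i hi => ?_) fun i hi hi' => ?_
    · obtain ⟨k, hk, rfl⟩ := mem_image.1 hi
      obtain ⟨h3, h4⟩ := mem_Icc.1 hk
      have h0 : 0 < k ^ d := pow_pos h3 d
      have h5 : k ^ d ≤ (K + 1) ^ d := Nat.pow_le_pow_left (by omega) d
      exact mem_filter.2 ⟨mem_range.2 (by omega), k, h3, by omega⟩
    · obtain ⟨-, k, hk, e⟩ := mem_filter.1 hi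
      have h3 : K + 1 ≤ k := by
        by_contra h
        exact hi' (mem_image.2 ⟨k, mem_Icc.2 ⟨hk, by omega⟩, by omega⟩)
      have := qq_one (R := ℤ) (N := (K + 1) ^ d) (m := i + 1)
        (e ▸ Nat.pow_le_pow_left h3 d) 1
      rwa [one_mul] at this
  rw [map_mul, h2, ← map_mul, ← prod_mul_distrib, prod_congr rfl fun i _ => h1 i, prod_const_one,
    map_one]

lemma trunc_int (d K : ℕ) (hd : 1 ≤ d) :
    (X : ℤ⟦X⟧) ^ ((K + 1) ^ d) ∣ PP ℤ d * ∏ k ∈ Icc 1 K, (1 - (X : ℤ⟦X⟧) ^ (k ^ d)) - 1 := by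
  have hp : HasProd (PGEN.FF d) (PP ℤ d) := by
    have h := Nat.Partition.hasProd_powerSeriesMk_card_restricted ℤ (PGEN.Pw d)
    have e : PP ℤ d =
        PowerSeries.mk fun n => ((Nat.Partition.restricted n (PGEN.Pw d)).card : ℤ) := by
      ext n
      simp [PP, PGEN.pd_eq]
    rw [e]
    exact h
  have ht := hp.tendsto_prod_nat
  rw [X_pow_dvd_iff]
  intro n hn
  have h2 : Tendsto (fun M => coeff n ((∏ i ∈ range M, PGEN.FF d i) *
      ∏ k ∈ Icc 1 K, (1 - (X : ℤ⟦X⟧) ^ (k ^ d)) - 1)) atTop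
      (𝓝 (coeff n (PP ℤ d * ∏ k ∈ Icc 1 K, (1 - (X : ℤ⟦X⟧) ^ (k ^ d)) - 1))) :=
    ((PowerSeries.WithPiTopology.continuous_coeff ℤ n).tendsto _).comp
      ((ht.mul_const _).sub_const _)
  refine tendsto_nhds_unique_of_eventuallyEq h2 tendsto_const_nhds ?_
  filter_upwards [eventually_ge_atTop ((K + 1) ^ d)] with M hM
  have h3 := fin_prod d K M hd hM
  rw [← map_one (qq ℤ _), qq_eq, X_pow_dvd_iff] at h3
  exact h3 n hn

lemma sbH_X {R : Type} [CommRing R] {j : ℕ} (hj : j ≠ 0) (w : R) (m : ℕ) :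
    sbH j hj w (X ^ m) = C (w ^ (j * m)) * X ^ (j * m) := by
  rw [sbH_apply]
  ext n
  simp only [sb, coeff_mk, coeff_C_mul, coeff_X_pow]
  by_cases h : j ∣ n
  · obtain ⟨k, rfl⟩ := h
    have hj' := Nat.pos_of_ne_zero hj
    rw [if_pos (dvd_mul_right _ _), Nat.mul_div_cancel_left _ hj']
    by_cases hk : k = m
    · simp [hk]
    · rw [if_neg hk, if_neg fun e => hk (Nat.eq_of_mul_eq_mul_left hj' e), zero_mul, mul_zero]
  · rw [if_neg h, if_neg fun e : n = j * m => h ⟨m, e⟩, mul_zero]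

lemma sb_trunc (h : S_Trunc) {R : Type} [CommRing R] {d j K N : ℕ} (w : R) (hd : 1 ≤ d)
    (hj : 1 ≤ j) (hN : N ≤ (K + 1) ^ d) :
    qq R N (sb j w (PP R d)) *
      ∏ k ∈ Icc 1 K, qq R N (1 - C (w ^ (j * k ^ d)) * X ^ (j * k ^ d)) = 1 := by
  have hj0 : j ≠ 0 := by omega
  have h1 := map_dvd (sbH j hj0 w) (h R d K hd)
  rw [map_sub, map_mul, map_prod, map_one, sbH_X, sbH_apply] at h1
  simp only [map_sub, map_one, sbH_X] at h1
  rw [← map_prod, ← map_mul, ← map_one (qq R N), qq_eq]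
  refine Dvd.dvd.trans (Dvd.dvd.mul_left (pow_dvd_pow _ ?_) _) h1
  exact hN.trans (Nat.le_mul_of_pos_left _ hj)

lemma prod_root {F : Type} [Field F] {z : F} {p : ℕ} (hp : 0 < p)
    (hz : IsPrimitiveRoot z p) (Y : F⟦X⟧) :
    ∏ t : Fin p, (1 - C (z ^ (t : ℕ)) * Y) = 1 - Y ^ p := by
  have hz' : IsPrimitiveRoot (C z : F⟦X⟧) p :=
    hz.map_of_injective (f := (C : F →+* F⟦X⟧)) C_injective
  have h2 := hz'.pow_sub_pow_eq_prod_sub_mul 1 Y hp
  rw [one_pow] at h2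
  rw [h2, Fin.prod_univ_eq_prod_range (fun t => 1 - C (z ^ t) * Y) p]
  refine prod_bij (fun t _ => (C z : F⟦X⟧) ^ t) (fun t _ => ?_) (fun a ha b hb e => ?_)
    (fun w hw => ?_) (fun t _ => by rw [map_pow])
  · rw [Polynomial.mem_nthRootsFinset hp, ← pow_mul, mul_comm, pow_mul, hz'.pow_eq_one, one_pow]
  · exact hz'.pow_inj (mem_range.1 ha) (mem_range.1 hb) e
  · have : NeZero p := ⟨hp.ne'⟩
    obtain ⟨t, ht, e⟩ := hz'.eq_pow_of_pow_eq_one ((Polynomial.mem_nthRootsFinset hp _).1 hw)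
    exact ⟨t, mem_range.2 ht, e⟩

lemma term {F : Type} [Field F] {z : F} {d p : ℕ} (hd : 1 ≤ d) (hp : p.Prime)
    (hz : IsPrimitiveRoot z p) (k : ℕ) :
    (∏ i : Fin p, (1 - C ((z ^ (i : ℕ)) ^ (1 * k ^ d)) * X ^ (1 * k ^ d) : F⟦X⟧)) *
      (if p ∣ k then 1 - X ^ (p * k ^ d) else 1) =
      (1 - X ^ (p * k ^ d)) * (if p ∣ k then 1 - X ^ (k ^ d) else 1) ^ p := by
  have e : ∀ i : ℕ, (z ^ i) ^ (1 * k ^ d) = (z ^ k ^ d) ^ i := fun i => by
    rw [one_mul, pow_right_comm]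
  simp only [e]
  simp only [one_mul]
  split_ifs with h
  · have : z ^ k ^ d = 1 := (hz.pow_eq_one_iff_dvd _).2 (dvd_pow h (by omega))
    simp [this, mul_comm]
  · have hc : Nat.Coprime (k ^ d) p := (((Nat.Prime.coprime_iff_not_dvd hp).2 h).symm).pow_left d
    rw [prod_root hp.pos (hz.pow_of_coprime _ hc), one_pow, ← pow_mul, mul_comm (k ^ d)]

end PTrunc

open PTrunc

theorem s_trunc : S_Trunc := by
  intro R _ d K hd
  have h := map_dvd (PowerSeries.map (Int.castRingHom R)) (trunc_int d K hd)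
  have e1 : PowerSeries.map (Int.castRingHom R) (PP ℤ d) = PP R d := by
    ext n
    simp [PP]
  simpa only [map_pow, map_sub, map_mul, map_prod, map_one, map_X, e1] using h

theorem s_zt (h : S_Trunc) : S_Zt := by
  intro F _ d j κ K w z hd hj hκ hz
  have h1 := sb_trunc h (K := K) w hd (Nat.mul_pos hj (pow_pos hκ d)) le_rfl
  have h2 := reindex (fun k => qq F ((K + 1) ^ d) (1 - C (w ^ (j * k ^ d)) * X ^ (j * k ^ d)))
    (K := K) hκ fun k hk =>
      qq_one ((Nat.pow_le_pow_left hk d).trans (Nat.le_mul_of_pos_left _ hj)) _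
  simp only [mul_pow, ← mul_assoc] at h2
  rw [h2] at h1
  have h3 := congrArg (qq F ((K + 1) ^ d)) hz
  rw [map_mul, map_one, yv] at h3
  rw [← qq_eq, map_prod]
  simp only [apply_ite (qq F ((K + 1) ^ d)), map_one]
  exact left_inv_eq_right_inv (by rw [mul_comm]; exact h3) h1

theorem s_un (h : S_Trunc) : S_Un := by
  intro F _ d p z hd hp hz
  ext K
  have hN : K + 1 ≤ (K + 1) ^ d := Nat.le_self_pow (by omega) _
  have hk : ∀ k, K < k → K + 1 ≤ k ^ d := fun k hk => le_trans hk (Nat.le_self_pow (by omega) _)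
  have h1 := fun i : Fin p => sb_trunc h (K := K) (z ^ (i : ℕ)) hd le_rfl hN
  have h2 := sb_trunc h (K := K) (1 : F) hd (pow_pos hp.pos (d + 1)) hN
  have h3 := sb_trunc h (K := K) (1 : F) hd hp.pos hN
  have h4 := sb_trunc h (K := K) (1 : F) hd (pow_pos hp.pos d) hN
  have r2 := reindex (fun k => qq F (K + 1) (1 - 1 * X ^ (p * k ^ d))) (K := K) hp.pos
    fun k hk' => qq_one ((hk k hk').trans (Nat.le_mul_of_pos_left _ hp.pos)) _
  have r4 := reindex (fun k => qq F (K + 1) (1 - 1 * X ^ (k ^ d))) (K := K) hp.pos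
    fun k hk' => qq_one (hk k hk') _
  simp only [one_pow, map_one, one_mul] at h2 h3 h4
  simp only [one_mul, mul_pow, ← mul_assoc, ← pow_succ'] at r2 r4
  rw [r2] at h2
  rw [r4] at h4
  have e : (∏ i : Fin p, ∏ k ∈ Icc 1 K,
      qq F (K + 1) (1 - C ((z ^ (i : ℕ)) ^ (1 * k ^ d)) * X ^ (1 * k ^ d))) *
      (∏ k ∈ Icc 1 K, if p ∣ k then qq F (K + 1) (1 - X ^ (p * k ^ d)) else 1) =
      (∏ k ∈ Icc 1 K, qq F (K + 1) (1 - X ^ (p * k ^ d))) *
      (∏ k ∈ Icc 1 K, if p ∣ k then qq F (K + 1) (1 - X ^ (k ^ d)) else 1) ^ p := by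
    rw [Finset.prod_comm, ← Finset.prod_pow, ← prod_mul_distrib, ← prod_mul_distrib]
    refine prod_congr rfl fun k _ => ?_
    have := congrArg (qq F (K + 1)) (term hd hp hz k)
    simpa only [map_mul, map_prod, map_pow (qq F (K + 1)) _ p, apply_ite (qq F (K + 1)), map_one]
      using this
  have f1 : (∏ i : Fin p, qq F (K + 1) (sb 1 (z ^ (i : ℕ)) (PP F d))) * (∏ i : Fin p, ∏ k ∈ Icc 1 K,
      qq F (K + 1) (1 - C ((z ^ (i : ℕ)) ^ (1 * k ^ d)) * X ^ (1 * k ^ d))) = 1 := by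
    rw [← prod_mul_distrib, prod_congr rfl fun i _ => h1 i, prod_const_one]
  have g : qq F (K + 1) ((∏ i : Fin p, sb 1 (z ^ (i : ℕ)) (PP F d)) * sb (p ^ (d + 1)) 1 (PP F d)) =
      qq F (K + 1) (sb p 1 (PP F d) * sb (p ^ d) 1 (PP F d) ^ p) := by
    rw [map_mul, map_mul, map_prod, map_pow]
    refine left_inv_eq_right_inv (a := (∏ k ∈ Icc 1 K, qq F (K + 1) (1 - X ^ (p * k ^ d))) *
        (∏ k ∈ Icc 1 K, if p ∣ k then qq F (K + 1) (1 - X ^ (k ^ d)) else 1) ^ p) ?_ ?_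
    · rw [← e, mul_mul_mul_comm, f1, h2, one_mul]
    · rw [mul_comm, mul_mul_mul_comm, h3, ← mul_pow, h4, one_pow, one_mul]
  rw [qq_eq, X_pow_dvd_iff] at g
  have := g K (Nat.lt_succ_self K)
  rwa [map_sub, sub_eq_zero] at this

end

end Pool.Agent.P.MP_85b516_nt.LD
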