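import Pool.Agent.P.MP_85b516_nt.GEN
import Pool.Agent.P.MP_85b516_nt.SG
import Pool.Agent.P.MP_85b516_nt.CHR
import Pool.Agent.P.MP_85b516_nt.CC
import Pool.Agent.P.MP_85b516_nt.LD.Ind
import Pool.Agent.P.MP_85b516_nt.LD.LQ
import Pool.Agent.P.MP_85b516_nt.LD.Lin
import Pool.Agent.P.MP_85b516_nt.LD.Conc
import Pool.Agent.P.MP_85b516_nt.LD.Blr
import Pool.Agent.P.MP_85b516_nt.LD.Grid
import Pool.Agent.P.MP_85b516_nt.LD.Sched
import Pool.Agent.P.MP_85b516_nt.LD.Lev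
import Pool.Agent.P.MP_85b516_nt.LD.RK
import Pool.Agent.P.MP_85b516_nt.LD.ID
import Pool.Agent.P.MP_85b516_nt.LD.Span
import Pool.Agent.P.MP_85b516_nt.LD.Interp
import Pool.Agent.P.MP_85b516_nt.LD.Int
import Pool.Agent.P.MP_85b516_nt.LD.Mat
import Pool.Agent.P.MP_85b516_nt.LD.Trunc
import Pool.Agent.P.MP_85b516_nt.LD.Norm
import Pool.Agent.P.MP_85b516_nt.LD.Ndt
import Pool.Agent.P.MP_85b516_nt.LD.Tan
import Pool.Agent.P.MP_85b516_nt.LD.Base
import Pool.Agent.P.MP_85b516_nt.LD.KA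
import Pool.Agent.P.MP_85b516_nt.LD.KB
import Pool.Agent.P.MP_85b516_nt.LD.Ndp
import Pool.Agent.P.MP_85b516_nt.LD.Core
import Pool.Agent.P.MP_85b516_nt.LD.Main

/-! Theorem LD. -/

namespace Pool.Agent.P.MP_85b516_nt.LD

theorem rk_all : S_RK :=
  s_rk (s_sched s_primes) (s_lev (s_lin (s_lq s_ind)) (s_quad (s_lq s_ind))) (s_conc s_ind s_dep)
    (s_grid s_ind s_dep (s_blr s_blr3) s_univ s_hol)

theorem ndt_all : S_Ndt :=
  s_ndt (s_int s_span s_fac s_dist s_interp) (s_mat s_lac) (s_zt s_trunc)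

theorem core_all : S_Core :=
  s_core s_gen ndt_all (s_norm (s_un s_trunc)) s_sec (s_tan s_d1) s_per s_base
    (s_tr2 s_gen s_sg s_chr) s_ka (s_kb s_d1 (s_kb1 s_d1) s_kb2)

theorem main_all : S_Main := s_main (s_ndp rk_all (s_id s_mult)) core_all

end Pool.Agent.P.MP_85b516_nt.LD
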