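import Pool.Agent.P.MP_85b516_nt.LD.Stm
import Pool.Agent.P.MP_85b516_nt.KAH

/-! Package KA: algebraicity without jets and the structure of the truncated algebra. -/

open Finset Polynomial
open AddMonoidAlgebra (single)

namespace Pool.Agent.P.MP_85b516_nt.LD

namespace PKA

section Gen
variable {Om : Type} [Field Om] {N : ℕ} [NeZero N]

omit [NeZero N] in
lemma g_pow (n : ℕ) : (single 1 1 : BB Om N) ^ n = single (n : ZMod N) 1 := by
  rw [AddMonoidAlgebra.single_pow]
  simp

omit [NeZero N] in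
lemma smul_g (n : ℕ) (r : Om) : r • (single 1 1 : BB Om N) ^ n = single (n : ZMod N) r := by
  rw [g_pow, AddMonoidAlgebra.smul_single, smul_eq_mul, mul_one]

lemma coeff_aeval (P : Om[X]) (h : P.natDegree < N) (c : ZMod N) :
    (aeval (single 1 1 : BB Om N) P).coeff c = P.coeff c.val := by
  rw [aeval_eq_sum_range' h]
  simp only [smul_g]
  rw [AddMonoidAlgebra.coeff_sum, Finsupp.finsetSum_apply, sum_eq_single c.val]
  · simp
  · intro i hi hc
    rw [AddMonoidAlgebra.coeff_single, Finsupp.single_apply, if_neg]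
    intro e
    apply hc
    rw [← e, ZMod.val_cast_of_lt (mem_range.1 hi)]
  · intro hc
    exact absurd (mem_range.2 (ZMod.val_lt c)) hc

lemma surj_g (y : BB Om N) : ∃ P : Om[X], aeval (single 1 1 : BB Om N) P = y := by
  refine ⟨∑ c : ZMod N, y.coeff c • X ^ c.val, ?_⟩
  conv_rhs => rw [bb_sum y]
  simp only [map_sum, map_smul, map_pow, aeval_X, smul_g, ZMod.natCast_zmod_val]

omit [NeZero N] in
lemma aug_eps : aug (eps Om N) = 0 := by
  rw [eps, map_sub, aug_single, map_one, sub_self]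

omit [NeZero N] in
lemma aeval_eps : aeval (single 1 1 : BB Om N) (X - C (1 : Om)) = eps Om N := by
  simp [eps]

lemma split (y : BB Om N) : ∃ z, y = algebraMap Om (BB Om N) (aug y) + eps Om N * z := by
  obtain ⟨P, rfl⟩ := surj_g y
  obtain ⟨Q, hQ⟩ := X_sub_C_dvd_sub_C_eval (p := P) (a := (1 : Om))
  have e : aeval (single 1 1 : BB Om N) P = algebraMap Om (BB Om N) (P.eval 1) +
      eps Om N * aeval (single 1 1 : BB Om N) Q := by
    rw [← aeval_eps, ← map_mul, ← hQ, map_sub, aeval_C, add_sub_cancel]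
  refine ⟨aeval (single 1 1 : BB Om N) Q, ?_⟩
  have e2 := congrArg aug e
  rw [map_add, map_mul, aug_eps, zero_mul, add_zero, AlgHom.commutes] at e2
  rw [e2]
  exact e

omit [NeZero N] in
lemma eps_qpow (q : ℕ) [CharP Om q] (hq : q.Prime) (k : ℕ) :
    eps Om N ^ q ^ k = single ((q ^ k : ℕ) : ZMod N) 1 - 1 := by
  have := Fact.mk hq
  have hi : Function.Injective (algebraMap Om (BB Om N)) := fun a b h => by
    simpa using congrArg aug h
  have : CharP (BB Om N) q := charP_of_injective_algebraMap hi q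
  rw [eps, sub_pow_char_pow, g_pow, one_pow]

omit [NeZero N] in
lemma eps_nil (q : ℕ) [CharP Om q] (hq : q.Prime) (k : ℕ) (hN : N = q ^ k) :
    eps Om N ^ N = 0 := by
  have h := eps_qpow (Om := Om) (N := N) q hq k
  rw [← hN, ZMod.natCast_self] at h
  rw [h]
  exact sub_self _

lemma unit_of (hn : eps Om N ^ N = 0) (y : BB Om N) (h : aug y ≠ 0) : IsUnit y := by
  obtain ⟨z, hz⟩ := split y
  rw [hz]
  refine IsNilpotent.isUnit_add_left_of_commute ⟨N, ?_⟩ ((IsUnit.mk0 _ h).map _) (Commute.all _ _)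
  rw [mul_pow, hn, zero_mul]

lemma le_of_pow (m : ℕ) (h : eps Om N ^ m = 0) : N ≤ m := by
  by_contra hm
  have hd : ((X - C (1 : Om)) ^ m).natDegree = m := by
    rw [natDegree_pow, natDegree_X_sub_C, mul_one]
  have h1 := coeff_aeval ((X - C (1 : Om)) ^ m) (N := N) (by omega) (m : ZMod N)
  rw [map_pow, aeval_eps, h, ZMod.val_cast_of_lt (by omega)] at h1
  have h2 : ((X - C (1 : Om)) ^ m).Monic := (monic_X_sub_C _).pow m
  have h3 := h2.coeff_natDegree
  rw [hd, ← h1] at h3
  simp at h3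

lemma ker_iff (hn : eps Om N ^ N = 0) (s : BB Om N) (υ : (BB Om N)ˣ)
    (hs : s - algebraMap Om (BB Om N) (aug s) = eps Om N * υ) (P : Om[X]) :
    aeval s P = 0 ↔ (X - C (aug s)) ^ N ∣ P := by
  have ht : aeval s (X - C (aug s)) = eps Om N * υ := by rw [map_sub, aeval_X, aeval_C, hs]
  constructor
  · intro h
    rcases eq_or_ne P 0 with rfl | hP
    · exact dvd_zero _
    obtain ⟨Q, hQ, hQ'⟩ := exists_eq_pow_rootMultiplicity_mul_and_not_dvd P hP (aug s)
    have hu : IsUnit (aeval s Q) := by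
      refine unit_of hn _ fun h0 => hQ' ?_
      rw [← aeval_algHom_apply, coe_aeval_eq_eval] at h0
      exact dvd_iff_isRoot.2 h0
    rw [hQ, map_mul, map_pow, ht, mul_pow, hu.mul_left_eq_zero,
      (υ.isUnit.pow _).mul_left_eq_zero] at h
    exact (pow_dvd_pow _ (le_of_pow _ h)).trans ⟨Q, hQ⟩
  · rintro ⟨Q, rfl⟩
    rw [map_mul, map_pow, ht, mul_pow, hn, zero_mul, zero_mul]

lemma ann (hn : eps Om N ^ N = 0) (i j : ℕ) (hij : i + j = N) (w : BB Om N)
    (h : eps Om N ^ i * w = 0) : eps Om N ^ j ∣ w := by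
  obtain ⟨P, rfl⟩ := surj_g w
  rw [← aeval_eps, ← map_pow, ← map_mul,
    ker_iff hn _ 1 (by rw [aug_single, map_one, Units.val_one, mul_one, eps]), aug_single] at h
  have h2 : (X - C (1 : Om)) ^ i * (X - C 1) ^ j ∣ (X - C 1) ^ i * P := by
    rwa [← pow_add, hij]
  obtain ⟨Q, hQ⟩ := (mul_dvd_mul_iff_left (pow_ne_zero _ (X_sub_C_ne_zero _))).1 h2
  exact ⟨aeval (single 1 1 : BB Om N) Q, by rw [hQ, map_mul, map_pow, aeval_eps]⟩

lemma dual (φ : BB Om N →ₗ[Om] Om) : ∃ ν : BB Om N, ∀ y, φ y = (ν * y).coeff 0 := by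
  refine ⟨∑ c, single (-c) (φ (single c 1)), fun y => ?_⟩
  conv_lhs => rw [bb_sum y]
  rw [map_sum, sum_mul, AddMonoidAlgebra.coeff_sum, Finsupp.finsetSum_apply]
  refine sum_congr rfl fun c _ => ?_
  rw [AddMonoidAlgebra.coeff_single_mul_apply, neg_neg, add_zero, mul_comm, ← smul_eq_mul,
    ← map_smul, AddMonoidAlgebra.smul_single, smul_eq_mul, mul_one]

omit [NeZero N] in
lemma nondeg (w : BB Om N) (h : ∀ y : BB Om N, (w * y).coeff 0 = 0) : w = 0 := by
  ext c
  have := h (single (-c) 1)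
  rw [mul_comm, AddMonoidAlgebra.coeff_single_mul_apply, neg_neg, add_zero, one_mul] at this
  simpa using this

lemma lamn_shift (n : ℕ) (hn : n ∣ N) (y : BB Om N) :
    lamn n (single (n : ZMod N) 1 * y) = lamn n y := by
  have key : ∀ c : ZMod N, n ∣ c.val ↔ ZMod.castHom hn (ZMod n) c = 0 := fun c => by
    rw [ZMod.castHom_apply, ZMod.cast_eq_val, ZMod.natCast_eq_zero_iff]
  rw [lamn_apply, lamn_apply, ← Equiv.sum_comp (Equiv.addLeft (n : ZMod N))]
  refine sum_congr rfl fun c _ => ?_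
  rw [Equiv.coe_addLeft, AddMonoidAlgebra.coeff_single_mul_apply, neg_add_cancel_left, one_mul]
  refine if_congr ?_ rfl rfl
  rw [key, key, map_add, map_natCast, ZMod.natCast_self, zero_add]

lemma lamn_aeval (n : ℕ) (hn : n ≤ N) (P : Om[X]) (h : P.natDegree < n) :
    lamn n (aeval (single 1 1 : BB Om N) P) = P.coeff 0 := by
  rw [lamn_apply, sum_eq_single 0]
  · rw [ZMod.val_zero, if_pos (dvd_zero n), coeff_aeval P (by omega), ZMod.val_zero]
  · intro c _ hc
    split_ifs with hd
    · rw [coeff_aeval P (by omega)]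
      refine coeff_eq_zero_of_natDegree_lt (h.trans_le (Nat.le_of_dvd ?_ hd))
      exact Nat.pos_of_ne_zero fun e => hc ((ZMod.val_eq_zero c).1 e)
    · rfl
  · simp

lemma d1_single (c : ZMod N) (r : Om) : d1 (single c r : BB Om N) = (c.val : Om) * r := by
  rw [d1_apply, sum_eq_single c]
  · simp
  · intro b _ hb
    rw [AddMonoidAlgebra.coeff_single, Finsupp.single_apply, if_neg hb.symm, mul_zero]
  · simp

end Gen

/-- The logarithmic derivative. -/
noncomputable def ld {K L : Type} [Field K] [Field L] [Algebra K L] (D : Derivation K L L) :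
    Lˣ →* Multiplicative L where
  toFun x := Multiplicative.ofAdd (D x / x)
  map_one' := by simp
  map_mul' x y := by
    rw [← ofAdd_add, Units.val_mul, Derivation.leibniz]
    have h1 := x.ne_zero
    have h2 := y.ne_zero
    congr 1
    simp only [smul_eq_mul]
    field_simp
    ring

lemma aug_one {Om : Type} [Field Om] (y : BB Om 1) : aug y = y.coeff 0 := by
  rw [aug_eq]
  exact Fintype.sum_subsingleton _ 0

lemma lamn_one {Om : Type} [Field Om] (y : BB Om 1) : lamn 1 y = aug y := by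
  rw [aug_eq, lamn_apply]
  simp

end PKA

open PKA

theorem s_ka : S_KA := by
  intro Om J Xt Rr _ _ _ K ρ v0 Y hρ hK hnd i v
  classical
  let a : J × Xt → Om := fun q => aug (Y q.1 q.2 : BB Om 1)
  have ha : ∀ q, a q ≠ 0 := fun q => ((Y q.1 q.2).isUnit.map aug).ne_zero
  refine PKAH.alg_of_der (K := K) (Set.range a) (Set.finite_range a) ?_ _ ⟨(i, v), rfl⟩
  intro D
  let y : J × Xt → (IntermediateField.adjoin K (Set.range a))ˣ := fun q =>
    Units.mk0 ⟨a q, IntermediateField.subset_adjoin K _ ⟨q, rfl⟩⟩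
      fun h => ha q (congrArg Subtype.val h)
  let ι := (IntermediateField.adjoin K (Set.range a)).val
  have hy : ∀ q, ι (y q) = a q := fun _ => rfl
  let ψ := (algebraMap Om (BB Om 1)).comp ι.toRingHom
  have hz := hnd (fun i v => ψ (D (y (i, v)) / y (i, v))) ?_ (fun _ => rfl) ?_
  · rintro _ ⟨q, rfl⟩
    have h1 := congrArg aug (congrFun (congrFun hz q.1) q.2)
    simp only [ψ, RingHom.comp_apply, AlgHom.commutes, Pi.zero_apply, map_zero] at h1
    have h2 : D (y q) / y q = 0 := Subtype.ext h1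
    exact (div_eq_zero_iff.1 h2).resolve_right (y q).ne_zero
  · intro i r
    have e1 : ∏ v, y (i, v) ^ ρ r v = 1 := by
      apply Units.ext
      apply ι.toRingHom.injective
      have := congrArg (fun u : (BB Om 1)ˣ => (Units.map (aug (R := Om) (N := 1)).toMonoidHom u : Om))
        (hρ i r)
      simp only [map_prod, map_zpow, Units.coe_prod, Units.val_zpow_eq_zpow_val, map_one,
        Units.val_one, Units.coe_map] at this
      simp only [Units.coe_prod, Units.val_zpow_eq_zpow_val, map_prod, map_zpow₀, Units.val_one,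
        map_one]
      exact this
    have e2 := congrArg (fun u => ψ (Multiplicative.toAdd (ld D u))) e1
    simp only [map_prod, map_zpow, toAdd_prod, toAdd_zpow, map_sum, map_zsmul, map_one,
      toAdd_one, map_zero] at e2
    exact e2
  · intro v
    have e1 : ∑ i, (y (i, v) : IntermediateField.adjoin K (Set.range a)) =
        algebraMap K _ ⟨_, hK v⟩ := by
      apply ι.toRingHom.injective
      rw [map_sum]
      simp only [lamn_one]
      rfl
    have e2 := congrArg (fun x => ι (D x)) e1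
    simp only [map_sum, Derivation.map_algebraMap, map_zero] at e2
    rw [← e2]
    refine sum_congr rfl fun i _ => ?_
    rw [← aug_one, map_mul]
    simp only [ψ, RingHom.comp_apply, AlgHom.commutes]
    change ι (y (i, v)) * ι (D (y (i, v)) / y (i, v)) = _
    rw [← map_mul, mul_div_cancel₀ _ (y (i, v)).ne_zero]

theorem s_kb1 (h : S_D1) : S_KB1 := by
  intro q f N Om _ _ _ hq hf hN s hs
  have hn : eps Om N ^ N = 0 := eps_nil q hq f hN
  have h1 : 1 < N := hN ▸ Nat.one_lt_pow (by omega) hq.one_lt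
  have h0 : (N : Om) = 0 := by
    rw [hN, Nat.cast_pow, CharP.cast_eq_zero, zero_pow (by omega)]
  have := Fact.mk h1
  obtain ⟨z, hz⟩ := split s
  have hz1 : aug z ≠ 0 := by
    intro e
    apply hs
    rw [hz, map_add, h Om N h0, e, aug_eps, mul_zero, zero_mul, add_zero, add_zero]
    exact (d1_single 0 _).trans (by simp)
  obtain ⟨υ, rfl⟩ := unit_of hn z hz1
  have ht : s - algebraMap Om (BB Om N) (aug s) = eps Om N * υ := sub_eq_of_eq_add' hz
  refine ⟨?_, ker_iff hn s υ ht, υ, ht⟩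
  have key : ∀ i j, i + j = N → ∀ y, eps Om N ^ j * y ∈ (aeval (R := Om) s).range := by
    intro i
    induction i with
    | zero =>
      intro j hj y
      rw [zero_add] at hj
      rw [hj, hn, zero_mul]
      exact zero_mem _
    | succ i ih =>
      intro j hj y
      obtain ⟨w, hw⟩ := split (((υ⁻¹ ^ j : (BB Om N)ˣ) : BB Om N) * y)
      have e : eps Om N ^ j * y = (eps Om N * υ) ^ j * (((υ⁻¹ ^ j : (BB Om N)ˣ) : BB Om N) * y) := by
        rw [mul_pow, mul_assoc, ← mul_assoc ((υ : BB Om N) ^ j), ← Units.val_pow_eq_pow_val,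
          ← Units.val_mul, ← mul_pow, mul_inv_cancel, one_pow, Units.val_one, one_mul]
      rw [e, hw, mul_add]
      refine add_mem (mul_mem (pow_mem ?_ _) (algebraMap_mem _ _)) ?_
      · rw [← ht]
        exact sub_mem ⟨X, aeval_X s⟩ (algebraMap_mem _ _)
      · have := ih (j + 1) (by omega) ((υ : BB Om N) ^ j * w)
        convert this using 1
        ring
  intro y
  have := key N 0 rfl y
  rw [pow_zero, one_mul] at this
  exact this

theorem s_kb2 : S_KB2 := by
  intro q e N Om _ _ _ hq hN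
  have hn : eps Om N ^ N = 0 := eps_nil q hq _ hN
  have hd : q ^ e ∣ N := hN ▸ pow_dvd_pow q (Nat.le_succ e)
  have hle : q ^ e ≤ N := Nat.le_of_dvd (NeZero.pos N) hd
  have hpos : 0 < q ^ e := pow_pos hq.pos e
  have h2 : ∀ y : BB Om N, lamn (q ^ e) (eps Om N ^ q ^ e * y) = 0 := fun y => by
    rw [eps_qpow q hq, sub_mul, map_sub, lamn_shift _ hd, one_mul, sub_self]
  have hann : ∀ ν : BB Om N, (∀ y : BB Om N, (ν * (eps Om N ^ q ^ e * y)).coeff 0 = 0) →
      eps Om N ^ (N - q ^ e) ∣ ν := fun ν hν =>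
    ann hn (q ^ e) _ (by omega) ν (nondeg _ fun y => by rw [mul_comm _ ν, mul_assoc, hν])
  obtain ⟨T, hT⟩ := dual (lamn (R := Om) (N := N) (q ^ e))
  obtain ⟨τ, hτ⟩ := hann T fun y => by rw [← hT, h2]
  have hτ1 : aug τ ≠ 0 := by
    intro h0
    obtain ⟨z, hz⟩ := split τ
    rw [h0, map_zero, zero_add] at hz
    have h3 := lamn_aeval (Om := Om) (q ^ e) hle ((X - C 1) ^ (q ^ e - 1)) (by
      rw [natDegree_pow, natDegree_X_sub_C, mul_one]; omega)
    have h4 : T * eps Om N ^ (q ^ e - 1) = eps Om N ^ (N - q ^ e + 1 + (q ^ e - 1)) * z := by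
      rw [hτ, hz]
      ring
    rw [map_pow, aeval_eps, hT, h4, show N - q ^ e + 1 + (q ^ e - 1) = N by omega, hn, zero_mul,
      coeff_zero_eq_eval_zero] at h3
    simp only [AddMonoidAlgebra.coeff_zero, Finsupp.coe_zero, Pi.zero_apply, eval_pow, eval_sub,
      eval_X, eval_C, zero_sub] at h3
    exact pow_ne_zero _ (neg_ne_zero.2 one_ne_zero) h3.symm
  obtain ⟨υ, rfl⟩ := unit_of hn τ hτ1
  refine ⟨dual, h2, fun φ hφ => ?_, fun w hw => ?_, ?_⟩
  · obtain ⟨ν, hν⟩ := dual φ
    obtain ⟨μ, hμ⟩ := hann ν fun y => by rw [← hν, hφ]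
    refine ⟨(υ⁻¹ : (BB Om N)ˣ) * μ, fun y => ?_⟩
    rw [hν, hT, hτ, hμ, ← mul_assoc, mul_assoc _ (υ : BB Om N), Units.mul_inv_cancel_left]
  · have h3 : T * w = 0 := nondeg _ fun y => by rw [mul_assoc, ← hT, hw]
    rw [hτ, mul_right_comm, υ.isUnit.mul_left_eq_zero] at h3
    exact ann hn _ _ (by omega) w h3
  · have := lamn_aeval (Om := Om) (q ^ e) hle 1 (by rwa [natDegree_one])
    rwa [map_one, coeff_one_zero] at this

end Pool.Agent.P.MP_85b516_nt.LD
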