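import Pool.Agent.P.MP_85b516_nt.LD.Stm

/-! Package Lev: the recursions along a schedule (Theorem LD, MP_85b516_nt). -/

open Finset Module

namespace Pool.Agent.P.MP_85b516_nt.LD

noncomputable section

namespace PLev

variable {F Λ V : Type} [Field F] [AddCommGroup Λ] [Finite Λ] [AddCommGroup V]
  [Module F V] [FiniteDimensional F V]

omit [Finite Λ] in
lemma card_top : Nat.card (⊤ : AddSubgroup (Unit → Λ)) = Nat.card Λ := by
  rw [AddSubgroup.card_top, Nat.card_congr (Equiv.funUnique Unit Λ)]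

lemma base (e : Λ → V →ₗ[F] F) (nV : ℕ) (h1 : 1 ≤ nV) (hV : finrank F V ≤ nV)
    (hu : ∀ u : V, (∀ t, e t u = 0) → u = 0) :
    Good e (⊤ : AddSubgroup (Unit → Λ)) (⊤ : Submodule F (Unit → V))
      (1 - 1 / (Nat.card Λ * nV : ℝ)) := by
  classical
  intro S _
  have hc : (0 : ℝ) < Nat.card Λ := by exact_mod_cast Nat.card_pos
  have hn : (0 : ℝ) < nV := by exact_mod_cast h1
  by_cases hS : S = ⊥
  · subst hS
    simp only [bot_inf_eq]
    simp [rk, av]
  obtain ⟨u, huS, hu0⟩ := Submodule.exists_mem_ne_zero_of_ne_bot hS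
  have hu1 : u () ≠ 0 := fun h => hu0 (funext fun _ => h)
  obtain ⟨t0, ht0⟩ : ∃ t, e t (u ()) ≠ 0 := by
    by_contra hn
    push Not at hn
    exact hu1 (hu _ hn)
  let ω0 : (⊤ : AddSubgroup (Unit → Λ)) := ⟨fun _ => t0, trivial⟩
  have hle : ∀ ω : (⊤ : AddSubgroup (Unit → Λ)),
      rk (S ⊓ Ker e ⊤ ω.1) ≤ rk S - if ω = ω0 then 1 else 0 := by
    intro ω
    split_ifs with hω
    · subst hω
      have hlt : S ⊓ Ker e ⊤ ω0.1 < S := by
        refine lt_of_le_of_ne inf_le_left fun h => ?_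
        have : u ∈ S ⊓ Ker e ⊤ ω0.1 := h.symm ▸ huS
        exact ht0 ((mem_Ker.1 this.2).2 ())
      have := Submodule.finrank_lt_finrank_of_lt hlt
      unfold rk
      have h2 : (finrank F ↥(S ⊓ Ker e ⊤ ω0.1) : ℝ) + 1 ≤ finrank F S := by exact_mod_cast this
      linarith
    · simpa using rk_mono (inf_le_left : S ⊓ Ker e ⊤ ω.1 ≤ S)
  have hS2 : rk S ≤ nV := by
    have h3 : finrank F S ≤ finrank F (Unit → V) := Submodule.finrank_le S
    rw [(LinearEquiv.funUnique Unit F V).finrank_eq] at h3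
    unfold rk
    exact_mod_cast h3.trans hV
  have hp : av (fun ω : (⊤ : AddSubgroup (Unit → Λ)) => if ω = ω0 then (1 : ℝ) else 0) =
      1 / Nat.card Λ := by
    rw [← card_top, ← pr_single ω0, pr]
    exact av_congr fun ω => by congr
  refine (av_mono hle).trans ?_
  rw [av_sub, av_const, hp]
  have h4 : 1 / (Nat.card Λ * nV : ℝ) * rk S ≤ 1 / Nat.card Λ := by
    rw [div_mul_eq_mul_div, div_le_div_iff₀ (by positivity) hc]
    nlinarith
  linarith

omit [Finite Λ] in
lemma cs {q : ℕ} (h1 : (q : F) ≠ 0) (h2 : Function.Injective fun t : Λ => (q : ℤ) • t) :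
    Cs F Λ (czI q) := by
  constructor
  · rintro (x | x)
    · simp [czI]
    · fin_cases x <;> simp [czI, h1]
  · rintro (x | x)
    · intro a b h
      simpa [czI] using h
    · fin_cases x
      · intro a b h
        simpa [czI] using h
      · intro a b h
        apply h2
        simpa [czI] using h
      · intro a b h
        simpa [czI] using h

lemma card_zp (q : ℕ) : Fintype.card (Zp q) = q + 3 := by simp

lemma prod_mem (θ : ℝ) (h0 : 0 ≤ θ) (h1 : θ ≤ 1) : ∀ l : List ℕ,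
    0 ≤ (l.map fun q : ℕ => 1 - θ / ((q : ℝ) + 3)).prod ∧
      (l.map fun q : ℕ => 1 - θ / ((q : ℝ) + 3)).prod ≤ 1
  | [] => by simp
  | q :: l => by
    obtain ⟨a, b⟩ := prod_mem θ h0 h1 l
    have hq : (0 : ℝ) ≤ q := Nat.cast_nonneg q
    have c1 : θ / ((q : ℝ) + 3) ≤ 1 := by
      rw [div_le_one (by positivity)]
      linarith
    have c0 : 0 ≤ θ / ((q : ℝ) + 3) := by positivity
    rw [List.map_cons, List.prod_cons]
    exact ⟨mul_nonneg (by linarith) a, mul_le_one₀ (by linarith) a b⟩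

lemma phase1 (h1 : S_Lin) (e : Λ → V →ₗ[F] F) (θ : ℝ) (h0 : 0 ≤ θ) (hθ : 2 * θ ≤ 1)
    (hb : Good e (⊤ : AddSubgroup (Unit → Λ)) (⊤ : Submodule F (Unit → V)) (1 - 2 * θ)) :
    ∀ l : List ℕ,
      (∀ q ∈ l, 2 ≤ q ∧ (q : F) ≠ 0 ∧ Function.Injective fun t : Λ => (q : ℤ) • t) →
      Good e (GG Λ l) (UL F V l)
        ((1 - 2 * θ) * (l.map fun q : ℕ => 1 - θ / ((q : ℝ) + 3)).prod)
  | [], _ => by
    rw [List.map_nil, List.prod_nil, mul_one]
    exact hb
  | q :: l, h => by
    have ih := phase1 h1 e θ h0 hθ hb l fun r hr => h r (List.mem_cons_of_mem _ hr)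
    obtain ⟨hq2, hq0, hqi⟩ := h q List.mem_cons_self
    obtain ⟨a, b⟩ := prod_mem θ h0 (by linarith) l
    set P := (l.map fun q : ℕ => 1 - θ / ((q : ℝ) + 3)).prod with hP
    have c0 : 0 ≤ (1 - 2 * θ) * P := mul_nonneg (by linarith) a
    have c1 : (1 - 2 * θ) * P ≤ 1 - 2 * θ := mul_le_of_le_one_right (by linarith) b
    have := h1 F Λ V (Vx l) (Zp q) e (GG Λ l) (UL F V l) (czI q) _ (cs hq0 hqi)
      (by rw [card_zp]; omega) c0 (by linarith) ih
    refine Good.mono this ?_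
    rw [List.map_cons, List.prod_cons, ← hP, card_zp]
    have hq : (0 : ℝ) ≤ q := Nat.cast_nonneg q
    have c2 : θ / ((q : ℝ) + 3) ≤ (1 - (1 - 2 * θ) * P) / (2 * ((q + 3 : ℕ) : ℝ)) := by
      push_cast
      rw [div_le_div_iff₀ (by positivity) (by positivity)]
      nlinarith
    calc (1 - 2 * θ) * P * (1 - (1 - (1 - 2 * θ) * P) / (2 * ((q + 3 : ℕ) : ℝ)))
        ≤ (1 - 2 * θ) * P * (1 - θ / ((q : ℝ) + 3)) :=
          mul_le_mul_of_nonneg_left (by linarith) c0
      _ = _ := by ring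

lemma mem_lst (l : List ℕ) (p : ℕ → ℕ) {k n : ℕ} (h : k ≤ n) {q : ℕ} (hq : q ∈ lst l p k) :
    q ∈ lst l p n := by
  induction n, h using Nat.le_induction with
  | base => exact hq
  | succ n _ ih => exact List.mem_cons_of_mem _ ih

lemma av_ker {Xt : Type} [Fintype Xt] {e : Λ → V →ₗ[F] F} {G : AddSubgroup (Xt → Λ)}
    {U : Submodule F (Xt → V)} {lam : ℝ} (h : Good e G U lam) (h0 : 0 ≤ lam) {nV : ℕ}
    (hV : finrank F V ≤ nV) :
    av (fun ω : G => rk (Ker e U ω.1)) ≤ lam * (nV * Nat.card Xt) := by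
  have h1 := h U le_rfl
  have h2 : ∀ ω : G, rk (Ker e U ω.1) = rk (U ⊓ Ker e U ω.1) := fun ω => by
    rw [inf_eq_right.2 (Ker_le e U ω.1)]
  rw [av_congr h2]
  refine h1.trans (mul_le_mul_of_nonneg_left ?_ h0)
  have h3 : finrank F U ≤ finrank F (Xt → V) := Submodule.finrank_le U
  rw [Module.finrank_pi_fintype, sum_const, card_univ, smul_eq_mul] at h3
  have h4 : finrank F U ≤ nV * Nat.card Xt := by
    rw [Nat.card_eq_fintype_card, mul_comm]
    exact h3.trans (Nat.mul_le_mul_left _ hV)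
  unfold rk
  exact_mod_cast h4

end PLev

open PLev in
theorem s_lev (h1 : S_Lin) (h2 : S_Quad) : S_Lev := by
  intro F Λ V _ _ _ _ _ _ e nV l p lam n hn hV hu hq hl hrec hlam
  have hc : (1 : ℝ) ≤ Nat.card Λ := by exact_mod_cast Nat.card_pos
  have hn' : (1 : ℝ) ≤ nV := by exact_mod_cast hn
  have hG : ∀ k ≤ n, Good e (GG Λ (lst l p k)) (UL F V (lst l p k)) (lam k) := by
    intro k
    induction k with
    | zero =>
      intro _
      set θ : ℝ := 1 / (2 * Nat.card Λ * nV : ℝ) with hθ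
      have e1 : 2 * θ = 1 / (Nat.card Λ * nV : ℝ) := by
        rw [hθ]
        field_simp
      have t0 : 0 ≤ θ := by positivity
      have t1 : 2 * θ ≤ 1 := by
        rw [e1, div_le_one (by positivity)]
        nlinarith
      have hb := base e nV hn hV hu
      rw [← e1] at hb
      have := phase1 h1 e θ t0 t1 hb l fun q hq' => hq q (mem_lst l p (Nat.zero_le n) hq')
      refine Good.mono this (le_trans ?_ hl)
      obtain ⟨a, -⟩ := prod_mem θ t0 (by linarith) l
      exact mul_le_of_le_one_left a (by linarith)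
    | succ k ih =>
      intro hk
      obtain ⟨hq2, hq0, hqi⟩ := hq (p k) (mem_lst l p hk List.mem_cons_self)
      have := h2 F Λ V (Vx (lst l p k)) (Zp (p k)) e _ _ (czI (p k)) _ (cs hq0 hqi)
        (by rw [card_zp]; omega) (hlam k).1 (hlam k).2 (ih (by omega))
      refine Good.mono this (le_trans (le_of_eq ?_) (hrec k))
      rw [card_zp]
      push_cast
      ring
  exact fun k hk => ⟨hG k hk, av_ker (hG k hk) (hlam k).1 hV⟩

end

end Pool.Agent.P.MP_85b516_nt.LD
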