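import Pool.Agent.P.MP_85b516_nt.LD.Defs

/-! Package statements for Theorem LD (MP_85b516_nt). -/

open PowerSeries Finset Module
open AddMonoidAlgebra (single)

namespace Pool.Agent.P.MP_85b516_nt.LD

noncomputable section

/-! ### Random kernels -/

/-- Independence of slices and of grid entries; columns are uniform. -/
def S_Ind : Prop := ∀ (F Λ Xt Z : Type) [Field F] [AddCommGroup Λ] [Finite Λ] [Finite Xt]
  [Fintype Z] [DecidableEq Z] (G : AddSubgroup (Xt → Λ)) (c : Z → ℤ), Cs F Λ c →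
  (∀ z, Ind (slG G c) (univ.erase z)) ∧
  (∀ i y, Ind (entG G c) (univ.erase i ×ˢ univ.erase y)) ∧
  (Nontrivial Z → ∀ y, Function.Surjective (colG G c y))

/-- Independent random kernels are rarely dependent. -/
def S_Dep : Prop := ∀ (F Ω G A ι : Type) [Field F] [AddCommGroup Ω] [AddCommGroup G] [Finite Ω]
  [Finite G] [AddCommGroup A] [Module F A] [FiniteDimensional F A] (π : ι → Ω →+ G)
  (J : Finset ι) (K : G → Submodule F A) (U : Submodule F A) (lam mu : ℝ), Ind π J →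
  (∀ t, K t ≤ U) → 0 ≤ lam → (∀ S ≤ U, av (fun t => rk (S ⊓ K t)) ≤ lam * rk S) →
  av (fun t => rk (K t)) ≤ mu →
  pr (fun ω => Dep (fun j => K (π j ω)) J) ≤ (J.card : ℝ) ^ 2 * lam * mu

/-- The basic dimension estimates. -/
def S_LQ : Prop := ∀ (F Λ V Xt Z : Type) [Field F] [AddCommGroup Λ] [Finite Λ] [AddCommGroup V]
  [Module F V] [FiniteDimensional F V] [Finite Xt] [Fintype Z] [DecidableEq Z] [Nontrivial Z]
  (e : Λ → V →ₗ[F] F) (G : AddSubgroup (Xt → Λ)) (U : Submodule F (Xt → V)) (c : Z → ℤ)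
  (lam : ℝ), Cs F Λ c → 0 ≤ lam → Good e G U lam → ∀ S ≤ extU U c,
  (∀ A : Finset Z, av (fun ω : extG G c => rk (KA e U ω.1 A S)) ≤
    lam * rk S + (1 - lam) * rk (Van A S)) ∧
  (∀ (x z : Z) (A : Finset Z), x ≠ z → x ∉ A → z ∉ A →
    av (fun ω : extG G c => rk ((KA e U ω.1 A S).map (sl F x) ⊓ Ker e U fun v => ω.1 (x, v))) ≤
      lam * av (fun ω : extG G c => rk ((KA e U ω.1 A S).map (sl F x)))) ∧
  (∀ (x z : Z) (A : Finset Z), x ≠ z → x ∉ A → z ∉ A →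
    av (fun ω : extG G c => rk (KA e U ω.1 (insert x A) S)) ≤
      (1 - lam) * av (fun ω : extG G c => rk (KA e U ω.1 A (Van {x} S))) +
        lam * av (fun ω : extG G c => rk (KA e U ω.1 A S))) ∧
  (∀ x : Z, ∃ z, z ≠ x ∧
    ((Fintype.card Z : ℝ) - 1) * rk (Van ((univ.erase x).erase z) S) ≤ rk S) ∧
  (∀ x : Z, Van (univ.erase x) S = ⊥)

/-- The linear recursion. -/
def S_Lin : Prop := ∀ (F Λ V Xt Z : Type) [Field F] [AddCommGroup Λ] [Finite Λ] [AddCommGroup V]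
  [Module F V] [FiniteDimensional F V] [Finite Xt] [Fintype Z]
  (e : Λ → V →ₗ[F] F) (G : AddSubgroup (Xt → Λ)) (U : Submodule F (Xt → V)) (c : Z → ℤ)
  (lam : ℝ), Cs F Λ c → 5 ≤ Fintype.card Z → 0 ≤ lam → lam ≤ 1 → Good e G U lam →
  Good e (extG G c) (extU U c) (lam * (1 - (1 - lam) / (2 * Fintype.card Z)))

/-- The quadratic recursion. -/
def S_Quad : Prop := ∀ (F Λ V Xt Z : Type) [Field F] [AddCommGroup Λ] [Finite Λ] [AddCommGroup V]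
  [Module F V] [FiniteDimensional F V] [Finite Xt] [Fintype Z]
  (e : Λ → V →ₗ[F] F) (G : AddSubgroup (Xt → Λ)) (U : Submodule F (Xt → V)) (c : Z → ℤ)
  (lam : ℝ), Cs F Λ c → 5 ≤ Fintype.card Z → 0 ≤ lam → lam ≤ 1 → Good e G U lam →
  Good e (extG G c) (extU U c)
    (Fintype.card Z * lam ^ 2 + lam / ((Fintype.card Z : ℝ) - 1))

/-- Concentration of the dimension. -/
def S_Conc : Prop := ∀ (F Λ V Xt Z : Type) [Field F] [AddCommGroup Λ] [Finite Λ] [AddCommGroup V]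
  [Module F V] [FiniteDimensional F V] [Finite Xt] [Fintype Z] [Nontrivial Z]
  (e : Λ → V →ₗ[F] F) (G : AddSubgroup (Xt → Λ)) (U : Submodule F (Xt → V)) (c : Z → ℤ)
  (lam mu : ℝ), Cs F Λ c → 0 ≤ lam → Good e G U lam →
  av (fun ω : G => rk (Ker e U ω.1)) ≤ mu → ∀ m : ℕ,
  pr (fun ω : extG G c => m < finrank F (Ker e (extU U c) ω.1)) ≤
    pr (fun ω : G => m < finrank F (Ker e U ω.1)) ^ (Fintype.card Z - 1) +
      (Fintype.card Z : ℝ) ^ 3 * lam * mu ∧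
  pr (fun ω : extG G c => ¬ RowGood e U c ω.1) ≤ (Fintype.card Z : ℝ) ^ 3 * lam * mu +
    pr (fun ω : extG G c => finrank F (Ker e (extU U c) ω.1) < m) +
      Fintype.card Z * pr (fun ω : G => m < finrank F (Ker e U ω.1))

/-- Linearity test, three functions. -/
def S_Blr3 : Prop := ∀ (G H : Type) [AddCommGroup G] [Finite G] [AddCommGroup H]
  (A B C : G → H) (ε : ℝ), 12 * ε < 1 →
  pr (fun q : G × G => A q.1 + B q.2 ≠ C (q.1 + q.2)) ≤ ε →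
  ∃ (ψ : G →+ H) (h0 : H), pr (fun t => C t ≠ ψ t + h0) ≤ 4 * ε

/-- Linearity test along a star. -/
def S_Blr : Prop := ∀ (Λ Xt Z H : Type) [AddCommGroup Λ] [Finite Λ] [Finite Xt] [Fintype Z]
  [AddCommGroup H] (G : AddSubgroup (Xt → Λ)) (c : Z → ℤ) (f : Z → G → H) (y0 y1 y2 : Z) (ε : ℝ),
  y0 ≠ y1 → y0 ≠ y2 → y1 ≠ y2 → c y0 = 1 → c y1 = 1 → c y2 = 1 → 12 * ε < 1 →
  pr (fun α : extG G c => ∑ y, c y • f y (slG G c y α) ≠ 0) ≤ ε →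
  ∃ (ψ : G →+ H) (h0 : H), pr (fun t => f y0 t ≠ ψ t + h0) ≤ 4 * ε

/-- An affine map that lies in the kernel very often lies in it always. -/
def S_Univ : Prop := ∀ (F Λ V Xt : Type) [Field F] [AddCommGroup Λ] [Finite Λ] [AddCommGroup V]
  [Module F V] [Finite Xt] (e : Λ → V →ₗ[F] F) (G : AddSubgroup (Xt → Λ))
  (U : Submodule F (Xt → V)) (ψ : G →+ U) (u0 : U) (δ : ℝ), 2 * Nat.card Λ * δ < 1 →
  pr (fun α : G => (ψ α + u0 : U).1 ∉ Ker e U α.1) ≤ δ →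
  ∀ α : G, (ψ α + u0 : U).1 ∈ Ker e U α.1

/-- Trivial holonomy on a good grid. -/
def S_Hol : Prop := ∀ (F Λ V Xt Z : Type) [Field F] [AddCommGroup Λ] [AddCommGroup V]
  [Module F V] [Fintype Z] [DecidableEq Z] (e : Λ → V →ₗ[F] F) (G : AddSubgroup (Xt → Λ))
  (U : Submodule F (Xt → V)) (c : Z → ℤ), (∀ x, (c x : F) ≠ 0) →
  ∀ (ω : extG (extG G c) c) (i2 y0 : Z),
  (∀ i, RowGood e U c (slG (extG G c) c i ω).1) →
  ¬ Dep (fun q => Ker e U (entG G c q ω).1) (univ.erase i2 ×ˢ univ.erase y0) →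
  ∀ u ∈ Ker e (extU U c) (slG (extG G c) c i2 ω).1, ∀ κ : Z → Z × Xt → V,
  (∀ y, κ y ∈ Ker e (extU U c) (colG G c y ω).1 ∧ sl F i2 (κ y) = sl F y u) →
  ∀ i v, ∑ y, c y • κ y (i, v) = 0

/-- The grid argument. -/
def S_Grid : Prop := ∀ (F Λ V Xt Z : Type) [Field F] [AddCommGroup Λ] [Finite Λ] [AddCommGroup V]
  [Module F V] [FiniteDimensional F V] [Finite Xt] [Fintype Z]
  (e : Λ → V →ₗ[F] F) (G : AddSubgroup (Xt → Λ)) (U : Submodule F (Xt → V)) (c : Z → ℤ)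
  (lam mu eta : ℝ) (y0 y1 y2 : Z), Cs F Λ c → 0 ≤ lam → Good e G U lam →
  av (fun ω : G => rk (Ker e U ω.1)) ≤ mu →
  y0 ≠ y1 → y0 ≠ y2 → y1 ≠ y2 → c y0 = 1 → c y1 = 1 → c y2 = 1 →
  pr (fun ω : extG G c => ¬ RowGood e U c ω.1) ≤ eta →
  12 * Nat.card Λ * (2 * Fintype.card Z * eta + (Fintype.card Z : ℝ) ^ 4 * lam * mu) < 1 →
  pr (fun α : G => ¬ Triv e G U α) ≤
    5 * (2 * Fintype.card Z * eta + (Fintype.card Z : ℝ) ^ 4 * lam * mu)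

/-- The schedule of primes. -/
def S_Sched : Prop := ∀ (θ : ℝ) (C nV : ℕ) (E : Finset ℕ), 0 < θ → θ ≤ 1 →
  ∃ (l : List ℕ) (p : ℕ → ℕ) (lam : ℕ → ℝ) (mu : ℝ) (k1 : ℕ),
    (∀ k, (lst l p k).Nodup ∧ ∀ q ∈ lst l p k, q.Prime ∧ q ∉ E) ∧ (∀ k, 3 ≤ p k) ∧
    (l.map fun q : ℕ => 1 - θ / ((q : ℝ) + 3)).prod ≤ lam 0 ∧
    (∀ k, ((p k : ℝ) + 3) * lam k ^ 2 + lam k / ((p k : ℝ) + 2) ≤ lam (k + 1)) ∧
    (∀ k, 0 ≤ lam k ∧ lam k ≤ 1) ∧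
    (∀ k, lam k * (nV * Nat.card (Vx (lst l p k))) ≤ mu) ∧
    ∀ k, k1 ≤ k → C * ((p (k + 1) : ℝ) + 3) ^ 5 * lam k * mu ≤ 1 ∧
      C * (p k + 3) ≤ p (k + 1) + 2 ∧ p k ≤ p (k + 1) ∧ C * (p (k + 1) + 3) ^ 2 ≤ 2 ^ (p k + 2)

/-- The recursions along a schedule. -/
def S_Lev : Prop := ∀ (F Λ V : Type) [Field F] [AddCommGroup Λ] [Finite Λ] [AddCommGroup V]
  [Module F V] [FiniteDimensional F V] (e : Λ → V →ₗ[F] F) (nV : ℕ) (l : List ℕ) (p : ℕ → ℕ)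
  (lam : ℕ → ℝ) (n : ℕ), 1 ≤ nV → finrank F V ≤ nV → (∀ u : V, (∀ t, e t u = 0) → u = 0) →
  (∀ q ∈ lst l p n, 2 ≤ q ∧ (q : F) ≠ 0 ∧ Function.Injective fun t : Λ => (q : ℤ) • t) →
  (l.map fun q : ℕ => 1 - 1 / (2 * Nat.card Λ * nV : ℝ) / ((q : ℝ) + 3)).prod ≤ lam 0 →
  (∀ k, ((p k : ℝ) + 3) * lam k ^ 2 + lam k / ((p k : ℝ) + 2) ≤ lam (k + 1)) →
  (∀ k, 0 ≤ lam k ∧ lam k ≤ 1) →
  ∀ k ≤ n, Good e (GG Λ (lst l p k)) (UL F V (lst l p k)) (lam k) ∧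
    av (fun ω : GG Λ (lst l p k) => rk (Ker e (UL F V (lst l p k)) ω.1)) ≤
      lam k * (nV * Nat.card (Vx (lst l p k)))

/-- The random kernel theorem. -/
def S_RK : Prop := ∀ (Lam nV : ℕ) (E : Finset ℕ), 1 ≤ nV →
  ∃ L : List ℕ, L.Nodup ∧ (∀ q ∈ L, q.Prime ∧ q ∉ E) ∧
    ∀ (F Λ V : Type) [Field F] [AddCommGroup Λ] [Finite Λ] [AddCommGroup V] [Module F V]
      [FiniteDimensional F V] (e : Λ → V →ₗ[F] F), Nat.card Λ = Lam → finrank F V ≤ nV →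
      (∀ u : V, (∀ t, e t u = 0) → u = 0) →
      (∀ q ∈ L, (q : F) ≠ 0 ∧ Function.Injective fun t : Λ => (q : ℤ) • t) →
      ∃ (p : ℕ) (l : List ℕ), (p :: l) <:+ L ∧
        pr (fun α : GG Λ (p :: l) => ¬ Triv e (GG Λ (p :: l)) (UL F V (p :: l)) α) * Lam < 1

/-- Multipliers of the code are constant. -/
def S_Mult : Prop := ∀ (F : Type) [Field F] (l : List ℕ), (∀ q ∈ l, (q : F) ≠ 0) →
  ∀ s : Vx l → F, (∀ w : Vx l → ℤ, Cw l w → Cw l fun v => s v * w v) → ∀ v v', s v = s v'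

/-- Identification of the universal affine maps. -/
def S_ID : Prop := ∀ (q f a' N M p : ℕ) (l : List ℕ) (F : Type) [Field F] [CharP F q] [NeZero N]
  [NeZero M] (z : F), q.Prime → N = q ^ f → M.Prime → IsPrimitiveRoot z M →
  (∀ r ∈ p :: l, r.Prime ∧ (r : F) ≠ 0) →
  pr (fun α : GG (Fin a' → ZMod N × ZMod M) (p :: l) => ¬ Triv (eF a' N M z)
    (GG (Fin a' → ZMod N × ZMod M) (p :: l)) (UL F (Fin a' → BB F N) (p :: l)) α) *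
      ((N * M) ^ a' : ℕ) < 1 →
  NDP F a' N p l

/-- Existence of non-degenerate points, with a list that does not depend on the field. -/
def S_Ndp : Prop := ∀ (a' N M : ℕ) (E : Finset ℕ), 1 ≤ a' → 1 ≤ N → M.Prime →
  ∃ L : List ℕ, L.Nodup ∧ (∀ r ∈ L, r.Prime ∧ r ∉ E) ∧
    ∀ (q f : ℕ) (F : Type) [Field F] [IsAlgClosed F] [CharP F q], q.Prime → N = q ^ f → q ≠ M →
      q ∉ L → ∃ (p : ℕ) (l : List ℕ), (p :: l) <:+ L ∧ NDP F a' N p l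

/-! ### Transfer to the true series -/

/-- The pole vectors span the code. -/
def S_Span : Prop := ∀ (M : Type) [AddCommGroup M] (l : List ℕ), (∀ p ∈ l, 2 ≤ p) →
  ∀ w : Vx l → M, Cw l w → ∃ β : Tx l → M, ∀ v, w v = ∑ τ, om l τ v • β τ

open scoped Classical in
/-- Factorisation of one factor of the product. -/
def S_Fac : Prop := ∀ (F B : Type) [Field F] [CommRing B] [Algebra F B] (ζ : ℕ → F) (l : List ℕ)
  (k d : ℕ), l.Nodup → (∀ p ∈ l, p.Prime ∧ IsPrimitiveRoot (ζ p) p) → 1 ≤ d →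
  (∀ p ∈ l, p ∣ k ∨ k ≡ 1 [MOD p]) → ∀ (v : Vx l) (y : B),
  (if kp l v ∣ k then 1 - algebraMap F B (zz ζ l v ^ (j0 l v * k ^ d)) * y ^ j0 l v else 1) =
    ∏ τ, if cls k l τ then (1 - algebraMap F B (tht ζ l τ) * y) ^ om l τ v else 1

/-- The poles of one class are distinct. -/
def S_Dist : Prop := ∀ (F : Type) [Field F] (ζ : ℕ → F) (ξ : F) (a' k : ℕ) (l : List ℕ),
  l.Nodup → (∀ p ∈ l, p.Prime ∧ IsPrimitiveRoot (ζ p) p ∧ ¬ p ∣ a') → IsPrimitiveRoot ξ a' →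
  ∀ (i i' : Fin a') (τ τ' : Tx l), cls k l τ → cls k l τ' →
  ξ ^ (i : ℕ) * tht ζ l τ = ξ ^ (i' : ℕ) * tht ζ l τ' → i = i' ∧ τ = τ'

/-- Interpolation of jets. -/
def S_Interp : Prop := ∀ (q f N : ℕ) (F : Type) [Field F] [IsAlgClosed F] [CharP F q] [NeZero N],
  q.Prime → N = q ^ f → ∀ (ι : Type) [Fintype ι] (θ : ι → F), Function.Injective θ →
  (∀ i, θ i ≠ 0) → ∀ (b : ι → BB F N) (D : ℕ), N * Fintype.card ι ≤ D →
  ∃ t : Fin D → F, ∀ i, ∏ s, (1 - single (1 : ZMod N) (θ i * t s) : BB F N) = b i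

/-- Every point of the torus is a value of the polynomial model. -/
def S_Int : Prop := ∀ (q f a' N : ℕ) (F : Type) [Field F] [IsAlgClosed F] [CharP F q] [NeZero N]
  (ζ : ℕ → F) (ξ : F) (l : List ℕ), q.Prime → N = q ^ f → 1 ≤ a' → l.Nodup →
  (∀ p ∈ l, p.Prime ∧ IsPrimitiveRoot (ζ p) p ∧ ¬ p ∣ a' ∧ p ≠ q) → IsPrimitiveRoot ξ a' →
  ∀ z : Fin a' → Vx l → (BB F N)ˣ, (∀ i, Cm l (z i)) → ∀ d : ℕ, 1 ≤ d →
  ∃ t : ℕ → F, ∀ (i : Fin a') (v : Vx l),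
    ∏ k ∈ Icc 1 ((N * a' * l.prod) ^ 2), (if kp l v ∣ k then
      1 - single ((j0 l v * k ^ d : ℕ) : ZMod N)
        ((ξ ^ (i : ℕ) * zz ζ l v) ^ (j0 l v * k ^ d) * t k ^ j0 l v) else 1 : BB F N) = z i v

/-- Lacunarity. -/
def S_Lac : Prop := ∀ (F : Type) [Field F] (D : MvPolynomial ℕ F) (K E d : ℕ), D ≠ 0 →
  D.totalDegree ≤ E → D.vars ⊆ Icc 1 K → 1 ≤ d → (∀ k, 1 ≤ k → k ≤ K → E * k ^ d < (k + 1) ^ d) →
  ¬ (X : F⟦X⟧) ^ ((K + 1) ^ d) ∣ MvPolynomial.aeval (fun k => (X : F⟦X⟧) ^ (k ^ d)) D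

/-- Transfer of non-degeneracy through a maximal minor. -/
def S_Mat : Prop := ∀ (F J Xt Rr : Type) [Field F] [Fintype J] [Fintype Xt] [Fintype Rr]
  (N : ℕ) [NeZero N] (ρ : Rr → Xt → ℤ) (v0 v1 : Xt) (Zm : J → Xt → BB (MvPolynomial ℕ F) N)
  (Zt : J → Xt → BB F⟦X⟧ N) (t : ℕ → F) (K E d : ℕ),
  (∀ i v c, ((Zm i v).coeff c).totalDegree ≤ E ∧ ((Zm i v).coeff c).vars ⊆ Icc 1 K) → 1 ≤ d →
  (∀ k, 1 ≤ k → k ≤ K → Fintype.card J * Fintype.card Xt * N * E * k ^ d < (k + 1) ^ d) →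
  NDZ ρ v0 v1 (fun i v => mp N (MvPolynomial.eval t) (Zm i v)) →
  (∀ i v c, (X : F⟦X⟧) ^ ((K + 1) ^ d) ∣ (Zt i v).coeff c -
    MvPolynomial.aeval (fun k => (X : F⟦X⟧) ^ (k ^ d)) ((Zm i v).coeff c)) →
  NDZ ρ v0 v1 fun i v => mp N (algebraMap F⟦X⟧ (FractionRing F⟦X⟧)) (Zt i v)

/-- Truncated Euler product. -/
def S_Trunc : Prop := ∀ (R : Type) [CommRing R] (d K : ℕ), 1 ≤ d →
  (X : R⟦X⟧) ^ ((K + 1) ^ d) ∣ PP R d * ∏ k ∈ Icc 1 K, (1 - (X : R⟦X⟧) ^ (k ^ d)) - 1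

/-- The norm identity. -/
def S_Un : Prop := ∀ (F : Type) [Field F] (d p : ℕ) (z : F), 1 ≤ d → p.Prime →
  IsPrimitiveRoot z p →
  (∏ i : Fin p, sb 1 (z ^ (i : ℕ)) (PP F d)) * sb (p ^ (d + 1)) 1 (PP F d) =
    sb p 1 (PP F d) * sb (p ^ d) 1 (PP F d) ^ p

/-- The series form a multiplicative codeword. -/
def S_Norm : Prop := ∀ (F : Type) [Field F] (ζ : ℕ → F) (l : List ℕ) (d : ℕ) (x : F), 1 ≤ d →
  l.Nodup → (∀ p ∈ l, p.Prime ∧ IsPrimitiveRoot (ζ p) p) → ∀ u : Vx l → (F⟦X⟧)ˣ,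
  (∀ v, (u v : F⟦X⟧) = yv d (jv d l v) (x * zz ζ l v)) → Cm l u

/-- The inverse series modulo a power of `X`. -/
def S_Zt : Prop := ∀ (F : Type) [Field F] (d j κ K : ℕ) (w : F) (z : F⟦X⟧), 1 ≤ d → 1 ≤ j →
  1 ≤ κ → yv d (j * κ ^ d) w * z = 1 →
  (X : F⟦X⟧) ^ ((K + 1) ^ d) ∣
    z - ∏ k ∈ Icc 1 K, (if κ ∣ k then 1 - C (w ^ (j * k ^ d)) * X ^ (j * k ^ d) else 1 : F⟦X⟧)

/-- Non-degeneracy of the true series for large `d`. -/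
def S_Ndt : Prop := ∀ (a' N p : ℕ) (l : List ℕ) [NeZero N], 1 ≤ a' → ∃ d0 : ℕ, ∀ d, d0 ≤ d →
  ∀ (q f : ℕ) (F : Type) [Field F] [IsAlgClosed F] [CharP F q] (ζ : ℕ → F) (ξ : F), q.Prime →
  N = q ^ f → (p :: l).Nodup →
  (∀ r ∈ p :: l, r.Prime ∧ IsPrimitiveRoot (ζ r) r ∧ ¬ r ∣ a' ∧ r ≠ q) → IsPrimitiveRoot ξ a' →
  NDP F a' N p l → ∀ b : ℕ,
  ND (rho (p :: l)) (bs (p :: l)) (vv N p l) fun (i : Fin a') v =>
    mp N (algebraMap F⟦X⟧ (FractionRing F⟦X⟧))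
      (YY N d b (jv d (p :: l) v) (ξ ^ (i : ℕ)) (zz ζ (p :: l) v))

/-! ### Algebraicity -/

/-- The section relation. -/
def S_Sec : Prop := ∀ (F : Type) [Field F] (N : ℕ) [NeZero N] (n a' d b j : ℕ) (ξ z : F), n ∣ N →
  1 ≤ a' → IsPrimitiveRoot ξ a' → Nat.Coprime n a' → Nat.Coprime j (n * a') → 1 ≤ j →
  ∑ i : Fin a', lamn n (YY N d b j (ξ ^ (i : ℕ)) z) = (a' : F⟦X⟧) * sb j z (SS F d (n * a') b)

/-- The derivative at `g = 1` is a derivation. -/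
def S_D1 : Prop := ∀ (R : Type) [CommRing R] (N : ℕ) [NeZero N], (N : R) = 0 →
  ∀ y y' : BB R N, d1 (y * y') = d1 y * aug y' + aug y * d1 y'

/-- The tangent condition. -/
def S_Tan : Prop := ∀ (F : Type) [Field F] (N : ℕ) [NeZero N] (d b : ℕ) (x z0 z1 : F),
  (N : F) = 0 → 1 ≤ d → x ≠ 0 → z0 ≠ z1 →
  d1 (YY N d b 1 x z1) * aug (YY N d b 1 x z0) ≠ d1 (YY N d b 1 x z0) * aug (YY N d b 1 x z1)

/-- A periodic section is rational. -/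
def S_Per : Prop := ∀ (q : ℕ) (F : Type) [Field F] [CharP F q] (d a b h j : ℕ) (z : F)
  (K : Subfield (FractionRing F⟦X⟧)), 1 ≤ a → 1 ≤ h → 1 ≤ j →
  (∀ r : F, algebraMap F⟦X⟧ (FractionRing F⟦X⟧) (C r) ∈ K) →
  algebraMap F⟦X⟧ (FractionRing F⟦X⟧) X ∈ K →
  (∀ n, pd d (a * (n + h) + b) ≡ pd d (a * n + b) [MOD q]) →
  algebraMap F⟦X⟧ (FractionRing F⟦X⟧) (sb j z (SS F d a b)) ∈ K

/-- The base field. -/
def S_Base : Prop := ∀ (q : ℕ) (F : Type) [Field F] [Algebra (ZMod q) F], q.Prime →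
  Algebra.IsAlgebraic (ZMod q) F → ∃ K : Subfield (FractionRing F⟦X⟧),
    (∀ r : F, algebraMap F⟦X⟧ (FractionRing F⟦X⟧) (C r) ∈ K) ∧
    algebraMap F⟦X⟧ (FractionRing F⟦X⟧) X ∈ K ∧
    ∀ f : (ZMod q)⟦X⟧, IsAlgebraic K (io q F f) → IsAlgebraic (Polynomial (ZMod q)) f

/-- Transcendence of `P (X ^ p) / P (X)`. -/
def S_Tr2 : Prop := ∀ d q p : ℕ, 2 ≤ d → q.Prime → p.Prime → ∀ f : (ZMod q)⟦X⟧,
  f * PP (ZMod q) d = sb p 1 (PP (ZMod q) d) → ¬ IsAlgebraic (Polynomial (ZMod q)) f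

/-- Algebraicity without jets. -/
def S_KA : Prop := ∀ (Om J Xt Rr : Type) [Field Om] [Fintype J] [Fintype Xt] (K : Subfield Om)
  (ρ : Rr → Xt → ℤ) (v0 : Xt) (Y : J → Xt → (BB Om 1)ˣ), (∀ i r, ∏ v, Y i v ^ ρ r v = 1) →
  (∀ v, ∑ i, lamn 1 (Y i v : BB Om 1) ∈ K) → ND ρ v0 v0 (fun i v => (Y i v : BB Om 1)) →
  ∀ i v, IsAlgebraic K (aug (Y i v : BB Om 1))

/-- An element with nonzero derivative generates the truncated algebra. -/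
def S_KB1 : Prop := ∀ (q f N : ℕ) (Om : Type) [Field Om] [CharP Om q] [NeZero N], q.Prime →
  1 ≤ f → N = q ^ f → ∀ s : BB Om N, d1 s ≠ 0 →
  Function.Surjective (Polynomial.aeval s : Polynomial Om →ₐ[Om] BB Om N) ∧
  (∀ g : Polynomial Om, Polynomial.aeval s g = 0 ↔
    (Polynomial.X - Polynomial.C (aug s)) ^ N ∣ g) ∧
  ∃ υ : (BB Om N)ˣ, s - algebraMap Om (BB Om N) (aug s) = eps Om N * υ

/-- Pairings on the truncated algebra. -/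
def S_KB2 : Prop := ∀ (q e N : ℕ) (Om : Type) [Field Om] [CharP Om q] [NeZero N], q.Prime →
  N = q ^ (e + 1) →
  (∀ φ : BB Om N →ₗ[Om] Om, ∃ ν : BB Om N, ∀ y, φ y = (ν * y).coeff 0) ∧
  (∀ y : BB Om N, lamn (q ^ e) (eps Om N ^ q ^ e * y) = 0) ∧
  (∀ φ : BB Om N →ₗ[Om] Om, (∀ y, φ (eps Om N ^ q ^ e * y) = 0) →
    ∃ μ : BB Om N, ∀ y, φ y = lamn (q ^ e) (μ * y)) ∧
  (∀ w : BB Om N, (∀ y, lamn (q ^ e) (w * y) = 0) → eps Om N ^ q ^ e ∣ w) ∧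
  lamn (q ^ e) (1 : BB Om N) = 1

/-- Algebraicity with jets. -/
def S_KB : Prop := ∀ (q e N : ℕ) (Om J Xt Rr : Type) [Field Om] [CharP Om q] [NeZero N]
  [Fintype J] [Fintype Xt] (K : Subfield Om) (ρ : Rr → Xt → ℤ) (v0 v1 : Xt)
  (Y : J → Xt → (BB Om N)ˣ), q.Prime → 1 ≤ e → N = q ^ (e + 1) → (∀ r, ∑ v, ρ r v = 0) →
  (∀ i r, ∏ v, Y i v ^ ρ r v = 1) → (∀ v, ∑ i, lamn (q ^ e) (Y i v : BB Om N) ∈ K) →
  (∀ i, d1 (Y i v1 : BB Om N) * aug (Y i v0 : BB Om N) ≠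
    d1 (Y i v0 : BB Om N) * aug (Y i v1 : BB Om N)) →
  ND ρ v0 v1 (fun i v => (Y i v : BB Om N)) →
  ∀ i v, IsAlgebraic K (aug (Y i v : BB Om N) / aug (Y i v0 : BB Om N))

/-- The theorem for one configuration. -/
def S_Core : Prop := ∀ (a' N p : ℕ) (l : List ℕ), 1 ≤ a' → ∃ d0 : ℕ, ∀ d, d0 ≤ d →
  ∀ (q e : ℕ) (F : Type) [Field F] [IsAlgClosed F] [CharP F q] [Algebra (ZMod q) F], q.Prime →
  Algebra.IsAlgebraic (ZMod q) F → ((e = 0 ∧ N = 1) ∨ (1 ≤ e ∧ N = q ^ (e + 1))) → ¬ q ∣ a' →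
  (p :: l).Nodup → (∀ r ∈ p :: l, r.Prime ∧ ¬ r ∣ a' ∧ r ≠ q) → NDP F a' N p l →
  ∀ b h : ℕ, 1 ≤ h → ¬ ∀ n, pd d (q ^ e * a' * (n + h) + b) ≡ pd d (q ^ e * a' * n + b) [MOD q]

/-- The final statement. -/
def S_Main : Prop := ∀ a : ℕ, 1 ≤ a → ∃ d0 : ℕ, ∀ d, d0 ≤ d → ∀ m b h : ℕ, 2 ≤ m → 1 ≤ h →
  ¬ ∀ n, pd d (a * (n + h) + b) ≡ pd d (a * n + b) [MOD m]

end

end Pool.Agent.P.MP_85b516_nt.LD
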